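import Pool.Agent.YUT.PBase

/-!
# [YUT] The flat channel: base file
-/

open MeasureTheory Set Filter Topology
open scoped ContDiff

namespace Pool.Agent.YUT

open Pool.Agent.YUD

/-- the open period cell of the channel -/
def Cell (p h : ℝ) : Set ℂ := {x | 0 < x.re ∧ x.re < p ∧ 0 < x.im ∧ x.im < h}

/-- the vertical twist field `(0, y)` -/
noncomputable def vf (x : ℂ) : ℂ := ⟨0, x.im⟩

/-- stream functions on the channel, in the form used below: `C²`, with partial derivatives of order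
`≤ 2` bounded by `C`, periodic, `f` and `f_x` bounded by `C` times the distance to the walls -/
structure CS (p h C : ℝ) (f : ℂ → ℝ) : Prop where
  le : C2Le (Strip h) C f
  per : Per p (Strip h) f
  low : ∀ x ∈ Strip h, |f x| ≤ C * x.im
  up : ∀ x ∈ Strip h, |f x| ≤ C * (h - x.im)
  xlow : ∀ x ∈ Strip h, |dx f x| ≤ C * x.im
  xup : ∀ x ∈ Strip h, |dx f x| ≤ C * (h - x.im)

/-- translation of a function supported in the cell to a periodic function -/
noncomputable def pz {E : Type} (p : ℝ) (V : ℂ → E) (x : ℂ) : E := V (x - (⌊x.re / p⌋ * p : ℝ))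

variable {p h : ℝ}

theorem isOpen_strip (h : ℝ) : IsOpen (Strip h) := by
  have e : Strip h = Complex.im ⁻¹' Ioo 0 h := by ext x; simp [Strip]
  rw [e]
  exact isOpen_Ioo.preimage Complex.continuous_im

theorem convex_strip (h : ℝ) : Convex ℝ (Strip h) := by
  have e : Strip h = Complex.imLm ⁻¹' Ioo 0 h := by ext x; simp [Strip]
  rw [e]
  exact (convex_Ioo 0 h).linear_preimage Complex.imLm

theorem isOpen_cell (p h : ℝ) : IsOpen (Cell p h) := by
  have e : Cell p h = (Complex.re ⁻¹' Ioo 0 p) ∩ (Complex.im ⁻¹' Ioo 0 h) := by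
    ext x; simp [Cell, and_assoc]
  rw [e]
  exact (isOpen_Ioo.preimage Complex.continuous_re).inter (isOpen_Ioo.preimage Complex.continuous_im)

theorem cell_sub (p h : ℝ) : Cell p h ⊆ Strip h := fun _ hx => ⟨hx.2.2.1, hx.2.2.2⟩

theorem cell_bounded (p h : ℝ) : Bornology.IsBounded (Cell p h) := by
  refine (Metric.isBounded_closedBall (x := (0 : ℂ)) (r := |p| + |h|)).subset fun x hx => ?_
  rw [mem_closedBall_zero_iff]
  refine (Complex.norm_le_abs_re_add_abs_im x).trans ?_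
  rw [abs_of_pos hx.1, abs_of_pos hx.2.2.1]
  linarith [hx.2.1, hx.2.2.2, le_abs_self p, le_abs_self h]

theorem cell_nonempty (hp : 0 < p) (hh : 0 < h) : (Cell p h).Nonempty :=
  ⟨⟨p / 2, h / 2⟩, by simp only [Cell, mem_ofPred_eq]; constructor <;> [positivity; skip]; constructor <;> [linarith; skip]; constructor <;> linarith⟩

theorem strip_add (a : ℝ) {x : ℂ} (hx : x ∈ Strip h) : x + a ∈ Strip h := by
  simpa [Strip] using hx

theorem vf_cont : Continuous vf := by
  have e : vf = fun x : ℂ => ((x.im : ℝ) : ℂ) * Complex.I := by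
    funext x; apply Complex.ext <;> simp [vf]
  rw [e]; fun_prop

theorem vf_le {x : ℂ} (hx : x ∈ Strip h) : ‖vf x‖ ≤ h := by
  refine (Complex.norm_le_abs_re_add_abs_im _).trans ?_
  simp only [vf, abs_zero, zero_add]
  rw [abs_of_pos hx.1]; exact hx.2.le

theorem vf_contDiff : ContDiff ℝ 1 vf := by
  have e : vf = fun x : ℂ => (Complex.imCLM x) • Complex.I := by
    funext x; apply Complex.ext <;> simp [vf]
  rw [e]
  exact Complex.imCLM.contDiff.smul contDiff_const

theorem vf_fderiv (x v : ℂ) : fderiv ℝ vf x v = ⟨0, v.im⟩ := by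
  have e : vf = fun x : ℂ => (Complex.imCLM x) • Complex.I := by
    funext x; apply Complex.ext <;> simp [vf]
  have h1 := ((Complex.imCLM.hasFDerivAt (x := x)).smul_const Complex.I).fderiv
  rw [e, h1]
  apply Complex.ext <;> simp

theorem vf_div (x : ℂ) : (fderiv ℝ vf x 1).re + (fderiv ℝ vf x Complex.I).im = 1 := by
  rw [vf_fderiv, vf_fderiv]; simp

theorem gg_vf (f : ℂ → ℝ) (x : ℂ) : gg vf f x = x.im * dy f x - f x := by
  rw [gg, fderiv_apply']; simp [vf]

/-- derivatives of periodic functions are periodic -/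
theorem Per.fderiv_eq {f : ℂ → ℝ} (hf : Per p (Strip h) f) {x : ℂ} (hx : x ∈ Strip h) :
    fderiv ℝ f (x + p) = fderiv ℝ f x := by
  have h1 : fderiv ℝ (fun y => f (y + p)) x = fderiv ℝ f (x + p) := fderiv_comp_add_right _
  rw [← h1]
  exact fderiv_congr_on (isOpen_strip h) hf hx

theorem Per.dx {f : ℂ → ℝ} (hf : Per p (Strip h) f) : Per p (Strip h) (YUD.dx f) := by
  intro x hx; simp only [YUD.dx]; rw [hf.fderiv_eq hx]

theorem Per.dy {f : ℂ → ℝ} (hf : Per p (Strip h) f) : Per p (Strip h) (YUD.dy f) := by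
  intro x hx; simp only [YUD.dy]; rw [hf.fderiv_eq hx]

theorem Per.lap {f : ℂ → ℝ} (hf : Per p (Strip h) f) : Per p (Strip h) (YUD.lap f) := by
  intro x hx; simp only [YUD.lap]; rw [hf.dx.dx x hx, hf.dy.dy x hx]

theorem Per.gg {f : ℂ → ℝ} (hf : Per p (Strip h) f) : Per p (Strip h) (YUT.gg vf f) := by
  intro x hx; rw [gg_vf, gg_vf, hf.dy x hx, hf x hx]; simp

/-- integrability on the cell -/
theorem int_cell {f : ℂ → ℝ} {B : ℝ} (hf : ContinuousOn f (Strip h))
    (hB : ∀ x ∈ Strip h, |f x| ≤ B) : IntegrableOn f (Cell p h) :=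
  integrableOn_of_bdd (isOpen_cell p h) (cell_bounded p h) (hf.mono (cell_sub p h))
    fun x hx => hB x (cell_sub p h hx)

theorem PFlow.weak {M : Set ℂ} {w₀ : ℂ → ℝ} {ψ : ℝ → ℂ → ℝ} {Φ : ℝ → ℂ → ℂ}
    (hF : PFlow p M w₀ ψ Φ) : WFlow M w₀ ψ Φ where
  stream := fun T => by
    obtain ⟨C, hC⟩ := hF.stream T
    exact ⟨C, fun t h0 h1 => ⟨(hC t h0 h1).1, (hC t h0 h1).2.1⟩⟩
  cont := hF.cont
  c1 := hF.c1
  bij := hF.bij
  area := hF.area
  start := hF.start
  ode := hF.ode
  vort := hF.vort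

/-- plane flows are flows of period `0` -/
theorem PFlow.toFlow {M : Set ℂ} {w₀ : ℂ → ℝ} {ψ : ℝ → ℂ → ℝ} {Φ : ℝ → ℂ → ℂ}
    (hF : PFlow 0 M w₀ ψ Φ) : Flow M w₀ ψ Φ where
  stream := fun T => by
    obtain ⟨C, hC⟩ := hF.stream T
    refine ⟨C, fun t h0 h1 => ⟨(hC t h0 h1).1, (hC t h0 h1).2.1, fun ε hε => ?_⟩⟩
    obtain ⟨K, hK, hKc, hK2⟩ := (hC t h0 h1).2.2 ε hε
    exact ⟨K, hK, hKc, fun x hx hxK => hK2 x hx fun n => by simpa using hxK⟩
  cont := hF.cont
  c1 := hF.c1
  bij := hF.bij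
  area := hF.area
  start := hF.start
  ode := hF.ode
  vort := hF.vort

theorem CS.mono {C D : ℝ} {f : ℂ → ℝ} (hf : CS p h C f) (hCD : C ≤ D) : CS p h D f where
  le := hf.le.mono hCD
  per := hf.per
  low := fun x hx => (hf.low x hx).trans (mul_le_mul_of_nonneg_right hCD hx.1.le)
  up := fun x hx => (hf.up x hx).trans (mul_le_mul_of_nonneg_right hCD (by linarith [hx.2]))
  xlow := fun x hx => (hf.xlow x hx).trans (mul_le_mul_of_nonneg_right hCD hx.1.le)
  xup := fun x hx => (hf.xup x hx).trans (mul_le_mul_of_nonneg_right hCD (by linarith [hx.2]))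

end Pool.Agent.YUT
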