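import Pool.Agent.YUT.Base

open MeasureTheory Set Filter Topology
open scoped ContDiff

namespace Pool.Agent.YUT

open Pool.Agent.YUD

private theorem L1_det (A : ℂ →L[ℝ] ℂ) :
    A.det = (A 1).re * (A Complex.I).im - (A Complex.I).re * (A 1).im := by
  have h : A.det = LinearMap.det (A : ℂ →ₗ[ℝ] ℂ) := rfl
  rw [h, ← LinearMap.det_toMatrix Complex.basisOneI, Matrix.det_fin_two]
  simp [LinearMap.toMatrix_apply, Complex.coe_basisOneI_repr, Complex.coe_basisOneI]

private theorem L1_apply (A : ℂ →L[ℝ] ℂ) (v : ℂ) : A v = v.re • A 1 + v.im • A Complex.I := by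
  rw [← map_smul, ← map_smul, ← map_add]
  congr 1
  apply Complex.ext <;> simp

private theorem L1_wed (A : ℂ →L[ℝ] ℂ) (hA : A.det = 1) (u v : ℂ) : wed (A u) (A v) = wed u v := by
  rw [L1_det] at hA
  rw [L1_apply A u, L1_apply A v]
  simp only [wed, Complex.add_re, Complex.add_im, Complex.real_smul, Complex.mul_re, Complex.mul_im,
    Complex.ofReal_re, Complex.ofReal_im, zero_mul, sub_zero, add_zero]
  linear_combination (u.re * v.im - u.im * v.re) * hA

private theorem L1_sq (z : ℂ) : ‖z‖ ^ 2 = z.re ^ 2 + z.im ^ 2 := by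
  rw [← Complex.normSq_eq_norm_sq, Complex.normSq_apply]
  ring

private theorem L1_max (A : ℂ →L[ℝ] ℂ) : ∃ v : ℂ, ‖v‖ = 1 ∧ ‖A v‖ = ‖A‖ := by
  have hc : IsCompact (Metric.sphere (0 : ℂ) 1) := isCompact_sphere 0 1
  have hn : (Metric.sphere (0 : ℂ) 1).Nonempty := ⟨1, by simp⟩
  obtain ⟨v, hv, hmax⟩ := hc.exists_isMaxOn hn (A.continuous.norm.continuousOn)
  rw [mem_sphere_zero_iff_norm] at hv
  refine ⟨v, hv, le_antisymm ?_ ?_⟩
  · have := A.le_opNorm v
    rwa [hv, mul_one] at this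
  · refine A.opNorm_le_bound (norm_nonneg _) fun x => ?_
    by_cases hx : x = 0
    · simp [hx]
    · have hx' : ‖x‖ ≠ 0 := norm_ne_zero_iff.2 hx
      have h1 := hmax (show (‖x‖⁻¹ • x) ∈ Metric.sphere (0 : ℂ) 1 by
        rw [mem_sphere_zero_iff_norm, norm_smul, norm_inv, norm_norm, inv_mul_cancel₀ hx'])
      simp only [Set.mem_ofPred_eq] at h1
      rw [map_smul, norm_smul, norm_inv, norm_norm] at h1
      rw [inv_mul_le_iff₀ (by positivity)] at h1
      linarith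

/-- [YUT-L1] a real linear map of the plane of determinant `1` contracts some direction as much as it
stretches another one. Proof: write `A = (a b; c d)` in the basis `1, I`
(`A x = ...`, `det A = a d - b c`; `ContinuousLinearMap.det` is `LinearMap.det`, computed with
`Complex.basisOneI` and `Matrix.det_fin_two`). For a unit vector `v` with `‖A v‖ = ‖A‖` (compactness
of the unit circle) let `e` be such that `A e` is ... simplest: `A⁻¹ = adj A` has
`adj A = -J Aᵀ J` with `J` the rotation by `π/2`, so `‖adj A‖ = ‖Aᵀ‖ = ‖A‖`; there is a unit `u` with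
`‖(adj A) u‖ = ‖A‖`; `e = (adj A) u / ‖A‖` is a unit vector and `A e = u / ‖A‖`. -/
theorem exists_contracted (A : ℂ →L[ℝ] ℂ) (hA : A.det = 1) :
    ∃ e : ℂ, ‖e‖ = 1 ∧ ‖A e‖ * ‖A‖ ≤ 1 := by
  obtain ⟨v, hv, hvm⟩ := L1_max A
  have hv2 : v.re ^ 2 + v.im ^ 2 = 1 := by rw [← L1_sq, hv]; norm_num
  set u : ℂ := Complex.I * v with hu
  have hun : ‖u‖ = 1 := by rw [hu, norm_mul, Complex.norm_I, one_mul, hv]
  refine ⟨u, hun, ?_⟩
  have hw : wed (A v) (A u) = 1 := by
    rw [L1_wed A hA]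
    simp only [wed, hu, Complex.mul_re, Complex.mul_im, Complex.I_re, Complex.I_im]
    linarith
  have hin : (A v).re * (A u).re + (A v).im * (A u).im = 0 := by
    set p := (A v).re * (A u).re + (A v).im * (A u).im with hp
    have key : ∀ t : ℝ, 2 * t * p ≤ t ^ 2 * ‖A‖ ^ 2 := by
      intro t
      have h1 : ‖A (v + t • u)‖ ^ 2 ≤ ‖A‖ ^ 2 * (1 + t ^ 2) := by
        have h2 := A.le_opNorm (v + t • u)
        have h3 : ‖v + t • u‖ ^ 2 = 1 + t ^ 2 := by
          rw [L1_sq]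
          simp only [hu, Complex.add_re, Complex.add_im, Complex.real_smul, Complex.mul_re,
            Complex.mul_im, Complex.ofReal_re, Complex.ofReal_im, Complex.I_re, Complex.I_im]
          linear_combination (1 + t ^ 2) * hv2
        calc ‖A (v + t • u)‖ ^ 2 ≤ (‖A‖ * ‖v + t • u‖) ^ 2 :=
              pow_le_pow_left₀ (norm_nonneg _) h2 2
          _ = ‖A‖ ^ 2 * (1 + t ^ 2) := by rw [mul_pow, h3]
      have h4 : ‖A (v + t • u)‖ ^ 2 = ‖A v‖ ^ 2 + 2 * t * p + t ^ 2 * ‖A u‖ ^ 2 := by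
        rw [map_add, map_smul, L1_sq, L1_sq, L1_sq]
        simp only [Complex.add_re, Complex.add_im, Complex.real_smul, Complex.mul_re,
          Complex.mul_im, Complex.ofReal_re, Complex.ofReal_im, zero_mul, sub_zero, add_zero, hp]
        ring
      rw [h4, hvm] at h1
      nlinarith [sq_nonneg (t * ‖A u‖)]
    by_contra hne
    have hL : 0 < ‖A‖ ^ 2 + 1 := by positivity
    have h5 := key (p / (‖A‖ ^ 2 + 1))
    have h6 : 2 * (p / (‖A‖ ^ 2 + 1)) * p - (p / (‖A‖ ^ 2 + 1)) ^ 2 * ‖A‖ ^ 2 =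
        p ^ 2 * (‖A‖ ^ 2 + 2) / (‖A‖ ^ 2 + 1) ^ 2 := by
      field_simp
      ring
    have h7 : 0 < p ^ 2 * (‖A‖ ^ 2 + 2) / (‖A‖ ^ 2 + 1) ^ 2 := by
      have : 0 < p ^ 2 := by positivity
      positivity
    linarith
  have h8 : (‖A u‖ * ‖A‖) ^ 2 = 1 := by
    rw [← hvm, mul_pow, L1_sq, L1_sq]
    unfold wed at hw
    have h9 : ((A u).re ^ 2 + (A u).im ^ 2) * ((A v).re ^ 2 + (A v).im ^ 2) =
        ((A v).re * (A u).re + (A v).im * (A u).im) ^ 2 +
        ((A v).re * (A u).im - (A v).im * (A u).re) ^ 2 := by ring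
    rw [h9, hin, hw]
    norm_num
  have h10 : 0 ≤ ‖A u‖ * ‖A‖ := by positivity
  nlinarith [h8, h10]

/-- [YUT-L1] `‖A‖ ≥ 1` if `det A = 1` (for instance from the previous statement and its proof, or
from `|det A| ≤ ‖A 1‖ ‖A I‖ ≤ ‖A‖²`). -/
theorem one_le_norm (A : ℂ →L[ℝ] ℂ) (hA : A.det = 1) : 1 ≤ ‖A‖ := by
  have h1 := L1_wed A hA 1 Complex.I
  have h2 : wed 1 Complex.I = 1 := by simp [wed]
  rw [h2] at h1
  have h3 := wed_le (A 1) (A Complex.I)
  rw [h1, abs_one] at h3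
  have h4 := A.le_opNorm 1
  have h5 := A.le_opNorm Complex.I
  rw [norm_one, mul_one] at h4
  rw [Complex.norm_I, mul_one] at h5
  have h6 : 1 ≤ ‖A‖ * ‖A‖ := h3.trans (mul_le_mul h4 h5 (norm_nonneg _) (norm_nonneg _))
  nlinarith [norm_nonneg A]

end Pool.Agent.YUT
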