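import Pool.Agent.YUT.L1

open MeasureTheory Set Filter Topology
open scoped ContDiff

namespace Pool.Agent.YUT

open Pool.Agent.YUD

/-- [YUT-R1] Roughness of the datum and stretching give a lower bound for the Hoelder norm.
Proof. `A = fderiv ℝ Φ x₀`, `l = ‖A‖ ≥ 1`, `e` from `exists_contracted`: `‖e‖ = 1`, `‖A e‖ ≤ 1/l`. Let
`η > 0`. `fderiv ℝ Φ` is continuous at `x₀`, so there is `δ > 0` with `ball x₀ (2δ) ⊆ M` and
`‖fderiv ℝ Φ y - A‖ ≤ η` there; by the mean value inequality on the convex ball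
`‖Φ(x ± s e) - Φ x‖ ≤ s (1/l + η)` for `‖x - x₀‖ < δ`, `0 < s < δ`. Take `x, s` from roughness:
`c s^α ≤ |w₀(x+se) + w₀(x-se) - 2 w₀ x| ≤ |w(Φ(x+se)) - w(Φ x)| + |w(Φ(x-se)) - w(Φ x)|
≤ 2 K (s (1/l + η))^α`. Divide by `s^α`, let `η → 0`: `c ≤ 2 K l^(-α)`. -/
theorem rough_holder {M : Set ℂ} (hM : IsOpen M) {α c K : ℝ} (hα0 : 0 < α) (hα1 : α < 1)
    {w₀ w : ℂ → ℝ} {Φ : ℂ → ℂ} (hΦ : ContDiffOn ℝ 1 Φ M) (hmap : MapsTo Φ M M)
    (hdet : ∀ x ∈ M, (fderiv ℝ Φ x).det = 1) (hw : ∀ x ∈ M, w (Φ x) = w₀ x)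
    (hr : RoughC M α c w₀) (hK : HNormLe M α K w) :
    ∀ x₀ ∈ M, c * ‖fderiv ℝ Φ x₀‖ ^ α ≤ 2 * K := by
  intro x₀ hx₀
  obtain ⟨a, k, ha0, hk0, hak, ha, hk⟩ := hK
  set A := fderiv ℝ Φ x₀ with hA
  have hdA : A.det = 1 := hdet x₀ hx₀
  have hl1 : 1 ≤ ‖A‖ := one_le_norm A hdA
  have hl : 0 < ‖A‖ := by linarith
  obtain ⟨e, he, heA⟩ := exists_contracted A hdA
  have heA' : ‖A e‖ ≤ 1 / ‖A‖ := by rwa [le_div_iff₀ hl]
  have hcont : ContinuousOn (fderiv ℝ Φ) M :=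
    hΦ.continuousOn_fderiv_of_isOpen hM (by norm_num)
  have hdiff : DifferentiableOn ℝ Φ M := hΦ.differentiableOn (by norm_num)
  -- the inequality with `η`
  have key : ∀ η : ℝ, 0 < η → c ≤ 2 * k * (1 / ‖A‖ + η) ^ α := by
    intro η hη
    have h1 : ∀ᶠ y in 𝓝 x₀, ‖fderiv ℝ Φ y - A‖ < η ∧ y ∈ M := by
      refine Filter.Eventually.and ?_ (hM.mem_nhds hx₀)
      have h2 := (hcont.continuousAt (hM.mem_nhds hx₀)).tendsto
      have h3 := (Metric.tendsto_nhds.1 h2) η hη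
      filter_upwards [h3] with y hy
      rwa [dist_eq_norm] at hy
    obtain ⟨δ, hδ, hball⟩ := Metric.eventually_nhds_iff_ball.1 h1
    obtain ⟨x, s, hs0, hsδ, hxδ, hball2, hrough⟩ := hr x₀ hx₀ e he (δ / 2) (by positivity)
    have hxs : ∀ v : ℂ, ‖v‖ ≤ s → x + v ∈ Metric.ball x₀ δ := by
      intro v hv
      rw [Metric.mem_ball, dist_eq_norm]
      have e1 : x + v - x₀ = (x - x₀) + v := by ring
      rw [e1]
      linarith [norm_add_le (x - x₀) v]
    have hx0 : x ∈ Metric.ball x₀ δ := by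
      have := hxs 0 (by rw [norm_zero]; exact hs0.le)
      rwa [add_zero] at this
    -- displacement
    have hmv : ∀ v : ℂ, ‖v‖ ≤ s → ‖Φ (x + v) - Φ x - A v‖ ≤ η * ‖v‖ := by
      intro v hv
      have h4 := (convex_ball x₀ δ).norm_image_sub_le_of_norm_fderiv_le' (𝕜 := ℝ) (f := Φ) (φ := A)
        (C := η) (fun z hz => (hdiff.differentiableAt (hM.mem_nhds (hball z hz).2)))
        (fun z hz => (hball z hz).1.le) hx0 (hxs v hv)
      have e2 : x + v - x = v := by ring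
      rwa [e2] at h4
    have hstep : ∀ v : ℂ, ‖v‖ = s → ‖A v‖ ≤ s * (1 / ‖A‖) →
        |w₀ (x + v) - w₀ x| ≤ k * (s ^ α * (1 / ‖A‖ + η) ^ α) := by
      intro v hv hAv
      have hm1 : x + v ∈ M := (hball _ (hxs v hv.le)).2
      have hm0 : x ∈ M := (hball _ hx0).2
      rw [← hw _ hm1, ← hw _ hm0]
      refine (hk _ (hmap hm1) _ (hmap hm0)).trans ?_
      have h5 : ‖Φ (x + v) - Φ x‖ ≤ s * (1 / ‖A‖ + η) := by
        have h6 := hmv v hv.le
        have e3 : Φ (x + v) - Φ x = (Φ (x + v) - Φ x - A v) + A v := by ring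
        rw [e3]
        refine (norm_add_le _ _).trans ?_
        rw [hv] at h6
        linarith
      have h7 : ‖Φ (x + v) - Φ x‖ ^ α ≤ (s * (1 / ‖A‖ + η)) ^ α :=
        Real.rpow_le_rpow (norm_nonneg _) h5 hα0.le
      rw [Real.mul_rpow hs0.le (by positivity)] at h7
      exact mul_le_mul_of_nonneg_left h7 hk0
    have hse : ‖s • e‖ = s := by
      rw [norm_smul, he, mul_one, Real.norm_eq_abs, abs_of_pos hs0]
    have hAse : ‖A (s • e)‖ ≤ s * (1 / ‖A‖) := by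
      rw [map_smul, norm_smul, Real.norm_eq_abs, abs_of_pos hs0]
      exact mul_le_mul_of_nonneg_left heA' hs0.le
    have h8 := hstep (s • e) hse hAse
    have h9 := hstep (-(s • e)) (by rw [norm_neg, hse]) (by rw [map_neg, norm_neg]; exact hAse)
    have h10 : |w₀ (x + s • e) + w₀ (x - s • e) - 2 * w₀ x| ≤
        2 * (k * (s ^ α * (1 / ‖A‖ + η) ^ α)) := by
      have e4 : w₀ (x + s • e) + w₀ (x - s • e) - 2 * w₀ x =
          (w₀ (x + s • e) - w₀ x) + (w₀ (x + -(s • e)) - w₀ x) := by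
        rw [← sub_eq_add_neg]
        ring
      rw [e4]
      linarith [abs_add_le (w₀ (x + s • e) - w₀ x) (w₀ (x + -(s • e)) - w₀ x)]
    have h11 := hrough.trans h10
    have hsα : 0 < s ^ α := Real.rpow_pos_of_pos hs0 _
    have h12 : s ^ α * c ≤ s ^ α * (2 * k * (1 / ‖A‖ + η) ^ α) := by
      calc s ^ α * c = c * s ^ α := mul_comm _ _
        _ ≤ _ := h11
        _ = _ := by ring
    exact le_of_mul_le_mul_left h12 hsα
  have hlim : Tendsto (fun η : ℝ => 2 * k * (1 / ‖A‖ + η) ^ α) (𝓝[>] 0)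
      (𝓝 (2 * k * (1 / ‖A‖ + 0) ^ α)) := by
    apply Tendsto.mono_left _ nhdsWithin_le_nhds
    apply Tendsto.const_mul
    apply Tendsto.rpow_const
    · exact tendsto_const_nhds.add tendsto_id
    · right
      exact hα0.le
  have h13 : c ≤ 2 * k * (1 / ‖A‖ + 0) ^ α :=
    ge_of_tendsto hlim (eventually_nhdsWithin_of_forall fun η hη => key η hη)
  rw [add_zero, one_div, Real.inv_rpow hl.le] at h13
  have hlα : 0 < ‖A‖ ^ α := Real.rpow_pos_of_pos hl _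
  have h14 : c * ‖A‖ ^ α ≤ 2 * k := by
    have := mul_le_mul_of_nonneg_right h13 hlα.le
    rwa [mul_assoc (2 * k), inv_mul_cancel₀ hlα.ne', mul_one] at this
  linarith

end Pool.Agent.YUT
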