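import Pool.Agent.YUT.Base

open MeasureTheory Set Filter Topology
open scoped ContDiff

namespace Pool.Agent.YUT

open Pool.Agent.YUD

private theorem D0_gen {F : Type} [NormedAddCommGroup F] [NormedSpace ℝ F] (f : ℂ → F)
    (hf : ContDiff ℝ 1 f) (hcs : HasCompactSupport f) : ∃ B : ℝ, ∀ x, ‖fderiv ℝ f x‖ ≤ B :=
  (hcs.fderiv ℝ).exists_bound_of_continuous (hf.continuous_fderiv (by norm_num))

private theorem D0_aux (b : ℂ → ℝ) (hcd : ContDiff ℝ 2 b) (hcs : HasCompactSupport b) :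
    ∃ B : ℝ, 1 ≤ B ∧ (∀ x, ‖fderiv ℝ b x‖ ≤ B) ∧
    (∀ x y, ‖fderiv ℝ b x - fderiv ℝ b y‖ ≤ B * ‖x - y‖) ∧
    (∀ x y, |b x - b y| ≤ B * ‖x - y‖) ∧
    (∀ x v, |b (x + v) + b (x - v) - 2 * b x| ≤ B * ‖v‖ ^ 2) := by
  have hd : Differentiable ℝ b := hcd.differentiable (by norm_num)
  have hcd1 : ContDiff ℝ 1 (fderiv ℝ b) := hcd.fderiv_right (m := 1) (by norm_num)
  have hd1 : Differentiable ℝ (fderiv ℝ b) := hcd1.differentiable (by norm_num)
  have hcs1 : HasCompactSupport (fderiv ℝ b) := hcs.fderiv ℝ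
  obtain ⟨B1, hB1⟩ := hcs1.exists_bound_of_continuous hcd1.continuous
  obtain ⟨B2, hB2⟩ := D0_gen _ hcd1 hcs1
  obtain ⟨B, hB, hBB1, hBB2⟩ : ∃ B : ℝ, 1 ≤ B ∧ B1 ≤ B ∧ B2 ≤ B :=
    ⟨max 1 (max B1 B2), le_max_left _ _, (le_max_left _ _).trans (le_max_right _ _),
      (le_max_right _ _).trans (le_max_right _ _)⟩
  have hB0 : 0 ≤ B := le_trans zero_le_one hB
  have h1 : ∀ x, ‖fderiv ℝ b x‖ ≤ B := fun x => (hB1 x).trans hBB1
  have h2 : ∀ x, ‖fderiv ℝ (fderiv ℝ b) x‖ ≤ B := fun x => (hB2 x).trans hBB2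
  have h3 : ∀ x y, ‖fderiv ℝ b x - fderiv ℝ b y‖ ≤ B * ‖x - y‖ := by
    intro x y
    exact convex_univ.norm_image_sub_le_of_norm_fderiv_le (fun z _ => hd1 z) (fun z _ => h2 z)
      (mem_univ y) (mem_univ x)
  have h4 : ∀ x y, |b x - b y| ≤ B * ‖x - y‖ := by
    intro x y
    have := convex_univ.norm_image_sub_le_of_norm_fderiv_le (fun z _ => hd z) (fun z _ => h1 z)
      (mem_univ y) (mem_univ x)
    rwa [Real.norm_eq_abs] at this
  refine ⟨B, hB, h1, h3, h4, ?_⟩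
  intro x v
  have hf : ∀ y, HasFDerivAt (fun y => b (y + v) - b y)
      (fderiv ℝ b (y + v) - fderiv ℝ b y) y := by
    intro y
    have e0 : HasFDerivAt (fun y : ℂ => y + v) (ContinuousLinearMap.id ℝ ℂ) y :=
      (hasFDerivAt_id y).add_const v
    have e1 : HasFDerivAt (fun y => b (y + v)) (fderiv ℝ b (y + v)) y := by
      have := (hd (y + v)).hasFDerivAt.comp y e0
      rwa [ContinuousLinearMap.comp_id] at this
    exact e1.sub (hd y).hasFDerivAt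
  have h5 := convex_univ.norm_image_sub_le_of_norm_hasFDerivWithin_le (𝕜 := ℝ) (C := B * ‖v‖)
    (f := fun y => b (y + v) - b y) (f' := fun y => fderiv ℝ b (y + v) - fderiv ℝ b y)
    (fun z _ => (hf z).hasFDerivWithinAt)
    (fun z _ => by
      refine (h3 _ _).trans (le_of_eq ?_)
      congr 2
      ring) (mem_univ (x - v)) (mem_univ x)
  have e2 : (b (x + v) - b x) - (b (x - v + v) - b (x - v)) =
      b (x + v) + b (x - v) - 2 * b x := by
    rw [sub_add_cancel]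
    ring
  rw [Real.norm_eq_abs, e2] at h5
  refine h5.trans (le_of_eq ?_)
  rw [show x - (x - v) = v by ring]
  ring

/-- [YUT-D0] a bump function with explicit bounds (`ContDiffBump` at `0` with `rIn = 1/2`,
`rOut = 1`; the derivatives are bounded by compactness of the support; the last two bounds follow from
a bound of the second derivative). -/
theorem exists_bump : ∃ (β : ℂ → ℝ) (B : ℝ), 1 ≤ B ∧ ContDiff ℝ ∞ β ∧ β 0 = 1 ∧
    (∀ x, 1 ≤ ‖x‖ → β x = 0) ∧ (∀ x, |β x| ≤ 1) ∧ (∀ x, ‖fderiv ℝ β x‖ ≤ B) ∧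
    (∀ x y, ‖fderiv ℝ β x - fderiv ℝ β y‖ ≤ B * ‖x - y‖) ∧
    (∀ x y, |β x - β y| ≤ B * ‖x - y‖) ∧
    (∀ x v, |β (x + v) + β (x - v) - 2 * β x| ≤ B * ‖v‖ ^ 2) := by
  obtain ⟨b, hbo⟩ : ∃ b : ContDiffBump (0 : ℂ), b.rOut = 1 :=
    ⟨⟨1 / 2, 1, by norm_num, by norm_num⟩, rfl⟩
  have hcd : ContDiff ℝ ∞ (b : ℂ → ℝ) := b.contDiff
  have hcs : HasCompactSupport (b : ℂ → ℝ) := b.hasCompactSupport
  obtain ⟨B, hB, h1, h3, h4, h5⟩ := D0_aux (b : ℂ → ℝ) b.contDiff hcs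
  refine ⟨b, B, hB, hcd, ?_, ?_, ?_, h1, h3, h4, h5⟩
  · apply b.one_of_mem_closedBall
    simp only [Metric.mem_closedBall, dist_self]
    exact b.rIn_pos.le
  · intro x hx
    apply b.zero_of_le_dist
    rw [dist_zero_right, hbo]
    exact hx
  · intro x
    rw [abs_of_nonneg b.nonneg]
    exact b.le_one

end Pool.Agent.YUT
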