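import Pool.Agent.YUT.D2a

open MeasureTheory Set Filter Topology
open scoped ContDiff

namespace Pool.Agent.YUT

open Pool.Agent.YUD

theorem D2b_geo {θ : ℝ} (hθ : 0 < θ) {r : ℕ → ℝ} (hr1 : ∀ j, r j ≤ 1)
    (hr : ∀ j, r (j + 1) ≤ θ * r j) (j : ℕ) : r j ≤ θ ^ j := by
  induction j with
  | zero => simpa using hr1 0
  | succ j ih =>
    calc r (j + 1) ≤ θ * r j := hr j
      _ ≤ θ * θ ^ j := mul_le_mul_of_nonneg_left ih hθ.le
      _ = θ ^ (j + 1) := by ring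

/-- [YUT-D2b] lacunary series of uniformly bounded, uniformly rescaled-Lipschitz functions are
`α`-Hoelder with a uniform constant (`lacunary_sum` for `h = ‖x - y‖` with
`‖r_i^α (V_i x - V_i y)‖ ≤ 2B min (r_i^α) (r_i^(α-1) h)`; summability by `r_i^α ≤ θ^(iα)`). -/
theorem series_bound {θ α B : ℝ} (hθ : 0 < θ) (hθ1 : θ < 1) (hα : 0 < α) (hα1 : α < 1)
    (hB : 0 ≤ B) {E : Type} [NormedAddCommGroup E] [NormedSpace ℝ E] [CompleteSpace E] :
    ∃ C : ℝ, 0 ≤ C ∧ ∀ (r : ℕ → ℝ) (V : ℕ → ℂ → E), (∀ j, 0 < r j) → (∀ j, r j ≤ 1) →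
      (∀ j, r (j + 1) ≤ θ * r j) → (∀ j x, ‖V j x‖ ≤ B) →
      (∀ j x y, ‖V j x - V j y‖ ≤ B * ‖x - y‖ / r j) →
      (∀ x, Summable fun j => r j ^ α • V j x) ∧
      (∀ x, ‖∑' j, r j ^ α • V j x‖ ≤ C) ∧
      ∀ x y, ‖(∑' j, r j ^ α • V j x) - ∑' j, r j ^ α • V j y‖ ≤ C * ‖x - y‖ ^ α := by
  obtain ⟨C1, hC1, h1⟩ := lacunary_sum hθ hθ1 hα hα1
  have hq0 : 0 ≤ θ ^ α := Real.rpow_nonneg hθ.le α
  have hq1 : θ ^ α < 1 := Real.rpow_lt_one hθ.le hθ1 hα
  have hq2 : 0 ≤ (1 - θ ^ α)⁻¹ * B := mul_nonneg (inv_nonneg.2 (by linarith)) hB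
  have hq3 : 0 ≤ 2 * B * C1 := by positivity
  refine ⟨(1 - θ ^ α)⁻¹ * B + 2 * B * C1, add_nonneg hq2 hq3, ?_⟩
  intro r V hr0 hr1 hr hV hVL
  have hra : ∀ j, 0 ≤ r j ^ α := fun j => Real.rpow_nonneg (hr0 j).le α
  have hb : ∀ j, r j ^ α ≤ (θ ^ α) ^ j := by
    intro j
    rw [Real.rpow_pow_comm hθ.le]
    exact Real.rpow_le_rpow (hr0 j).le (D2b_geo hθ hr1 hr j) hα.le
  have hterm : ∀ x j, ‖r j ^ α • V j x‖ ≤ (θ ^ α) ^ j * B := by
    intro x j
    rw [norm_smul, Real.norm_of_nonneg (hra j)]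
    exact mul_le_mul (hb j) (hV j x) (norm_nonneg _) (pow_nonneg hq0 j)
  have hgs : HasSum (fun j => (θ ^ α) ^ j * B) ((1 - θ ^ α)⁻¹ * B) :=
    (hasSum_geometric_of_lt_one hq0 hq1).mul_right B
  have hsum : ∀ x, Summable fun j => r j ^ α • V j x := fun x =>
    Summable.of_norm_bounded hgs.summable (hterm x)
  refine ⟨hsum, fun x => ?_, fun x y => ?_⟩
  · exact (tsum_of_norm_bounded hgs (hterm x)).trans (le_add_of_nonneg_right hq3)
  · have hrp : 0 ≤ ‖x - y‖ ^ α := Real.rpow_nonneg (norm_nonneg _) α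
    rcases eq_or_ne x y with rfl | hxy
    · rw [sub_self, norm_zero]
      exact mul_nonneg (add_nonneg hq2 hq3) hrp
    have hh : 0 < ‖x - y‖ := norm_pos_iff.2 (sub_ne_zero.2 hxy)
    have hd : ∀ j, ‖r j ^ α • V j x - r j ^ α • V j y‖ ≤
        2 * B * min (r j ^ α) (r j ^ (α - 1) * ‖x - y‖) := by
      intro j
      rw [← smul_sub, norm_smul, Real.norm_of_nonneg (hra j)]
      have h2 : ‖V j x - V j y‖ ≤ 2 * B := by
        calc ‖V j x - V j y‖ ≤ ‖V j x‖ + ‖V j y‖ := norm_sub_le _ _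
          _ ≤ 2 * B := by linarith [hV j x, hV j y]
      have h3 := hVL j x y
      have h4 : r j ^ α * ‖V j x - V j y‖ ≤ 2 * B * r j ^ α := by
        calc r j ^ α * ‖V j x - V j y‖ ≤ r j ^ α * (2 * B) := mul_le_mul_of_nonneg_left h2 (hra j)
          _ = 2 * B * r j ^ α := by ring
      have h5 : r j ^ α * ‖V j x - V j y‖ ≤ 2 * B * (r j ^ (α - 1) * ‖x - y‖) := by
        have h6 : r j ^ (α - 1) = r j ^ α / r j := by
          rw [Real.rpow_sub (hr0 j), Real.rpow_one]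
        calc r j ^ α * ‖V j x - V j y‖ ≤ r j ^ α * (B * ‖x - y‖ / r j) :=
              mul_le_mul_of_nonneg_left h3 (hra j)
          _ = B * (r j ^ (α - 1) * ‖x - y‖) := by
              rw [h6]
              ring
          _ ≤ 2 * B * (r j ^ (α - 1) * ‖x - y‖) := by
              have h7 : 0 ≤ r j ^ (α - 1) * ‖x - y‖ :=
                mul_nonneg (Real.rpow_nonneg (hr0 j).le _) hh.le
              nlinarith [mul_nonneg hB h7]
      rcases min_choice (r j ^ α) (r j ^ (α - 1) * ‖x - y‖) with h | h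
      · rw [h]
        exact h4
      · rw [h]
        exact h5
    have hs : HasSum (fun j => r j ^ α • V j x - r j ^ α • V j y)
        ((∑' j, r j ^ α • V j x) - ∑' j, r j ^ α • V j y) := (hsum x).hasSum.sub (hsum y).hasSum
    have hlim := hs.tendsto_sum_nat.norm
    refine le_of_tendsto' hlim (fun n => ?_)
    calc ‖∑ i ∈ Finset.range n, (r i ^ α • V i x - r i ^ α • V i y)‖
        ≤ ∑ i ∈ Finset.range n, 2 * B * min (r i ^ α) (r i ^ (α - 1) * ‖x - y‖) :=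
          norm_sum_le_of_le _ (fun i _ => hd i)
      _ = 2 * B * ∑ i ∈ Finset.range n, min (r i ^ α) (r i ^ (α - 1) * ‖x - y‖) := by
          rw [Finset.mul_sum]
      _ ≤ 2 * B * (C1 * ‖x - y‖ ^ α) :=
          mul_le_mul_of_nonneg_left (h1 r hr0 hr1 hr _ hh n) (by positivity)
      _ ≤ ((1 - θ ^ α)⁻¹ * B + 2 * B * C1) * ‖x - y‖ ^ α := by
          nlinarith [mul_nonneg hq2 hrp]

end Pool.Agent.YUT
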