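import Pool.Agent.YUT.D2b

open MeasureTheory Set Filter Topology
open scoped ContDiff

namespace Pool.Agent.YUT

open Pool.Agent.YUD

/-- [YUT-D3a] `C^α` bound of the series, exponent `γ = α` (`series_bound` with
`V j x = σ j * β ((r j)⁻¹ • (x - p j))`). -/
theorem ser_holder {β : ℂ → ℝ} {B θ α : ℝ} (hB : 1 ≤ B) (hβ : ∀ x, |β x| ≤ 1)
    (hβ2 : ∀ x y, |β x - β y| ≤ B * ‖x - y‖)
    (hθ : 0 < θ) (hθ1 : θ < 1) (hα : 0 < α) (hα1 : α < 1) :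
    ∃ C : ℝ, 0 < C ∧ ∀ (p : ℕ → ℂ) (r σ : ℕ → ℝ), (∀ j, 0 < r j) → (∀ j, r j ≤ 1) →
      (∀ j, r (j + 1) ≤ θ * r j) → (∀ j, |σ j| ≤ 1) → ∀ M : Set ℂ, HNormLe M α C (ser β α p r σ) := by
  obtain ⟨C0, hC0, h⟩ := series_bound hθ hθ1 hα hα1 (B := B) (by linarith) (E := ℝ)
  refine ⟨C0 + C0 + 1, by linarith, ?_⟩
  intro p r σ hr0 hr1 hr hσ M
  have hV : ∀ j (x : ℂ), ‖σ j * β ((r j)⁻¹ • (x - p j))‖ ≤ B := by
    intro j x
    rw [norm_mul, Real.norm_eq_abs, Real.norm_eq_abs]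
    calc |σ j| * |β ((r j)⁻¹ • (x - p j))| ≤ 1 * 1 :=
          mul_le_mul (hσ j) (hβ _) (abs_nonneg _) zero_le_one
      _ ≤ B := by linarith
  have hVL : ∀ j (x y : ℂ), ‖σ j * β ((r j)⁻¹ • (x - p j)) - σ j * β ((r j)⁻¹ • (y - p j))‖ ≤
      B * ‖x - y‖ / r j := by
    intro j x y
    rw [← mul_sub, norm_mul, Real.norm_eq_abs, Real.norm_eq_abs]
    have h1 := hβ2 ((r j)⁻¹ • (x - p j)) ((r j)⁻¹ • (y - p j))
    rw [← smul_sub, sub_sub_sub_cancel_right, norm_smul, Real.norm_of_nonneg (inv_nonneg.2 (hr0 j).le)] at h1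
    calc |σ j| * |β ((r j)⁻¹ • (x - p j)) - β ((r j)⁻¹ • (y - p j))|
        ≤ 1 * (B * ((r j)⁻¹ * ‖x - y‖)) := mul_le_mul (hσ j) h1 (abs_nonneg _) zero_le_one
      _ = B * ‖x - y‖ / r j := by
          rw [div_eq_mul_inv]
          ring
  obtain ⟨-, h2, h3⟩ := h r (fun j x => σ j * β ((r j)⁻¹ • (x - p j))) hr0 hr1 hr hV hVL
  have he : ∀ x, ser β α p r σ x = ∑' j, r j ^ α • (σ j * β ((r j)⁻¹ • (x - p j))) := by
    intro x
    unfold ser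
    refine tsum_congr (fun j => ?_)
    rw [smul_eq_mul]
    ring
  refine ⟨C0, C0, hC0, hC0, by linarith, fun x _ => ?_, fun x _ y _ => ?_⟩
  · rw [he]
    exact h2 x
  · rw [he, he]
    exact h3 x y

end Pool.Agent.YUT
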