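import Pool.Agent.YUT.E1a

open MeasureTheory Set Filter Topology
open scoped ContDiff

namespace Pool.Agent.YUT

open Pool.Agent.YUD

variable {M : Set ℂ} {w₀ : ℂ → ℝ} {ψ : ℝ → ℂ → ℝ} {Φ : ℝ → ℂ → ℂ}

/-- [YUT-E1b] CONSERVATION OF ENERGY. Proof: by `energy_step` and `grad_cont`, for every `ε > 0` there
is `δ > 0` with `|E(b) - E(a)| ≤ 2 K ε (b - a)` for `0 ≤ a ≤ b ≤ t`, `b - a < δ`; divide `[0,t]` into
`n` equal parts with `t/n < δ` and add: `|E(t) - E(0)| ≤ 2 K ε t`. -/
theorem Flow.energy (hM : IsOpen M) (hb : Bornology.IsBounded M) (h : Flow M w₀ ψ Φ) {t : ℝ}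
    (ht : 0 ≤ t) : ∫ x in M, gsq (ψ t) x = ∫ x in M, gsq (ψ 0) x := by
  obtain ⟨K, hK, hstep⟩ := h.energy_step hM hb t
  have main : ∀ ε > 0, |(∫ x in M, gsq (ψ t) x) - ∫ x in M, gsq (ψ 0) x| ≤ 2 * K * ε * t := by
    intro ε hε
    obtain ⟨δ, hδ, hgc⟩ := h.grad_cont hM hb t hε
    -- one small step
    have small : ∀ a b : ℝ, 0 ≤ a → a ≤ b → b ≤ t → b - a < δ →
        |(∫ x in M, gsq (ψ b) x) - ∫ x in M, gsq (ψ a) x| ≤ 2 * K * ε * (b - a) := by
      intro a b ha hab hbt hd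
      refine (hstep a b ha hab hbt).trans ?_
      have h1 : ∫ s in a..b, ((∫ x in M, ‖fderiv ℝ (ψ a) x - fderiv ℝ (ψ s) x‖) +
          ∫ x in M, ‖fderiv ℝ (ψ b) x - fderiv ℝ (ψ s) x‖) ≤ (ε + ε) * |b - a| := by
        refine (Real.le_norm_self _).trans
          (intervalIntegral.norm_integral_le_of_norm_le_const fun s hs => ?_)
        rw [uIoc_of_le hab] at hs
        have hs0 : 0 ≤ s := ha.trans hs.1.le
        have hst : s ≤ t := hs.2.trans hbt
        have n1 : 0 ≤ ∫ x in M, ‖fderiv ℝ (ψ a) x - fderiv ℝ (ψ s) x‖ :=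
          integral_nonneg fun x => norm_nonneg _
        have n2 : 0 ≤ ∫ x in M, ‖fderiv ℝ (ψ b) x - fderiv ℝ (ψ s) x‖ :=
          integral_nonneg fun x => norm_nonneg _
        rw [Real.norm_eq_abs, abs_of_nonneg (add_nonneg n1 n2)]
        refine add_le_add (hgc a s ha (hab.trans hbt) hs0 hst ?_)
          (hgc b s (ha.trans hab) hbt hs0 hst ?_)
        · rw [abs_lt]; constructor <;> linarith [hs.1, hs.2]
        · rw [abs_lt]; constructor <;> linarith [hs.1, hs.2]
      rw [abs_of_nonneg (sub_nonneg.2 hab)] at h1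
      calc K * ∫ s in a..b, ((∫ x in M, ‖fderiv ℝ (ψ a) x - fderiv ℝ (ψ s) x‖) +
          ∫ x in M, ‖fderiv ℝ (ψ b) x - fderiv ℝ (ψ s) x‖) ≤ K * ((ε + ε) * (b - a)) :=
            mul_le_mul_of_nonneg_left h1 hK
        _ = 2 * K * ε * (b - a) := by ring
    obtain ⟨n, hn⟩ := exists_nat_gt (t / δ)
    have hn0 : (0 : ℝ) < n := lt_of_le_of_lt (div_nonneg ht hδ.le) hn
    set q : ℝ := t / n with hq
    have hq0 : 0 ≤ q := div_nonneg ht hn0.le
    have hqδ : q < δ := by
      rw [hq, div_lt_iff₀ hn0]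
      rw [div_lt_iff₀ hδ] at hn
      linarith
    have hqn : (n : ℝ) * q = t := by rw [hq]; field_simp
    have ind : ∀ i : ℕ, i ≤ n →
        |(∫ x in M, gsq (ψ (i * q)) x) - ∫ x in M, gsq (ψ 0) x| ≤ 2 * K * ε * (i * q) := by
      intro i
      induction i with
      | zero => intro _; simp
      | succ i ih =>
        intro hi
        have h1 := ih (by omega)
        have hi1 : ((i : ℝ) + 1) * q ≤ t := by
          rw [← hqn]
          refine mul_le_mul_of_nonneg_right ?_ hq0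
          exact_mod_cast hi
        have h2 := small (i * q) (((i : ℝ) + 1) * q) (by positivity) (by nlinarith) hi1
          (by nlinarith)
        have h3 : (∫ x in M, gsq (ψ (((i + 1 : ℕ) : ℝ) * q)) x) - ∫ x in M, gsq (ψ 0) x =
            ((∫ x in M, gsq (ψ (((i : ℝ) + 1) * q)) x) - ∫ x in M, gsq (ψ (i * q)) x) +
            ((∫ x in M, gsq (ψ (i * q)) x) - ∫ x in M, gsq (ψ 0) x) := by
          push_cast
          ring
        rw [h3]
        refine (abs_add_le _ _).trans ((add_le_add h2 h1).trans (le_of_eq ?_))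
        push_cast
        ring
    have h4 := ind n le_rfl
    rw [hqn] at h4
    exact h4
  have hz : |(∫ x in M, gsq (ψ t) x) - ∫ x in M, gsq (ψ 0) x| ≤ 0 := by
    refine le_of_forall_pos_le_add fun ε hε => ?_
    rw [zero_add]
    have hc : 0 < 2 * K * t + 1 := by positivity
    refine (main (ε / (2 * K * t + 1)) (div_pos hε hc)).trans ?_
    have : 2 * K * (ε / (2 * K * t + 1)) * t = ε * ((2 * K * t) / (2 * K * t + 1)) := by ring
    rw [this]
    have h5 : (2 * K * t) / (2 * K * t + 1) ≤ 1 := by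
      rw [div_le_one hc]; linarith
    nlinarith
  have := abs_nonpos_iff.1 hz
  linarith

end Pool.Agent.YUT
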