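import Pool.Agent.YUT.Base

open MeasureTheory Set Filter Topology
open scoped ContDiff

namespace Pool.Agent.YUT

open Pool.Agent.YUD

/-- [YUT-D1] points, directions and lacunary radii. Proof: the space `M × sphere 0 1` is nonempty,
separable and has no isolated points; take a dense sequence `(p_j, e_j)` (`exists_dense_seq` in the
subtype); an open neighbourhood of `(x₀, e₀)` contains `(p_j, e_j)` for infinitely many `j` (removing
finitely many points from a nonempty open set without isolated points leaves a nonempty open set).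
Radii recursively: `closedBall (p j) ρ_j ⊆ M` for some `ρ_j > 0`, `r 0 = min 1 ρ_0`,
`r (j+1) = min (θ * r j) ρ_{j+1}`; `r j ≤ θ^j → 0`. -/
theorem exists_tasks {M : Set ℂ} (hM : IsOpen M) (hne : M.Nonempty) {θ : ℝ} (hθ : 0 < θ)
    (hθ1 : θ < 1) : ∃ (p e : ℕ → ℂ) (r : ℕ → ℝ),
      (∀ j, p j ∈ M ∧ ‖e j‖ = 1 ∧ 0 < r j ∧ r j ≤ 1 ∧ Metric.closedBall (p j) (r j) ⊆ M) ∧
      (∀ j, r (j + 1) ≤ θ * r j) ∧
      ∀ x₀ ∈ M, ∀ e₀ : ℂ, ‖e₀‖ = 1 → ∀ δ > 0, ∃ j, ‖p j - x₀‖ < δ ∧ ‖e j - e₀‖ < δ ∧ r j < δ := by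
  let T : Set (ℂ × ℂ) := {x | x.1 ∈ M ∧ ‖x.2‖ = 1}
  obtain ⟨m, hm⟩ := hne
  have hT : Nonempty T := ⟨⟨(m, 1), hm, norm_one⟩⟩
  let q : ℕ → T := fun j => TopologicalSpace.denseSeq T (Nat.unpair j).1
  have hρ : ∀ j, ∃ ρ : ℝ, 0 < ρ ∧ Metric.closedBall (q j).1.1 ρ ⊆ M := by
    intro j
    obtain ⟨ε, hε, hb⟩ := Metric.isOpen_iff.1 hM _ (q j).2.1
    exact ⟨ε / 2, by positivity, (Metric.closedBall_subset_ball (by linarith)).trans hb⟩
  choose ρ hρ0 hρ1 using hρ
  let r : ℕ → ℝ := fun j => Nat.rec (min 1 (ρ 0)) (fun j x => min (θ * x) (ρ (j + 1))) j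
  have r0 : r 0 = min 1 (ρ 0) := rfl
  have r1 : ∀ j, r (j + 1) = min (θ * r j) (ρ (j + 1)) := fun j => rfl
  have rpos : ∀ j, 0 < r j := by
    intro j
    induction j with
    | zero => rw [r0]; exact lt_min one_pos (hρ0 0)
    | succ j ih => rw [r1]; exact lt_min (by positivity) (hρ0 _)
  have rpow : ∀ j, r j ≤ θ ^ j := by
    intro j
    induction j with
    | zero => rw [r0, pow_zero]; exact min_le_left _ _
    | succ j ih =>
      rw [r1, pow_succ']
      exact (min_le_left _ _).trans (mul_le_mul_of_nonneg_left ih hθ.le)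
  have rρ : ∀ j, r j ≤ ρ j := by
    intro j
    cases j with
    | zero => rw [r0]; exact min_le_right _ _
    | succ j => rw [r1]; exact min_le_right _ _
  refine ⟨fun j => (q j).1.1, fun j => (q j).1.2, r, ?_, ?_, ?_⟩
  · intro j
    exact ⟨(q j).2.1, (q j).2.2, rpos j, (rpow j).trans (pow_le_one₀ hθ.le hθ1.le),
      (Metric.closedBall_subset_closedBall (rρ j)).trans (hρ1 j)⟩
  · intro j
    rw [r1]
    exact min_le_left _ _
  · intro x₀ hx₀ e₀ he₀ δ hδ
    obtain ⟨i, hi⟩ := (TopologicalSpace.denseRange_denseSeq T).exists_dist_lt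
      (⟨(x₀, e₀), hx₀, he₀⟩ : T) hδ
    obtain ⟨k, hk⟩ := exists_pow_lt_of_lt_one hδ hθ1
    have hq : q (Nat.pair i k) = TopologicalSpace.denseSeq T i := by
      show TopologicalSpace.denseSeq T (Nat.unpair (Nat.pair i k)).1 = _
      rw [Nat.unpair_pair]
    have hd : max (dist x₀ (TopologicalSpace.denseSeq T i).1.1) (dist e₀ (TopologicalSpace.denseSeq T i).1.2) < δ := hi
    rw [max_lt_iff] at hd
    refine ⟨Nat.pair i k, ?_, ?_, ?_⟩
    · show ‖(q (Nat.pair i k)).1.1 - x₀‖ < δ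
      rw [hq, ← dist_eq_norm, dist_comm]
      exact hd.1
    · show ‖(q (Nat.pair i k)).1.2 - e₀‖ < δ
      rw [hq, ← dist_eq_norm, dist_comm]
      exact hd.2
    · exact ((rpow _).trans (pow_le_pow_of_le_one hθ.le hθ1.le (Nat.right_le_pair i k))).trans_lt hk

end Pool.Agent.YUT
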