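import Pool.Agent.YUT.Base

open MeasureTheory Set Filter Topology
open scoped ContDiff

namespace Pool.Agent.YUT

open Pool.Agent.YUD

theorem D4_pow {r : ℕ → ℝ} {θ : ℝ} (hθ : 0 < θ) (hr : ∀ j, r (j + 1) ≤ θ * r j) (i m : ℕ) :
    r (i + m) ≤ θ ^ m * r i := by
  induction m with
  | zero => simp
  | succ m ih =>
    calc r (i + (m + 1)) ≤ θ * r (i + m) := hr _
      _ ≤ θ * (θ ^ m * r i) := mul_le_mul_of_nonneg_left ih hθ.le
      _ = θ ^ (m + 1) * r i := by ring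

theorem D4_geo1 {q : ℝ} (h0 : 0 ≤ q) (h1 : q ≤ 1 / 2) (j : ℕ) :
    ∑ i ∈ Finset.range j, q ^ (j - i) ≤ 2 * q := by
  induction j with
  | zero => simpa using h0
  | succ j ih =>
    rw [Finset.sum_range_succ]
    have h2 : ∑ i ∈ Finset.range j, q ^ (j + 1 - i) = q * ∑ i ∈ Finset.range j, q ^ (j - i) := by
      rw [Finset.mul_sum]
      refine Finset.sum_congr rfl fun i hi => ?_
      rw [Nat.succ_sub (Finset.mem_range.1 hi).le, pow_succ]
      ring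
    rw [h2, Nat.add_sub_cancel_left, pow_one]
    nlinarith [mul_le_mul_of_nonneg_left ih h0]

theorem D4_geo2 {q : ℝ} (h0 : 0 ≤ q) (h1 : q ≤ 1 / 2) (m : ℕ) :
    ∑ i ∈ Finset.range m, q ^ (i + 1) ≤ 2 * q := by
  induction m with
  | zero => simpa using h0
  | succ m ih =>
    rw [Finset.sum_range_succ']
    have h2 : ∑ i ∈ Finset.range m, q ^ (i + 1 + 1) = q * ∑ i ∈ Finset.range m, q ^ (i + 1) := by
      rw [Finset.mul_sum]
      refine Finset.sum_congr rfl fun i _ => ?_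
      ring
    rw [h2, zero_add, pow_one]
    nlinarith [mul_le_mul_of_nonneg_left ih h0]

theorem D4_theta {B γ : ℝ} (hB : 1 ≤ B) (hγ : 0 < γ) (hγ2 : γ < 2) :
    ∃ θ : ℝ, 0 < θ ∧ θ < 1 ∧ θ ^ (2 - γ) ≤ 1 / (8 * B) ∧ θ ^ γ ≤ 1 / 32 := by
  have h1 : (0 : ℝ) < 1 / (8 * B) := by positivity
  have h2 : (0 : ℝ) < 2 - γ := by linarith
  have h3 : (0 : ℝ) < 1 / 32 := by norm_num
  have hA : 0 < (1 / (8 * B)) ^ (1 / (2 - γ)) := Real.rpow_pos_of_pos h1 _
  have hA' : 0 < ((1 : ℝ) / 32) ^ (1 / γ) := Real.rpow_pos_of_pos h3 _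
  refine ⟨min ((1 / (8 * B)) ^ (1 / (2 - γ))) ((1 / 32) ^ (1 / γ)), lt_min hA hA', ?_, ?_, ?_⟩
  · refine (min_le_right _ _).trans_lt ?_
    exact Real.rpow_lt_one h3.le (by norm_num) (by positivity)
  · refine (Real.rpow_le_rpow (lt_min hA hA').le (min_le_left _ _) h2.le).trans ?_
    rw [← Real.rpow_mul h1.le, one_div (2 - γ), inv_mul_cancel₀ h2.ne', Real.rpow_one]
  · refine (Real.rpow_le_rpow (lt_min hA hA').le (min_le_right _ _) hγ.le).trans ?_
    rw [← Real.rpow_mul h3.le, one_div γ, inv_mul_cancel₀ hγ.ne', Real.rpow_one]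

/-- [YUT-D4] the second difference of the series at `p_j` at scale `r_j` is that of the `j`-th term up
to half its size, if the ratio `θ` is small. Proof: the `j`-th term has second difference
`σ_j r_j^γ (β(e) + β(-e) - 2 β(0)) = -2 σ_j r_j^γ`. For `i < j` the `i`-th term has second difference
at most `r_i^γ B (r_j/r_i)² = B r_i^(γ-2) r_j²`, and `r_j ≤ θ^(j-i) r_i` gives
`≤ B r_j^γ θ^((j-i)(2-γ))`; for `i > j` at most `4 r_i^γ ≤ 4 r_j^γ θ^((i-j)γ)`. Sum: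
`r_j^γ (B q/(1-q) + 4 q'/(1-q'))`, `q = θ^(2-γ)`, `q' = θ^γ`; `≤ r_j^γ / 2` for small `θ`. -/
theorem off_terms {β : ℂ → ℝ} {B γ : ℝ} (hB : 1 ≤ B) (hγ : 0 < γ) (hγ2 : γ < 2) (h0 : β 0 = 1)
    (h1 : ∀ x, 1 ≤ ‖x‖ → β x = 0) (hβ : ∀ x, |β x| ≤ 1)
    (h2 : ∀ x v, |β (x + v) + β (x - v) - 2 * β x| ≤ B * ‖v‖ ^ 2) :
    ∃ θ : ℝ, 0 < θ ∧ θ < 1 ∧ ∀ (p : ℕ → ℂ) (r σ : ℕ → ℝ), (∀ j, 0 < r j) → (∀ j, r j ≤ 1) →
      (∀ j, r (j + 1) ≤ θ * r j) → (∀ j, |σ j| ≤ 1) → ∀ (j : ℕ) (e : ℂ), ‖e‖ = 1 →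
      |ser β γ p r σ (p j + r j • e) + ser β γ p r σ (p j - r j • e) - 2 * ser β γ p r σ (p j) +
        2 * σ j * r j ^ γ| ≤ (1 / 2) * r j ^ γ := by
  classical
  obtain ⟨θ, hθ, hθ1, hq, hq'⟩ := D4_theta hB hγ hγ2
  refine ⟨θ, hθ, hθ1, ?_⟩
  intro p r σ hr0 hr1 hr hσ j e he
  obtain ⟨q, hqd⟩ : ∃ q, q = θ ^ (2 - γ) := ⟨_, rfl⟩
  obtain ⟨q', hqd'⟩ : ∃ q', q' = θ ^ γ := ⟨_, rfl⟩
  rw [← hqd] at hq
  rw [← hqd'] at hq'
  have hq0 : 0 < q := by rw [hqd]; exact Real.rpow_pos_of_pos hθ _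
  have hq0' : 0 < q' := by rw [hqd']; exact Real.rpow_pos_of_pos hθ _
  have hqhalf : q ≤ 1 / 2 := by
    refine hq.trans ?_
    rw [div_le_div_iff₀ (by positivity) (by norm_num)]
    linarith
  have hqhalf' : q' ≤ 1 / 2 := hq'.trans (by norm_num)
  obtain ⟨R, hR⟩ : ∃ R, R = r j ^ γ := ⟨_, rfl⟩
  have hRp : 0 < R := by rw [hR]; exact Real.rpow_pos_of_pos (hr0 j) _
  -- summability
  have hrpow : ∀ i m, r (i + m) ^ γ ≤ q' ^ m * r i ^ γ := by
    intro i m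
    have h1 := D4_pow hθ hr i m
    calc r (i + m) ^ γ ≤ (θ ^ m * r i) ^ γ := Real.rpow_le_rpow (hr0 _).le h1 hγ.le
      _ = (θ ^ m) ^ γ * r i ^ γ := Real.mul_rpow (by positivity) (hr0 i).le
      _ = q' ^ m * r i ^ γ := by
        rw [hqd', ← Real.rpow_natCast, ← Real.rpow_natCast, ← Real.rpow_mul hθ.le,
          ← Real.rpow_mul hθ.le, mul_comm (m : ℝ) γ]
  have hsum : ∀ x : ℂ, Summable fun i => σ i * (r i ^ γ * β ((r i)⁻¹ • (x - p i))) := by
    intro x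
    refine Summable.of_norm_bounded (g := fun i => q' ^ i * r 0 ^ γ) ?_ ?_
    · exact (summable_geometric_of_lt_one hq0'.le (by linarith)).mul_right _
    · intro i
      have h1 := hrpow 0 i
      rw [zero_add] at h1
      have h2 : 0 < r i ^ γ := Real.rpow_pos_of_pos (hr0 i) _
      rw [Real.norm_eq_abs, abs_mul, abs_mul, abs_of_pos h2]
      calc |σ i| * (r i ^ γ * |β ((r i)⁻¹ • (x - p i))|) ≤ 1 * (r i ^ γ * 1) := by
            refine mul_le_mul (hσ i) ?_ (by positivity) (by norm_num)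
            exact mul_le_mul_of_nonneg_left (hβ _) h2.le
        _ = r i ^ γ := by ring
        _ ≤ q' ^ i * r 0 ^ γ := h1
  have hH := (((hsum (p j + r j • e)).hasSum.add (hsum (p j - r j • e)).hasSum).sub
    ((hsum (p j)).hasSum.mul_left 2)).add (hasSum_ite_eq j (2 * σ j * r j ^ γ))
  obtain ⟨g, hg⟩ : ∃ g : ℕ → ℝ, g = fun i => σ i * (r i ^ γ * β ((r i)⁻¹ • (p j + r j • e - p i))) +
      σ i * (r i ^ γ * β ((r i)⁻¹ • (p j - r j • e - p i))) -
      2 * (σ i * (r i ^ γ * β ((r i)⁻¹ • (p j - p i)))) +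
      (if i = j then 2 * σ j * r j ^ γ else 0) := ⟨_, rfl⟩
  rw [← hg] at hH
  have hgi : ∀ i, i ≠ j → |g i| ≤ r i ^ γ *
      |β ((r i)⁻¹ • (p j - p i) + (r i)⁻¹ • (r j • e)) +
        β ((r i)⁻¹ • (p j - p i) - (r i)⁻¹ • (r j • e)) - 2 * β ((r i)⁻¹ • (p j - p i))| := by
    intro i hij
    have h2 : 0 < r i ^ γ := Real.rpow_pos_of_pos (hr0 i) _
    have e1 : (r i)⁻¹ • (p j + r j • e - p i) = (r i)⁻¹ • (p j - p i) + (r i)⁻¹ • (r j • e) := by
      rw [← smul_add]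
      congr 1
      ring
    have e2 : (r i)⁻¹ • (p j - r j • e - p i) = (r i)⁻¹ • (p j - p i) - (r i)⁻¹ • (r j • e) := by
      rw [← smul_sub]
      congr 1
      ring
    rw [hg]
    simp only [if_neg hij, add_zero]
    rw [e1, e2]
    have e3 : σ i * (r i ^ γ * β ((r i)⁻¹ • (p j - p i) + (r i)⁻¹ • r j • e)) +
          σ i * (r i ^ γ * β ((r i)⁻¹ • (p j - p i) - (r i)⁻¹ • r j • e)) -
        2 * (σ i * (r i ^ γ * β ((r i)⁻¹ • (p j - p i)))) =
        σ i * (r i ^ γ * (β ((r i)⁻¹ • (p j - p i) + (r i)⁻¹ • r j • e) +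
          β ((r i)⁻¹ • (p j - p i) - (r i)⁻¹ • r j • e) - 2 * β ((r i)⁻¹ • (p j - p i)))) := by
      ring
    rw [e3, abs_mul, abs_mul, abs_of_pos h2]
    calc |σ i| * _ ≤ 1 * _ := mul_le_mul_of_nonneg_right (hσ i) (by positivity)
      _ = _ := one_mul _
  have hgj : g j = 0 := by
    rw [hg]
    simp only [if_true, sub_self, smul_zero]
    have e1 : β ((r j)⁻¹ • (p j + r j • e - p j)) = 0 := by
      apply h1
      rw [add_sub_cancel_left, smul_smul, inv_mul_cancel₀ (hr0 j).ne', one_smul, he]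
    have e2 : β ((r j)⁻¹ • (p j - r j • e - p j)) = 0 := by
      apply h1
      rw [sub_sub_cancel_left, smul_neg, norm_neg, smul_smul, inv_mul_cancel₀ (hr0 j).ne',
        one_smul, he]
    rw [e1, e2, h0]
    ring
  -- terms before `j`
  have hlt : ∀ i, i < j → |g i| ≤ R * B * q ^ (j - i) := by
    intro i hij
    have hrg : 0 < r i ^ γ := Real.rpow_pos_of_pos (hr0 i) _
    refine (hgi i hij.ne).trans ?_
    have h3 := h2 ((r i)⁻¹ • (p j - p i)) ((r i)⁻¹ • (r j • e))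
    have h4 : ‖(r i)⁻¹ • (r j • e)‖ = r j / r i := by
      rw [norm_smul, norm_smul, he, mul_one, Real.norm_of_nonneg (hr0 j).le,
        Real.norm_of_nonneg (inv_nonneg.2 (hr0 i).le), div_eq_inv_mul]
    rw [h4] at h3
    obtain ⟨ρ, hρ⟩ : ∃ ρ, ρ = r j / r i := ⟨_, rfl⟩
    rw [← hρ] at h3
    have hρ0 : 0 < ρ := by rw [hρ]; exact div_pos (hr0 j) (hr0 i)
    have hργ : ρ ^ γ = R / r i ^ γ := by
      rw [hρ, Real.div_rpow (hr0 j).le (hr0 i).le, hR]
    have hρθ : ρ ≤ θ ^ (j - i) := by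
      rw [hρ, div_le_iff₀ (hr0 i)]
      have h5 := D4_pow hθ hr i (j - i)
      rwa [Nat.add_sub_cancel' hij.le] at h5
    have h6 : r i ^ γ * ρ ^ 2 = R * ρ ^ (2 - γ) := by
      rw [Real.rpow_sub hρ0, hργ, Real.rpow_two]
      field_simp
    have h7 : ρ ^ (2 - γ) ≤ q ^ (j - i) := by
      refine (Real.rpow_le_rpow hρ0.le hρθ (by linarith)).trans (le_of_eq ?_)
      rw [hqd, ← Real.rpow_natCast, ← Real.rpow_natCast, ← Real.rpow_mul hθ.le,
        ← Real.rpow_mul hθ.le, mul_comm]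
    calc r i ^ γ * _ ≤ r i ^ γ * (B * ρ ^ 2) := mul_le_mul_of_nonneg_left h3 hrg.le
      _ = B * (r i ^ γ * ρ ^ 2) := by ring
      _ = B * R * ρ ^ (2 - γ) := by rw [h6]; ring
      _ ≤ B * R * q ^ (j - i) := mul_le_mul_of_nonneg_left h7 (by positivity)
      _ = R * B * q ^ (j - i) := by ring
  -- terms after `j`
  have hgt : ∀ m, |g (j + 1 + m)| ≤ 4 * R * q' ^ (m + 1) := by
    intro m
    have h2 : 0 < r (j + 1 + m) ^ γ := Real.rpow_pos_of_pos (hr0 _) _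
    refine (hgi _ (by omega)).trans ?_
    have h3 : ∀ x y z : ℂ, |β x + β y - 2 * β z| ≤ 4 := by
      intro x y z
      have hx := abs_le.1 (hβ x)
      have hy := abs_le.1 (hβ y)
      have hz := abs_le.1 (hβ z)
      rw [abs_le]
      constructor <;> linarith [hx.1, hx.2, hy.1, hy.2, hz.1, hz.2]
    have h4 := hrpow j (m + 1)
    rw [show j + (m + 1) = j + 1 + m by ring, ← hR] at h4
    calc r (j + 1 + m) ^ γ * _ ≤ r (j + 1 + m) ^ γ * 4 :=
          mul_le_mul_of_nonneg_left (h3 _ _ _) h2.le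
      _ ≤ (q' ^ (m + 1) * R) * 4 := by linarith
      _ = 4 * R * q' ^ (m + 1) := by ring
  have hpart : ∀ m, |∑ i ∈ Finset.range (j + 1 + m), g i| ≤ (1 / 2) * R := by
    intro m
    rw [Finset.sum_range_add, Finset.sum_range_succ, hgj, add_zero]
    have hA : |∑ i ∈ Finset.range j, g i| ≤ R * B * (2 * q) := by
      refine (Finset.abs_sum_le_sum_abs _ _).trans ?_
      refine (Finset.sum_le_sum fun i hi => hlt i (Finset.mem_range.1 hi)).trans ?_
      rw [← Finset.mul_sum]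
      exact mul_le_mul_of_nonneg_left (D4_geo1 hq0.le hqhalf j) (by positivity)
    have hB' : |∑ i ∈ Finset.range m, g (j + 1 + i)| ≤ 4 * R * (2 * q') := by
      refine (Finset.abs_sum_le_sum_abs _ _).trans ?_
      refine (Finset.sum_le_sum fun i _ => hgt i).trans ?_
      rw [← Finset.mul_sum]
      exact mul_le_mul_of_nonneg_left (D4_geo2 hq0'.le hqhalf' m) (by positivity)
    have h5 : R * B * (2 * q) ≤ R / 4 := by
      have h6 : B * q ≤ 1 / 8 := by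
        have h7 := mul_le_mul_of_nonneg_left hq (show (0 : ℝ) ≤ B by linarith)
        have h8 : B * (1 / (8 * B)) = 1 / 8 := by field_simp
        linarith
      nlinarith [mul_le_mul_of_nonneg_left h6 hRp.le]
    have h6 : 4 * R * (2 * q') ≤ R / 4 := by
      nlinarith [mul_le_mul_of_nonneg_left hq' hRp.le]
    calc |∑ i ∈ Finset.range j, g i + ∑ i ∈ Finset.range m, g (j + 1 + i)| ≤
          |∑ i ∈ Finset.range j, g i| + |∑ i ∈ Finset.range m, g (j + 1 + i)| := abs_add_le _ _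
      _ ≤ (1 / 2) * R := by linarith
  have hlim := hH.tendsto_sum_nat
  have hlim2 : Tendsto (fun n => |∑ i ∈ Finset.range n, g i|) atTop
      (𝓝 |ser β γ p r σ (p j + r j • e) + ser β γ p r σ (p j - r j • e) -
        2 * ser β γ p r σ (p j) + 2 * σ j * r j ^ γ|) := hlim.abs
  rw [← hR] at hlim2 ⊢
  refine le_of_tendsto hlim2 ?_
  rw [eventually_atTop]
  refine ⟨j + 1, fun n hn => ?_⟩
  obtain ⟨m, rfl⟩ := Nat.exists_eq_add_of_le hn
  exact hpart m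

end Pool.Agent.YUT
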