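import Pool.Agent.YUT.D0
import Pool.Agent.YUT.D1
import Pool.Agent.YUT.D3a
import Pool.Agent.YUT.D4

open MeasureTheory Set Filter Topology
open scoped ContDiff

namespace Pool.Agent.YUT

open Pool.Agent.YUD

/-- [YUT-D5] rough functions are dense in `C^α(M)`. Proof: `β, B` from `exists_bump`, `θ` from
`off_terms` with `γ = α`, `C` from `ser_holder`, `ε' = ε / C`, tasks `p, e, r` from `exists_tasks`.
Choose `σ j = 1` or `-1` such that with `Δ_j f = f(p_j + r_j e_j) + f(p_j - r_j e_j) - 2 f(p_j)`: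
`|Δ_j f - 2 σ_j ε' r_j^α| ≥ 2 ε' r_j^α` (one of the two signs works). `w₀ = f + ε' ser`. Then
`w₀ - f = ε' ser` has `C^α` norm at most `ε' C = ε`. Roughness with constant `c = ε'`: given
`x₀, e, δ` let `τ > 0` be so small that `2 K τ^α ≤ ε' / 2`, and take the task `j` with
`‖p_j - x₀‖ < δ`, `‖e_j - e‖ < min δ τ`, `r_j < δ`; `x = p_j`, `s = r_j`:
`|Δ_{r_j e} w₀(p_j)| ≥ |Δ_{r_j e_j} f - 2 σ_j ε' r_j^α| - |Δ_{r_j e} f - Δ_{r_j e_j} f| - ε'/2 r_j^α
≥ (2 - 1/2 - 1/2) ε' r_j^α`, because `|Δ_{r_j e} f - Δ_{r_j e_j} f| ≤ 2 K (r_j ‖e - e_j‖)^α`. -/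
theorem dense_holder {M : Set ℂ} (hM : IsOpen M) (hne : M.Nonempty) {α : ℝ} (hα : 0 < α)
    (hα1 : α < 1) {f : ℂ → ℝ} {K : ℝ} (hf : HNormLe M α K f) {ε : ℝ} (hε : 0 < ε) :
    ∃ w₀ : ℂ → ℝ, HNormLe M α ε (fun x => w₀ x - f x) ∧ Rough M α w₀ := by
  classical
  obtain ⟨β, B, hB, hβs, hβ0, hβ1, hβle, -, -, hβlip, hβsd⟩ := exists_bump
  obtain ⟨θ, hθ, hθ1, hoff⟩ := off_terms hB hα (by linarith) hβ0 hβ1 hβle hβsd
  obtain ⟨C, hC, hser⟩ := ser_holder hB hβle hβlip hθ hθ1 hα hα1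
  obtain ⟨p, e, r, htask, hr, hdense⟩ := exists_tasks hM hne hθ hθ1
  obtain ⟨a0, c0, ha0, hc0, -, -, hfH⟩ := hf
  have hr0 : ∀ j, 0 < r j := fun j => (htask j).2.2.1
  have hr1 : ∀ j, r j ≤ 1 := fun j => (htask j).2.2.2.1
  have hεC : 0 < ε / C := div_pos hε hC
  obtain ⟨ε', hε'⟩ : ∃ ε', ε' = ε / C := ⟨_, rfl⟩
  rw [← hε'] at hεC
  have hεC' : ε' * C = ε := by rw [hε']; field_simp
  let Δ : ℕ → ℝ := fun j => f (p j + r j • e j) + f (p j - r j • e j) - 2 * f (p j)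
  let σ : ℕ → ℝ := fun j => if 0 ≤ Δ j then -1 else 1
  have hσ : ∀ j, |σ j| ≤ 1 := by
    intro j
    simp only [σ]
    split_ifs <;> simp
  have hΔσ : ∀ j, 2 * ε' * r j ^ α ≤ |Δ j - 2 * σ j * ε' * r j ^ α| := by
    intro j
    have hrp : 0 < r j ^ α := Real.rpow_pos_of_pos (hr0 j) α
    have hpp : 0 < ε' * r j ^ α := mul_pos hεC hrp
    simp only [σ]
    split_ifs with h
    · refine le_trans ?_ (le_abs_self _)
      nlinarith
    · rw [not_le] at h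
      refine le_trans ?_ (neg_le_abs _)
      nlinarith
  obtain ⟨a, c, ha, hc, hac, hS1, hS2⟩ := hser p r σ hr0 hr1 hr hσ M
  refine ⟨fun x => f x + ε' * ser β α p r σ x, ?_, ε', hεC, ?_⟩
  · refine ⟨ε' * a, ε' * c, by positivity, by positivity, ?_, ?_, ?_⟩
    · rw [← mul_add, ← hεC']
      exact mul_le_mul_of_nonneg_left hac hεC.le
    · intro x hx
      show |f x + ε' * ser β α p r σ x - f x| ≤ ε' * a
      rw [add_sub_cancel_left, abs_mul, abs_of_pos hεC]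
      exact mul_le_mul_of_nonneg_left (hS1 x hx) hεC.le
    · intro x hx y hy
      show |f x + ε' * ser β α p r σ x - f x - (f y + ε' * ser β α p r σ y - f y)| ≤
        ε' * c * ‖x - y‖ ^ α
      rw [add_sub_cancel_left, add_sub_cancel_left, ← mul_sub, abs_mul, abs_of_pos hεC, mul_assoc]
      exact mul_le_mul_of_nonneg_left (hS2 x hx y hy) hεC.le
  · intro x₀ hx₀ e₁ he₁ δ hδ
    -- the scale `τ`
    have hb : 0 < ε' / (4 * (c0 + 1)) := by positivity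
    obtain ⟨τ, hτ⟩ : ∃ τ, τ = (ε' / (4 * (c0 + 1))) ^ (1 / α) := ⟨_, rfl⟩
    have hτ0 : 0 < τ := by rw [hτ]; exact Real.rpow_pos_of_pos hb _
    have hτα : τ ^ α = ε' / (4 * (c0 + 1)) := by
      rw [hτ, ← Real.rpow_mul hb.le, one_div, inv_mul_cancel₀ hα.ne', Real.rpow_one]
    have hτ2 : 2 * c0 * τ ^ α ≤ ε' / 2 := by
      rw [hτα]
      have h1 : 2 * c0 * (ε' / (4 * (c0 + 1))) = (ε' / 2) * (c0 / (c0 + 1)) := by
        field_simp
        ring
      rw [h1]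
      have h2 : c0 / (c0 + 1) ≤ 1 := by
        rw [div_le_one (by linarith)]
        linarith
      calc (ε' / 2) * (c0 / (c0 + 1)) ≤ (ε' / 2) * 1 := by gcongr
        _ = ε' / 2 := mul_one _
    obtain ⟨j, hj1, hj2, hj3⟩ := hdense x₀ hx₀ e₁ he₁ (min δ τ) (lt_min hδ hτ0)
    have hball := (htask j).2.2.2.2
    have hej : ‖e j‖ = 1 := (htask j).2.1
    have hrj := hr0 j
    refine ⟨p j, r j, hrj, hj3.trans_le (min_le_left _ _), hj1.trans_le (min_le_left _ _), hball, ?_⟩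
    have hrp : 0 < r j ^ α := Real.rpow_pos_of_pos hrj α
    have hmem : ∀ v : ℂ, ‖v‖ = 1 → p j + r j • v ∈ M ∧ p j - r j • v ∈ M := by
      intro v hv
      constructor
      · apply hball
        rw [Metric.mem_closedBall, dist_eq_norm, add_sub_cancel_left, norm_smul, hv, mul_one,
          Real.norm_of_nonneg hrj.le]
      · apply hball
        rw [Metric.mem_closedBall, dist_eq_norm, sub_sub_cancel_left, norm_neg, norm_smul, hv,
          mul_one, Real.norm_of_nonneg hrj.le]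
    have hno := hoff p r σ hr0 hr1 hr hσ j e₁ he₁
    have hpow : ∀ v : ℂ, ‖v‖ = r j * ‖e j - e₁‖ → c0 * ‖v‖ ^ α ≤ c0 * τ ^ α * r j ^ α := by
      intro v hv
      rw [hv, mul_assoc]
      refine mul_le_mul_of_nonneg_left ?_ hc0
      rw [← Real.mul_rpow hτ0.le hrj.le]
      refine Real.rpow_le_rpow (by positivity) ?_ hα.le
      rw [mul_comm]
      exact mul_le_mul_of_nonneg_right (hj2.le.trans (min_le_right _ _)) hrj.le
    have hd1 : |f (p j + r j • e₁) - f (p j + r j • e j)| ≤ c0 * τ ^ α * r j ^ α := by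
      refine (hfH _ (hmem e₁ he₁).1 _ (hmem (e j) hej).1).trans (hpow _ ?_)
      rw [add_sub_add_left_eq_sub, ← smul_sub, norm_smul, Real.norm_of_nonneg hrj.le,
        norm_sub_rev]
    have hd2 : |f (p j - r j • e₁) - f (p j - r j • e j)| ≤ c0 * τ ^ α * r j ^ α := by
      refine (hfH _ (hmem e₁ he₁).2 _ (hmem (e j) hej).2).trans (hpow _ ?_)
      rw [sub_sub_sub_cancel_left, ← smul_sub, norm_smul, Real.norm_of_nonneg hrj.le]
    have hd3 : 2 * (c0 * τ ^ α * r j ^ α) ≤ ε' / 2 * r j ^ α := by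
      calc 2 * (c0 * τ ^ α * r j ^ α) = (2 * c0 * τ ^ α) * r j ^ α := by ring
        _ ≤ ε' / 2 * r j ^ α := mul_le_mul_of_nonneg_right hτ2 hrp.le
    have hmain := hΔσ j
    obtain ⟨S1, hS1'⟩ : ∃ S1, S1 = ser β α p r σ (p j + r j • e₁) := ⟨_, rfl⟩
    obtain ⟨S2, hS2'⟩ : ∃ S2, S2 = ser β α p r σ (p j - r j • e₁) := ⟨_, rfl⟩
    obtain ⟨S0, hS0'⟩ : ∃ S0, S0 = ser β α p r σ (p j) := ⟨_, rfl⟩
    rw [← hS1', ← hS2', ← hS0'] at hno
    show ε' * r j ^ α ≤ |f (p j + r j • e₁) + ε' * ser β α p r σ (p j + r j • e₁) +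
      (f (p j - r j • e₁) + ε' * ser β α p r σ (p j - r j • e₁)) -
      2 * (f (p j) + ε' * ser β α p r σ (p j))|
    rw [← hS1', ← hS2', ← hS0']
    have hno2 : |ε' * (S1 + S2 - 2 * S0 + 2 * σ j * r j ^ α)| ≤ ε' / 2 * r j ^ α := by
      rw [abs_mul, abs_of_pos hεC]
      calc ε' * |S1 + S2 - 2 * S0 + 2 * σ j * r j ^ α| ≤ ε' * ((1 / 2) * r j ^ α) :=
            mul_le_mul_of_nonneg_left hno hεC.le
        _ = ε' / 2 * r j ^ α := by ring
    have hdec : Δ j - 2 * σ j * ε' * r j ^ α =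
        (f (p j + r j • e₁) + ε' * S1 + (f (p j - r j • e₁) + ε' * S2) -
          2 * (f (p j) + ε' * S0)) -
        ((f (p j + r j • e₁) - f (p j + r j • e j)) + (f (p j - r j • e₁) - f (p j - r j • e j)) +
          ε' * (S1 + S2 - 2 * S0 + 2 * σ j * r j ^ α)) := by
      simp only [Δ]
      ring
    rw [hdec] at hmain
    have ht1 := abs_sub (f (p j + r j • e₁) + ε' * S1 + (f (p j - r j • e₁) + ε' * S2) -
          2 * (f (p j) + ε' * S0)) ((f (p j + r j • e₁) - f (p j + r j • e j)) +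
          (f (p j - r j • e₁) - f (p j - r j • e j)) +
          ε' * (S1 + S2 - 2 * S0 + 2 * σ j * r j ^ α))
    have ht2 := abs_add_three (f (p j + r j • e₁) - f (p j + r j • e j))
      (f (p j - r j • e₁) - f (p j - r j • e j)) (ε' * (S1 + S2 - 2 * S0 + 2 * σ j * r j ^ α))
    linarith

end Pool.Agent.YUT
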