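import Pool.Agent.YUT.D2b

open MeasureTheory Set Filter Topology
open scoped ContDiff

namespace Pool.Agent.YUT

open Pool.Agent.YUD

/-- [YUT-D3b] `C^{1,α}` bound of the series, exponent `γ = 1 + α`: termwise differentiation
(`hasFDerivAt_tsum` or `fderiv_tsum`, derivatives bounded by `r_j^α B ≤ θ^(jα) B`),
`fderiv ℝ (ser ..) x = ∑' j, σ j • r j ^ α • fderiv ℝ β ((r j)⁻¹ • (x - p j))`, and `series_bound`
with `V j x = σ j • fderiv ℝ β ((r j)⁻¹ • (x - p j))`. -/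
theorem ser_holder_one {β : ℂ → ℝ} {B θ α : ℝ} (hB : 1 ≤ B) (hβs : ContDiff ℝ ∞ β)
    (hβ : ∀ x, |β x| ≤ 1) (hβ1 : ∀ x, ‖fderiv ℝ β x‖ ≤ B)
    (hβ2 : ∀ x y, ‖fderiv ℝ β x - fderiv ℝ β y‖ ≤ B * ‖x - y‖)
    (hθ : 0 < θ) (hθ1 : θ < 1) (hα : 0 < α) (hα1 : α < 1) :
    ∃ C : ℝ, 0 < C ∧ ∀ (p : ℕ → ℂ) (r σ : ℕ → ℝ), (∀ j, 0 < r j) → (∀ j, r j ≤ 1) →
      (∀ j, r (j + 1) ≤ θ * r j) → (∀ j, |σ j| ≤ 1) →
      ∀ M : Set ℂ, IsOpen M → NormLe M α C (ser β (1 + α) p r σ) := by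
  obtain ⟨C0, hC0, hC⟩ := series_bound (E := ℂ →L[ℝ] ℝ) hθ hθ1 hα hα1 (by linarith : (0 : ℝ) ≤ B)
  have hq0 : 0 < θ ^ α := Real.rpow_pos_of_pos hθ α
  have hq1 : θ ^ α < 1 := Real.rpow_lt_one hθ.le hθ1 hα
  have hpos : 0 < (1 - θ ^ α)⁻¹ := inv_pos.mpr (by linarith)
  refine ⟨(1 - θ ^ α)⁻¹ + C0 + C0, by linarith, ?_⟩
  intro p r σ hr hr1 hrθ hσ M hM
  -- geometric decay
  have hgeo : ∀ j, r j ≤ θ ^ j := by
    intro j
    induction j with
    | zero => simpa using hr1 0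
    | succ n ih =>
      calc r (n + 1) ≤ θ * r n := hrθ n
        _ ≤ θ * θ ^ n := by gcongr
        _ = θ ^ (n + 1) := by ring
  have hgeoα : ∀ j, r j ^ α ≤ (θ ^ α) ^ j := by
    intro j
    calc r j ^ α ≤ (θ ^ j) ^ α := Real.rpow_le_rpow (hr j).le (hgeo j) hα.le
      _ = (θ ^ α) ^ j := by
        rw [← Real.rpow_natCast, ← Real.rpow_natCast, ← Real.rpow_mul hθ.le, ← Real.rpow_mul hθ.le,
          mul_comm]
  set V : ℕ → ℂ → (ℂ →L[ℝ] ℝ) := fun j x => σ j • fderiv ℝ β ((r j)⁻¹ • (x - p j)) with hV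
  have hVB : ∀ j x, ‖V j x‖ ≤ B := by
    intro j x
    simp only [hV, norm_smul, Real.norm_eq_abs]
    calc |σ j| * ‖fderiv ℝ β ((r j)⁻¹ • (x - p j))‖ ≤ 1 * B := by
          gcongr
          · exact hσ j
          · exact hβ1 _
      _ = B := one_mul B
  have hVL : ∀ j x y, ‖V j x - V j y‖ ≤ B * ‖x - y‖ / r j := by
    intro j x y
    have h0 : V j x - V j y = σ j • (fderiv ℝ β ((r j)⁻¹ • (x - p j)) -
        fderiv ℝ β ((r j)⁻¹ • (y - p j))) := by
      simp only [hV]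
      exact (smul_sub (σ j) _ _).symm
    rw [h0, norm_smul, Real.norm_eq_abs]
    have h1 : ‖fderiv ℝ β ((r j)⁻¹ • (x - p j)) - fderiv ℝ β ((r j)⁻¹ • (y - p j))‖
        ≤ B * ‖x - y‖ / r j := by
      refine (hβ2 _ _).trans (le_of_eq ?_)
      rw [← smul_sub, sub_sub_sub_cancel_right, norm_smul, Real.norm_eq_abs, abs_inv,
        abs_of_pos (hr j)]
      field_simp
    calc |σ j| * ‖fderiv ℝ β ((r j)⁻¹ • (x - p j)) - fderiv ℝ β ((r j)⁻¹ • (y - p j))‖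
        ≤ 1 * (B * ‖x - y‖ / r j) := by
          gcongr
          exact hσ j
      _ = _ := one_mul _
  obtain ⟨hs, hn, hh⟩ := hC r V hr hr1 hrθ hVB hVL
  -- the terms
  set F : ℕ → ℂ → ℝ := fun j x => σ j * (r j ^ (1 + α) * β ((r j)⁻¹ • (x - p j))) with hF
  have hFd : ∀ j x, HasFDerivAt (F j) (r j ^ α • V j x) x := by
    intro j x
    have h1 : HasFDerivAt (fun x : ℂ => (r j)⁻¹ • (x - p j))
        ((r j)⁻¹ • (ContinuousLinearMap.id ℝ ℂ)) x :=
      ((hasFDerivAt_id x).sub_const (p j)).const_smul (r j)⁻¹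
    have h2 : HasFDerivAt β (fderiv ℝ β ((r j)⁻¹ • (x - p j))) ((r j)⁻¹ • (x - p j)) :=
      (hβs.differentiable (by simp) _).hasFDerivAt
    have h3 := (h2.comp x h1)
    have h4 := (h3.const_mul (r j ^ (1 + α))).const_mul (σ j)
    refine (h4.congr_fderiv ?_)
    ext v
    simp only [hV, _root_.smul_apply, ContinuousLinearMap.comp_apply,
      ContinuousLinearMap.id_apply, smul_eq_mul, map_smul]
    rw [Real.rpow_add (hr j), Real.rpow_one]
    have := (hr j).ne'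
    field_simp
  have hu : Summable fun j : ℕ => (θ ^ α) ^ j * B :=
    (summable_geometric_of_lt_one hq0.le hq1).mul_right B
  have hFn : ∀ j x, ‖F j x‖ ≤ (θ ^ α) ^ j := by
    intro j x
    simp only [hF, norm_mul, Real.norm_eq_abs]
    have h1 : |r j ^ (1 + α)| ≤ (θ ^ α) ^ j := by
      rw [abs_of_pos (Real.rpow_pos_of_pos (hr j) _)]
      refine le_trans ?_ (hgeoα j)
      exact Real.rpow_le_rpow_of_exponent_ge (hr j) (hr1 j) (by linarith)
    calc |σ j| * (|r j ^ (1 + α)| * |β ((r j)⁻¹ • (x - p j))|) ≤ 1 * ((θ ^ α) ^ j * 1) := by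
          gcongr
          · exact hσ j
          · exact hβ _
      _ = _ := by ring
  have hsF : ∀ x, Summable fun j => F j x := fun x =>
    Summable.of_norm_bounded (summable_geometric_of_lt_one hq0.le hq1) (fun j => hFn j x)
  have hD : ∀ x, HasFDerivAt (ser β (1 + α) p r σ) (∑' j, r j ^ α • V j x) x := by
    intro x
    refine hasFDerivAt_tsum (u := fun j : ℕ => (θ ^ α) ^ j * B) (f := F)
      (f' := fun j x => r j ^ α • V j x) hu hFd ?_ (hsF 0) x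
    intro j x
    rw [norm_smul, Real.norm_eq_abs, abs_of_pos (Real.rpow_pos_of_pos (hr j) _)]
    gcongr
    · exact hgeoα j
    · exact hVB j x
  refine ⟨fun x _ => (hD x).differentiableAt.differentiableWithinAt, (1 - θ ^ α)⁻¹, C0, C0,
    hpos.le, hC0, hC0, le_rfl, ?_, ?_, ?_⟩
  · intro x _
    have := tsum_of_norm_bounded (hasSum_geometric_of_lt_one hq0.le hq1) (fun j => hFn j x)
    exact this
  · intro x _
    rw [(hD x).fderiv]
    exact hn x
  · intro x _ y _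
    rw [(hD x).fderiv, (hD y).fderiv]
    exact hh x y

end Pool.Agent.YUT
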