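import Pool.Agent.YUT.D0
import Pool.Agent.YUT.D1
import Pool.Agent.YUT.D3b
import Pool.Agent.YUT.D4

open MeasureTheory Set Filter Topology
open scoped ContDiff

namespace Pool.Agent.YUT

open Pool.Agent.YUD

/-- the second difference depends on the direction in a controlled way -/
theorem D6_diff {M : Set ℂ} (hM : IsOpen M) {α : ℝ} (hα : 0 < α) (hα1 : α < 1) {f : ℂ → ℝ}
    {K : ℝ} (hf : NormLe M α K f) {p e e' : ℂ} {r : ℝ} (hr : 0 < r)
    (hball : Metric.closedBall p r ⊆ M) (he : ‖e‖ = 1) (he' : ‖e'‖ = 1) :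
    |(f (p + r • e) + f (p - r • e)) - (f (p + r • e') + f (p - r • e'))| ≤
      2 * K * r ^ (1 + α) * ‖e - e'‖ := by
  have hK : 0 ≤ K := hf.nonneg
  have hmem : ∀ v ∈ Metric.closedBall (0 : ℂ) r, p + v ∈ M ∧ p - v ∈ M := by
    intro v hv
    rw [mem_closedBall_zero_iff] at hv
    refine ⟨hball ?_, hball ?_⟩
    · rw [Metric.mem_closedBall, dist_eq_norm, add_sub_cancel_left]
      exact hv
    · rw [Metric.mem_closedBall, dist_eq_norm, sub_sub_cancel_left, norm_neg]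
      exact hv
  have hder : ∀ v ∈ Metric.closedBall (0 : ℂ) r,
      HasFDerivWithinAt (fun v => f (p + v) + f (p - v))
        (fderiv ℝ f (p + v) - fderiv ℝ f (p - v)) (Metric.closedBall (0 : ℂ) r) v := by
    intro v hv
    obtain ⟨h1, h2⟩ := hmem v hv
    have d1 := (hf.differentiableAt hM h1).hasFDerivAt
    have d2 := (hf.differentiableAt hM h2).hasFDerivAt
    have e1 : HasFDerivAt (fun v : ℂ => p + v) (ContinuousLinearMap.id ℝ ℂ) v :=
      (hasFDerivAt_id v).const_add p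
    have e2 : HasFDerivAt (fun v : ℂ => p - v) (-ContinuousLinearMap.id ℝ ℂ) v :=
      (hasFDerivAt_id v).const_sub p
    have c1 := d1.comp v e1
    have c2 := d2.comp v e2
    have c3 := c1.add c2
    refine (c3.congr_fderiv ?_).hasFDerivWithinAt
    ext w
    simp [sub_eq_add_neg]
  have hbd : ∀ v ∈ Metric.closedBall (0 : ℂ) r,
      ‖fderiv ℝ f (p + v) - fderiv ℝ f (p - v)‖ ≤ 2 * K * r ^ α := by
    intro v hv
    obtain ⟨h1, h2⟩ := hmem v hv
    rw [mem_closedBall_zero_iff] at hv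
    refine (hf.holder h1 h2).trans ?_
    have e1 : ‖(p + v) - (p - v)‖ ≤ 2 * r := by
      have : (p + v) - (p - v) = (2 : ℝ) • v := by
        rw [two_smul]
        ring
      rw [this, norm_smul, Real.norm_eq_abs, abs_of_pos (by norm_num : (0 : ℝ) < 2)]
      linarith
    have e2 : ‖(p + v) - (p - v)‖ ^ α ≤ (2 * r) ^ α :=
      Real.rpow_le_rpow (norm_nonneg _) e1 hα.le
    have e3 : (2 * r) ^ α ≤ 2 * r ^ α := by
      rw [Real.mul_rpow (by norm_num) hr.le]
      have : (2 : ℝ) ^ α ≤ 2 ^ (1 : ℝ) := Real.rpow_le_rpow_of_exponent_le (by norm_num) hα1.le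
      rw [Real.rpow_one] at this
      exact mul_le_mul_of_nonneg_right this (Real.rpow_nonneg hr.le _)
    calc K * ‖(p + v) - (p - v)‖ ^ α ≤ K * (2 * r ^ α) :=
          mul_le_mul_of_nonneg_left (e2.trans e3) hK
      _ = 2 * K * r ^ α := by ring
  have hin : ∀ e : ℂ, ‖e‖ = 1 → r • e ∈ Metric.closedBall (0 : ℂ) r := by
    intro e he
    rw [mem_closedBall_zero_iff, norm_smul, he, mul_one, Real.norm_eq_abs, abs_of_pos hr]
  have h := (convex_closedBall (0 : ℂ) r).norm_image_sub_le_of_norm_hasFDerivWithin_le hder hbd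
    (hin e' he') (hin e he)
  rw [Real.norm_eq_abs] at h
  refine h.trans (le_of_eq ?_)
  rw [← smul_sub, norm_smul, Real.norm_eq_abs, abs_of_pos hr, Real.rpow_add hr, Real.rpow_one]
  ring

/-- [YUT-D6] rough functions (exponent `1 + α`) are dense in `C^{1,α}(M)`. Proof as in [YUT-D6] with
`γ = 1 + α`, `ser_holder_one`; the only change: for a function `f` with `NormLe M α K f` and
`closedBall p r ⊆ M`, `‖e‖ = ‖e'‖ = 1`:
`|f(p+re) + f(p-re) - f(p+re') - f(p-re')| ≤ K (2r)^α r ‖e - e'‖ ` (up to a harmless constant such as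
`4 K r^(1+α) ‖e - e'‖`): the function `g(v) = f(p+v) + f(p-v)` has derivative
`fderiv f (p+v) - fderiv f (p-v)` of norm at most `K (2r)^α` on the convex closed ball of radius `r`
(mean value inequality on the segment from `r e'` to `r e`). -/
theorem dense_holder_one {M : Set ℂ} (hM : IsOpen M) (hne : M.Nonempty) {α : ℝ} (hα : 0 < α)
    (hα1 : α < 1) {f : ℂ → ℝ} {K : ℝ} (hf : NormLe M α K f) {ε : ℝ} (hε : 0 < ε) :
    ∃ w₀ : ℂ → ℝ, NormLe M α ε (fun x => w₀ x - f x) ∧ Rough M (1 + α) w₀ := by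
  classical
  have hK : 0 ≤ K := hf.nonneg
  obtain ⟨β, B, hB, hβs, hβ0, hβz, hβ1, hβf, hβf2, _, hβ2⟩ := exists_bump
  obtain ⟨θ, hθ, hθ1, hoff⟩ := off_terms (γ := 1 + α) hB (by linarith) (by linarith) hβ0 hβz hβ1 hβ2
  obtain ⟨C, hC, hser⟩ := ser_holder_one hB hβs hβ1 hβf hβf2 hθ hθ1 hα hα1
  obtain ⟨p, e, r, hp, hr, hdense⟩ := exists_tasks hM hne hθ hθ1
  set ε' : ℝ := ε / C with hε'
  have hε'0 : 0 < ε' := div_pos hε hC
  let D : ℕ → ℝ := fun j => f (p j + r j • e j) + f (p j - r j • e j) - 2 * f (p j)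
  let σ : ℕ → ℝ := fun j => if D j ≤ 0 then 1 else -1
  have hσ : ∀ j, |σ j| ≤ 1 := by
    intro j
    show |if D j ≤ 0 then (1 : ℝ) else -1| ≤ 1
    split_ifs <;> simp
  have hr0 : ∀ j, 0 < r j := fun j => (hp j).2.2.1
  have hr1 : ∀ j, r j ≤ 1 := fun j => (hp j).2.2.2.1
  refine ⟨fun x => f x + ε' * ser β (1 + α) p r σ x, ?_, ε', hε'0, ?_⟩
  · have h1 := (hser p r σ hr0 hr1 hr hσ M hM).const_mul hM ε'
    rw [abs_of_pos hε'0, hε', div_mul_cancel₀ _ hC.ne'] at h1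
    refine h1.congr hM fun x _ => ?_
    rw [hε']
    ring
  · intro x₀ hx₀ e₀ he₀ δ hδ
    have hτ : 0 < ε' / (4 * (K + 1)) := by positivity
    obtain ⟨j, hj1, hj2, hj3⟩ := hdense x₀ hx₀ e₀ he₀ (min δ (ε' / (4 * (K + 1)))) (lt_min hδ hτ)
    have hball := (hp j).2.2.2.2
    refine ⟨p j, r j, hr0 j, hj3.trans_le (min_le_left _ _), hj1.trans_le (min_le_left _ _),
      hball, ?_⟩
    have hrp : 0 < r j ^ (1 + α) := Real.rpow_pos_of_pos (hr0 j) _
    have h1 := hoff p r σ hr0 hr1 hr hσ j e₀ he₀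
    have h2 := D6_diff hM hα hα1 hf (hr0 j) hball he₀ (hp j).2.1
    have h3 : ‖e₀ - e j‖ ≤ ε' / (4 * (K + 1)) := by
      rw [norm_sub_rev]
      exact (hj2.trans_le (min_le_right _ _)).le
    have h4 : 2 * K * r j ^ (1 + α) * ‖e₀ - e j‖ ≤ (1 / 2) * ε' * r j ^ (1 + α) := by
      have h5 : 2 * K * ‖e₀ - e j‖ ≤ (1 / 2) * ε' := by
        have h6 : 2 * K * ‖e₀ - e j‖ ≤ 2 * K * (ε' / (4 * (K + 1))) :=
          mul_le_mul_of_nonneg_left h3 (by positivity)
        have h7 : 2 * K * (ε' / (4 * (K + 1))) ≤ (1 / 2) * ε' := by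
          rw [mul_div_assoc', div_le_iff₀ (by positivity)]
          nlinarith
        linarith
      calc 2 * K * r j ^ (1 + α) * ‖e₀ - e j‖ = (2 * K * ‖e₀ - e j‖) * r j ^ (1 + α) := by ring
        _ ≤ _ := mul_le_mul_of_nonneg_right h5 hrp.le
    have h5 := h2.trans h4
    set S1 := ser β (1 + α) p r σ (p j + r j • e₀)
    set S2 := ser β (1 + α) p r σ (p j - r j • e₀)
    set S3 := ser β (1 + α) p r σ (p j)
    set R := r j ^ (1 + α)
    have hDj : D j = f (p j + r j • e j) + f (p j - r j • e j) - 2 * f (p j) := rfl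
    have hσj : σ j = if D j ≤ 0 then 1 else -1 := rfl
    rw [abs_le] at h1 h5
    obtain ⟨h1a, h1b⟩ := h1
    obtain ⟨h5a, h5b⟩ := h5
    have h6 : ε' * (S1 + S2 - 2 * S3 + 2 * σ j * R) ≤ ε' * (1 / 2 * R) :=
      mul_le_mul_of_nonneg_left h1b hε'0.le
    have h7 : ε' * (-(1 / 2 * R)) ≤ ε' * (S1 + S2 - 2 * S3 + 2 * σ j * R) :=
      mul_le_mul_of_nonneg_left h1a hε'0.le
    rw [hσj] at h6 h7
    by_cases hD : D j ≤ 0
    · rw [if_pos hD] at h6 h7
      rw [hDj] at hD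
      refine le_trans ?_ (neg_le_abs _)
      nlinarith
    · rw [if_neg hD] at h6 h7
      rw [hDj] at hD
      push Not at hD
      refine le_trans ?_ (le_abs_self _)
      nlinarith

end Pool.Agent.YUT
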