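import Pool.Agent.YUT.Base

open MeasureTheory Set Filter Topology
open scoped ContDiff

namespace Pool.Agent.YUT

open Pool.Agent.YUD

theorem d7a_small {c γ D : ℝ} (hc : 0 < c) (hγ2 : γ < 2) :
    ∃ δ > 0, ∀ s : ℝ, 0 < s → s < δ → D * s ^ 2 ≤ c / 2 * s ^ γ := by
  have hB : 0 < 2 * (|D| + 1) := by positivity
  have h2 : 0 < 2 - γ := by linarith
  refine ⟨(c / (2 * (|D| + 1))) ^ (1 / (2 - γ)), by positivity, fun s hs hs1 => ?_⟩
  have h3 : s ^ (2 - γ) ≤ c / (2 * (|D| + 1)) := by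
    have h4 := Real.rpow_le_rpow hs.le hs1.le h2.le
    rw [← Real.rpow_mul (by positivity), one_div, inv_mul_cancel₀ h2.ne', Real.rpow_one] at h4
    exact h4
  have h5 : s ^ 2 = s ^ γ * s ^ (2 - γ) := by
    rw [← Real.rpow_add hs, add_sub_cancel]
    norm_cast
  have h6 : D * s ^ 2 ≤ (|D| + 1) * s ^ 2 := by
    have := le_abs_self D
    have := sq_nonneg s
    nlinarith
  have h7 : (|D| + 1) * s ^ 2 ≤ c / 2 * s ^ γ := by
    rw [h5]
    have h8 : 0 < s ^ γ := Real.rpow_pos_of_pos hs γ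
    have h9 : (|D| + 1) * s ^ (2 - γ) ≤ c / 2 := by
      calc (|D| + 1) * s ^ (2 - γ) ≤ (|D| + 1) * (c / (2 * (|D| + 1))) := by gcongr
        _ = c / 2 := by field_simp
    calc (|D| + 1) * (s ^ γ * s ^ (2 - γ)) = (|D| + 1) * s ^ (2 - γ) * s ^ γ := by ring
      _ ≤ c / 2 * s ^ γ := by gcongr
  exact h6.trans h7

/-- [YUT-D7a] roughness with exponent `γ < 2` is stable under the addition of a function with
quadratic second differences (`c s^γ - D s² ≥ (c/2) s^γ` for small `s`). -/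
theorem Rough.add {M : Set ℂ} {γ : ℝ} (hγ : 0 < γ) (hγ2 : γ < 2) {w k : ℂ → ℝ} {D : ℝ}
    (hw : Rough M γ w) (hk : ∀ x v, |k (x + v) + k (x - v) - 2 * k x| ≤ D * ‖v‖ ^ 2) :
    Rough M γ (fun x => w x + k x) := by
  obtain ⟨c, hc, hw⟩ := hw
  refine ⟨c / 2, by positivity, fun x₀ hx₀ e he δ hδ => ?_⟩
  obtain ⟨δ₁, hδ₁, h1⟩ := d7a_small (c := c) (γ := γ) (D := D) hc hγ2
  obtain ⟨x, s, hs, hsδ, hx, hball, hle⟩ := hw x₀ hx₀ e he (min δ δ₁) (lt_min hδ hδ₁)
  refine ⟨x, s, hs, hsδ.trans_le (min_le_left _ _), hx.trans_le (min_le_left _ _), hball, ?_⟩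
  have h2 := h1 s hs (hsδ.trans_le (min_le_right _ _))
  have h3 := hk x (s • e)
  rw [norm_smul, he, mul_one, Real.norm_eq_abs, sq_abs] at h3
  have h4 : w (x + s • e) + w (x - s • e) - 2 * w x =
      (w (x + s • e) + k (x + s • e) + (w (x - s • e) + k (x - s • e)) - 2 * (w x + k x)) -
      (k (x + s • e) + k (x - s • e) - 2 * k x) := by ring
  rw [h4] at hle
  have h5 := abs_sub (w (x + s • e) + k (x + s • e) + (w (x - s • e) + k (x - s • e))
    - 2 * (w x + k x)) (k (x + s • e) + k (x - s • e) - 2 * k x)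
  show c / 2 * s ^ γ ≤ |w (x + s • e) + k (x + s • e) + (w (x - s • e) + k (x - s • e))
    - 2 * (w x + k x)|
  linarith

end Pool.Agent.YUT
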