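import Pool.Agent.YUT.Base

open MeasureTheory Set Filter Topology
open scoped ContDiff

namespace Pool.Agent.YUT

open Pool.Agent.YUD

/-- a bounded Lipschitz function is Hölder -/
theorem d7b_holder {F : Type*} [NormedAddCommGroup F] {f : ℂ → F} {A L α : ℝ}
    (hA : ∀ x, ‖f x‖ ≤ A) (hL : ∀ x y, ‖f x - f y‖ ≤ L * ‖x - y‖) (hL0 : 0 ≤ L)
    (hα : 0 < α) (hα1 : α < 1) (x y : ℂ) : ‖f x - f y‖ ≤ (L + 2 * A) * ‖x - y‖ ^ α := by
  have hA0 : 0 ≤ A := (norm_nonneg _).trans (hA 0)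
  rcases le_total ‖x - y‖ 1 with h | h
  · rcases eq_or_lt_of_le (norm_nonneg (x - y)) with h0 | h0
    · have h1 := hL x y
      rw [← h0, mul_zero] at h1
      refine h1.trans ?_
      positivity
    · have h1 : ‖x - y‖ ≤ ‖x - y‖ ^ α := by
        calc ‖x - y‖ = ‖x - y‖ ^ (1 : ℝ) := (Real.rpow_one _).symm
          _ ≤ ‖x - y‖ ^ α := Real.rpow_le_rpow_of_exponent_ge h0 h hα1.le
      calc ‖f x - f y‖ ≤ L * ‖x - y‖ := hL x y
        _ ≤ L * ‖x - y‖ ^ α := by gcongr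
        _ ≤ (L + 2 * A) * ‖x - y‖ ^ α := by
          gcongr
          linarith
  · have h1 : 1 ≤ ‖x - y‖ ^ α := Real.one_le_rpow h hα.le
    calc ‖f x - f y‖ ≤ ‖f x‖ + ‖f y‖ := norm_sub_le _ _
      _ ≤ (L + 2 * A) * 1 := by linarith [hA x, hA y]
      _ ≤ (L + 2 * A) * ‖x - y‖ ^ α := by gcongr

theorem d7b_taylor {k : ℂ → ℝ} (hk : Differentiable ℝ k) {L : ℝ}
    (hL : ∀ x y, ‖fderiv ℝ k x - fderiv ℝ k y‖ ≤ L * ‖x - y‖) (hL0 : 0 ≤ L) (x v : ℂ) :
    |k (x + v) - k x - fderiv ℝ k x v| ≤ L * ‖v‖ ^ 2 := by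
  have h1 : ∀ y ∈ Metric.closedBall x ‖v‖,
      HasFDerivWithinAt k (fderiv ℝ k y) (Metric.closedBall x ‖v‖) y := fun y _ =>
    (hk y).hasFDerivAt.hasFDerivWithinAt
  have h2 : ∀ y ∈ Metric.closedBall x ‖v‖, ‖fderiv ℝ k y - fderiv ℝ k x‖ ≤ L * ‖v‖ := by
    intro y hy
    refine (hL y x).trans ?_
    have h3 : ‖y - x‖ ≤ ‖v‖ := by
      rw [← dist_eq_norm]
      exact hy
    gcongr
  have h4 := Convex.norm_image_sub_le_of_norm_hasFDerivWithin_le' h1 h2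
    (convex_closedBall x ‖v‖) (Metric.mem_closedBall_self (norm_nonneg v))
    (show x + v ∈ Metric.closedBall x ‖v‖ by simp [dist_eq_norm])
  rw [add_sub_cancel_left] at h4
  calc |k (x + v) - k x - fderiv ℝ k x v| ≤ L * ‖v‖ * ‖v‖ := h4
    _ = L * ‖v‖ ^ 2 := by ring

/-- [YUT-D7b] a smooth function with compact support has quadratic second differences, and finite
`C^α` and `C^{1,α}` norms. -/
theorem smooth_facts {k : ℂ → ℝ} (hk : ContDiff ℝ ∞ k) (hc : HasCompactSupport k) {α : ℝ}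
    (hα : 0 < α) (hα1 : α < 1) :
    ∃ D : ℝ, 0 ≤ D ∧ (∀ x v, |k (x + v) + k (x - v) - 2 * k x| ≤ D * ‖v‖ ^ 2) ∧
      ∀ M : Set ℂ, IsOpen M → HNormLe M α D k ∧ NormLe M α D k := by
  have hk' : ContDiff ℝ ∞ (fderiv ℝ k) := hk.fderiv_right (by simp)
  have hc' : HasCompactSupport (fderiv ℝ k) := hc.fderiv ℝ
  obtain ⟨A0, hA0⟩ := hc.exists_bound_of_continuous hk.continuous
  obtain ⟨A1, hA1⟩ := hc'.exists_bound_of_continuous hk'.continuous
  obtain ⟨L0, hL0⟩ := hk.lipschitzWith_of_hasCompactSupport hc (by simp)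
  obtain ⟨L1, hL1⟩ := hk'.lipschitzWith_of_hasCompactSupport hc' (by simp)
  have hL0' : ∀ x y, ‖k x - k y‖ ≤ L0 * ‖x - y‖ := fun x y => by
    simpa [dist_eq_norm] using hL0.dist_le_mul x y
  have hL1' : ∀ x y, ‖fderiv ℝ k x - fderiv ℝ k y‖ ≤ L1 * ‖x - y‖ := fun x y => by
    simpa [dist_eq_norm] using hL1.dist_le_mul x y
  have hd : Differentiable ℝ k := hk.differentiable (by simp)
  have hA0' : 0 ≤ A0 := (norm_nonneg _).trans (hA0 0)
  have hA1' : 0 ≤ A1 := (norm_nonneg _).trans (hA1 0)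
  have n0 : (0 : ℝ) ≤ L0 := L0.2
  have n1 : (0 : ℝ) ≤ L1 := L1.2
  refine ⟨2 * L1 + (A0 + (L0 + 2 * A0)) + (A0 + A1 + (L1 + 2 * A1)), by positivity, ?_, ?_⟩
  · intro x v
    have h1 := d7b_taylor hd hL1' n1 x v
    have h2 := d7b_taylor hd hL1' n1 x (-v)
    rw [map_neg, norm_neg, ← sub_eq_add_neg] at h2
    have h3 : k (x + v) + k (x - v) - 2 * k x = (k (x + v) - k x - fderiv ℝ k x v) +
        (k (x - v) - k x - -fderiv ℝ k x v) := by ring
    have h4 : |k (x + v) + k (x - v) - 2 * k x| ≤ 2 * L1 * ‖v‖ ^ 2 := by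
      rw [h3]
      refine (abs_add_le _ _).trans ?_
      linarith
    refine h4.trans ?_
    gcongr
    linarith
  · intro M hM
    constructor
    · refine ⟨A0, L0 + 2 * A0, hA0', by positivity, by linarith, fun x _ => hA0 x, ?_⟩
      intro x _ y _
      exact d7b_holder hA0 hL0' n0 hα hα1 x y
    · refine ⟨hd.differentiableOn, A0, A1, L1 + 2 * A1, hA0', hA1', by positivity, by linarith,
        fun x _ => hA0 x, fun x _ => hA1 x, ?_⟩
      intro x _ y _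
      exact d7b_holder hA1 hL1' n1 hα hα1 x y

end Pool.Agent.YUT
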