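import Pool.Agent.YUT.Base

open MeasureTheory Set Filter Topology
open scoped ContDiff

namespace Pool.Agent.YUT

open Pool.Agent.YUD

/-- [YUT-D7c] a smooth function with compact support in the nonempty open set `M` and integral `1` -/
theorem exists_unit_bump {M : Set ℂ} (hM : IsOpen M) (hne : M.Nonempty) :
    ∃ k : ℂ → ℝ, ContDiff ℝ ∞ k ∧ HasCompactSupport k ∧ tsupport k ⊆ M ∧ ∫ x in M, k x = 1 := by
  obtain ⟨c, hc⟩ := hne
  obtain ⟨r, hr, hball⟩ := Metric.isOpen_iff.1 hM c hc
  let β : ContDiffBump c := ⟨r / 4, r / 2, by positivity, by linarith⟩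
  have hsub : tsupport (β.normed volume) ⊆ M := by
    rw [β.tsupport_normed_eq]
    refine (Metric.closedBall_subset_ball ?_).trans hball
    show r / 2 < r
    linarith
  refine ⟨β.normed volume, β.contDiff_normed, β.hasCompactSupport_normed, hsub, ?_⟩
  rw [setIntegral_eq_integral_of_forall_compl_eq_zero, β.integral_normed]
  intro x hx
  by_contra h
  exact hx (hsub (subset_tsupport _ h))

end Pool.Agent.YUT
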