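import Pool.Agent.YUT.Base

open MeasureTheory Set Filter Topology
open scoped ContDiff

namespace Pool.Agent.YUT

open Pool.Agent.YUD

theorem d7d_dx {k : ℂ → ℝ} (hk : ContDiff ℝ ∞ k) : ContDiff ℝ ∞ (dx k) :=
  (hk.fderiv_right (m := ∞) (by simp)).clm_apply contDiff_const

theorem d7d_dy {k : ℂ → ℝ} (hk : ContDiff ℝ ∞ k) : ContDiff ℝ ∞ (dy k) :=
  (hk.fderiv_right (m := ∞) (by simp)).clm_apply contDiff_const

theorem d7d_cdx {k : ℂ → ℝ} (hk : HasCompactSupport k) : HasCompactSupport (dx k) :=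
  (hk.fderiv ℝ).comp_left (g := fun A : ℂ →L[ℝ] ℝ => A 1) (by simp)

theorem d7d_cdy {k : ℂ → ℝ} (hk : HasCompactSupport k) : HasCompactSupport (dy k) :=
  (hk.fderiv ℝ).comp_left (g := fun A : ℂ →L[ℝ] ℝ => A Complex.I) (by simp)

theorem d7d_sdx {k : ℂ → ℝ} {M : Set ℂ} (h : tsupport k ⊆ M) : tsupport (dx k) ⊆ M := by
  refine Subset.trans (closure_mono ?_) ((tsupport_fderiv_subset ℝ (f := k)).trans h)
  intro x hx h0
  apply hx
  show fderiv ℝ k x 1 = 0
  rw [h0]
  rfl

theorem d7d_sdy {k : ℂ → ℝ} {M : Set ℂ} (h : tsupport k ⊆ M) : tsupport (dy k) ⊆ M := by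
  refine Subset.trans (closure_mono ?_) ((tsupport_fderiv_subset ℝ (f := k)).trans h)
  intro x hx h0
  apply hx
  show fderiv ℝ k x Complex.I = 0
  rw [h0]
  rfl

theorem d7d_bd {k : ℂ → ℝ} (hk : ContDiff ℝ ∞ k) (hc : HasCompactSupport k) :
    ∃ C, ∀ x, |k x| ≤ C := hc.exists_bound_of_continuous hk.continuous

theorem d7d_jet (M : Set ℂ) (n : ℕ) : ∀ {k : ℂ → ℝ}, ContDiff ℝ ∞ k → HasCompactSupport k →
    ∃ C, JetLe M n C k := by
  induction n with
  | zero =>
    intro k hk hc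
    obtain ⟨C, hC⟩ := d7d_bd hk hc
    exact ⟨C, fun x _ => hC x⟩
  | succ n ih =>
    intro k hk hc
    obtain ⟨C, hC⟩ := d7d_bd hk hc
    obtain ⟨C1, hC1⟩ := ih (d7d_dx hk) (d7d_cdx hc)
    obtain ⟨C2, hC2⟩ := ih (d7d_dy hk) (d7d_cdy hc)
    refine ⟨max C (max C1 C2), fun x _ => (hC x).trans (le_max_left _ _), ?_, ?_⟩
    · exact hC1.mono ((le_max_left _ _).trans (le_max_right _ _))
    · exact hC2.mono ((le_max_right _ _).trans (le_max_right _ _))

theorem d7d_zero {M : Set ℂ} {k : ℂ → ℝ} (hc : HasCompactSupport k) (hs : tsupport k ⊆ M) :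
    ZeroAtBoundary M k := by
  intro ε hε
  refine ⟨tsupport k, hs, hc, fun x _ hx => ?_⟩
  rw [image_eq_zero_of_notMem_tsupport hx, abs_zero]
  exact hε

theorem d7d_int {k : ℂ → ℝ} (hk : ContDiff ℝ ∞ k) (hc : HasCompactSupport k) (v : ℂ) :
    ∫ x, fderiv ℝ k x v = 0 := by
  have hk' : ContDiff ℝ ∞ (fderiv ℝ k) := hk.fderiv_right (by simp)
  have hc' : HasCompactSupport (fderiv ℝ k) := hc.fderiv ℝ
  have hcv : HasCompactSupport (fun x => fderiv ℝ k x v) :=
    hc'.comp_left (g := fun A : ℂ →L[ℝ] ℝ => A v) (by simp)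
  have hkv : Continuous (fun x => fderiv ℝ k x v) :=
    (hk'.clm_apply contDiff_const).continuous
  have h := integral_mul_fderiv_eq_neg_fderiv_mul_of_integrable (μ := (volume : Measure ℂ))
    (f := fun _ : ℂ => (1 : ℝ)) (g := k) (v := v) (by simp)
    (by simpa using hkv.integrable_of_hasCompactSupport hcv)
    (by simpa using hk.continuous.integrable_of_hasCompactSupport hc)
    (fun x _ => differentiableAt_const _)
    (fun x _ => hk.differentiable (by simp) x)
  simpa using h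

/-- [YUT-D7d] a smooth function `k` with compact support in `M` which is a stream function with
`Δk ≠ 0` somewhere, together with `Δk` smooth with compact support (any nonzero bump: if `Δk = 0`
everywhere then `k = 0` by the maximum principle, `stream_ext` with `0`; here `M` bounded). -/
theorem exists_stream_bump {M : Set ℂ} (hM : IsOpen M) (hb : Bornology.IsBounded M)
    (hne : M.Nonempty) : ∃ (k : ℂ → ℝ) (C : ℝ), StreamLe M C k ∧ (∃ x ∈ M, lap k x ≠ 0) ∧
      ContDiff ℝ ∞ (lap k) ∧ HasCompactSupport (lap k) ∧ ∫ x in M, lap k x = 0 := by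
  obtain ⟨c, hc⟩ := hne
  obtain ⟨r, hr, hball⟩ := Metric.isOpen_iff.1 hM c hc
  let β : ContDiffBump c := ⟨r / 4, r / 2, by positivity, by linarith⟩
  have hsub : tsupport β ⊆ M := by
    rw [β.tsupport_eq]
    refine (Metric.closedBall_subset_ball ?_).trans hball
    show r / 2 < r
    linarith
  have hk : ContDiff ℝ ∞ (β : ℂ → ℝ) := β.contDiff
  have hcs : HasCompactSupport (β : ℂ → ℝ) := β.hasCompactSupport
  have h1 : (β : ℂ → ℝ) c = 1 := β.one_of_mem_closedBall (Metric.mem_closedBall_self (by positivity))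
  obtain ⟨C, hC⟩ := d7d_jet M 2 hk hcs
  have hst : StreamLe M C (β : ℂ → ℝ) :=
    ⟨(contDiff_infty.1 hk 2).contDiffOn, hC, d7d_zero hcs hsub⟩
  refine ⟨β, C, hst, ?_, ?_, ?_, ?_⟩
  · by_contra hno
    push Not at hno
    have h0 : StreamLe M 0 (fun _ : ℂ => (0 : ℝ)) := by
      refine ⟨contDiffOn_const, ?_, ?_⟩
      · simpa using jetLe_const (M := M) 2 0
      · intro ε hε
        exact ⟨∅, empty_subset _, isCompact_empty, fun x _ _ => by simpa using hε⟩
    have h2 := stream_ext hM hb hst h0 (fun x hx => by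
      rw [hno x hx]
      have e1 : dx (fun _ : ℂ => (0 : ℝ)) = fun _ => 0 := funext fun x => dx_const 0 x
      have e2 : dy (fun _ : ℂ => (0 : ℝ)) = fun _ => 0 := funext fun x => dy_const 0 x
      unfold lap
      rw [e1, e2, dx_const, dy_const, add_zero]) c hc
    rw [h1] at h2
    exact one_ne_zero h2
  · exact (d7d_dx (d7d_dx hk)).add (d7d_dy (d7d_dy hk))
  · exact (d7d_cdx (d7d_cdx hcs)).add (d7d_cdy (d7d_cdy hcs))
  · have hsl : ∀ x, x ∉ M → lap β x = 0 := by
      intro x hx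
      unfold lap
      rw [image_eq_zero_of_notMem_tsupport (fun h => hx (d7d_sdx (d7d_sdx hsub) h)),
        image_eq_zero_of_notMem_tsupport (fun h => hx (d7d_sdy (d7d_sdy hsub) h)), add_zero]
    rw [setIntegral_eq_integral_of_forall_compl_eq_zero hsl]
    have i1 : Integrable (fun x => dx (dx β) x) :=
      (d7d_dx (d7d_dx hk)).continuous.integrable_of_hasCompactSupport (d7d_cdx (d7d_cdx hcs))
    have i2 : Integrable (fun x => dy (dy β) x) :=
      (d7d_dy (d7d_dy hk)).continuous.integrable_of_hasCompactSupport (d7d_cdy (d7d_cdy hcs))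
    unfold lap
    rw [integral_add i1 i2]
    have j1 : ∫ x, dx (dx β) x = 0 := d7d_int (d7d_dx hk) (d7d_cdx hcs) 1
    have j2 : ∫ x, dy (dy β) x = 0 := d7d_int (d7d_dy hk) (d7d_cdy hcs) Complex.I
    rw [j1, j2, add_zero]

end Pool.Agent.YUT
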