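import Pool.Agent.YUT.Base

open MeasureTheory Set Filter Topology
open scoped ContDiff

namespace Pool.Agent.YUT

open Pool.Agent.YUD

/-- the ring field outside the disk, in coordinates -/
noncomputable def K3b_F (ρ : ℝ) (x : ℂ) : ℂ :=
  (1 / 2 * (1 - ρ ^ 2 / (x.re ^ 2 + x.im ^ 2)) : ℝ) • x

theorem K3b_norm (x : ℂ) : ‖x‖ ^ 2 = x.re ^ 2 + x.im ^ 2 := by
  rw [← Complex.normSq_eq_norm_sq, Complex.normSq_apply]
  ring

theorem K3b_eq {ρ : ℝ} {x : ℂ} (hx : ρ < ‖x‖) : ringField ρ x = K3b_F ρ x := by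
  rw [ringField, if_neg (not_le.2 hx), K3b_F, K3b_norm]

theorem K3b_pos {ρ : ℝ} (hρ : 0 < ρ) {x : ℂ} (hx : ρ < ‖x‖) : ρ ^ 2 < x.re ^ 2 + x.im ^ 2 := by
  rw [← K3b_norm]
  exact pow_lt_pow_left₀ hx hρ.le (by norm_num)

theorem K3b_deriv {ρ : ℝ} (hρ : 0 < ρ) {x : ℂ} (hx : ρ < ‖x‖) (v : ℂ) :
    fderiv ℝ (ringField ρ) x v =
      (1 / 2 * (1 - ρ ^ 2 / (x.re ^ 2 + x.im ^ 2)) : ℝ) • v +
      (ρ ^ 2 / (x.re ^ 2 + x.im ^ 2) ^ 2 * (x.re * v.re + x.im * v.im)) • x := by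
  have hn0 : x.re ^ 2 + x.im ^ 2 ≠ 0 := by
    have := K3b_pos hρ hx
    have h2 : 0 < ρ ^ 2 := by positivity
    linarith
  have hre : HasFDerivAt (fun y : ℂ => y.re) Complex.reCLM x := Complex.reCLM.hasFDerivAt
  have him : HasFDerivAt (fun y : ℂ => y.im) Complex.imCLM x := Complex.imCLM.hasFDerivAt
  have hn := (hre.pow 2).add (him.pow 2)
  have hg : HasDerivAt (fun t : ℝ => 1 / 2 * (1 - ρ ^ 2 / t))
      (1 / 2 * (ρ ^ 2 / (x.re ^ 2 + x.im ^ 2) ^ 2)) (x.re ^ 2 + x.im ^ 2) := by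
    have h1 : HasDerivAt (fun t : ℝ => ρ ^ 2 * t⁻¹) (ρ ^ 2 * -((x.re ^ 2 + x.im ^ 2) ^ 2)⁻¹)
        (x.re ^ 2 + x.im ^ 2) := (hasDerivAt_inv hn0).const_mul _
    have h2 := (h1.const_sub 1).const_mul (1 / 2 : ℝ)
    have e : (fun t : ℝ => 1 / 2 * (1 - ρ ^ 2 / t)) = fun t => 1 / 2 * (1 - ρ ^ 2 * t⁻¹) := by
      funext t
      rw [div_eq_mul_inv (ρ ^ 2) t]
    have e' : 1 / 2 * (ρ ^ 2 / (x.re ^ 2 + x.im ^ 2) ^ 2) =
        1 / 2 * -(ρ ^ 2 * -((x.re ^ 2 + x.im ^ 2) ^ 2)⁻¹) := by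
      rw [div_eq_mul_inv (ρ ^ 2)]
      ring
    rw [e, e']
    exact h2
  have hc := hg.comp_hasFDerivAt x hn
  have hF := hc.smul (hasFDerivAt_id x)
  have hev : ringField ρ =ᶠ[𝓝 x] K3b_F ρ := by
    have : ∀ᶠ y in 𝓝 x, y ∈ {y : ℂ | ρ < ‖y‖} := (isOpen_lt continuous_const continuous_norm).mem_nhds hx
    filter_upwards [this] with y hy using K3b_eq hy
  rw [hev.fderiv_eq]
  have hF' : HasFDerivAt (K3b_F ρ) _ x := hF
  rw [hF'.fderiv]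
  simp only [add_apply, smul_apply,
    ContinuousLinearMap.smulRight_apply, ContinuousLinearMap.id_apply, id_eq,
    Complex.reCLM_apply, Complex.imCLM_apply, smul_eq_mul, Function.comp_apply, Pi.add_apply]
  congr 2
  simp
  ring

/-- [YUT-K3b] outside the closed disk the ring field is smooth with derivative
`v ↦ v/2 - (ρ²/2)(v/‖x‖² - 2 (x⬝v) x/‖x‖⁴)`; divergence `1`; the quadratic form
`v ⬝ DY v = |v|²/2 - (ρ²/2)(|v|²/|x|² - 2 (x⬝v)²/|x|⁴) ≤ |v|²/2 + (ρ²/2) |v|²/|x|² ≤ |v|²`. -/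
theorem ringField_deriv {ρ : ℝ} (hρ : 0 < ρ) : ContDiffOn ℝ 1 (ringField ρ) {x | ρ < ‖x‖} ∧
    ∀ x : ℂ, ρ < ‖x‖ →
      (fderiv ℝ (ringField ρ) x 1).re + (fderiv ℝ (ringField ρ) x Complex.I).im = 1 ∧
      ∀ v : ℂ, v.re * (fderiv ℝ (ringField ρ) x v).re + v.im * (fderiv ℝ (ringField ρ) x v).im ≤
        1 * ‖v‖ ^ 2 := by
  refine ⟨?_, ?_⟩
  · intro x hx
    have hx' : ρ < ‖x‖ := hx
    have hn0 : x.re ^ 2 + x.im ^ 2 ≠ 0 := by
      have := K3b_pos hρ hx'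
      have h2 : 0 < ρ ^ 2 := by positivity
      linarith
    have h1 : ContDiffAt ℝ 1 (fun y : ℂ => y.re) x := Complex.reCLM.contDiff.contDiffAt
    have h2 : ContDiffAt ℝ 1 (fun y : ℂ => y.im) x := Complex.imCLM.contDiff.contDiffAt
    have h3 : ContDiffAt ℝ 1 (K3b_F ρ) x :=
      (contDiffAt_const.mul (contDiffAt_const.sub
        (contDiffAt_const.div ((h1.pow 2).add (h2.pow 2)) hn0))).smul contDiffAt_id
    exact h3.contDiffWithinAt.congr (fun y hy => K3b_eq hy) (K3b_eq hx')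
  · intro x hx
    have hpos := K3b_pos hρ hx
    have hρ2 : 0 < ρ ^ 2 := by positivity
    have hn : 0 < x.re ^ 2 + x.im ^ 2 := by linarith
    constructor
    · rw [K3b_deriv hρ hx, K3b_deriv hρ hx]
      simp only [Complex.add_re, Complex.add_im, Complex.smul_re, Complex.smul_im, smul_eq_mul,
        Complex.one_re, Complex.one_im, Complex.I_re, Complex.I_im]
      field_simp
      ring
    · intro v
      rw [K3b_deriv hρ hx]
      simp only [Complex.add_re, Complex.add_im, Complex.smul_re, Complex.smul_im, smul_eq_mul]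
      rw [K3b_norm v]
      have e : v.re * (1 / 2 * (1 - ρ ^ 2 / (x.re ^ 2 + x.im ^ 2)) * v.re +
          ρ ^ 2 / (x.re ^ 2 + x.im ^ 2) ^ 2 * (x.re * v.re + x.im * v.im) * x.re) +
          v.im * (1 / 2 * (1 - ρ ^ 2 / (x.re ^ 2 + x.im ^ 2)) * v.im +
          ρ ^ 2 / (x.re ^ 2 + x.im ^ 2) ^ 2 * (x.re * v.re + x.im * v.im) * x.im) =
          1 / 2 * (v.re ^ 2 + v.im ^ 2) - 1 / 2 * (ρ ^ 2 / (x.re ^ 2 + x.im ^ 2)) * (v.re ^ 2 + v.im ^ 2)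
          + ρ ^ 2 / (x.re ^ 2 + x.im ^ 2) ^ 2 * (x.re * v.re + x.im * v.im) ^ 2 := by ring
      rw [e]
      have h1 : ρ ^ 2 / (x.re ^ 2 + x.im ^ 2) ^ 2 * (x.re * v.re + x.im * v.im) ^ 2 ≤
          ρ ^ 2 / (x.re ^ 2 + x.im ^ 2) * (v.re ^ 2 + v.im ^ 2) := by
        have e2 : ρ ^ 2 / (x.re ^ 2 + x.im ^ 2) * (v.re ^ 2 + v.im ^ 2) =
            ρ ^ 2 / (x.re ^ 2 + x.im ^ 2) ^ 2 * ((x.re ^ 2 + x.im ^ 2) * (v.re ^ 2 + v.im ^ 2)) := by
          field_simp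
        rw [e2]
        apply mul_le_mul_of_nonneg_left _ (by positivity)
        nlinarith [sq_nonneg (x.re * v.im - x.im * v.re)]
      have h2 : ρ ^ 2 / (x.re ^ 2 + x.im ^ 2) ≤ 1 := by
        rw [div_le_one hn]
        exact hpos.le
      have h3 : 0 ≤ v.re ^ 2 + v.im ^ 2 := by positivity
      have h4 := mul_le_mul_of_nonneg_right h2 h3
      linarith

end Pool.Agent.YUT
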