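import Pool.Agent.YUT.K3a
import Pool.Agent.YUT.K3b

open MeasureTheory Set Filter Topology
open scoped ContDiff

namespace Pool.Agent.YUT

open Pool.Agent.YUD

/-- radial segments -/
theorem K3c_seg {Ω : Set ℂ} {ρ : ℝ}
    (hstar : ∀ x ∈ Ω, ∀ s : ℝ, 0 ≤ s → s ≤ 1 → s • x ∈ Ω) {x : ℂ} {t : ℝ} (ht : 0 < t)
    (hx : x ∈ Ω) (hxρ : ρ < ‖x‖) (hy : t • x ∈ Ω) (hyρ : ρ < ‖t • x‖) {Λ : ℝ}
    (hΛ : ‖t • x - x‖ ≤ Λ) : C1Join (Ω \ Metric.closedBall 0 ρ) Λ x (t • x) := by
  refine ⟨fun s => (1 + s * (t - 1)) • x, fun _ => (t - 1) • x, ?_, ?_, ?_, ?_, continuousOn_const,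
    ?_⟩
  · simp
  · simp
  · rintro s ⟨hs0, hs1⟩
    have hpos : 0 < 1 + s * (t - 1) := by
      rcases hs0.eq_or_lt with h | h
      · rw [← h]; norm_num
      · have := mul_pos h ht
        linarith
    refine ⟨?_, ?_⟩
    · rcases le_or_gt (1 + s * (t - 1)) 1 with h | h
      · exact hstar x hx _ hpos.le h
      · have h1 : 1 + s * (t - 1) ≤ t := by
          have : 0 < t - 1 := by
            by_contra hcon
            push Not at hcon
            nlinarith
          nlinarith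
        have h2 : (1 + s * (t - 1)) • x = ((1 + s * (t - 1)) / t) • (t • x) := by
          rw [smul_smul, div_mul_cancel₀ _ ht.ne']
        show (1 + s * (t - 1)) • x ∈ Ω
        rw [h2]
        exact hstar _ hy _ (by positivity) ((div_le_one ht).2 h1)
    · rw [mem_closedBall_zero_iff]
      push Not
      show ρ < ‖(1 + s * (t - 1)) • x‖
      rw [norm_smul, Real.norm_eq_abs, abs_of_pos hpos]
      rw [norm_smul, Real.norm_eq_abs, abs_of_pos ht] at hyρ
      nlinarith [mul_nonneg hs0 (sub_nonneg.2 hyρ.le), mul_nonneg (sub_nonneg.2 hs1)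
        (sub_nonneg.2 hxρ.le)]
  · intro s _
    have h1 : HasDerivAt (fun s : ℝ => 1 + s * (t - 1)) (t - 1) s := by
      have := ((hasDerivAt_id s).mul_const (t - 1)).const_add 1
      simpa using this
    exact (h1.smul_const x).hasDerivWithinAt
  · intro s _
    have : (t - 1) • x = t • x - x := by rw [sub_smul, one_smul]
    show ‖(t - 1) • x‖ ≤ Λ
    rw [this]
    exact hΛ

/-- circular arcs -/
theorem K3c_arc {M : Set ℂ} {r : ℝ} (hr : 0 < r) (hM : ∀ x : ℂ, ‖x‖ = r → x ∈ M) {x y : ℂ}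
    (hx : ‖x‖ = r) (hy : ‖y‖ = r) {Λ : ℝ} (hΛ : Real.pi * r ≤ Λ) : C1Join M Λ x y := by
  have hx0 : x ≠ 0 := by
    intro h0
    rw [h0, norm_zero] at hx
    exact hr.ne hx
  have hy0 : y ≠ 0 := by
    intro h0
    rw [h0, norm_zero] at hy
    exact hr.ne hy
  set θ := Complex.arg (y / x) with hθ
  have hnorm : ‖y / x‖ = 1 := by rw [norm_div, hx, hy, div_self hr.ne']
  have hexp : Complex.exp ((θ : ℂ) * Complex.I) = y / x := by
    have := Complex.norm_mul_exp_arg_mul_I (y / x)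
    rw [hnorm, Complex.ofReal_one, one_mul] at this
    exact this
  refine ⟨fun s => Complex.exp (((s * θ : ℝ) : ℂ) * Complex.I) * x,
    fun s => (θ * Complex.I) * (Complex.exp (((s * θ : ℝ) : ℂ) * Complex.I) * x), ?_, ?_, ?_, ?_,
    ?_, ?_⟩
  · simp
  · show Complex.exp (((1 * θ : ℝ) : ℂ) * Complex.I) * x = y
    rw [one_mul, hexp, div_mul_cancel₀ _ hx0]
  · intro s _
    apply hM
    show ‖Complex.exp (((s * θ : ℝ) : ℂ) * Complex.I) * x‖ = r
    rw [norm_mul, Complex.norm_exp_ofReal_mul_I, one_mul, hx]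
  · intro s _
    have h1 : HasDerivAt (fun s : ℝ => ((s * θ : ℝ) : ℂ) * Complex.I) (θ * Complex.I) s := by
      have h2 : HasDerivAt (fun s : ℝ => s * θ) θ s := by
        simpa using (hasDerivAt_id s).mul_const θ
      exact (h2.ofReal_comp).mul_const Complex.I
    have h3 := (h1.cexp).mul_const x
    refine (h3.congr_deriv ?_).hasDerivWithinAt
    ring
  · apply Continuous.continuousOn
    fun_prop
  · intro s _
    show ‖(θ * Complex.I) * (Complex.exp (((s * θ : ℝ) : ℂ) * Complex.I) * x)‖ ≤ Λ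
    rw [norm_mul, norm_mul, norm_mul, Complex.norm_exp_ofReal_mul_I, one_mul, hx, Complex.norm_I,
      mul_one, Complex.norm_real, Real.norm_eq_abs]
    refine le_trans ?_ hΛ
    exact mul_le_mul_of_nonneg_right (Complex.abs_arg_le_pi _) hr.le

/-- [YUT-K3c] a star-shaped ring is twisted with hole: `Y = ringField ρ`, `d = 1/2`. Outward: `x ∉ M`
means `‖x‖ ≤ ρ` (then `x + l Y x = x`) or `x ∉ Ω` (then `x + l Y x = λ x`, `λ ≥ 1`, is not in `Ω`).
A neighbourhood of the closed disk is in `Ω` (compactness): `ρ₁`. Finite intrinsic diameter: radially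
inwards to radius `r = (ρ + ρ₁)/2` or to the point itself if `‖x‖ < r`..., along the circle of radius
`r`, radially outwards (n = 3; if `‖x‖ < r` move radially outwards to radius `r`, inside the annulus). -/
theorem StarRing.twistedHole {M : Set ℂ} (hM : StarRing M) : TwistedHole M := by
  obtain ⟨Ω, ρ, ⟨hΩo, hΩb, _, hstar⟩, hρ, hball, rfl⟩ := hM
  -- the radius `ρ₁`
  obtain ⟨δ, hδ, hδΩ⟩ := (isCompact_closedBall (0 : ℂ) ρ).exists_thickening_subset_open hΩo hball
  rw [thickening_closedBall hδ hρ.le] at hδΩ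
  set ρ₁ := δ + ρ with hρ₁
  have hρ1 : ρ < ρ₁ := by linarith
  have hann : ∀ x : ℂ, ρ < ‖x‖ → ‖x‖ < ρ₁ → x ∈ Ω \ Metric.closedBall 0 ρ := by
    intro x h1 h2
    refine ⟨hδΩ (by rw [mem_ball_zero_iff]; exact h2), ?_⟩
    rw [mem_closedBall_zero_iff]
    exact not_le.2 h1
  have hole : ∀ x ∈ Ω \ Metric.closedBall 0 ρ, ρ < ‖x‖ := by
    rintro x ⟨_, h2⟩
    rw [mem_closedBall_zero_iff] at h2
    exact not_le.1 h2
  set r := (ρ + ρ₁) / 2 with hr
  have hr0 : 0 < r := by rw [hr]; linarith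
  have hrρ : ρ < r := by rw [hr]; linarith
  have hrρ1 : r < ρ₁ := by rw [hr]; linarith
  have hcirc : ∀ x : ℂ, ‖x‖ = r → x ∈ Ω \ Metric.closedBall 0 ρ := fun x hx =>
    hann x (by rw [hx]; exact hrρ) (by rw [hx]; exact hrρ1)
  have hbdd : Bornology.IsBounded (Ω \ Metric.closedBall (0 : ℂ) ρ) := hΩb.subset sdiff_subset
  obtain ⟨R, hR⟩ := hbdd.exists_norm_le
  refine ⟨hΩo.sdiff Metric.isClosed_closedBall, hbdd, ⟨(r : ℂ), hcirc _ ?_⟩, ?_, ?_⟩
  · rw [Complex.norm_real, Real.norm_eq_abs, abs_of_pos hr0]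
  · -- finite diameter
    refine ⟨3, 2 * R + Real.pi * r, fun x hx y hy => ?_⟩
    have hR0 : 0 ≤ R := (norm_nonneg x).trans (hR x hx)
    have hxρ := hole x hx
    have hyρ := hole y hy
    have hx0 : 0 < ‖x‖ := hρ.trans hxρ
    have hy0 : 0 < ‖y‖ := hρ.trans hyρ
    have hn : ∀ x : ℂ, 0 < ‖x‖ → ‖(r / ‖x‖) • x‖ = r := by
      intro x hx
      rw [norm_smul, Real.norm_eq_abs, abs_of_pos (div_pos hr0 hx), div_mul_cancel₀ _ hx.ne']
    have hz1 := hcirc _ (hn x hx0)
    have hz2 := hcirc _ (hn y hy0)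
    have hpr : 0 ≤ Real.pi * r := by positivity
    have hΛ1 : ‖(r / ‖x‖) • x - x‖ ≤ 2 * R + Real.pi * r := by
      have h1 := norm_sub_le ((r / ‖x‖) • x) x
      have h2 := hR _ hz1
      have h3 := hR _ hx
      linarith
    have hΛ3 : ‖y - (r / ‖y‖) • y‖ ≤ 2 * R + Real.pi * r := by
      have h1 := norm_sub_le y ((r / ‖y‖) • y)
      have h2 := hR _ hz2
      have h3 := hR _ hy
      linarith
    have j1 : C1Join (Ω \ Metric.closedBall 0 ρ) (2 * R + Real.pi * r) x ((r / ‖x‖) • x) :=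
      K3c_seg hstar (div_pos hr0 hx0) hx.1 hxρ hz1.1 (hole _ hz1) hΛ1
    have j2 : C1Join (Ω \ Metric.closedBall 0 ρ) (2 * R + Real.pi * r) ((r / ‖x‖) • x)
        ((r / ‖y‖) • y) :=
      K3c_arc hr0 hcirc (hn x hx0) (hn y hy0) (by linarith)
    have j3 : C1Join (Ω \ Metric.closedBall 0 ρ) (2 * R + Real.pi * r) ((r / ‖y‖) • y) y := by
      have e1 : (‖y‖ / r) • ((r / ‖y‖) • y) = y := by
        rw [smul_smul]
        have : ‖y‖ / r * (r / ‖y‖) = 1 := by field_simp
        rw [this, one_smul]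
      have h1 := K3c_seg (ρ := ρ) hstar (x := (r / ‖y‖) • y) (t := ‖y‖ / r)
        (Λ := 2 * R + Real.pi * r) (div_pos hy0 hr0) hz2.1
        (hole _ hz2) (by rw [e1]; exact hy.1) (by rw [e1]; exact hyρ) (by rw [e1]; exact hΛ3)
      rwa [e1] at h1
    refine ⟨fun i => if i = 0 then x else if i = 1 then (r / ‖x‖) • x else
      if i = 2 then (r / ‖y‖) • y else y, by simp, by simp, fun i hi => ?_⟩
    interval_cases i
    · simpa using j1
    · simpa using j2
    · simpa using j3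
  · -- the twist field
    obtain ⟨hcd, hder⟩ := ringField_deriv hρ
    have hsub : Ω \ Metric.closedBall 0 ρ ⊆ {x : ℂ | ρ < ‖x‖} := fun x hx => hole x hx
    refine ⟨ringField ρ, 1 / 2, ρ, ρ₁, ⟨by norm_num, ⟨1, ringField_lip hρ⟩, hcd.mono hsub,
      fun x hx => (hder x (hole x hx)).1, fun x hx v => ?_, ⟨1, one_pos, ?_⟩⟩, hρ, hρ1, hole, hann,
      fun x hx => ?_⟩
    · have h1 := (hder x (hole x hx)).2 v
      have h2 : (3 / 2 - 1 / 2 : ℝ) = 1 := by norm_num
      rw [h2]
      exact h1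
    · intro l hl _ x hx hmem
      apply hx
      by_cases hxρ : ‖x‖ ≤ ρ
      · have h1 : ringField ρ x = 0 := by
          unfold ringField
          rw [if_pos hxρ]
        rw [h1, smul_zero, add_zero] at hmem
        exact hmem
      · refine ⟨?_, by rw [mem_closedBall_zero_iff]; exact hxρ⟩
        push Not at hxρ
        have hx0 : 0 < ‖x‖ := hρ.trans hxρ
        set c := 1 / 2 * (1 - ρ ^ 2 / ‖x‖ ^ 2) with hc
        have h1 : ringField ρ x = c • x := by
          unfold ringField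
          rw [if_neg (not_le.2 hxρ)]
        have hc0 : 0 ≤ c := by
          have h2 : ρ ^ 2 / ‖x‖ ^ 2 ≤ 1 := by
            rw [div_le_one (by positivity)]
            exact pow_le_pow_left₀ hρ.le hxρ.le 2
          rw [hc]
          linarith
        have hlc : 0 ≤ l * c := mul_nonneg hl.le hc0
        have h3 : x + l • ringField ρ x = (1 + l * c) • x := by
          rw [h1, add_smul, one_smul, smul_smul]
        rw [h3] at hmem
        have h4 := hstar _ hmem.1 (1 + l * c)⁻¹ (by positivity)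
          (inv_le_one_of_one_le₀ (by linarith))
        rw [smul_smul, inv_mul_cancel₀ (by positivity), one_smul] at h4
        exact h4
    · unfold ringField
      rw [if_pos hx.le]

end Pool.Agent.YUT
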