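import Pool.Agent.YUT.G3b

open MeasureTheory Set Filter Topology
open scoped ContDiff

namespace Pool.Agent.YUT

open Pool.Agent.YUD

theorem S1e_expand {M : Set ℂ} (hM : IsOpen M) (hb : Bornology.IsBounded M) {f g : ℂ → ℝ}
    {C D : ℝ} (hf : StreamLe M C f) (hg : StreamLe M D g) (c : ℝ) :
    ∫ x in M, gsq (fun y => f y + c * g y) x =
      (∫ x in M, gsq f x) + 2 * c * (∫ x in M, (dx f x * dx g x + dy f x * dy g x)) +
        c ^ 2 * ∫ x in M, gsq g x := by
  have hfx := hf.dx_cont hM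
  have hfy := hf.dy_cont hM
  have hgx := hg.dx_cont hM
  have hgy := hg.dy_cont hM
  have i1 : IntegrableOn (fun x => gsq f x) M := by
    refine integrableOn_of_bdd hM hb ((hfx.pow 2).add (hfy.pow 2)) (C := C ^ 2 + C ^ 2) ?_
    intro x hx
    have h1 := hf.dx_le x hx
    have h2 := hf.dy_le x hx
    rw [abs_of_nonneg (gsq_nonneg f x)]
    exact add_le_add (sq_le_sq' (abs_le.1 h1).1 (abs_le.1 h1).2)
      (sq_le_sq' (abs_le.1 h2).1 (abs_le.1 h2).2)
  have i2 : IntegrableOn (fun x => gsq g x) M := by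
    refine integrableOn_of_bdd hM hb ((hgx.pow 2).add (hgy.pow 2)) (C := D ^ 2 + D ^ 2) ?_
    intro x hx
    have h1 := hg.dx_le x hx
    have h2 := hg.dy_le x hx
    rw [abs_of_nonneg (gsq_nonneg g x)]
    exact add_le_add (sq_le_sq' (abs_le.1 h1).1 (abs_le.1 h1).2)
      (sq_le_sq' (abs_le.1 h2).1 (abs_le.1 h2).2)
  have i3 : IntegrableOn (fun x => dx f x * dx g x + dy f x * dy g x) M := by
    refine integrableOn_of_bdd hM hb ((hfx.mul hgx).add (hfy.mul hgy)) (C := C * D + C * D) ?_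
    intro x hx
    have h1 := hf.dx_le x hx
    have h2 := hf.dy_le x hx
    have h3 := hg.dx_le x hx
    have h4 := hg.dy_le x hx
    have hC : 0 ≤ C := (abs_nonneg _).trans h1
    refine (abs_add_le _ _).trans (add_le_add ?_ ?_)
    · rw [abs_mul]
      exact mul_le_mul h1 h3 (abs_nonneg _) hC
    · rw [abs_mul]
      exact mul_le_mul h2 h4 (abs_nonneg _) hC
  have e1 : ∀ x ∈ M, gsq (fun y => f y + c * g y) x =
      gsq f x + (2 * c) * (dx f x * dx g x + dy f x * dy g x) + c ^ 2 * gsq g x := by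
    intro x hx
    have df : DifferentiableAt ℝ f x := (hf.diffOn x hx).differentiableAt (hM.mem_nhds hx)
    have dg : DifferentiableAt ℝ g x := (hg.diffOn x hx).differentiableAt (hM.mem_nhds hx)
    have dcg : DifferentiableAt ℝ (fun y => c * g y) x := dg.const_mul c
    unfold gsq
    rw [dx_add df dcg, dy_add df dcg, dx_const_mul c dg, dy_const_mul c dg]
    ring
  rw [setIntegral_congr_fun hM.measurableSet e1]
  have i3' : IntegrableOn (fun x => (2 * c) * (dx f x * dx g x + dy f x * dy g x)) M :=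
    i3.const_mul _
  have i2' : IntegrableOn (fun x => c ^ 2 * gsq g x) M := i2.const_mul _
  have i13 : IntegrableOn
      (fun x => gsq f x + (2 * c) * (dx f x * dx g x + dy f x * dy g x)) M := i1.add i3'
  rw [integral_add i13 i2', integral_add i1 i3', integral_const_mul, integral_const_mul]

theorem S1e_congr {M : Set ℂ} (hM : IsOpen M) {f g : ℂ → ℝ} (h : ∀ x ∈ M, f x = g x) :
    ∫ x in M, gsq f x = ∫ x in M, gsq g x := by
  refine setIntegral_congr_fun hM.measurableSet ?_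
  intro x hx
  show gsq f x = gsq g x
  unfold gsq
  rw [dx_congr hM h hx, dy_congr hM h hx]

/-- [YUT-S1e] the quadratic dichotomy: if `k` is a stream function with `Δk ≠ 0` somewhere, `v` any
function and `s₀ ≠ 0`, then for one of `i = 0, 1, 2` every stream function `φ` with
`Δφ = v + i s₀ Δk` on `M` has `∫ |∇φ|² ≠ E`. Proof by contradiction: otherwise there are
`φ_0, φ_1, φ_2` with equality; `φ_i = φ_0 + i s₀ k` on `M` by `stream_ext`, so
`∫|∇φ_i|² = ∫|∇φ_0|² + 2 i s₀ β + i² s₀² γ`, `β = ∫ ∇φ_0 ⬝ ∇k`, `γ = ∫ |∇k|² > 0` (`dirichlet_pos`);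
`2β + s₀ γ = 0 = 2β + 2 s₀ γ` is absurd. -/
theorem dichotomy {M : Set ℂ} (hM : IsOpen M) (hb : Bornology.IsBounded M) {k v : ℂ → ℝ} {C : ℝ}
    (hk : StreamLe M C k) (hk0 : ∃ x ∈ M, lap k x ≠ 0) {s₀ : ℝ} (hs : s₀ ≠ 0) (E : ℝ) :
    ∃ i : ℕ, i ≤ 2 ∧ ∀ (φ : ℂ → ℝ) (D : ℝ), StreamLe M D φ →
      (∀ x ∈ M, lap φ x = v x + i * s₀ * lap k x) → ∫ x in M, gsq φ x ≠ E := by
  by_contra hcon
  push Not at hcon
  obtain ⟨φ0, D0, h0, l0, e0⟩ := hcon 0 (by norm_num)
  obtain ⟨φ1, D1, h1, l1, e1⟩ := hcon 1 (by norm_num)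
  obtain ⟨φ2, D2, h2, l2, e2⟩ := hcon 2 (by norm_num)
  have key : ∀ (i : ℕ) (φ : ℂ → ℝ) (D : ℝ), StreamLe M D φ →
      (∀ x ∈ M, lap φ x = v x + i * s₀ * lap k x) →
      ∫ x in M, gsq φ x = (∫ x in M, gsq φ0 x) +
        2 * (i * s₀) * (∫ x in M, (dx φ0 x * dx k x + dy φ0 x * dy k x)) +
        (i * s₀) ^ 2 * ∫ x in M, gsq k x := by
    intro i φ D hφ hl
    rw [← S1e_expand hM hb h0 hk]
    apply S1e_congr hM
    have hs2 : StreamLe M (D0 + |((i : ℝ) * s₀)| * C) (fun x => φ0 x + (i * s₀) * k x) :=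
      h0.add hM (hk.const_mul hM _)
    refine stream_ext hM hb hφ hs2 ?_
    intro x hx
    have a1 := lap_add hM h0.1 (contDiffOn_const.mul hk.1 (f := fun _ => ((i : ℝ) * s₀))) hx
    have a2 := lap_const_mul hM ((i : ℝ) * s₀) hk.1 hx
    rw [a1, a2, hl x hx, l0 x hx]
    push_cast
    ring
  have k1 := key 1 φ1 D1 h1 l1
  have k2 := key 2 φ2 D2 h2 l2
  have hpos := dirichlet_pos hM hb hk hk0
  rw [e1, e0] at k1
  rw [e2, e0] at k2
  push_cast at k1 k2
  have b1 : s₀ * (2 * (∫ x in M, (dx φ0 x * dx k x + dy φ0 x * dy k x)) +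
      s₀ * ∫ x in M, gsq k x) = 0 := by linarith
  have b2 : s₀ * (2 * (∫ x in M, (dx φ0 x * dx k x + dy φ0 x * dy k x)) +
      2 * (s₀ * ∫ x in M, gsq k x)) = 0 := by nlinarith
  have c1 := (mul_eq_zero.1 b1).resolve_left hs
  have c2 := (mul_eq_zero.1 b2).resolve_left hs
  have c3 : s₀ * ∫ x in M, gsq k x = 0 := by linarith
  exact (mul_ne_zero hs hpos.ne') c3

end Pool.Agent.YUT
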