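import Pool.Agent.YUT.F1c
import Pool.Agent.YUT.K3c
import Pool.Agent.YUT.R1
import Pool.Agent.YUT.R2
import Pool.Agent.YUT.D5
import Pool.Agent.YUT.D6
import Pool.Agent.YUT.D7a
import Pool.Agent.YUT.D7b
import Pool.Agent.YUT.D7c
import Pool.Agent.YUT.D7d
import Pool.Agent.YUT.S1e

/-!
# [YUT] F2: growth of norms, dense sets of data
-/

open MeasureTheory Set Filter Topology
open scoped ContDiff

namespace Pool.Agent.YUT

open Pool.Agent.YUD

variable {M : Set ℂ} {w₀ : ℂ → ℝ} {α : ℝ}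

/-- linear growth of the deformation gives growth of the Hölder norms, for rough data -/
theorem holder_growth (hM : IsOpen M) (hne : M.Nonempty) (hα0 : 0 < α) (hα1 : α < 1)
    (hr : Rough M α w₀) (hs : Stretch M w₀) :
    ∃ c > 0, ∀ (ψ : ℝ → ℂ → ℝ) (Φ : ℝ → ℂ → ℂ), Flow M w₀ ψ Φ → ∀ t, 0 ≤ t →
      ∀ K : ℝ, HNormLe M α K (lap (ψ t)) → c * t ^ α ≤ K := by
  obtain ⟨cR, hcR, hr⟩ := hr
  obtain ⟨cS, hcS, hs⟩ := hs
  refine ⟨cR * cS ^ α / 2, by positivity, fun ψ Φ h t ht K hK => ?_⟩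
  obtain ⟨x₁, hx₁⟩ := hne
  have hK0 : 0 ≤ K := by
    obtain ⟨a, c, ha, hc, hac, -, -⟩ := hK
    linarith
  have h1 := rough_holder hM hα0 hα1 (h.contDiffOn hM ht) (h.bij t ht).mapsTo (h.area t ht)
    (h.vort t ht) hr hK
  have h2 : ∀ x ∈ M, ‖fderiv ℝ (Φ t) x‖ ≤ (2 * K / cR) ^ (1 / α) := by
    intro x hx
    have h3 : ‖fderiv ℝ (Φ t) x‖ ^ α ≤ 2 * K / cR := by
      rw [le_div_iff₀ hcR, mul_comm]; exact h1 x hx
    calc ‖fderiv ℝ (Φ t) x‖ = (‖fderiv ℝ (Φ t) x‖ ^ α) ^ (1 / α) := by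
          rw [← Real.rpow_mul (norm_nonneg _), mul_one_div_cancel hα0.ne', Real.rpow_one]
      _ ≤ _ := Real.rpow_le_rpow (by positivity) h3 (by positivity)
  have h4 := hs ψ Φ h t ht _ h2
  have h5 : (cS * t) ^ α ≤ 2 * K / cR := by
    calc (cS * t) ^ α ≤ ((2 * K / cR) ^ (1 / α)) ^ α :=
          Real.rpow_le_rpow (by positivity) h4 hα0.le
      _ = 2 * K / cR := by
          rw [← Real.rpow_mul (by positivity), one_div_mul_cancel hα0.ne', Real.rpow_one]
  rw [Real.mul_rpow hcS.le ht, le_div_iff₀ hcR] at h5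
  linarith

/-- linear growth of the deformation gives growth of the `C^{1,α}` norms, for rough data -/
theorem holder_one_growth (hM : IsOpen M) (hα0 : 0 < α) (hα1 : α < 1)
    (hr : Rough M (1 + α) w₀) (hs : Stretch M w₀) :
    ∃ c > 0, ∀ (ψ : ℝ → ℂ → ℝ) (Φ : ℝ → ℂ → ℂ), Flow M w₀ ψ Φ → ∀ t, 0 ≤ t →
      ContDiffOn ℝ 2 (Φ t) M →
      ∀ K : ℝ, NormLe M α K (lap (ψ t)) → c * t ^ (1 + α) ≤ K := by
  obtain ⟨cR, hcR, hr⟩ := hr
  obtain ⟨cS, hcS, hs⟩ := hs
  have hα : 0 < 1 + α := by linarith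
  refine ⟨cR * cS ^ (1 + α) / 2, by positivity, fun ψ Φ h t ht h2 K hK => ?_⟩
  have hK0 : 0 ≤ K := hK.nonneg
  have h1 := rough_holder_one hM hα0 hα1 h2 (h.bij t ht).mapsTo (h.area t ht)
    (h.vort t ht) hr hK
  have h2 : ∀ x ∈ M, ‖fderiv ℝ (Φ t) x‖ ≤ (2 * K / cR) ^ (1 / (1 + α)) := by
    intro x hx
    have h3 : ‖fderiv ℝ (Φ t) x‖ ^ (1 + α) ≤ 2 * K / cR := by
      rw [le_div_iff₀ hcR, mul_comm]; exact h1 x hx
    calc ‖fderiv ℝ (Φ t) x‖ = (‖fderiv ℝ (Φ t) x‖ ^ (1 + α)) ^ (1 / (1 + α)) := by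
          rw [← Real.rpow_mul (norm_nonneg _), mul_one_div_cancel hα.ne', Real.rpow_one]
      _ ≤ _ := Real.rpow_le_rpow (by positivity) h3 (by positivity)
  have h4 := hs ψ Φ h t ht _ h2
  have h5 : (cS * t) ^ (1 + α) ≤ 2 * K / cR := by
    calc (cS * t) ^ (1 + α) ≤ ((2 * K / cR) ^ (1 / (1 + α))) ^ (1 + α) :=
          Real.rpow_le_rpow (by positivity) h4 hα.le
      _ = 2 * K / cR := by
          rw [← Real.rpow_mul (by positivity), one_div_mul_cancel hα.ne', Real.rpow_one]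
  rw [Real.mul_rpow hcS.le ht, le_div_iff₀ hcR] at h5
  linarith

/-! ### data -/

/-- the common properties of the `C^α` and `C^{1,α}` norms that are used -/
structure NK (M : Set ℂ) (γ : ℝ) (N : ℝ → (ℂ → ℝ) → Prop) : Prop where
  γ_pos : 0 < γ
  γ_lt : γ < 2
  add : ∀ {A B : ℝ} {f g : ℂ → ℝ}, N A f → N B g → N (A + B) (fun x => f x + g x)
  smul : ∀ {A : ℝ} {f : ℂ → ℝ} (c : ℝ), N A f → N (|c| * A) (fun x => c * f x)
  mono : ∀ {A B : ℝ} {f : ℂ → ℝ}, N A f → A ≤ B → N B f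
  abs_le : ∀ {A : ℝ} {f : ℂ → ℝ}, N A f → ∀ x ∈ M, |f x| ≤ A
  cont : ∀ {A : ℝ} {f : ℂ → ℝ}, N A f → ContinuousOn f M
  dense : ∀ {K : ℝ} {f : ℂ → ℝ}, N K f → ∀ ε > 0, ∃ w : ℂ → ℝ, N ε (fun x => w x - f x) ∧
    Rough M γ w
  smooth : ∀ {k : ℂ → ℝ}, ContDiff ℝ ∞ k → HasCompactSupport k → ∃ D : ℝ, 0 ≤ D ∧
    (∀ x v, |k (x + v) + k (x - v) - 2 * k x| ≤ D * ‖v‖ ^ 2) ∧ N D k

theorem HNormLe.add {A B : ℝ} {f g : ℂ → ℝ} (hf : HNormLe M α A f) (hg : HNormLe M α B g) :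
    HNormLe M α (A + B) (fun x => f x + g x) := by
  obtain ⟨a, c, ha, hc, hac, h1, h2⟩ := hf
  obtain ⟨a', c', ha', hc', hac', h1', h2'⟩ := hg
  refine ⟨a + a', c + c', by positivity, by positivity, by linarith, fun x hx => ?_,
    fun x hx y hy => ?_⟩
  · exact (abs_add_le _ _).trans (add_le_add (h1 x hx) (h1' x hx))
  · have e : f x + g x - (f y + g y) = (f x - f y) + (g x - g y) := by ring
    rw [e, add_mul]
    exact (abs_add_le _ _).trans (add_le_add (h2 x hx y hy) (h2' x hx y hy))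

theorem HNormLe.smul {A : ℝ} {f : ℂ → ℝ} (r : ℝ) (hf : HNormLe M α A f) :
    HNormLe M α (|r| * A) (fun x => r * f x) := by
  obtain ⟨a, c, ha, hc, hac, h1, h2⟩ := hf
  refine ⟨|r| * a, |r| * c, by positivity, by positivity, ?_, fun x hx => ?_,
    fun x hx y hy => ?_⟩
  · rw [← mul_add]; exact mul_le_mul_of_nonneg_left hac (abs_nonneg _)
  · rw [abs_mul]; exact mul_le_mul_of_nonneg_left (h1 x hx) (abs_nonneg _)
  · rw [← mul_sub, abs_mul, mul_assoc]
    exact mul_le_mul_of_nonneg_left (h2 x hx y hy) (abs_nonneg _)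

theorem HNormLe.mono {A B : ℝ} {f : ℂ → ℝ} (hf : HNormLe M α A f) (h : A ≤ B) :
    HNormLe M α B f := by
  obtain ⟨a, c, ha, hc, hac, h1, h2⟩ := hf
  exact ⟨a, c, ha, hc, hac.trans h, h1, h2⟩

theorem HNormLe.abs_le {A : ℝ} {f : ℂ → ℝ} (hf : HNormLe M α A f) : ∀ x ∈ M, |f x| ≤ A := by
  obtain ⟨a, c, ha, hc, hac, h1, h2⟩ := hf
  exact fun x hx => (h1 x hx).trans (by linarith)

theorem HNormLe.cont {A : ℝ} {f : ℂ → ℝ} (hα : 0 < α) (hf : HNormLe M α A f) :
    ContinuousOn f M := by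
  obtain ⟨a, c, ha, hc, hac, h1, h2⟩ := hf
  intro x hx
  rw [ContinuousWithinAt, tendsto_iff_dist_tendsto_zero]
  have hlim : Tendsto (fun y : ℂ => c * ‖y - x‖ ^ α) (𝓝[M] x) (𝓝 0) := by
    have h3 : ContinuousAt (fun y : ℂ => c * ‖y - x‖ ^ α) x := by
      refine ContinuousAt.mul continuousAt_const ?_
      exact ContinuousAt.rpow_const (by fun_prop) (Or.inr hα.le)
    have h4 := h3.tendsto
    rw [sub_self, norm_zero, Real.zero_rpow hα.ne', mul_zero] at h4
    exact h4.mono_left nhdsWithin_le_nhds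
  refine squeeze_zero' (Eventually.of_forall fun _ => dist_nonneg) ?_ hlim
  filter_upwards [self_mem_nhdsWithin] with y hy
  rw [Real.dist_eq]
  exact h2 y hy x hx

theorem nk_holder (hM : IsOpen M) (hne : M.Nonempty) (hα0 : 0 < α) (hα1 : α < 1) :
    NK M α (HNormLe M α) where
  γ_pos := hα0
  γ_lt := by linarith
  add := fun hf hg => hf.add hg
  smul := fun c hf => hf.smul c
  mono := fun hf h => hf.mono h
  abs_le := fun hf => hf.abs_le
  cont := fun hf => hf.cont hα0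
  dense := fun hf ε hε => dense_holder hM hne hα0 hα1 hf hε
  smooth := fun hk hc => by
    obtain ⟨D, hD0, hD, h⟩ := smooth_facts hk hc hα0 hα1
    exact ⟨D, hD0, hD, (h M hM).1⟩

theorem nk_holder_one (hM : IsOpen M) (hne : M.Nonempty) (hα0 : 0 < α) (hα1 : α < 1) :
    NK M (1 + α) (NormLe M α) where
  γ_pos := by linarith
  γ_lt := by linarith
  add := fun hf hg => hf.add hM hg
  smul := fun c hf => hf.const_mul hM c
  mono := fun hf h => hf.mono h
  abs_le := fun hf x hx => hf.abs_le hx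
  cont := fun hf => hf.1.continuousOn
  dense := fun hf ε hε => dense_holder_one hM hne hα0 hα1 hf hε
  smooth := fun hk hc => by
    obtain ⟨D, hD0, hD, h⟩ := smooth_facts hk hc hα0 hα1
    exact ⟨D, hD0, hD, (h M hM).2⟩

theorem Rough.ne_zero {γ : ℝ} (hne : M.Nonempty) (h : Rough M γ w₀) : ∃ x ∈ M, w₀ x ≠ 0 := by
  obtain ⟨c, hc, h⟩ := h
  obtain ⟨x₀, hx₀⟩ := hne
  obtain ⟨x, s, hs, -, -, hball, hle⟩ := h x₀ hx₀ 1 (by simp) 1 one_pos
  by_contra hcon
  push Not at hcon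
  have m1 : x + s • (1 : ℂ) ∈ M := hball (by simp [abs_of_pos hs])
  have m2 : x - s • (1 : ℂ) ∈ M := hball (by simp [abs_of_pos hs])
  have m3 : x ∈ M := hball (by simp [hs.le])
  rw [hcon _ m1, hcon _ m2, hcon _ m3] at hle
  have : 0 < c * s ^ γ := by positivity
  simp at hle
  linarith

theorem twisted_of {M : Set ℂ} (h : Star M ∨ Twisted M) : Twisted M := by
  rcases h with h | h
  · exact ⟨h.1, h.2.1, h.2.2.1, h.finDiam, _, _, h.twistField⟩
  · exact h

theorem twistedHole_of {M : Set ℂ} (h : StarRing M ∨ TwistedHole M) : TwistedHole M := by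
  rcases h with h | h
  · exact h.twistedHole
  · exact h

theorem good_open {ws : ℂ → ℝ} (hG : Good M ws) :
    IsOpen M ∧ Bornology.IsBounded M ∧ M.Nonempty := by
  rcases hG with ⟨a, b, ha, hb, rfl⟩ | h | ⟨h, -⟩ | ⟨h, -⟩
  · have := star_ellipse ha hb
    exact ⟨this.1, this.2.1, this.2.2.1⟩
  · have h := twistedHole_of h
    exact ⟨h.1, h.2.1, h.2.2.1⟩
  · have h := twisted_of h
    exact ⟨h.1, h.2.1, h.2.2.1⟩
  · exact ⟨h.1, h.2.1, h.2.2.1⟩

/-- near every vorticity there are rough vorticities which are stretched linearly -/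
theorem good_data {γ K ε : ℝ} {N : ℝ → (ℂ → ℝ) → Prop} (hN : NK M γ N) {ws : ℂ → ℝ}
    (hG : Good M ws) (hws : N K ws) (hε : 0 < ε) :
    ∃ w₀ : ℂ → ℝ, N ε (fun x => w₀ x - ws x) ∧ Rough M γ w₀ ∧ Stretch M w₀ := by
  obtain ⟨hM, hb, hne⟩ := good_open hG
  have hfin : volume M < ⊤ := hb.measure_lt_top
  have hV : 0 < volume.real M := by
    rw [Measure.real, ENNReal.toReal_pos_iff]
    exact ⟨hM.measure_pos _ hne, hfin⟩
  have hint : ∀ {A : ℝ} {f : ℂ → ℝ}, N A f → IntegrableOn f M := fun h =>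
    integrableOn_of_bdd hM hb (hN.cont h) (hN.abs_le h)
  rcases hG with ⟨a, b, ha, hb', rfl⟩ | h | ⟨h, hmean⟩ | ⟨h, φs, C, hφs, hl, hE⟩
  · -- ellipses
    obtain ⟨k, C, hk, hk0, hks, hkc, hkm⟩ := exists_stream_bump hM hb hne
    obtain ⟨D, hD0, hD, hND⟩ := hN.smooth hks hkc
    obtain ⟨w₁, hw₁, hr₁⟩ := hN.dense hws (ε / 2) (by positivity)
    have hw₁i : IntegrableOn w₁ (Ellipse a b) := by
      have := (hint hw₁).add (hint hws)
      refine this.congr (Eventually.of_forall fun x => ?_)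
      simp
    have hs₀ : 0 < ε / (4 * (D + 1)) := by positivity
    set s₀ := ε / (4 * (D + 1)) with hs₀'
    set m := (∫ x in Ellipse a b, w₁ x) / volume.real (Ellipse a b) with hm
    obtain ⟨i, hi, hdi⟩ := dichotomy hM hb (v := w₁) hk hk0 hs₀.ne'
      (m ^ 2 * ∫ x in Ellipse a b, gsq (tor a b) x)
    have hi' : (i : ℝ) ≤ 2 := by exact_mod_cast hi
    refine ⟨fun x => w₁ x + (i * s₀) * lap k x, ?_, ?_, ?_⟩
    · have h1 := hN.add hw₁ (hN.smul (i * s₀) hND)
      have h2 : ε / 2 + |i * s₀| * D ≤ ε := by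
        rw [abs_of_nonneg (by positivity)]
        have h3 : i * s₀ * D ≤ 2 * s₀ * (D + 1) := by
          have : (0:ℝ) ≤ s₀ * D := by positivity
          nlinarith
        have h4 : 2 * s₀ * (D + 1) = ε / 2 := by rw [hs₀']; field_simp; ring
        linarith
      have h3 := hN.mono h1 h2
      have e : (fun x => w₁ x + i * s₀ * lap k x - ws x) =
          fun x => w₁ x - ws x + i * s₀ * lap k x := by
        funext x; ring
      rw [e]; exact h3
    · refine Rough.add hN.γ_pos hN.γ_lt hr₁ (D := |i * s₀| * D) fun x v => ?_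
      have e : i * s₀ * lap k (x + v) + i * s₀ * lap k (x - v) - 2 * (i * s₀ * lap k x) =
          i * s₀ * (lap k (x + v) + lap k (x - v) - 2 * lap k x) := by ring
      rw [e, abs_mul, mul_assoc]
      exact mul_le_mul_of_nonneg_left (hD x v) (abs_nonneg _)
    · refine stretch_ellipse ha hb' (m := m) ?_ fun φ C' hφ hlφ => hdi φ C' hφ hlφ
      have i1 : IntegrableOn (fun x => i * s₀ * lap k x) (Ellipse a b) := (hint hND).const_mul _
      have i2 : IntegrableOn (fun x => w₁ x + i * s₀ * lap k x) (Ellipse a b) := hw₁i.add i1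
      rw [integral_sub i2 (integrableOn_const hfin.ne), integral_add hw₁i i1, integral_const_mul,
        hkm, setIntegral_const, smul_eq_mul, hm]
      field_simp
      ring
  · -- holes
    obtain ⟨w₁, hw₁, hr₁⟩ := hN.dense hws ε hε
    exact ⟨w₁, hw₁, hr₁, stretch_hole (twistedHole_of h) (hr₁.ne_zero hne)⟩
  · -- mean zero
    obtain ⟨k, hks, hkc, -, hk1⟩ := exists_unit_bump hM hne
    obtain ⟨D, hD0, hD, hND⟩ := hN.smooth hks hkc
    set V := volume.real M with hV'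
    have hε₁ : 0 < ε / (1 + V * D) := by positivity
    obtain ⟨w₁, hw₁, hr₁⟩ := hN.dense hws _ hε₁
    have hw₁i : IntegrableOn w₁ M := by
      have := (hint hw₁).add (hint hws)
      refine this.congr (Eventually.of_forall fun x => ?_)
      simp
    set μ := ∫ x in M, w₁ x with hμ
    have hμ2 : |μ| ≤ ε / (1 + V * D) * V := by
      have e : μ = ∫ x in M, (w₁ x - ws x) := by
        rw [integral_sub hw₁i (hint hws), hmean, sub_zero]
      rw [e]
      have := norm_setIntegral_le_of_norm_le_const (μ := volume) (s := M)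
        (f := fun x => w₁ x - ws x) (C := ε / (1 + V * D)) hfin fun x hx => hN.abs_le hw₁ x hx
      simpa using this
    have hr : Rough M γ fun x => w₁ x + -μ * k x := by
      refine Rough.add hN.γ_pos hN.γ_lt hr₁ (D := |-μ| * D) fun x v => ?_
      have e : -μ * k (x + v) + -μ * k (x - v) - 2 * (-μ * k x) =
          -μ * (k (x + v) + k (x - v) - 2 * k x) := by ring
      rw [e, abs_mul, mul_assoc]
      exact mul_le_mul_of_nonneg_left (hD x v) (abs_nonneg _)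
    refine ⟨fun x => w₁ x + -μ * k x, ?_, hr, ?_⟩
    · have h1 := hN.add hw₁ (hN.smul (-μ) hND)
      have h2 : ε / (1 + V * D) + |-μ| * D ≤ ε := by
        rw [abs_neg]
        have h3 : |μ| * D ≤ ε / (1 + V * D) * V * D := mul_le_mul_of_nonneg_right hμ2 hD0
        have h4 : ε / (1 + V * D) + ε / (1 + V * D) * V * D = ε := by
          have : (1 + V * D) ≠ 0 := by positivity
          field_simp
        linarith
      have h3 := hN.mono h1 h2
      have e : (fun x => w₁ x + -μ * k x - ws x) = fun x => w₁ x - ws x + -μ * k x := by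
        funext x; ring
      rw [e]; exact h3
    · refine stretch_twisted (twisted_of h) ?_ (hr.ne_zero hne)
      rw [integral_add hw₁i ((hint hND).const_mul _), integral_const_mul, hk1, ← hμ]
      ring
  · -- large kinetic energy
    obtain ⟨ρ, hρ0, hρ⟩ := energetic_near hM hb hne (hint hws) hφs hl hE
    obtain ⟨w₁, hw₁, hr₁⟩ := hN.dense hws (min ε ρ) (by positivity)
    have hw₁i : IntegrableOn w₁ M := by
      have := (hint hw₁).add (hint hws)
      refine this.congr (Eventually.of_forall fun x => ?_)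
      simp
    exact ⟨w₁, hN.mono hw₁ (min_le_left _ _), hr₁, stretch_energetic h
      (hρ w₁ hw₁i fun x hx => (hN.abs_le hw₁ x hx).trans (min_le_right _ _))⟩

/-- **Universal stretching** -/
theorem charged_stretch (h : Charged M w₀) : Stretch M w₀ := by
  rcases h with ⟨R, hR, rfl, hw⟩ | ⟨a, b, ha, hb, rfl, hE⟩ | ⟨h, hw⟩ | ⟨h, hw, hw0⟩ | ⟨h, hE⟩
  · exact stretch_disk hR hw
  · by_cases hex : ∃ ψ Φ, Flow (Ellipse a b) w₀ ψ Φ
    swap
    · exact ⟨1, one_pos, fun ψ Φ h => absurd ⟨ψ, Φ, h⟩ hex⟩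
    obtain ⟨ψ₁, Φ₁, h₁⟩ := hex
    have hS := star_ellipse ha hb
    obtain ⟨hwc, B, hB0, hB⟩ := h₁.w0_bdd hS.1
    exact stretch_ellipse ha hb (mean_int hS.1 hS.2.1 hS.2.2.1
      (integrableOn_of_bdd hS.1 hS.2.1 hwc hB)) hE
  · exact stretch_hole (twistedHole_of h) hw
  · exact stretch_twisted (twisted_of h) hw hw0
  · exact stretch_energetic h hE

end Pool.Agent.YUT
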