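import Pool.Agent.YUT.Defs
import Pool.Agent.YUD.Base2
import Pool.Agent.YUD.A1

/-!
# [YUT] Base: auxiliary notions and elementary facts
-/

open MeasureTheory Set Filter Topology
open scoped ContDiff

namespace Pool.Agent.YUT

open Pool.Agent.YUD

/-- the area form `a ∧ b` -/
noncomputable def wed (a b : ℂ) : ℝ := a.re * b.im - a.im * b.re

/-- `Y ⬝ ∇f - f` -/
noncomputable def gg (Y : ℂ → ℂ) (f : ℂ → ℝ) (x : ℂ) : ℝ := fderiv ℝ f x (Y x) - f x

/-- the action `A_t(x) = ∫_0^t (Y ⬝ ∇ψ_τ - ψ_τ)(Φ_τ x) dτ` -/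
noncomputable def act (Y : ℂ → ℂ) (ψ : ℝ → ℂ → ℝ) (Φ : ℝ → ℂ → ℂ) (t : ℝ) (x : ℂ) : ℝ :=
  ∫ τ in (0 : ℝ)..t, gg Y (ψ τ) (Φ τ x)

/-- roughness with constant `c`: at every point, in every direction and at arbitrarily small
scales there is a second difference of size at least `c s^γ`. -/
def RoughC (M : Set ℂ) (γ c : ℝ) (w : ℂ → ℝ) : Prop :=
  ∀ x₀ ∈ M, ∀ e : ℂ, ‖e‖ = 1 → ∀ δ > 0, ∃ (x : ℂ) (s : ℝ), 0 < s ∧ s < δ ∧ ‖x - x₀‖ < δ ∧
    Metric.closedBall x s ⊆ M ∧ c * s ^ γ ≤ |w (x + s • e) + w (x - s • e) - 2 * w x|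

/-- roughness -/
def Rough (M : Set ℂ) (γ : ℝ) (w : ℂ → ℝ) : Prop := ∃ c > 0, RoughC M γ c w

/-- universal linear stretching from the initial vorticity `w₀` -/
def Stretch (M : Set ℂ) (w₀ : ℂ → ℝ) : Prop :=
  ∃ c > 0, ∀ (ψ : ℝ → ℂ → ℝ) (Φ : ℝ → ℂ → ℂ), Flow M w₀ ψ Φ →
    ∀ t, 0 ≤ t → ∀ L : ℝ, (∀ x ∈ M, ‖fderiv ℝ (Φ t) x‖ ≤ L) → c * t ≤ L

/-- the lacunary series of bumps -/
noncomputable def ser (β : ℂ → ℝ) (γ : ℝ) (p : ℕ → ℂ) (r σ : ℕ → ℝ) (x : ℂ) : ℝ :=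
  ∑' j, σ j * (r j ^ γ * β ((r j)⁻¹ • (x - p j)))

/-- the twist field of a star-shaped ring -/
noncomputable def ringField (ρ : ℝ) (x : ℂ) : ℂ :=
  if ‖x‖ ≤ ρ then 0 else (1 / 2 * (1 - ρ ^ 2 / ‖x‖ ^ 2) : ℝ) • x

variable {M : Set ℂ} {f g : ℂ → ℝ} {C : ℝ}

theorem wed_le (a b : ℂ) : |wed a b| ≤ ‖a‖ * ‖b‖ := by
  have h : wed a b = ((starRingEnd ℂ) a * b).im := by
    simp [wed, Complex.mul_im]; ring
  rw [h]
  refine (Complex.abs_im_le_norm _).trans ?_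
  rw [norm_mul, RCLike.norm_conj]

theorem wed_perp_right (f : ℂ → ℝ) (x v : ℂ) : wed v (perp f x) = fderiv ℝ f x v := by
  rw [fderiv_apply']; simp [wed, perp]

theorem wed_perp (f : ℂ → ℝ) (x v : ℂ) : wed (perp f x) v = - fderiv ℝ f x v := by
  rw [fderiv_apply']; simp [wed, perp]; ring

theorem fderiv_perp (f g : ℂ → ℝ) (x : ℂ) : fderiv ℝ g x (perp f x) = pb f g x := by
  rw [fderiv_apply']; simp [perp, pb]; ring

theorem pb_self (f : ℂ → ℝ) (x : ℂ) : pb f f x = 0 := by simp [pb]; ring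

theorem StreamLe.c2 (h : StreamLe M C f) : ContDiffOn ℝ 2 f M := h.1

theorem StreamLe.diffOn (h : StreamLe M C f) : DifferentiableOn ℝ f M :=
  h.1.differentiableOn (by norm_num)

theorem StreamLe.zero (h : StreamLe M C f) : ZeroAtBoundary M f := h.2.2

theorem StreamLe.abs_le (h : StreamLe M C f) : ∀ x ∈ M, |f x| ≤ C := h.2.1.zero_le

theorem StreamLe.dx_le (h : StreamLe M C f) : ∀ x ∈ M, |dx f x| ≤ C := h.2.1.2.1.zero_le

theorem StreamLe.dy_le (h : StreamLe M C f) : ∀ x ∈ M, |dy f x| ≤ C := h.2.1.2.2.zero_le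

theorem StreamLe.fderiv_le (h : StreamLe M C f) : ∀ x ∈ M, ‖fderiv ℝ f x‖ ≤ 2 * C := by
  intro x hx
  have := norm_fderiv_le f x
  linarith [h.dx_le x hx, h.dy_le x hx]

theorem StreamLe.lap_le (h : StreamLe M C f) : ∀ x ∈ M, |lap f x| ≤ 2 * C := by
  intro x hx
  have h1 : |dx (dx f) x| ≤ C := h.2.1.2.1.2.1 x hx
  have h2 : |dy (dy f) x| ≤ C := h.2.1.2.2.2.2 x hx
  unfold lap
  linarith [abs_add_le (dx (dx f) x) (dy (dy f) x)]

theorem StreamLe.mono {C' : ℝ} (h : StreamLe M C f) (hC : C ≤ C') : StreamLe M C' f :=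
  ⟨h.1, h.2.1.mono hC, h.2.2⟩

theorem StreamLe.cont (h : StreamLe M C f) : ContinuousOn f M := h.1.continuousOn

theorem StreamLe.dx_cont (hM : IsOpen M) (h : StreamLe M C f) : ContinuousOn (dx f) M :=
  (contDiffOn_dx (n := 1) hM h.1).continuousOn

theorem StreamLe.dy_cont (hM : IsOpen M) (h : StreamLe M C f) : ContinuousOn (dy f) M :=
  (contDiffOn_dy (n := 1) hM h.1).continuousOn

theorem StreamLe.fderiv_cont (hM : IsOpen M) (h : StreamLe M C f) :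
    ContinuousOn (fderiv ℝ f) M :=
  ((h.1.fderiv_of_isOpen hM (m := 1) (by norm_num)).continuousOn)

theorem StreamLe.lap_cont (hM : IsOpen M) (h : StreamLe M C f) : ContinuousOn (lap f) M := by
  have h1 : ContDiffOn ℝ (0 + 1 : ℕ) (dx f) M := contDiffOn_dx (n := 1) hM h.1
  have h2 : ContDiffOn ℝ (0 + 1 : ℕ) (dy f) M := contDiffOn_dy (n := 1) hM h.1
  exact (contDiffOn_dx hM h1).continuousOn.add (contDiffOn_dy hM h2).continuousOn

theorem StreamLe.sub (hM : IsOpen M) {D : ℝ} (h : StreamLe M C f) (h' : StreamLe M D g) :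
    StreamLe M (C + D) (fun x => f x - g x) := by
  refine ⟨h.1.sub h'.1, h.2.1.sub hM h.1 h'.1 h'.2.1, ?_⟩
  have := zeroAtBoundary_add h.2.2 (zeroAtBoundary_const_mul (-1) h'.2.2)
  simpa [sub_eq_add_neg] using this

theorem StreamLe.add (hM : IsOpen M) {D : ℝ} (h : StreamLe M C f) (h' : StreamLe M D g) :
    StreamLe M (C + D) (fun x => f x + g x) :=
  ⟨h.1.add h'.1, h.2.1.add hM h.1 h'.1 h'.2.1, zeroAtBoundary_add h.2.2 h'.2.2⟩

theorem StreamLe.const_mul (hM : IsOpen M) (c : ℝ) (h : StreamLe M C f) :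
    StreamLe M (|c| * C) (fun x => c * f x) :=
  ⟨contDiffOn_const.mul h.1, h.2.1.const_mul hM c h.1, zeroAtBoundary_const_mul c h.2.2⟩

theorem StreamLe.congr (hM : IsOpen M) (h : StreamLe M C f) (hfg : ∀ x ∈ M, f x = g x) :
    StreamLe M C g := by
  refine ⟨h.1.congr fun x hx => (hfg x hx).symm, h.2.1.congr hM hfg, ?_⟩
  intro ε hε
  obtain ⟨K, hK, hKc, hK2⟩ := h.2.2 ε hε
  exact ⟨K, hK, hKc, fun x hx hxK => by rw [← hfg x hx]; exact hK2 x hx hxK⟩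

/-- a stream function is determined by its Laplacian -/
theorem stream_ext (hM : IsOpen M) (hb : Bornology.IsBounded M) {C D : ℝ}
    (h : StreamLe M C f) (h' : StreamLe M D g) (hl : ∀ x ∈ M, lap f x = lap g x) :
    ∀ x ∈ M, f x = g x := by
  intro x hx
  have h1 := max_principle hM hb (h.sub hM h').1 (h.sub hM h').2.2 (fun z hz => by
    have := lap_add hM h.1 (contDiffOn_const.mul h'.1 (f := fun _ => (-1 : ℝ))) hz
    have h2 := lap_const_mul hM (-1) h'.1 hz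
    have h3 : lap (fun x => f x - g x) z = lap (fun x => f x + -1 * g x) z := by
      congr 1; funext y; ring
    rw [h3, this, h2, hl z hz]; linarith) x hx
  have h1' := max_principle hM hb (h'.sub hM h).1 (h'.sub hM h).2.2 (fun z hz => by
    have := lap_add hM h'.1 (contDiffOn_const.mul h.1 (f := fun _ => (-1 : ℝ))) hz
    have h2 := lap_const_mul hM (-1) h.1 hz
    have h3 : lap (fun x => g x - f x) z = lap (fun x => g x + -1 * f x) z := by
      congr 1; funext y; ring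
    rw [h3, this, h2, hl z hz]; linarith) x hx
  linarith

end Pool.Agent.YUT
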