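import Pool.Agent.YUT.Base

open MeasureTheory Set Filter Topology
open scoped ContDiff

namespace Pool.Agent.YUT

open Pool.Agent.YUD

private theorem X0_wedc : Continuous (fun p : ℂ × ℂ => wed p.1 p.2) := by
  unfold wed
  fun_prop

private theorem X0_wed_add_left (a b c : ℂ) : wed (a + b) c = wed a c + wed b c := by
  simp [wed]; ring

private theorem X0_wed_sub_left (a b c : ℂ) : wed (a - b) c = wed a c - wed b c := by
  simp [wed]; ring

private theorem X0_wed_sub_right (a b c : ℂ) : wed a (b - c) = wed a b - wed a c := by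
  simp [wed]; ring

private theorem X0_wed_smul_left (r : ℝ) (a b : ℂ) : wed (r • a) b = r * wed a b := by
  simp [wed]; ring

private theorem X0_wed_smul_right (r : ℝ) (a b : ℂ) : wed a (r • b) = r * wed a b := by
  simp [wed]; ring

private theorem X0_trace (A : ℂ →L[ℝ] ℂ) (a b : ℂ) :
    wed (A a) b - wed (A b) a = ((A 1).re + (A Complex.I).im) * wed a b := by
  have h : ∀ v : ℂ, A v = v.re • A 1 + v.im • A Complex.I := by
    intro v
    rw [← map_smul, ← map_smul, ← map_add]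
    congr 1
    apply Complex.ext <;> simp
  rw [h a, h b]
  simp only [wed, Complex.add_re, Complex.add_im, Complex.real_smul, Complex.mul_re, Complex.mul_im,
    Complex.ofReal_re, Complex.ofReal_im, zero_mul, sub_zero, add_zero]
  ring

private theorem X0_wed_deriv {f g : ℝ → ℂ} {f' g' : ℂ} {s : ℝ} (hf : HasDerivAt f f' s)
    (hg : HasDerivAt g g' s) :
    HasDerivAt (fun s => wed (f s) (g s)) (wed f' (g s) + wed (f s) g') s := by
  have hre : ∀ {h : ℝ → ℂ} {h' : ℂ}, HasDerivAt h h' s → HasDerivAt (fun s => (h s).re) h'.re s :=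
    fun hh => Complex.reCLM.hasFDerivAt.comp_hasDerivAt s hh
  have him : ∀ {h : ℝ → ℂ} {h' : ℂ}, HasDerivAt h h' s → HasDerivAt (fun s => (h s).im) h'.im s :=
    fun hh => Complex.imCLM.hasFDerivAt.comp_hasDerivAt s hh
  have h1 := ((hre hf).mul (him hg)).sub ((him hf).mul (hre hg))
  refine h1.congr_deriv ?_
  unfold wed
  ring

/-- [YUT-X0] Stokes' formula on a rectangle for the form `Y ∧ dx` (`div Y = 1`), without mixed
derivatives. Proof. Let `F τ = ∫_0^1 Y(c(τ,s)) ∧ b(τ,s) ds`. For `τ, τ' ∈ [0,t]` let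
`c' = c(τ',·)`, `b' = b(τ',·)`, `d(s) = c' - c`, `d' = b' - b`. Then
`Y(c') ∧ b' - Y(c) ∧ b = (Y(c') - Y(c)) ∧ b' + Y(c) ∧ (b' - b)` and, integrating by parts in `s`
(`s ↦ Y(c(τ,s))` is `C¹` with derivative `DY(c) b`),
`∫_0^1 Y(c) ∧ (b' - b) ds = [Y(c) ∧ d]_0^1 - ∫_0^1 (DY(c) b) ∧ d ds`. So
`F τ' - F τ = ∫_0^1 ((Y(c') - Y(c)) ∧ b' - (DY(c) b) ∧ d) ds + [Y(c) ∧ d]_0^1`. Divide by `τ' - τ`,
let `τ' → τ`: `d/(τ' - τ) → a(τ,s)` uniformly in `s` (`c(τ',s) - c(τ,s) = ∫_τ^τ' a(σ,s) dσ` and `a` is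
uniformly continuous on the rectangle), `b' → b` uniformly, `(Y(c') - Y(c))/(τ' - τ) → DY(c) a`
(pointwise, bounded: dominated convergence suffices everywhere). Since
`(A a) ∧ b - (A b) ∧ a = (A a) ∧ b + a ∧ (A b) = (trace A) a ∧ b`, `F` has the derivative
`∫_0^1 a ∧ b ds + [Y(c) ∧ a]_0^1` within `[0,t]`, continuous in `τ`; integrate over `[0,t]`. -/
theorem stokes {M : Set ℂ} (hM : IsOpen M) {Y : ℂ → ℂ} (hY : ContDiffOn ℝ 1 Y M)
    (hdiv : ∀ x ∈ M, (fderiv ℝ Y x 1).re + (fderiv ℝ Y x Complex.I).im = 1)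
    {t : ℝ} (ht : 0 ≤ t) {c a b : ℝ → ℝ → ℂ}
    (hcM : ∀ τ ∈ Icc 0 t, ∀ s ∈ Icc (0 : ℝ) 1, c τ s ∈ M)
    (hc : ContinuousOn (fun p : ℝ × ℝ => c p.1 p.2) (Icc 0 t ×ˢ Icc 0 1))
    (ha : ContinuousOn (fun p : ℝ × ℝ => a p.1 p.2) (Icc 0 t ×ˢ Icc 0 1))
    (hb : ContinuousOn (fun p : ℝ × ℝ => b p.1 p.2) (Icc 0 t ×ˢ Icc 0 1))
    (hca : ∀ τ ∈ Icc 0 t, ∀ s ∈ Icc (0 : ℝ) 1,
      HasDerivWithinAt (fun σ => c σ s) (a τ s) (Icc 0 t) τ)
    (hcb : ∀ τ ∈ Icc 0 t, ∀ s ∈ Icc (0 : ℝ) 1,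
      HasDerivWithinAt (fun σ => c τ σ) (b τ s) (Icc 0 1) s) :
    (∫ s in (0 : ℝ)..1, wed (Y (c t s)) (b t s)) - (∫ s in (0 : ℝ)..1, wed (Y (c 0 s)) (b 0 s)) =
      ∫ τ in (0 : ℝ)..t, ((∫ s in (0 : ℝ)..1, wed (a τ s) (b τ s)) +
        wed (Y (c τ 1)) (a τ 1) - wed (Y (c τ 0)) (a τ 0)) := by
  set I : Set ℝ := Icc 0 t with hI
  set J : Set ℝ := Icc (0 : ℝ) 1 with hJ
  have hIJc : IsCompact (I ×ˢ J) := isCompact_Icc.prod isCompact_Icc
  have h0J : (0 : ℝ) ∈ J := ⟨le_rfl, zero_le_one⟩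
  have h1J : (1 : ℝ) ∈ J := ⟨zero_le_one, le_rfl⟩
  have hYd : DifferentiableOn ℝ Y M := hY.differentiableOn (by norm_num)
  have hDYc : ContinuousOn (fderiv ℝ Y) M := hY.continuousOn_fderiv_of_isOpen hM (by norm_num)
  have hmaps : MapsTo (fun p : ℝ × ℝ => c p.1 p.2) (I ×ˢ J) M := fun p hp => hcM _ hp.1 _ hp.2
  have hYc : ContinuousOn (fun p : ℝ × ℝ => Y (c p.1 p.2)) (I ×ˢ J) :=
    hY.continuousOn.comp hc hmaps
  have hDY : ContinuousOn (fun p : ℝ × ℝ => fderiv ℝ Y (c p.1 p.2)) (I ×ˢ J) :=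
    hDYc.comp hc hmaps
  obtain ⟨A, hA⟩ := hIJc.exists_bound_of_continuousOn ha
  obtain ⟨B, hBb⟩ := hIJc.exists_bound_of_continuousOn hb
  obtain ⟨L, hL⟩ := hIJc.exists_bound_of_continuousOn hDY
  -- slices
  have slice : ∀ {E : Type} [TopologicalSpace E] {g : ℝ × ℝ → E}, ContinuousOn g (I ×ˢ J) →
      ∀ τ ∈ I, ContinuousOn (fun s => g (τ, s)) J := by
    intro E _ g hg τ hτ
    exact hg.comp (by fun_prop) (fun s hs => ⟨hτ, hs⟩)
  have slice' : ∀ {E : Type} [TopologicalSpace E] {g : ℝ × ℝ → E}, ContinuousOn g (I ×ˢ J) →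
      ∀ s ∈ J, ContinuousOn (fun τ => g (τ, s)) I := by
    intro E _ g hg s hs
    exact hg.comp (by fun_prop) (fun τ hτ => ⟨hτ, hs⟩)
  have wcont : ∀ {u v : ℝ → ℂ}, ContinuousOn u J → ContinuousOn v J →
      ContinuousOn (fun s => wed (u s) (v s)) J := fun hu hv => X0_wedc.comp_continuousOn (hu.prodMk hv)
  have ii : ∀ {u : ℝ → ℝ}, ContinuousOn u J → IntervalIntegrable u volume 0 1 := by
    intro u hu
    exact ContinuousOn.intervalIntegrable (by rwa [uIcc_of_le zero_le_one])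
  have hjm : MeasurableSet (uIoc (0 : ℝ) 1) := measurableSet_uIoc
  have hsub : uIoc (0 : ℝ) 1 ⊆ J := by
    rw [uIoc_of_le zero_le_one]
    exact Ioc_subset_Icc_self
  -- the derivative of `Y ∘ c` in `s` and in `τ`
  have hYs : ∀ τ ∈ I, ∀ s ∈ Ioo (0 : ℝ) 1,
      HasDerivAt (fun σ => Y (c τ σ)) (fderiv ℝ Y (c τ s) (b τ s)) s := by
    intro τ hτ s hs
    have h1 := (hYd.differentiableAt (hM.mem_nhds (hcM τ hτ s ⟨hs.1.le, hs.2.le⟩))).hasFDerivAt
    have h2 := (hcb τ hτ s ⟨hs.1.le, hs.2.le⟩).hasDerivAt (Icc_mem_nhds hs.1 hs.2)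
    exact h1.comp_hasDerivAt s h2
  have hYt : ∀ τ ∈ I, ∀ s ∈ J,
      HasDerivWithinAt (fun σ => Y (c σ s)) (fderiv ℝ Y (c τ s) (a τ s)) I τ := by
    intro τ hτ s hs
    have h1 := (hYd.differentiableAt (hM.mem_nhds (hcM τ hτ s hs))).hasFDerivAt
    exact h1.comp_hasDerivWithinAt τ (hca τ hτ s hs)
  have hcLip : ∀ τ ∈ I, ∀ τ' ∈ I, ∀ s ∈ J, ‖c τ' s - c τ s‖ ≤ A * ‖τ' - τ‖ := by
    intro τ hτ τ' hτ' s hs
    exact (convex_Icc (0 : ℝ) t).norm_image_sub_le_of_norm_hasDerivWithin_le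
      (fun σ hσ => hca σ hσ s hs) (fun σ hσ => hA (σ, s) ⟨hσ, hs⟩) hτ hτ'
  have hYLip : ∀ τ ∈ I, ∀ τ' ∈ I, ∀ s ∈ J, ‖Y (c τ' s) - Y (c τ s)‖ ≤ L * A * ‖τ' - τ‖ := by
    intro τ hτ τ' hτ' s hs
    exact (convex_Icc (0 : ℝ) t).norm_image_sub_le_of_norm_hasDerivWithin_le
      (fun σ hσ => hYt σ hσ s hs) (fun σ hσ => by
        refine (ContinuousLinearMap.le_opNorm _ _).trans ?_
        have h1 : ‖fderiv ℝ Y (c σ s)‖ ≤ L := hL (σ, s) ⟨hσ, hs⟩
        have h2 : ‖a σ s‖ ≤ A := hA (σ, s) ⟨hσ, hs⟩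
        exact mul_le_mul h1 h2 (norm_nonneg _) ((norm_nonneg _).trans h1)) hτ hτ'
  set F : ℝ → ℝ := fun τ => ∫ s in (0 : ℝ)..1, wed (Y (c τ s)) (b τ s) with hF
  set F' : ℝ → ℝ := fun τ => (∫ s in (0 : ℝ)..1, wed (a τ s) (b τ s)) +
        wed (Y (c τ 1)) (a τ 1) - wed (Y (c τ 0)) (a τ 0) with hF'
  -- the difference
  have hdiff : ∀ τ ∈ I, ∀ τ' ∈ I, F τ' - F τ =
      (∫ s in (0 : ℝ)..1, (wed (Y (c τ' s) - Y (c τ s)) (b τ' s) -
        wed (fderiv ℝ Y (c τ s) (b τ s)) (c τ' s - c τ s))) +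
      (wed (Y (c τ 1)) (c τ' 1 - c τ 1) - wed (Y (c τ 0)) (c τ' 0 - c τ 0)) := by
    intro τ hτ τ' hτ'
    have k1 : ContinuousOn (fun s => Y (c τ s)) J := slice hYc τ hτ
    have k2 : ContinuousOn (fun s => Y (c τ' s)) J := slice hYc τ' hτ'
    have k3 : ContinuousOn (fun s => b τ s) J := slice hb τ hτ
    have k4 : ContinuousOn (fun s => b τ' s) J := slice hb τ' hτ'
    have k5 : ContinuousOn (fun s => c τ s) J := slice hc τ hτ
    have k6 : ContinuousOn (fun s => c τ' s) J := slice hc τ' hτ'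
    have k7 : ContinuousOn (fun s => fderiv ℝ Y (c τ s) (b τ s)) J :=
      (slice hDY τ hτ).clm_apply k3
    have hparts : ∫ s in (0 : ℝ)..1, (wed (fderiv ℝ Y (c τ s) (b τ s)) (c τ' s - c τ s) +
        wed (Y (c τ s)) (b τ' s - b τ s)) =
        wed (Y (c τ 1)) (c τ' 1 - c τ 1) - wed (Y (c τ 0)) (c τ' 0 - c τ 0) := by
      apply intervalIntegral.integral_eq_sub_of_hasDerivAt_of_le zero_le_one
        (f := fun s => wed (Y (c τ s)) (c τ' s - c τ s)) (wcont k1 (k6.sub k5))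
      · intro s hs
        have h2 := (hcb τ hτ s ⟨hs.1.le, hs.2.le⟩).hasDerivAt (Icc_mem_nhds hs.1 hs.2)
        have h3 := (hcb τ' hτ' s ⟨hs.1.le, hs.2.le⟩).hasDerivAt (Icc_mem_nhds hs.1 hs.2)
        exact X0_wed_deriv (hYs τ hτ s hs) (h3.sub h2)
      · exact ii ((wcont k7 (k6.sub k5)).add (wcont k1 (k4.sub k3)))
    have m1 : IntervalIntegrable (fun s => wed (Y (c τ' s) - Y (c τ s)) (b τ' s) -
        wed (fderiv ℝ Y (c τ s) (b τ s)) (c τ' s - c τ s)) volume 0 1 :=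
      ii ((wcont (k2.sub k1) k4).sub (wcont k7 (k6.sub k5)))
    have m2 : IntervalIntegrable (fun s => wed (fderiv ℝ Y (c τ s) (b τ s)) (c τ' s - c τ s) +
        wed (Y (c τ s)) (b τ' s - b τ s)) volume 0 1 :=
      ii ((wcont k7 (k6.sub k5)).add (wcont k1 (k4.sub k3)))
    rw [← hparts, hF]
    simp only
    rw [← intervalIntegral.integral_sub (ii (wcont k2 k4)) (ii (wcont k1 k3)),
      ← intervalIntegral.integral_add m1 m2]
    apply intervalIntegral.integral_congr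
    intro s _
    simp only [X0_wed_sub_left, X0_wed_sub_right]
    ring
  -- the derivative
  have hder : ∀ τ ∈ I, HasDerivWithinAt F (F' τ) I τ := by
    intro τ hτ
    rw [hasDerivWithinAt_iff_tendsto_slope]
    have hmem : ∀ᶠ τ' in 𝓝[I \ {τ}] τ, τ' ∈ I ∧ τ' ≠ τ := by
      filter_upwards [self_mem_nhdsWithin] with τ' hτ'
      exact ⟨hτ'.1, hτ'.2⟩
    have hsl : ∀ᶠ τ' in 𝓝[I \ {τ}] τ,
        (∫ s in (0 : ℝ)..1, (wed (slope (fun σ => Y (c σ s)) τ τ') (b τ' s) -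
          wed (fderiv ℝ Y (c τ s) (b τ s)) (slope (fun σ => c σ s) τ τ'))) +
        (wed (Y (c τ 1)) (slope (fun σ => c σ 1) τ τ') -
          wed (Y (c τ 0)) (slope (fun σ => c σ 0) τ τ')) = slope F τ τ' := by
      filter_upwards [hmem] with τ' hτ'
      rw [slope_def_module F, hdiff τ hτ τ' hτ'.1, smul_add, smul_eq_mul, smul_eq_mul,
        ← intervalIntegral.integral_const_mul]
      congr 1
      · apply intervalIntegral.integral_congr
        intro s _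
        simp only [slope_def_module, X0_wed_smul_left, X0_wed_smul_right]
        ring
      · simp only [slope_def_module, X0_wed_smul_right]
        ring
    refine Tendsto.congr' hsl ?_
    have hw : ∀ {α : Type} {l : Filter α} {u v : α → ℂ} {x y : ℂ}, Tendsto u l (𝓝 x) →
        Tendsto v l (𝓝 y) → Tendsto (fun i => wed (u i) (v i)) l (𝓝 (wed x y)) :=
      fun hu hv => (X0_wedc.tendsto (_, _)).comp (hu.prodMk_nhds hv)
    have hslc : ∀ s ∈ J, Tendsto (slope (fun σ => c σ s) τ) (𝓝[I \ {τ}] τ) (𝓝 (a τ s)) :=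
      fun s hs => (hasDerivWithinAt_iff_tendsto_slope.1 (hca τ hτ s hs))
    have hslY : ∀ s ∈ J, Tendsto (slope (fun σ => Y (c σ s)) τ) (𝓝[I \ {τ}] τ)
        (𝓝 (fderiv ℝ Y (c τ s) (a τ s))) :=
      fun s hs => (hasDerivWithinAt_iff_tendsto_slope.1 (hYt τ hτ s hs))
    have hlim : F' τ = (∫ s in (0 : ℝ)..1, wed (a τ s) (b τ s)) +
        (wed (Y (c τ 1)) (a τ 1) - wed (Y (c τ 0)) (a τ 0)) := by
      rw [hF']
      ring
    rw [hlim]
    refine Tendsto.add ?_ ((hw tendsto_const_nhds (hslc 1 h1J)).sub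
      (hw tendsto_const_nhds (hslc 0 h0J)))
    refine intervalIntegral.tendsto_integral_filter_of_dominated_convergence
      (fun _ => L * A * B + L * B * A) ?_ ?_ ?_ ?_
    · filter_upwards [hmem] with τ' hτ'
      have k1 : ContinuousOn (fun s => Y (c τ s)) J := slice hYc τ hτ
      have k2 : ContinuousOn (fun s => Y (c τ' s)) J := slice hYc τ' hτ'.1
      have k3 : ContinuousOn (fun s => b τ s) J := slice hb τ hτ
      have k4 : ContinuousOn (fun s => b τ' s) J := slice hb τ' hτ'.1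
      have k5 : ContinuousOn (fun s => c τ s) J := slice hc τ hτ
      have k6 : ContinuousOn (fun s => c τ' s) J := slice hc τ' hτ'.1
      have k7 : ContinuousOn (fun s => fderiv ℝ Y (c τ s) (b τ s)) J :=
        (slice hDY τ hτ).clm_apply k3
      have k8 : ContinuousOn (fun s => slope (fun σ => Y (c σ s)) τ τ') J := by
        simp only [slope_def_module]
        exact (k2.sub k1).const_smul _
      have k9 : ContinuousOn (fun s => slope (fun σ => c σ s) τ τ') J := by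
        simp only [slope_def_module]
        exact (k6.sub k5).const_smul _
      exact (((wcont k8 k4).sub (wcont k7 k9)).mono hsub).aestronglyMeasurable hjm
    · filter_upwards [hmem] with τ' hτ'
      refine Eventually.of_forall fun s hs => ?_
      have hsJ : s ∈ J := hsub hs
      have hne : 0 < ‖τ' - τ‖ := norm_pos_iff.2 (sub_ne_zero.2 hτ'.2)
      have q1 : ‖slope (fun σ => Y (c σ s)) τ τ'‖ ≤ L * A := by
        rw [slope_def_module, norm_smul, norm_inv, inv_mul_le_iff₀ hne]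
        refine (hYLip τ hτ τ' hτ'.1 s hsJ).trans (le_of_eq ?_)
        ring
      have q2 : ‖slope (fun σ => c σ s) τ τ'‖ ≤ A := by
        rw [slope_def_module, norm_smul, norm_inv, inv_mul_le_iff₀ hne]
        refine (hcLip τ hτ τ' hτ'.1 s hsJ).trans (le_of_eq ?_)
        ring
      have q3 : ‖b τ' s‖ ≤ B := hBb (τ', s) ⟨hτ'.1, hsJ⟩
      have q4 : ‖b τ s‖ ≤ B := hBb (τ, s) ⟨hτ, hsJ⟩
      have q5 : ‖fderiv ℝ Y (c τ s)‖ ≤ L := hL (τ, s) ⟨hτ, hsJ⟩
      have q6 : ‖fderiv ℝ Y (c τ s) (b τ s)‖ ≤ L * B :=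
        (ContinuousLinearMap.le_opNorm _ _).trans
          (mul_le_mul q5 q4 (norm_nonneg _) ((norm_nonneg _).trans q5))
      have q7 := wed_le (slope (fun σ => Y (c σ s)) τ τ') (b τ' s)
      have q8 := wed_le (fderiv ℝ Y (c τ s) (b τ s)) (slope (fun σ => c σ s) τ τ')
      have q9 : ‖slope (fun σ => Y (c σ s)) τ τ'‖ * ‖b τ' s‖ ≤ L * A * B :=
        mul_le_mul q1 q3 (norm_nonneg _) ((norm_nonneg _).trans q1)
      have q10 : ‖fderiv ℝ Y (c τ s) (b τ s)‖ * ‖slope (fun σ => c σ s) τ τ'‖ ≤ L * B * A :=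
        mul_le_mul q6 q2 (norm_nonneg _) ((norm_nonneg _).trans q6)
      rw [Real.norm_eq_abs]
      refine (abs_sub _ _).trans ?_
      linarith
    · exact intervalIntegrable_const
    · refine Eventually.of_forall fun s hs => ?_
      have hsJ : s ∈ J := hsub hs
      have hbt : Tendsto (fun τ' => b τ' s) (𝓝[I \ {τ}] τ) (𝓝 (b τ s)) := by
        have h1 : ContinuousOn (fun τ => b τ s) I := slice' hb s hsJ
        exact (h1 τ hτ).mono_left (nhdsWithin_mono _ sdiff_subset)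
      have e : wed (a τ s) (b τ s) = wed (fderiv ℝ Y (c τ s) (a τ s)) (b τ s) -
          wed (fderiv ℝ Y (c τ s) (b τ s)) (a τ s) := by
        rw [X0_trace, hdiv _ (hcM τ hτ s hsJ), one_mul]
      rw [e]
      exact (hw (hslY s hsJ) hbt).sub (hw tendsto_const_nhds (hslc s hsJ))
  -- continuity of the derivative
  have hF'c : ContinuousOn F' I := by
    have h1 : ContinuousOn (fun τ => ∫ s in (0 : ℝ)..1, wed (a τ s) (b τ s)) I := by
      intro τ hτ
      have hwc : ContinuousOn (fun p : ℝ × ℝ => wed (a p.1 p.2) (b p.1 p.2)) (I ×ˢ J) :=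
        X0_wedc.comp_continuousOn (ha.prodMk hb)
      refine intervalIntegral.tendsto_integral_filter_of_dominated_convergence
        (fun _ => A * B) ?_ ?_ ?_ ?_
      · filter_upwards [self_mem_nhdsWithin] with τ' hτ'
        exact ((slice hwc τ' hτ').mono hsub).aestronglyMeasurable hjm
      · filter_upwards [self_mem_nhdsWithin] with τ' hτ'
        refine Eventually.of_forall fun s hs => ?_
        have hsJ : s ∈ J := hsub hs
        rw [Real.norm_eq_abs]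
        refine (wed_le _ _).trans ?_
        have q2 : ‖a τ' s‖ ≤ A := hA (τ', s) ⟨hτ', hsJ⟩
        have q3 : ‖b τ' s‖ ≤ B := hBb (τ', s) ⟨hτ', hsJ⟩
        exact mul_le_mul q2 q3 (norm_nonneg _) ((norm_nonneg _).trans q2)
      · exact intervalIntegrable_const
      · refine Eventually.of_forall fun s hs => ?_
        exact slice' hwc s (hsub hs) τ hτ
    have h2 : ∀ s ∈ J, ContinuousOn (fun τ => wed (Y (c τ s)) (a τ s)) I := fun s hs =>
      X0_wedc.comp_continuousOn ((slice' hYc s hs).prodMk (slice' ha s hs))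
    exact (h1.add (h2 1 h1J)).sub (h2 0 h0J)
  have hfin := intervalIntegral.integral_eq_sub_of_hasDerivAt_of_le ht
    (f := F) (f' := F') (fun τ hτ => (hder τ hτ).continuousWithinAt)
    (fun τ hτ => (hder τ ⟨hτ.1.le, hτ.2.le⟩).hasDerivAt (Icc_mem_nhds hτ.1 hτ.2))
    (ContinuousOn.intervalIntegrable (by rwa [uIcc_of_le ht]))
  exact hfin.symm

end Pool.Agent.YUT
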