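import Pool.Agent.YUT.PDefs
import Pool.Agent.YUT.Base
import Pool.Agent.YUT.X0

/-!
# [YUT] Weak flows: the part of the theory of flows that does not use boundary conditions
-/

open MeasureTheory Set Filter Topology
open scoped ContDiff

namespace Pool.Agent.YUT

open Pool.Agent.YUD

/-- `f` is `C²` in `M`, with all its partial derivatives of order `≤ 2` bounded by `C` on `M` -/
def C2Le (M : Set ℂ) (C : ℝ) (f : ℂ → ℝ) : Prop := ContDiffOn ℝ 2 f M ∧ JetLe M 2 C f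

/-- weak flows: as `Flow`, without boundary conditions -/
structure WFlow (M : Set ℂ) (w₀ : ℂ → ℝ) (ψ : ℝ → ℂ → ℝ) (Φ : ℝ → ℂ → ℂ) : Prop where
  stream : ∀ T : ℝ, ∃ C : ℝ, ∀ t, 0 ≤ t → t ≤ T → C2Le M C (ψ t)
  cont : ContinuousOn (fun q : ℝ × ℂ => (ψ q.1 q.2, fderiv ℝ (ψ q.1) q.2)) (Ici 0 ×ˢ M)
  c1 : ContDiffOn ℝ 1 (fun q : ℝ × ℂ => Φ q.1 q.2) (Ici 0 ×ˢ M)
  bij : ∀ t, 0 ≤ t → BijOn (Φ t) M M
  area : ∀ t, 0 ≤ t → ∀ x ∈ M, (fderiv ℝ (Φ t) x).det = 1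
  start : ∀ x ∈ M, Φ 0 x = x
  ode : ∀ t, 0 ≤ t → ∀ x ∈ M,
    HasDerivWithinAt (fun s => Φ s x) (perp (ψ t) (Φ t x)) (Ici 0) t
  vort : ∀ t, 0 ≤ t → ∀ x ∈ M, lap (ψ t) (Φ t x) = w₀ x

section C2

variable {M : Set ℂ} {f g : ℂ → ℝ} {C : ℝ}

theorem C2Le.c2 (h : C2Le M C f) : ContDiffOn ℝ 2 f M := h.1

theorem C2Le.diffOn (h : C2Le M C f) : DifferentiableOn ℝ f M :=
  h.1.differentiableOn (by norm_num)

theorem C2Le.abs_le (h : C2Le M C f) : ∀ x ∈ M, |f x| ≤ C := h.2.zero_le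

theorem C2Le.dx_le (h : C2Le M C f) : ∀ x ∈ M, |dx f x| ≤ C := h.2.2.1.zero_le

theorem C2Le.dy_le (h : C2Le M C f) : ∀ x ∈ M, |dy f x| ≤ C := h.2.2.2.zero_le

theorem C2Le.fderiv_le (h : C2Le M C f) : ∀ x ∈ M, ‖fderiv ℝ f x‖ ≤ 2 * C := by
  intro x hx
  have := norm_fderiv_le f x
  linarith [h.dx_le x hx, h.dy_le x hx]

theorem C2Le.lap_le (h : C2Le M C f) : ∀ x ∈ M, |lap f x| ≤ 2 * C := by
  intro x hx
  have h1 : |dx (dx f) x| ≤ C := h.2.2.1.2.1 x hx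
  have h2 : |dy (dy f) x| ≤ C := h.2.2.2.2.2 x hx
  unfold lap
  linarith [abs_add_le (dx (dx f) x) (dy (dy f) x)]

theorem C2Le.cont (h : C2Le M C f) : ContinuousOn f M := h.1.continuousOn

theorem C2Le.dx_cont (hM : IsOpen M) (h : C2Le M C f) : ContinuousOn (dx f) M :=
  (contDiffOn_dx (n := 1) hM h.1).continuousOn

theorem C2Le.dy_cont (hM : IsOpen M) (h : C2Le M C f) : ContinuousOn (dy f) M :=
  (contDiffOn_dy (n := 1) hM h.1).continuousOn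

theorem C2Le.mono {D : ℝ} (h : C2Le M C f) (hCD : C ≤ D) : C2Le M D f := ⟨h.1, h.2.mono hCD⟩

theorem C2Le.fderiv_cont (hM : IsOpen M) (h : C2Le M C f) :
    ContinuousOn (fderiv ℝ f) M :=
  ((h.1.fderiv_of_isOpen hM (m := 1) (by norm_num)).continuousOn)

theorem C2Le.lap_cont (hM : IsOpen M) (h : C2Le M C f) : ContinuousOn (lap f) M := by
  have h1 : ContDiffOn ℝ (0 + 1 : ℕ) (dx f) M := contDiffOn_dx (n := 1) hM h.1
  have h2 : ContDiffOn ℝ (0 + 1 : ℕ) (dy f) M := contDiffOn_dy (n := 1) hM h.1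
  exact (contDiffOn_dx hM h1).continuousOn.add (contDiffOn_dy hM h2).continuousOn

theorem C2Le.sub (hM : IsOpen M) {D : ℝ} (h : C2Le M C f) (h' : C2Le M D g) :
    C2Le M (C + D) (fun x => f x - g x) := ⟨h.1.sub h'.1, h.2.sub hM h.1 h'.1 h'.2⟩

theorem C2Le.add (hM : IsOpen M) {D : ℝ} (h : C2Le M C f) (h' : C2Le M D g) :
    C2Le M (C + D) (fun x => f x + g x) := ⟨h.1.add h'.1, h.2.add hM h.1 h'.1 h'.2⟩

end C2

variable {M : Set ℂ} {w₀ : ℂ → ℝ} {ψ : ℝ → ℂ → ℝ} {Φ : ℝ → ℂ → ℂ}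





theorem WFlow.contDiffOn (hM : IsOpen M) (h : WFlow M w₀ ψ Φ) {t : ℝ} (ht : 0 ≤ t) :
    ContDiffOn ℝ 1 (Φ t) M := by
  have h1 : ContDiffOn ℝ 1 (fun x : ℂ => (t, x)) M := (contDiff_const.prodMk contDiff_id).contDiffOn
  exact h.c1.comp h1 (fun x hx => ⟨ht, hx⟩)

theorem WFlow.cont_Phi (h : WFlow M w₀ ψ Φ) :
    ContinuousOn (fun p : ℝ × ℂ => Φ p.1 p.2) (Ici 0 ×ˢ M) := h.c1.continuousOn

theorem WFlow.cont_fderiv (hM : IsOpen M) (h : WFlow M w₀ ψ Φ) :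
    ContinuousOn (fun p : ℝ × ℂ => fderiv ℝ (Φ p.1) p.2) (Ici 0 ×ˢ M) := by
  set F : ℝ × ℂ → ℂ := fun p => Φ p.1 p.2 with hF
  set S : Set (ℝ × ℂ) := Ici 0 ×ˢ M with hS
  have hu : UniqueDiffOn ℝ S := (uniqueDiffOn_Ici 0).prod hM.uniqueDiffOn
  have hc : ContinuousOn (fderivWithin ℝ F S) S := h.c1.continuousOn_fderivWithin hu le_rfl
  have hc2 : ContinuousOn (fun p => (fderivWithin ℝ F S p).comp (ContinuousLinearMap.inr ℝ ℝ ℂ)) S :=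
    hc.clm_comp continuousOn_const
  refine hc2.congr (fun p hp => ?_)
  have hd : HasFDerivWithinAt F (fderivWithin ℝ F S p) S p :=
    ((h.c1.differentiableOn one_ne_zero) p hp).hasFDerivWithinAt
  have hg : HasFDerivWithinAt (fun x : ℂ => (p.1, x)) (ContinuousLinearMap.inr ℝ ℝ ℂ) M p.2 :=
    (hasFDerivAt_prodMk_right p.1 p.2).hasFDerivWithinAt
  have hm : MapsTo (fun x : ℂ => (p.1, x)) M S := fun x hx => ⟨hp.1, hx⟩
  have h3 := HasFDerivWithinAt.comp (g := F) (f := fun x : ℂ => (p.1, x)) p.2 hd hg hm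
  exact (h3.hasFDerivAt (hM.mem_nhds hp.2)).fderiv





theorem WFlow.transport (hM : IsOpen M) (h : WFlow M w₀ ψ Φ) {f : ℂ → ℝ} (hf : ContDiffOn ℝ 1 f M)
    {a b : ℝ} (ha : 0 ≤ a) (hab : a ≤ b) {x : ℂ} (hx : x ∈ M) :
    f (Φ b x) - f (Φ a x) = ∫ s in a..b, pb (ψ s) f (Φ s x) := by
  have hcx : ContinuousOn (fun s => Φ s x) (Ici 0) := fun s hs =>
    (h.ode s hs x hx).continuousWithinAt
  have hmem : ∀ s, 0 ≤ s → Φ s x ∈ M := fun s hs => (h.bij s hs).mapsTo hx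
  have hfd : ∀ y ∈ M, HasFDerivAt f (fderiv ℝ f y) y := fun y hy =>
    ((hf.differentiableOn (by norm_num)).differentiableAt (hM.mem_nhds hy)).hasFDerivAt
  have hfc : ContinuousOn (fderiv ℝ f) M :=
    (hf.fderiv_of_isOpen hM (m := 0) (by norm_num)).continuousOn
  have hsub : Icc a b ⊆ Ici 0 := fun s hs => ha.trans hs.1
  have hpc : ContinuousOn (fun s => (s, Φ s x)) (Ici (0 : ℝ)) := continuousOn_id.prodMk hcx
  have hG : ContinuousOn (fun s => fderiv ℝ (ψ s) (Φ s x)) (Ici 0) := by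
    have h1 := h.cont.comp hpc (fun s hs => ⟨hs, hmem s hs⟩)
    exact h1.snd
  have hF : ContinuousOn (fun s => fderiv ℝ f (Φ s x)) (Ici 0) :=
    hfc.comp hcx (fun s hs => hmem s hs)
  have hcont : ContinuousOn (fun s => pb (ψ s) f (Φ s x)) (Ici 0) := by
    have e : (fun s => pb (ψ s) f (Φ s x)) = fun s =>
        (fderiv ℝ (ψ s) (Φ s x) 1) * (fderiv ℝ f (Φ s x) Complex.I) -
        (fderiv ℝ (ψ s) (Φ s x) Complex.I) * (fderiv ℝ f (Φ s x) 1) := by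
      funext s
      simp only [pb, dx, dy]
    rw [e]
    exact ((hG.clm_apply continuousOn_const).mul (hF.clm_apply continuousOn_const)).sub
      ((hG.clm_apply continuousOn_const).mul (hF.clm_apply continuousOn_const))
  symm
  refine intervalIntegral.integral_eq_sub_of_hasDeriv_right_of_le hab
    ((hf.continuousOn.comp hcx (fun s hs => hmem s hs)).mono hsub) ?_
    ((hcont.mono hsub).intervalIntegrable_of_Icc hab)
  intro s hs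
  have hs0 : 0 ≤ s := ha.trans hs.1.le
  have h1 := (hfd (Φ s x) (hmem s hs0)).comp_hasDerivWithinAt s
    ((h.ode s hs0 x hx).mono (fun u hu => hs0.trans (le_of_lt hu) : Ioi s ⊆ Ici 0))
  rw [fderiv_perp] at h1
  exact h1





theorem PB_perp {Z : Type*} [TopologicalSpace Z] {S : Set Z} {F : Z → ℂ → ℝ} {z : Z → ℂ}
    (hG : ContinuousOn (fun p => fderiv ℝ (F p) (z p)) S) :
    ContinuousOn (fun p => perp (F p) (z p)) S := by
  have e : (fun p => perp (F p) (z p)) = fun p =>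
      ((-(fderiv ℝ (F p) (z p) Complex.I) : ℝ) : ℂ) +
        ((fderiv ℝ (F p) (z p) 1 : ℝ) : ℂ) * Complex.I := by
    funext p
    apply Complex.ext <;> simp [perp, dx, dy]
  rw [e]
  exact (Complex.continuous_ofReal.comp_continuousOn
    (hG.clm_apply continuousOn_const).neg).add
    ((Complex.continuous_ofReal.comp_continuousOn
      (hG.clm_apply continuousOn_const)).mul continuousOn_const)

theorem PB_gg {Y : ℂ → ℂ} (hYc : Continuous Y) (h : WFlow M w₀ ψ Φ) {x : ℂ} (hx : x ∈ M) :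
    ContinuousOn (fun τ => gg Y (ψ τ) (Φ τ x)) (Ici 0) := by
  have hcx : ContinuousOn (fun s => Φ s x) (Ici 0) := fun s hs =>
    (h.ode s hs x hx).continuousWithinAt
  have hmem : ∀ s, 0 ≤ s → Φ s x ∈ M := fun s hs => (h.bij s hs).mapsTo hx
  have h1 := h.cont.comp (continuousOn_id.prodMk hcx) (fun s hs => ⟨hs, hmem s hs⟩)
  exact (h1.snd.clm_apply (hYc.comp_continuousOn hcx)).sub h1.fst

theorem WFlow.action_diff (hM : IsOpen M) {Y : ℂ → ℂ} (hYc : Continuous Y) (hY : ContDiffOn ℝ 1 Y M)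
    (hdiv : ∀ x ∈ M, (fderiv ℝ Y x 1).re + (fderiv ℝ Y x Complex.I).im = 1)
    (h : WFlow M w₀ ψ Φ) {t : ℝ} (ht : 0 ≤ t) {γ γ' : ℝ → ℂ}
    (hγM : ∀ s ∈ Icc (0 : ℝ) 1, γ s ∈ M)
    (hγ : ∀ s ∈ Icc (0 : ℝ) 1, HasDerivWithinAt γ (γ' s) (Icc 0 1) s)
    (hγc : ContinuousOn γ' (Icc 0 1)) :
    act Y ψ Φ t (γ 1) - act Y ψ Φ t (γ 0) =
      (∫ s in (0 : ℝ)..1, wed (Y (Φ t (γ s))) (fderiv ℝ (Φ t) (γ s) (γ' s))) -
        ∫ s in (0 : ℝ)..1, wed (Y (γ s)) (γ' s) := by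
  have h01 : (0 : ℝ) ∈ Icc (0 : ℝ) 1 := ⟨le_rfl, zero_le_one⟩
  have h11 : (1 : ℝ) ∈ Icc (0 : ℝ) 1 := ⟨zero_le_one, le_rfl⟩
  have hγcont : ContinuousOn γ (Icc 0 1) := fun s hs => (hγ s hs).continuousWithinAt
  have hpc : ContinuousOn (fun p : ℝ × ℝ => (p.1, γ p.2)) (Icc 0 t ×ˢ Icc 0 1) :=
    continuousOn_fst.prodMk (hγcont.comp continuousOn_snd fun p hp => hp.2)
  have hpm : MapsTo (fun p : ℝ × ℝ => (p.1, γ p.2)) (Icc 0 t ×ˢ Icc 0 1) (Ici 0 ×ˢ M) :=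
    fun p hp => ⟨hp.1.1, hγM p.2 hp.2⟩
  have hcM : ∀ τ ∈ Icc 0 t, ∀ s ∈ Icc (0 : ℝ) 1, Φ τ (γ s) ∈ M := fun τ hτ s hs =>
    (h.bij τ hτ.1).mapsTo (hγM s hs)
  have hc : ContinuousOn (fun p : ℝ × ℝ => Φ p.1 (γ p.2)) (Icc 0 t ×ˢ Icc 0 1) :=
    h.cont_Phi.comp hpc hpm
  have hG : ContinuousOn (fun p : ℝ × ℝ => fderiv ℝ (ψ p.1) (Φ p.1 (γ p.2)))
      (Icc 0 t ×ˢ Icc 0 1) := by
    have h1 := h.cont.comp (continuousOn_fst.prodMk hc)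
      (fun p hp => ⟨hp.1.1, hcM p.1 hp.1 p.2 hp.2⟩)
    exact h1.snd
  have ha : ContinuousOn (fun p : ℝ × ℝ => perp (ψ p.1) (Φ p.1 (γ p.2)))
      (Icc 0 t ×ˢ Icc 0 1) := PB_perp hG
  have hb : ContinuousOn (fun p : ℝ × ℝ => fderiv ℝ (Φ p.1) (γ p.2) (γ' p.2))
      (Icc 0 t ×ˢ Icc 0 1) :=
    ((h.cont_fderiv hM).comp hpc hpm).clm_apply (hγc.comp continuousOn_snd fun p hp => hp.2)
  have hcb : ∀ τ ∈ Icc 0 t, ∀ s ∈ Icc (0 : ℝ) 1,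
      HasDerivWithinAt (fun σ => Φ τ (γ σ)) (fderiv ℝ (Φ τ) (γ s) (γ' s)) (Icc 0 1) s := by
    intro τ hτ s hs
    have h1 : HasFDerivAt (Φ τ) (fderiv ℝ (Φ τ) (γ s)) (γ s) :=
      (((h.contDiffOn hM hτ.1).differentiableOn (by norm_num)).differentiableAt
        (hM.mem_nhds (hγM s hs))).hasFDerivAt
    exact h1.comp_hasDerivWithinAt s (hγ s hs)
  have hst := stokes hM hY hdiv ht (c := fun τ s => Φ τ (γ s))
    (a := fun τ s => perp (ψ τ) (Φ τ (γ s))) (b := fun τ s => fderiv ℝ (Φ τ) (γ s) (γ' s))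
    hcM hc ha hb
    (fun τ hτ s hs => (h.ode τ hτ.1 (γ s) (hγM s hs)).mono fun u hu => hu.1) hcb
  have e0 : (∫ s in (0 : ℝ)..1, wed (Y (Φ 0 (γ s))) (fderiv ℝ (Φ 0) (γ s) (γ' s))) =
      ∫ s in (0 : ℝ)..1, wed (Y (γ s)) (γ' s) := by
    refine intervalIntegral.integral_congr fun s hs => ?_
    rw [uIcc_of_le zero_le_one] at hs
    have hs' := hγM s hs
    have h1 : fderiv ℝ (Φ 0) (γ s) = ContinuousLinearMap.id ℝ ℂ := by
      have h2 : Φ 0 =ᶠ[𝓝 (γ s)] id :=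
        Filter.eventuallyEq_of_mem (hM.mem_nhds hs') fun x hx => h.start x hx
      rw [h2.fderiv_eq, fderiv_id]
    simp only [h1, h.start _ hs', ContinuousLinearMap.coe_id', id]
  have e1 : (∫ τ in (0 : ℝ)..t, ((∫ s in (0 : ℝ)..1, wed (perp (ψ τ) (Φ τ (γ s)))
      (fderiv ℝ (Φ τ) (γ s) (γ' s))) + wed (Y (Φ τ (γ 1))) (perp (ψ τ) (Φ τ (γ 1))) -
        wed (Y (Φ τ (γ 0))) (perp (ψ τ) (Φ τ (γ 0))))) =
      ∫ τ in (0 : ℝ)..t, (gg Y (ψ τ) (Φ τ (γ 1)) - gg Y (ψ τ) (Φ τ (γ 0))) := by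
    refine intervalIntegral.integral_congr fun τ hτ => ?_
    rw [uIcc_of_le ht] at hτ
    obtain ⟨C, hC⟩ := h.stream τ
    have hCτ := hC τ hτ.1 le_rfl
    have h1 : (∫ s in (0 : ℝ)..1, wed (perp (ψ τ) (Φ τ (γ s)))
        (fderiv ℝ (Φ τ) (γ s) (γ' s))) = -(ψ τ (Φ τ (γ 1)) - ψ τ (Φ τ (γ 0))) := by
      have hder : ∀ s ∈ Icc (0 : ℝ) 1, HasDerivWithinAt (fun s => ψ τ (Φ τ (γ s)))
          (fderiv ℝ (ψ τ) (Φ τ (γ s)) (fderiv ℝ (Φ τ) (γ s) (γ' s))) (Icc 0 1) s := by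
        intro s hs
        have h2 : HasFDerivAt (ψ τ) (fderiv ℝ (ψ τ) (Φ τ (γ s))) (Φ τ (γ s)) :=
          (hCτ.diffOn.differentiableAt (hM.mem_nhds (hcM τ hτ s hs))).hasFDerivAt
        exact h2.comp_hasDerivWithinAt s (hcb τ hτ s hs)
      have hci : ContinuousOn (fun s : ℝ => (τ, s)) (Icc (0 : ℝ) 1) :=
        continuousOn_const.prodMk continuousOn_id
      have hmi : MapsTo (fun s : ℝ => (τ, s)) (Icc (0 : ℝ) 1) (Icc 0 t ×ˢ Icc 0 1) :=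
        fun s hs => ⟨hτ, hs⟩
      have hco : ContinuousOn (fun s => fderiv ℝ (ψ τ) (Φ τ (γ s))
          (fderiv ℝ (Φ τ) (γ s) (γ' s))) (Icc 0 1) :=
        (hG.comp hci hmi).clm_apply (hb.comp hci hmi)
      have h3 := intervalIntegral.integral_eq_sub_of_hasDeriv_right_of_le zero_le_one
        (fun s hs => (hder s hs).continuousWithinAt)
        (fun s hs => ((hder s ⟨hs.1.le, hs.2.le⟩).hasDerivAt
          (Icc_mem_nhds hs.1 hs.2)).hasDerivWithinAt)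
        (hco.intervalIntegrable_of_Icc zero_le_one)
      rw [← h3, ← intervalIntegral.integral_neg]
      refine intervalIntegral.integral_congr fun s _ => ?_
      exact wed_perp _ _ _
    simp only [h1, wed_perp_right, gg]
    ring
  rw [e0] at hst
  rw [hst, e1, intervalIntegral.integral_sub]
  · rfl
  · exact ((PB_gg hYc h (hγM 1 h11)).mono fun τ hτ => hτ.1).intervalIntegrable_of_Icc ht
  · exact ((PB_gg hYc h (hγM 0 h01)).mono fun τ hτ => hτ.1).intervalIntegrable_of_Icc ht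





theorem WFlow.action_join (hM : IsOpen M) {Y : ℂ → ℂ} (hYc : Continuous Y) (hY : ContDiffOn ℝ 1 Y M)
    (hdiv : ∀ x ∈ M, (fderiv ℝ Y x 1).re + (fderiv ℝ Y x Complex.I).im = 1)
    (h : WFlow M w₀ ψ Φ) {t : ℝ} (ht : 0 ≤ t) {B L Λ : ℝ}
    (hB : ∀ x ∈ M, ‖Y x‖ ≤ B) (hL : ∀ x ∈ M, ‖fderiv ℝ (Φ t) x‖ ≤ L) {x y : ℂ}
    (hxy : C1Join M Λ x y) :
    |act Y ψ Φ t y - act Y ψ Φ t x| ≤ B * Λ * (L + 1) := by
  obtain ⟨γ, γ', h0, h1, hγM, hγ, hγc, hΛ⟩ := hxy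
  have h01 : (0 : ℝ) ∈ Icc (0 : ℝ) 1 := ⟨le_rfl, zero_le_one⟩
  have hB0 : 0 ≤ B := (norm_nonneg _).trans (hB _ (hγM 0 h01))
  have hL0 : 0 ≤ L := (norm_nonneg _).trans (hL _ (hγM 0 h01))
  have hΛ0 : 0 ≤ Λ := (norm_nonneg _).trans (hΛ 0 h01)
  have hd := action_diff hM hYc hY hdiv h ht hγM hγ hγc
  rw [h0, h1] at hd
  rw [hd]
  have i1 : ‖∫ s in (0 : ℝ)..1, wed (Y (Φ t (γ s))) (fderiv ℝ (Φ t) (γ s) (γ' s))‖ ≤
      (B * (L * Λ)) * |1 - 0| := by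
    refine intervalIntegral.norm_integral_le_of_norm_le_const fun s hs => ?_
    rw [uIoc_of_le zero_le_one] at hs
    have hs' : s ∈ Icc (0 : ℝ) 1 := ⟨hs.1.le, hs.2⟩
    rw [Real.norm_eq_abs]
    refine (wed_le _ _).trans ?_
    refine mul_le_mul (hB _ ((h.bij t ht).mapsTo (hγM s hs'))) ?_ (norm_nonneg _) hB0
    refine (ContinuousLinearMap.le_opNorm _ _).trans ?_
    exact mul_le_mul (hL _ (hγM s hs')) (hΛ s hs') (norm_nonneg _) hL0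
  have i2 : ‖∫ s in (0 : ℝ)..1, wed (Y (γ s)) (γ' s)‖ ≤ (B * Λ) * |1 - 0| := by
    refine intervalIntegral.norm_integral_le_of_norm_le_const fun s hs => ?_
    rw [uIoc_of_le zero_le_one] at hs
    have hs' : s ∈ Icc (0 : ℝ) 1 := ⟨hs.1.le, hs.2⟩
    rw [Real.norm_eq_abs]
    refine (wed_le _ _).trans ?_
    exact mul_le_mul (hB _ (hγM s hs')) (hΛ s hs') (norm_nonneg _) hB0
  rw [sub_zero, abs_one, mul_one, Real.norm_eq_abs] at i1 i2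
  refine (abs_sub _ _).trans ?_
  nlinarith [i1, i2]





theorem WFlow.gg_flow {Y : ℂ → ℂ} (hY : Continuous Y) {K : ℝ} (hK : ∀ x ∈ M, ‖Y x‖ ≤ K)
    (h : WFlow M w₀ ψ Φ) :
    ContinuousOn (fun p : ℝ × ℂ => gg Y (ψ p.1) (Φ p.1 p.2)) (Ici 0 ×ˢ M) ∧
      ∀ T : ℝ, ∃ B : ℝ, ∀ τ, 0 ≤ τ → τ ≤ T → ∀ x ∈ M, |gg Y (ψ τ) x| ≤ B := by
  constructor
  · have hG : ContinuousOn (fun p : ℝ × ℂ => (p.1, Φ p.1 p.2)) (Ici 0 ×ˢ M) :=
      continuousOn_fst.prodMk h.cont_Phi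
    have hmaps : MapsTo (fun p : ℝ × ℂ => (p.1, Φ p.1 p.2)) (Ici 0 ×ˢ M) (Ici 0 ×ˢ M) := by
      intro p hp
      exact ⟨hp.1, (h.bij p.1 hp.1).mapsTo hp.2⟩
    have hc := h.cont.comp hG hmaps
    have h1 : ContinuousOn (fun p : ℝ × ℂ => ψ p.1 (Φ p.1 p.2)) (Ici 0 ×ˢ M) :=
      continuous_fst.comp_continuousOn hc
    have h2 : ContinuousOn (fun p : ℝ × ℂ => fderiv ℝ (ψ p.1) (Φ p.1 p.2)) (Ici 0 ×ˢ M) :=
      continuous_snd.comp_continuousOn hc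
    have h3 : ContinuousOn (fun p : ℝ × ℂ => Y (Φ p.1 p.2)) (Ici 0 ×ˢ M) :=
      hY.comp_continuousOn h.cont_Phi
    exact (h2.clm_apply h3).sub h1
  · intro T
    obtain ⟨C, hC⟩ := h.stream T
    refine ⟨2 * C * K + C, fun τ h0 hT x hx => ?_⟩
    have hS := hC τ h0 hT
    have hYx : ‖Y x‖ ≤ K := hK x hx
    have hf := hS.fderiv_le x hx
    have ha := hS.abs_le x hx
    have h1 : |fderiv ℝ (ψ τ) x (Y x)| ≤ 2 * C * K := by
      rw [← Real.norm_eq_abs]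
      refine (ContinuousLinearMap.le_opNorm _ _).trans ?_
      exact mul_le_mul hf hYx (norm_nonneg _) ((norm_nonneg _).trans hf)
    unfold gg
    calc |fderiv ℝ (ψ τ) x (Y x) - ψ τ x| ≤ |fderiv ℝ (ψ τ) x (Y x)| + |ψ τ x| := abs_sub _ _
      _ ≤ 2 * C * K + C := by linarith


end Pool.Agent.YUT
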