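import Pool.Agent.YUT.D6

open MeasureTheory Set Filter Topology
open scoped ContDiff

namespace Pool.Agent.YUT

open Pool.Agent.YUD

variable {p h : ℝ}

/-- [YUT-C9b] a small rough function supported in `U`: this is contained in the proof of
`dense_holder_one` (`D6.lean`, complete; copy it): there `w₀ = f + g`, where `g` is a small multiple of the lacunary
series `ser β (1 + α) p r σ` with bumps supported in the balls `closedBall (p j) (r j) ⊆ U`, so `g = 0` off `U`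
(`β z = 0` for `1 ≤ ‖z‖`), and `ser_holder_one` holds for every open set, in particular for `univ`. -/
theorem exists_rough_add_one {U : Set ℂ} (hU : IsOpen U) (hne : U.Nonempty) {α : ℝ} (hα : 0 < α)
    (hα1 : α < 1) {f : ℂ → ℝ} {K : ℝ} (hf : NormLe U α K f) {ε : ℝ} (hε : 0 < ε) :
    ∃ g : ℂ → ℝ, (∀ x, x ∉ U → g x = 0) ∧ NormLe univ α ε g ∧
      Rough U (1 + α) (fun x => f x + g x) := by
  classical
  have hK : 0 ≤ K := hf.nonneg
  obtain ⟨β, B, hB, hβs, hβ0, hβz, hβ1, hβf, hβf2, _, hβ2⟩ := exists_bump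
  obtain ⟨θ, hθ, hθ1, hoff⟩ := off_terms (γ := 1 + α) hB (by linarith) (by linarith) hβ0 hβz hβ1 hβ2
  obtain ⟨C, hC, hser⟩ := ser_holder_one hB hβs hβ1 hβf hβf2 hθ hθ1 hα hα1
  obtain ⟨p, e, r, hp, hr, hdense⟩ := exists_tasks hU hne hθ hθ1
  set ε' : ℝ := ε / C with hε'
  have hε'0 : 0 < ε' := div_pos hε hC
  let D : ℕ → ℝ := fun j => f (p j + r j • e j) + f (p j - r j • e j) - 2 * f (p j)
  let σ : ℕ → ℝ := fun j => if D j ≤ 0 then 1 else -1
  have hσ : ∀ j, |σ j| ≤ 1 := by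
    intro j
    show |if D j ≤ 0 then (1 : ℝ) else -1| ≤ 1
    split_ifs <;> simp
  have hr0 : ∀ j, 0 < r j := fun j => (hp j).2.2.1
  have hr1 : ∀ j, r j ≤ 1 := fun j => (hp j).2.2.2.1
  refine ⟨fun x => ε' * ser β (1 + α) p r σ x, ?_, ?_, ε', hε'0, ?_⟩
  · intro x hx
    have h1 : ∀ j, β ((r j)⁻¹ • (x - p j)) = 0 := by
      intro j
      apply hβz
      by_contra h2
      rw [not_le, norm_smul, norm_inv, Real.norm_eq_abs, abs_of_pos (hr0 j), inv_mul_lt_iff₀ (hr0 j), mul_one] at h2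
      apply hx
      apply (hp j).2.2.2.2
      rw [Metric.mem_closedBall, dist_eq_norm]
      exact h2.le
    show ε' * ser β (1 + α) p r σ x = 0
    unfold ser
    have h2 : (fun j => σ j * (r j ^ (1 + α) * β ((r j)⁻¹ • (x - p j)))) = fun _ => (0 : ℝ) := by
      funext j
      rw [h1, mul_zero, mul_zero]
    rw [h2, tsum_zero, mul_zero]
  · have h1 := (hser p r σ hr0 hr1 hr hσ univ isOpen_univ).const_mul isOpen_univ ε'
    rw [abs_of_pos hε'0, hε', div_mul_cancel₀ _ hC.ne'] at h1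
    exact h1
  · intro x₀ hx₀ e₀ he₀ δ hδ
    have hτ : 0 < ε' / (4 * (K + 1)) := by positivity
    obtain ⟨j, hj1, hj2, hj3⟩ := hdense x₀ hx₀ e₀ he₀ (min δ (ε' / (4 * (K + 1)))) (lt_min hδ hτ)
    have hball := (hp j).2.2.2.2
    refine ⟨p j, r j, hr0 j, hj3.trans_le (min_le_left _ _), hj1.trans_le (min_le_left _ _),
      hball, ?_⟩
    have hrp : 0 < r j ^ (1 + α) := Real.rpow_pos_of_pos (hr0 j) _
    have h1 := hoff p r σ hr0 hr1 hr hσ j e₀ he₀
    have h2 := D6_diff hU hα hα1 hf (hr0 j) hball he₀ (hp j).2.1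
    have h3 : ‖e₀ - e j‖ ≤ ε' / (4 * (K + 1)) := by
      rw [norm_sub_rev]
      exact (hj2.trans_le (min_le_right _ _)).le
    have h4 : 2 * K * r j ^ (1 + α) * ‖e₀ - e j‖ ≤ (1 / 2) * ε' * r j ^ (1 + α) := by
      have h5 : 2 * K * ‖e₀ - e j‖ ≤ (1 / 2) * ε' := by
        have h6 : 2 * K * ‖e₀ - e j‖ ≤ 2 * K * (ε' / (4 * (K + 1))) :=
          mul_le_mul_of_nonneg_left h3 (by positivity)
        have h7 : 2 * K * (ε' / (4 * (K + 1))) ≤ (1 / 2) * ε' := by
          rw [mul_div_assoc', div_le_iff₀ (by positivity)]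
          nlinarith
        linarith
      calc 2 * K * r j ^ (1 + α) * ‖e₀ - e j‖ = (2 * K * ‖e₀ - e j‖) * r j ^ (1 + α) := by ring
        _ ≤ _ := mul_le_mul_of_nonneg_right h5 hrp.le
    have h5 := h2.trans h4
    set S1 := ser β (1 + α) p r σ (p j + r j • e₀)
    set S2 := ser β (1 + α) p r σ (p j - r j • e₀)
    set S3 := ser β (1 + α) p r σ (p j)
    set R := r j ^ (1 + α)
    have hDj : D j = f (p j + r j • e j) + f (p j - r j • e j) - 2 * f (p j) := rfl
    have hσj : σ j = if D j ≤ 0 then 1 else -1 := rfl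
    rw [abs_le] at h1 h5
    obtain ⟨h1a, h1b⟩ := h1
    obtain ⟨h5a, h5b⟩ := h5
    have h6 : ε' * (S1 + S2 - 2 * S3 + 2 * σ j * R) ≤ ε' * (1 / 2 * R) :=
      mul_le_mul_of_nonneg_left h1b hε'0.le
    have h7 : ε' * (-(1 / 2 * R)) ≤ ε' * (S1 + S2 - 2 * S3 + 2 * σ j * R) :=
      mul_le_mul_of_nonneg_left h1a hε'0.le
    rw [hσj] at h6 h7
    by_cases hD : D j ≤ 0
    · rw [if_pos hD] at h6 h7
      rw [hDj] at hD
      refine le_trans ?_ (neg_le_abs _)
      nlinarith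
    · rw [if_neg hD] at h6 h7
      rw [hDj] at hD
      push Not at hD
      refine le_trans ?_ (le_abs_self _)
      nlinarith

end Pool.Agent.YUT
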