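import Pool.Agent.YUT.Base

open MeasureTheory Set Filter Topology
open scoped ContDiff

namespace Pool.Agent.YUT

open Pool.Agent.YUD

/-- [YUT-G2b] soft truncation: for `δ > 0` the function `f_δ = sign(f) (|f| - δ)_+`
(that is `f - max (-δ) (min δ f)`) is `K`-Lipschitz, `|f_δ - f| ≤ δ`, and vanishes off a compact
subset of `M` if `f` is `K`-Lipschitz and vanishes off the bounded open set `M`
(`{|f| ≥ δ}` is closed, bounded and contained in `M`). -/
theorem soft_trunc {M : Set ℂ} (hM : IsOpen M) (hb : Bornology.IsBounded M) {f : ℂ → ℝ} {K : ℝ}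
    (hf : ∀ x y, |f x - f y| ≤ K * ‖x - y‖) (hf0 : ∀ x, x ∉ M → f x = 0) {δ : ℝ} (hδ : 0 < δ) :
    ∃ h : ℂ → ℝ, (∀ x y, |h x - h y| ≤ K * ‖x - y‖) ∧ (∀ x, |h x - f x| ≤ δ) ∧
      ∃ S ⊆ M, IsCompact S ∧ ∀ x, x ∉ S → h x = 0 := by
  have hcont : Continuous f := by
    have hL : LipschitzWith (Real.toNNReal K) f := by
      refine LipschitzWith.of_dist_le_mul fun x y => ?_
      rw [Real.dist_eq, dist_eq_norm]
      exact (hf x y).trans (mul_le_mul_of_nonneg_right (Real.le_coe_toNNReal K) (norm_nonneg _))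
    exact hL.continuous
  have hs : ∀ a b : ℝ, |(a - max (-δ) (min δ a)) - (b - max (-δ) (min δ b))| ≤ |a - b| := by
    intro a b
    rcases le_total a b with hab | hab
    · rw [abs_of_nonpos (sub_nonpos.2 hab), abs_le]
      simp only [max_def, min_def]
      constructor <;> split_ifs <;> linarith
    · rw [abs_of_nonneg (sub_nonneg.2 hab), abs_le]
      simp only [max_def, min_def]
      constructor <;> split_ifs <;> linarith
  refine ⟨fun x => f x - max (-δ) (min δ (f x)), fun x y => (hs _ _).trans (hf x y), ?_,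
    {x | δ ≤ |f x|}, ?_, ?_, ?_⟩
  · intro x
    have e : f x - max (-δ) (min δ (f x)) - f x = -max (-δ) (min δ (f x)) := by ring
    rw [e, abs_neg, abs_le]
    simp only [max_def, min_def]
    constructor <;> split_ifs <;> linarith
  · intro x hx
    by_contra hxM
    have hx' : δ ≤ |f x| := hx
    rw [hf0 x hxM, abs_zero] at hx'
    linarith
  · have hcl : IsClosed {x | δ ≤ |f x|} := isClosed_le continuous_const (continuous_abs.comp hcont)
    refine Metric.isCompact_of_isClosed_isBounded hcl (hb.subset ?_)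
    intro x hx
    by_contra hxM
    have hx' : δ ≤ |f x| := hx
    rw [hf0 x hxM, abs_zero] at hx'
    linarith
  · intro x hx
    have hx' : |f x| < δ := lt_of_not_ge hx
    rw [abs_lt] at hx'
    show f x - max (-δ) (min δ (f x)) = 0
    rw [min_eq_right hx'.2.le, max_eq_right hx'.1.le, sub_self]

end Pool.Agent.YUT
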