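import Pool.Agent.YUT.G2a
import Pool.Agent.YUT.G2b

open MeasureTheory Set Filter Topology
open scoped ContDiff

namespace Pool.Agent.YUT

open Pool.Agent.YUD

theorem G2c_cut {M K : Set ℂ} (hM : IsOpen M) (hK : IsCompact K) (hKM : K ⊆ M) :
    ∃ (θ : ℂ → ℝ) (U : Set ℂ), ContDiff ℝ 1 θ ∧ HasCompactSupport θ ∧ tsupport θ ⊆ M ∧
      (∀ x, 0 ≤ θ x ∧ θ x ≤ 1) ∧ IsOpen U ∧ K ⊆ U ∧ ∀ x ∈ U, θ x = 1 := by
  obtain ⟨L, hL, hKL, hLM⟩ := exists_compact_between hK hM hKM
  obtain ⟨L', hL', hKL', hLL'⟩ := exists_compact_between hK isOpen_interior hKL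
  obtain ⟨θ, h1, h2, h3, h4⟩ := exists_contMDiff_support_eq_eq_one_iff
    (modelWithCornersSelf ℝ ℂ) (n := 1) (isOpen_interior (s := L)) hL'.isClosed hLL'
  have hts : tsupport θ ⊆ L := by
    rw [tsupport, h3]
    exact closure_minimal interior_subset hL.isClosed
  refine ⟨θ, interior L', contMDiff_iff_contDiff.1 h1, ?_, hts.trans hLM, ?_, isOpen_interior,
    hKL', fun x hx => (h4 x).1 (interior_subset hx)⟩
  · exact hL.of_isClosed_subset (isClosed_tsupport _) hts
  · intro x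
    exact h2 (mem_range_self x)

theorem G2c_mul {M : Set ℂ} (hM : IsOpen M) {θ G : ℂ → ℝ} (hθ : ContDiff ℝ 1 θ)
    (hs : tsupport θ ⊆ M) (hG : ContDiffOn ℝ 1 G M) : ContDiff ℝ 1 (fun x => θ x * G x) := by
  rw [contDiff_iff_contDiffAt]
  intro x
  by_cases hx : x ∈ M
  · exact (hθ.contDiffAt).mul (hG.contDiffAt (hM.mem_nhds hx))
  · have hx' : x ∉ tsupport θ := fun h => hx (hs h)
    have h0 : (fun x => θ x * G x) =ᶠ[𝓝 x] fun _ => 0 := by
      have h1 : ∀ᶠ y in 𝓝 x, y ∈ (tsupport θ)ᶜ := (isClosed_tsupport θ).isOpen_compl.mem_nhds hx'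
      filter_upwards [h1] with y hy
      have : θ y = 0 := image_eq_zero_of_notMem_tsupport hy
      rw [this, zero_mul]
    exact contDiffAt_const.congr_of_eventuallyEq h0

theorem G2c_K {f : ℂ → ℝ} {K : ℝ} (hf : ∀ x y, |f x - f y| ≤ K * ‖x - y‖) : 0 ≤ K := by
  have h := (abs_nonneg _).trans (hf 1 0)
  simpa using h

theorem G2c_lip {f : ℂ → ℝ} {K : ℝ} (hf : ∀ x y, |f x - f y| ≤ K * ‖x - y‖) :
    LipschitzWith (Real.toNNReal K) f := by
  refine LipschitzWith.of_dist_le_mul fun x y => ?_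
  rw [Real.dist_eq, dist_eq_norm]
  exact (hf x y).trans (mul_le_mul_of_nonneg_right (Real.le_coe_toNNReal K) (norm_nonneg _))

theorem G2c_fd {f : ℂ → ℝ} {K : ℝ} (hf : ∀ x y, |f x - f y| ≤ K * ‖x - y‖) (x : ℂ) :
    ‖fderiv ℝ f x‖ ≤ K := by
  have h := norm_fderiv_le_of_lipschitz ℝ (G2c_lip hf) (x₀ := x)
  rwa [Real.coe_toNNReal _ (G2c_K hf)] at h

theorem G2c_dx {f : ℂ → ℝ} {K : ℝ} (hf : ∀ x y, |f x - f y| ≤ K * ‖x - y‖) (x : ℂ) :
    |dx f x| ≤ K := (abs_dx_le f x).trans (G2c_fd hf x)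

theorem G2c_dy {f : ℂ → ℝ} {K : ℝ} (hf : ∀ x y, |f x - f y| ≤ K * ‖x - y‖) (x : ℂ) :
    |dy f x| ≤ K := (abs_dy_le f x).trans (G2c_fd hf x)

theorem G2c_mdx (f : ℂ → ℝ) : Measurable (dx f) := measurable_fderiv_apply_const ℝ f 1

theorem G2c_mdy (f : ℂ → ℝ) : Measurable (dy f) := measurable_fderiv_apply_const ℝ f Complex.I

theorem G2c_mlap (f : ℂ → ℝ) : Measurable (lap f) := (G2c_mdx _).add (G2c_mdy _)

/-- the divergence of `(P, Q)` -/
noncomputable def G2c_D (P Q : ℂ → ℝ) (x : ℂ) : ℝ := fderiv ℝ P x 1 + fderiv ℝ Q x Complex.I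

theorem G2c_Dint {P : ℂ → ℝ} (hP : ContDiff ℝ 1 P) (hPc : HasCompactSupport P) (v : ℂ) :
    Continuous (fun x => fderiv ℝ P x v) ∧ HasCompactSupport (fun x => fderiv ℝ P x v) := by
  constructor
  · exact (hP.continuous_fderiv (by norm_num)).clm_apply continuous_const
  · exact hPc.fderiv_apply (𝕜 := ℝ) v

theorem G2c_ibp {u P Q : ℂ → ℝ} {K : ℝ} (hu : ∀ x y, |u x - u y| ≤ K * ‖x - y‖)
    (hP : ContDiff ℝ 1 P) (hPc : HasCompactSupport P) (hQ : ContDiff ℝ 1 Q)
    (hQc : HasCompactSupport Q) :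
    Integrable (fun x => u x * G2c_D P Q x) ∧
    ∫ x, (dx u x * P x + dy u x * Q x) = -∫ x, u x * G2c_D P Q x := by
  have huc : Continuous u := (G2c_lip hu).continuous
  have i1 : Integrable (fun x => dx u x * P x) :=
    (hP.continuous.integrable_of_hasCompactSupport hPc).bdd_mul
      (G2c_mdx u).aestronglyMeasurable (Eventually.of_forall fun x => by
        rw [Real.norm_eq_abs]; exact G2c_dx hu x)
  have i2 : Integrable (fun x => dy u x * Q x) :=
    (hQ.continuous.integrable_of_hasCompactSupport hQc).bdd_mul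
      (G2c_mdy u).aestronglyMeasurable (Eventually.of_forall fun x => by
        rw [Real.norm_eq_abs]; exact G2c_dy hu x)
  have j1 : Integrable (fun x => u x * fderiv ℝ P x 1) :=
    (huc.mul (G2c_Dint hP hPc 1).1).integrable_of_hasCompactSupport (G2c_Dint hP hPc 1).2.mul_left
  have j2 : Integrable (fun x => u x * fderiv ℝ Q x Complex.I) :=
    (huc.mul (G2c_Dint hQ hQc Complex.I).1).integrable_of_hasCompactSupport
      (G2c_Dint hQ hQc Complex.I).2.mul_left
  have e : (fun x => u x * G2c_D P Q x) =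
      fun x => u x * fderiv ℝ P x 1 + u x * fderiv ℝ Q x Complex.I := by
    funext x
    rw [G2c_D, mul_add]
  refine ⟨by rw [e]; exact j1.add j2, ?_⟩
  rw [integral_add i1 i2, e, integral_add j1 j2]
  have h1 := ibp_lip hu hP hPc 1
  have h2 := ibp_lip hu hQ hQc Complex.I
  have h1' : ∫ x, dx u x * P x = -∫ x, u x * fderiv ℝ P x 1 := h1
  have h2' : ∫ x, dy u x * Q x = -∫ x, u x * fderiv ℝ Q x Complex.I := h2
  rw [h1', h2']
  ring

theorem G2c_cpt {M S : Set ℂ} (hM : IsOpen M) (hS : IsCompact S) (hSM : S ⊆ M) {u g : ℂ → ℝ}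
    {K : ℝ} (hu : ∀ x y, |u x - u y| ≤ K * ‖x - y‖) (hu0 : ∀ x, x ∉ S → u x = 0)
    (hg : ContDiffOn ℝ 2 g M) :
    ∫ x in M, (dx u x * dx g x + dy u x * dy g x) = -∫ x in M, u x * lap g x := by
  obtain ⟨θ, U, h1, h2, h3, h4, h5, h6, h7⟩ := G2c_cut hM hS hSM
  have hgx : ContDiffOn ℝ 1 (dx g) M := contDiffOn_dx (n := 1) hM hg
  have hgy : ContDiffOn ℝ 1 (dy g) M := contDiffOn_dy (n := 1) hM hg
  have hP := G2c_mul hM h1 h3 hgx
  have hQ := G2c_mul hM h1 h3 hgy
  have hPc : HasCompactSupport (fun x => θ x * dx g x) := h2.mul_right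
  have hQc : HasCompactSupport (fun x => θ x * dy g x) := h2.mul_right
  have h := (G2c_ibp hu hP hPc hQ hQc).2
  have hnd : ∀ x, x ∉ S → fderiv ℝ u x = 0 := by
    intro x hx
    have h0 : u =ᶠ[𝓝 x] fun _ => 0 := by
      have : ∀ᶠ y in 𝓝 x, y ∈ Sᶜ := hS.isClosed.isOpen_compl.mem_nhds hx
      filter_upwards [this] with y hy using hu0 y hy
    rw [h0.fderiv_eq]
    simp
  have e1 : ∫ x in M, (dx u x * dx g x + dy u x * dy g x) =
      ∫ x, (dx u x * (θ x * dx g x) + dy u x * (θ x * dy g x)) := by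
    rw [← integral_indicator hM.measurableSet]
    congr 1
    funext x
    by_cases hx : x ∈ S
    · rw [indicator_of_mem (hSM hx), h7 x (h6 hx), one_mul, one_mul]
    · have hx0 : dx u x = 0 := by rw [dx, hnd x hx]; rfl
      have hy0 : dy u x = 0 := by rw [dy, hnd x hx]; rfl
      rw [hx0, hy0]
      by_cases hxM : x ∈ M
      · rw [indicator_of_mem hxM, hx0, hy0]
        ring
      · rw [indicator_of_notMem hxM]
        ring
  have e2 : ∫ x in M, u x * lap g x =
      ∫ x, u x * G2c_D (fun x => θ x * dx g x) (fun x => θ x * dy g x) x := by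
    rw [← integral_indicator hM.measurableSet]
    congr 1
    funext x
    by_cases hx : x ∈ S
    · rw [indicator_of_mem (hSM hx)]
      have hev : ∀ᶠ y in 𝓝 x, y ∈ U := h5.mem_nhds (h6 hx)
      have a1 : (fun x => θ x * dx g x) =ᶠ[𝓝 x] dx g := by
        filter_upwards [hev] with y hy
        rw [h7 y hy, one_mul]
      have a2 : (fun x => θ x * dy g x) =ᶠ[𝓝 x] dy g := by
        filter_upwards [hev] with y hy
        rw [h7 y hy, one_mul]
      rw [G2c_D, a1.fderiv_eq, a2.fderiv_eq]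
      rfl
    · rw [hu0 x hx, zero_mul]
      by_cases hxM : x ∈ M
      · rw [indicator_of_mem hxM, hu0 x hx, zero_mul]
      · rw [indicator_of_notMem hxM]
  rw [e1, e2]
  exact h

/-- the error of the cutoff -/
theorem G2c_err {M K₀ : Set ℂ} (hM : IsOpen M) (hb : Bornology.IsBounded M)
    (hK₀ : MeasurableSet K₀) {u g θ : ℂ → ℝ}
    {K C : ℝ} (hu : ∀ x y, |u x - u y| ≤ K * ‖x - y‖) (hC : 0 ≤ C)
    (hgb : ∀ x ∈ M, ‖fderiv ℝ g x‖ ≤ C) (hθm : Measurable θ)
    (hθ : ∀ x, 0 ≤ θ x ∧ θ x ≤ 1) (hθ1 : ∀ x ∈ K₀, θ x = 1) (hθ0 : ∀ x, x ∉ M → θ x = 0) :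
    |(∫ x in M, (dx u x * dx g x + dy u x * dy g x)) -
      ∫ x, (dx u x * (θ x * dx g x) + dy u x * (θ x * dy g x))| ≤
      2 * K * C * volume.real (M \ K₀) := by
  have hK := G2c_K hu
  have hfin : volume M < ⊤ := hb.measure_lt_top
  have hbd : ∀ x ∈ M, |dx u x * dx g x + dy u x * dy g x| ≤ 2 * K * C := by
    intro x hx
    have a1 : |dx u x * dx g x| ≤ K * C := by
      rw [abs_mul]
      exact mul_le_mul (G2c_dx hu x) ((abs_dx_le g x).trans (hgb x hx)) (abs_nonneg _) hK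
    have a2 : |dy u x * dy g x| ≤ K * C := by
      rw [abs_mul]
      exact mul_le_mul (G2c_dy hu x) ((abs_dy_le g x).trans (hgb x hx)) (abs_nonneg _) hK
    have := abs_add_le (dx u x * dx g x) (dy u x * dy g x)
    linarith
  have hm1 : Measurable (fun x => dx u x * dx g x + dy u x * dy g x) :=
    ((G2c_mdx u).mul (G2c_mdx g)).add ((G2c_mdy u).mul (G2c_mdy g))
  have hi1 : IntegrableOn (fun x => dx u x * dx g x + dy u x * dy g x) M := by
    refine Measure.integrableOn_of_bounded hfin.ne hm1.aestronglyMeasurable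
      (M := 2 * K * C) ?_
    rw [ae_restrict_iff' hM.measurableSet]
    exact Eventually.of_forall fun x hx => by rw [Real.norm_eq_abs]; exact hbd x hx
  have hi2 : IntegrableOn (fun x => dx u x * (θ x * dx g x) + dy u x * (θ x * dy g x)) M := by
    have e : (fun x => dx u x * (θ x * dx g x) + dy u x * (θ x * dy g x)) =
        fun x => θ x * (dx u x * dx g x + dy u x * dy g x) := by
      funext x
      ring
    rw [e]
    exact hi1.bdd_mul hθm.aestronglyMeasurable (c := 1) (Eventually.of_forall fun x => by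
      rw [Real.norm_eq_abs, abs_of_nonneg (hθ x).1]; exact (hθ x).2)
  have e1 : ∫ x, (dx u x * (θ x * dx g x) + dy u x * (θ x * dy g x)) =
      ∫ x in M, (dx u x * (θ x * dx g x) + dy u x * (θ x * dy g x)) := by
    rw [← integral_indicator hM.measurableSet]
    congr 1
    funext x
    by_cases hx : x ∈ M
    · rw [indicator_of_mem hx]
    · rw [indicator_of_notMem hx, hθ0 x hx]
      ring
  rw [e1, ← integral_sub hi1 hi2]
  have e2 : ∫ x in M, (dx u x * dx g x + dy u x * dy g x -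
      (dx u x * (θ x * dx g x) + dy u x * (θ x * dy g x))) =
      ∫ x in M \ K₀, (dx u x * dx g x + dy u x * dy g x -
      (dx u x * (θ x * dx g x) + dy u x * (θ x * dy g x))) := by
    refine setIntegral_eq_of_subset_of_forall_sdiff_eq_zero hM.measurableSet sdiff_subset ?_
    intro x hx
    have hxK : x ∈ K₀ := by
      by_contra h
      exact hx.2 ⟨hx.1, h⟩
    rw [hθ1 x hxK]
    ring
  rw [e2, ← Real.norm_eq_abs]
  refine norm_setIntegral_le_of_norm_le_const ((measure_mono sdiff_subset).trans_lt hfin) ?_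
  intro x hx
  have e : dx u x * dx g x + dy u x * dy g x - (dx u x * (θ x * dx g x) + dy u x * (θ x * dy g x)) =
      (1 - θ x) * (dx u x * dx g x + dy u x * dy g x) := by ring
  rw [e, Real.norm_eq_abs, abs_mul, abs_of_nonneg (sub_nonneg.2 (hθ x).2)]
  have h1 : 1 - θ x ≤ 1 := by linarith [(hθ x).1]
  calc (1 - θ x) * |dx u x * dx g x + dy u x * dy g x|
      ≤ 1 * |dx u x * dx g x + dy u x * dy g x| :=
        mul_le_mul_of_nonneg_right h1 (abs_nonneg _)
    _ ≤ 2 * K * C := by rw [one_mul]; exact hbd x hx.1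

/-- [YUT-G2c] Green's identity for a Lipschitz function `f` vanishing off `M` and a `C²` function `g`
on `M` with bounded gradient and Laplacian.
Proof. Let `f_k` be the soft truncation for `δ = 1/(k+1)` (`soft_trunc`), zero off the compact
`S_k ⊆ M`. (1) For each `k`: `∫_M ∇f_k ⬝ ∇g = -∫_M f_k Δg`: take a smooth cutoff `θ` with compact
support in `M`, `θ = 1` near `S_k` (`exists_contDiff_tsupport_subset` or
`exists_smooth_one_nhds_of_subset_interior`), `P = θ g_x`, `Q = θ g_y` are `C¹` with compact support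
(extended by `0`); apply `ibp_lip` with `f_k`, `(P, v = 1)` and `(Q, v = I)`; off `S_k` the function
`f_k` is zero on the open set `S_kᶜ`, hence so is its derivative; near `S_k`, `P = g_x`, `Q = g_y`.
(2) For every smooth cutoff `θ` as above (independent of `k`) `ibp_lip` for `f_k` and for `f` gives
`∫ ∇f_k ⬝ θ∇g → ∫ ∇f ⬝ θ∇g`, because `f_k → f` uniformly. (3) `|∇f_k|, |∇f| ≤ K`, so
`|∫_M ∇f_k ⬝ (1-θ)∇g| ≤ 2 K C |{x ∈ M : θ x ≠ 1}|`, small uniformly in `k` for suitable `θ`
(exhaust `M` by compact sets, `MeasurableSet.exists_isCompact_lt_add` or `IsOpen` inner regularity).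
So `∫_M ∇f_k ⬝ ∇g → ∫_M ∇f ⬝ ∇g`, and `∫_M f_k Δg → ∫_M f Δg`. -/
theorem green_lip {M : Set ℂ} (hM : IsOpen M) (hb : Bornology.IsBounded M) {f g : ℂ → ℝ}
    {K C : ℝ} (hf : ∀ x y, |f x - f y| ≤ K * ‖x - y‖) (hf0 : ∀ x, x ∉ M → f x = 0)
    (hg : ContDiffOn ℝ 2 g M) (hgb : ∀ x ∈ M, ‖fderiv ℝ g x‖ ≤ C)
    (hgl : ∀ x ∈ M, |lap g x| ≤ C) :
    ∫ x in M, (dx f x * dx g x + dy f x * dy g x) = -∫ x in M, f x * lap g x := by
  rcases M.eq_empty_or_nonempty with hMe | ⟨x₀, hx₀⟩
  · subst hMe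
    simp
  have hC : 0 ≤ C := (norm_nonneg _).trans (hgb x₀ hx₀)
  have hK := G2c_K hf
  have hfin : volume M < ⊤ := hb.measure_lt_top
  have hgx : ContDiffOn ℝ 1 (dx g) M := contDiffOn_dx (n := 1) hM hg
  have hgy : ContDiffOn ℝ 1 (dy g) M := contDiffOn_dy (n := 1) hM hg
  rw [← sub_eq_zero]
  by_contra hne
  set A : ℝ := (∫ x in M, (dx f x * dx g x + dy f x * dy g x)) - -∫ x in M, f x * lap g x with hA
  have hApos : 0 < |A| := abs_pos.2 hne
  -- the cutoff
  set η : ℝ := |A| / (4 * (4 * K * C + 1)) with hη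
  have hKC : 0 ≤ K * C := mul_nonneg hK hC
  have hηpos : 0 < η := by positivity
  obtain ⟨K₀, hK₀M, hK₀c, hK₀⟩ := hM.measurableSet.exists_isCompact_sdiff_lt (μ := volume) hfin.ne
    (ε := ENNReal.ofReal η) (by simpa using hηpos)
  have hvol : volume.real (M \ K₀) ≤ η := by
    rw [measureReal_def]
    exact ENNReal.toReal_le_of_le_ofReal hηpos.le hK₀.le
  obtain ⟨θ, U, h1, h2, h3, h4, h5, h6, h7⟩ := G2c_cut hM hK₀c hK₀M
  have hP := G2c_mul hM h1 h3 hgx
  have hQ := G2c_mul hM h1 h3 hgy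
  have hPc : HasCompactSupport (fun x => θ x * dx g x) := h2.mul_right
  have hQc : HasCompactSupport (fun x => θ x * dy g x) := h2.mul_right
  have hθ0 : ∀ x, x ∉ M → θ x = 0 := fun x hx =>
    image_eq_zero_of_notMem_tsupport fun h => hx (h3 h)
  set D := G2c_D (fun x => θ x * dx g x) (fun x => θ x * dy g x) with hD
  have hDi : Integrable D := by
    have a1 := G2c_Dint hP hPc 1
    have a2 := G2c_Dint hQ hQc Complex.I
    exact (a1.1.integrable_of_hasCompactSupport a1.2).add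
      (a2.1.integrable_of_hasCompactSupport a2.2)
  set c : ℝ := ∫ x, |D x| with hc
  have hc0 : 0 ≤ c := integral_nonneg fun x => abs_nonneg _
  set v : ℝ := volume.real M with hv
  have hv0 : 0 ≤ v := measureReal_nonneg
  set δ : ℝ := |A| / (4 * (c + C * v + 1)) with hδ
  have hCv : 0 ≤ C * v := mul_nonneg hC hv0
  have hδpos : 0 < δ := by positivity
  obtain ⟨h, hh1, hh2, S, hSM, hSc, hS0⟩ := soft_trunc hM hb hf hf0 hδpos
  -- identity for `h`
  have b1 := G2c_cpt hM hSc hSM hh1 hS0 hg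
  have b2 := G2c_err hM hb hK₀c.measurableSet hf hC hgb h1.continuous.measurable h4
    (fun x hx => h7 x (h6 hx)) hθ0
  have b3 := G2c_err hM hb hK₀c.measurableSet hh1 hC hgb h1.continuous.measurable h4
    (fun x hx => h7 x (h6 hx)) hθ0
  obtain ⟨b4, b5⟩ := G2c_ibp hf hP hPc hQ hQc
  obtain ⟨b6, b7⟩ := G2c_ibp hh1 hP hPc hQ hQc
  have b8 : |(∫ x, h x * D x) - ∫ x, f x * D x| ≤ δ * c := by
    rw [← integral_sub b6 b4, hc, ← integral_const_mul]
    refine (abs_integral_le_integral_abs).trans ?_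
    refine integral_mono_of_nonneg (Eventually.of_forall fun x => abs_nonneg _)
      (hDi.abs.const_mul δ) (Eventually.of_forall fun x => ?_)
    have e : h x * D x - f x * D x = (h x - f x) * D x := by ring
    show |h x * D x - f x * D x| ≤ δ * |D x|
    rw [e, abs_mul]
    exact mul_le_mul_of_nonneg_right (hh2 x) (abs_nonneg _)
  have hcont : ∀ {u : ℂ → ℝ}, (∀ x y, |u x - u y| ≤ K * ‖x - y‖) → Continuous u :=
    fun hu => (G2c_lip hu).continuous
  have hib : ∀ {u : ℂ → ℝ}, (∀ x y, |u x - u y| ≤ K * ‖x - y‖) →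
      IntegrableOn (fun x => u x * lap g x) M := by
    intro u hu
    have hi : IntegrableOn u M := by
      obtain ⟨R, hR⟩ := hb.subset_closedBall 0
      exact ((hcont hu).continuousOn.integrableOn_compact
        (isCompact_closedBall (0 : ℂ) R)).mono_set hR
    refine hi.mul_bdd (c := C) (G2c_mlap g).aestronglyMeasurable ?_
    rw [ae_restrict_iff' hM.measurableSet]
    exact Eventually.of_forall fun x hx => by rw [Real.norm_eq_abs]; exact hgl x hx
  have b9 : |(∫ x in M, h x * lap g x) - ∫ x in M, f x * lap g x| ≤ δ * (C * v) := by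
    rw [← integral_sub (hib hh1) (hib hf), ← Real.norm_eq_abs]
    have e : δ * (C * v) = (δ * C) * volume.real M := by rw [hv]; ring
    rw [e]
    refine norm_setIntegral_le_of_norm_le_const hfin ?_
    intro x hx
    have e : h x * lap g x - f x * lap g x = (h x - f x) * lap g x := by ring
    rw [e, Real.norm_eq_abs, abs_mul]
    exact mul_le_mul (hh2 x) (hgl x hx) (abs_nonneg _) hδpos.le
  have c1 : 2 * K * C * volume.real (M \ K₀) ≤ 2 * K * C * η :=
    mul_le_mul_of_nonneg_left hvol (by positivity)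
  have c2 : 2 * K * C * η + 2 * K * C * η ≤ |A| / 4 := by
    have e : 2 * K * C * η + 2 * K * C * η = (|A| / 4) * ((4 * K * C) / (4 * K * C + 1)) := by
      rw [hη]
      field_simp
      ring
    rw [e]
    have : (4 * K * C) / (4 * K * C + 1) ≤ 1 := by
      rw [div_le_one (by positivity)]
      linarith
    have h0 : 0 ≤ |A| / 4 := by positivity
    nlinarith
  have c3 : δ * c + δ * (C * v) ≤ |A| / 4 := by
    have e : δ * c + δ * (C * v) = (|A| / 4) * ((c + C * v) / (c + C * v + 1)) := by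
      rw [hδ]
      field_simp
    rw [e]
    have : (c + C * v) / (c + C * v + 1) ≤ 1 := by
      rw [div_le_one (by positivity)]
      linarith
    have h0 : 0 ≤ |A| / 4 := by positivity
    nlinarith
  rw [b5] at b2
  rw [b7] at b3
  rw [abs_le] at b2 b3 b8 b9
  have hAle : |A| ≤ |A| / 4 + |A| / 4 := by
    rw [abs_le]
    constructor
    · linarith [b2.1, b3.2, b8.1, b8.2, b9.1, b9.2, b3.1, b2.2]
    · linarith [b2.1, b3.2, b8.1, b8.2, b9.1, b9.2, b3.1, b2.2]
  linarith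

end Pool.Agent.YUT
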