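import Pool.Agent.YUT.G1
import Pool.Agent.YUT.G2c

open MeasureTheory Set Filter Topology
open scoped ContDiff

namespace Pool.Agent.YUT

open Pool.Agent.YUD

theorem G3a_ind {M : Set ℂ} (hM : IsOpen M) (f : ℂ → ℝ) {x : ℂ} (hx : x ∈ M) :
    fderiv ℝ (M.indicator f) x = fderiv ℝ f x := by
  apply Filter.EventuallyEq.fderiv_eq
  filter_upwards [hM.mem_nhds hx] with y hy
  exact indicator_of_mem hy f

/-- [YUT-G3a] Green's identity for stream functions: `green_lip` for `M.indicator f` (`lip_ext`);
on the open set `M` the indicator equals `f` near every point, so the derivatives agree. -/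
theorem green {M : Set ℂ} (hM : IsOpen M) (hb : Bornology.IsBounded M) {f g : ℂ → ℝ} {C : ℝ}
    (hf : StreamLe M C f) (hg : StreamLe M C g) :
    ∫ x in M, (dx f x * dx g x + dy f x * dy g x) = -∫ x in M, f x * lap g x := by
  have hC : 2 * C ≤ 2 * |C| := by linarith [le_abs_self C]
  have hC0 : 0 ≤ 2 * |C| := by positivity
  have hlip := lip_ext hM hC0 hf.diffOn (fun x hx => (hf.fderiv_le x hx).trans hC) hf.zero
  have h := green_lip hM hb hlip (fun x hx => indicator_of_notMem hx f) hg.c2
    (fun x hx => (hg.fderiv_le x hx).trans hC) (fun x hx => (hg.lap_le x hx).trans hC)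
  have h1 : ∫ x in M, (dx f x * dx g x + dy f x * dy g x) =
      ∫ x in M, (dx (M.indicator f) x * dx g x + dy (M.indicator f) x * dy g x) := by
    refine setIntegral_congr_fun hM.measurableSet (fun x hx => ?_)
    simp only [dx, dy, G3a_ind hM f hx]
  have h2 : ∫ x in M, f x * lap g x = ∫ x in M, M.indicator f x * lap g x := by
    refine setIntegral_congr_fun hM.measurableSet (fun x hx => ?_)
    simp only [indicator_of_mem hx]
  rw [h1, h2, h]

/-- [YUT-G3a] `∫ |∇f|² = -∫ f Δf` -/
theorem dirichlet {M : Set ℂ} (hM : IsOpen M) (hb : Bornology.IsBounded M) {f : ℂ → ℝ} {C : ℝ}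
    (hf : StreamLe M C f) : ∫ x in M, gsq f x = -∫ x in M, f x * lap f x := by
  rw [← green hM hb hf hf]
  refine integral_congr_ae (Eventually.of_forall fun x => ?_)
  simp only [gsq]
  ring

/-- [YUT-G3a] symmetry -/
theorem green_symm {M : Set ℂ} (hM : IsOpen M) (hb : Bornology.IsBounded M) {f g : ℂ → ℝ} {C : ℝ}
    (hf : StreamLe M C f) (hg : StreamLe M C g) :
    ∫ x in M, f x * lap g x = ∫ x in M, g x * lap f x := by
  have h1 := green hM hb hf hg
  have h2 := green hM hb hg hf
  have h3 : ∫ x in M, (dx f x * dx g x + dy f x * dy g x) = ∫ x in M, (dx g x * dx f x + dy g x * dy f x) := by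
    refine integral_congr_ae (Eventually.of_forall fun x => ?_)
    simp only
    ring
  rw [h3, h2] at h1
  linarith

end Pool.Agent.YUT
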