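import Pool.Agent.YUT.Base

open MeasureTheory Set Filter Topology
open scoped ContDiff

namespace Pool.Agent.YUT

open Pool.Agent.YUD

/-- [YUT-V1a] A Lipschitz function has zero derivative at almost every point of its zero set.
Proof: `|F|` is Lipschitz too, hence differentiable at almost every point
(`LipschitzWith.ae_differentiableAt`). If `F x = 0` and `|F|` is differentiable at `x`, then `x` is a
minimum of `|F|`, so the derivative of `|F|` at `x` is `0`, i.e. `|F (x+h)| = o(h)`, hence
`HasFDerivAt F 0 x`. -/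
theorem ae_fderiv_zero {F : ℂ → ℝ} {K : ℝ} (hF : ∀ x y, |F x - F y| ≤ K * ‖x - y‖) :
    ∀ᵐ x : ℂ, F x = 0 → fderiv ℝ F x = 0 := by
  have hK : LipschitzWith K.toNNReal (fun x => |F x|) := by
    refine LipschitzWith.of_dist_le_mul fun x y => ?_
    rw [Real.dist_eq, dist_eq_norm]
    refine (abs_abs_sub_abs_le_abs_sub _ _).trans ((hF x y).trans ?_)
    exact mul_le_mul_of_nonneg_right (Real.le_coe_toNNReal K) (norm_nonneg _)
  filter_upwards [hK.ae_differentiableAt] with x hx h0
  have hmin : IsLocalMin (fun x => |F x|) x := by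
    refine Filter.Eventually.of_forall fun y => ?_
    simp [h0]
  have hd : fderiv ℝ (fun x => |F x|) x = 0 := hmin.fderiv_eq_zero
  have h1 : HasFDerivAt (fun x => |F x|) (0 : ℂ →L[ℝ] ℝ) x := by
    have := hx.hasFDerivAt; rwa [hd] at this
  have h2 : HasFDerivAt F (0 : ℂ →L[ℝ] ℝ) x := by
    rw [hasFDerivAt_iff_isLittleO_nhds_zero] at h1 ⊢
    refine Asymptotics.IsLittleO.of_norm_left ?_
    simpa [h0] using h1
  exact h2.fderiv

end Pool.Agent.YUT
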