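import Pool.Agent.YUT.G1
import Pool.Agent.YUT.G2c
import Pool.Agent.YUT.G3a
import Pool.Agent.YUT.V1a

open MeasureTheory Set Filter Topology
open scoped ContDiff

namespace Pool.Agent.YUT

open Pool.Agent.YUD

/-- the rotation by the angle `l` -/
private noncomputable def A1a_rot (l : ℝ) : ℂ ≃ₗᵢ[ℝ] ℂ := rotation (Circle.exp l)

private theorem A1a_rot_apply (l : ℝ) (x : ℂ) : A1a_rot l x = Complex.exp (l * Complex.I) * x := by
  rw [A1a_rot, rotation_apply, Circle.coe_exp]

private theorem A1a_mem {R l : ℝ} {x : ℂ} (hx : x ∈ Metric.ball (0 : ℂ) R) :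
    A1a_rot l x ∈ Metric.ball (0 : ℂ) R := by
  rw [mem_ball_zero_iff, LinearIsometryEquiv.norm_map]
  rwa [mem_ball_zero_iff] at hx

private theorem A1a_pre (R l : ℝ) :
    (A1a_rot l) ⁻¹' Metric.ball (0 : ℂ) R = Metric.ball (0 : ℂ) R := by
  ext x
  rw [mem_preimage, mem_ball_zero_iff, LinearIsometryEquiv.norm_map, mem_ball_zero_iff]

private theorem A1a_int {R l : ℝ} (g : ℂ → ℝ) :
    ∫ x in Metric.ball (0 : ℂ) R, g (A1a_rot l x) = ∫ x in Metric.ball (0 : ℂ) R, g x := by
  have h := (A1a_rot l).measurePreserving.setIntegral_preimage_emb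
    (A1a_rot l).toHomeomorph.measurableEmbedding g (Metric.ball (0 : ℂ) R)
  rwa [A1a_pre] at h

private theorem A1a_intOn {R l : ℝ} {g : ℂ → ℝ} (hg : IntegrableOn g (Metric.ball (0 : ℂ) R)) :
    IntegrableOn (fun x => g (A1a_rot l x)) (Metric.ball (0 : ℂ) R) := by
  have h := ((A1a_rot l).measurePreserving.integrableOn_comp_preimage
    (A1a_rot l).toHomeomorph.measurableEmbedding (f := g) (s := Metric.ball (0 : ℂ) R)).2 hg
  rwa [A1a_pre] at h

/-- the derivative of the rotated function -/
private theorem A1a_fderiv {R l : ℝ} {f : ℂ → ℝ} (hf : DifferentiableOn ℝ f (Metric.ball 0 R))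
    {x : ℂ} (hx : x ∈ Metric.ball (0 : ℂ) R) (v : ℂ) :
    fderiv ℝ (fun x => (Metric.ball (0 : ℂ) R).indicator f (A1a_rot l x)) x v =
      fderiv ℝ f (A1a_rot l x) (A1a_rot l v) := by
  have hM : IsOpen (Metric.ball (0 : ℂ) R) := Metric.isOpen_ball
  have hx' : A1a_rot l x ∈ Metric.ball (0 : ℂ) R := A1a_mem hx
  have e2 : HasFDerivAt ((Metric.ball (0 : ℂ) R).indicator f) (fderiv ℝ f (A1a_rot l x))
      (A1a_rot l x) := by
    refine (hf.differentiableAt (hM.mem_nhds hx')).hasFDerivAt.congr_of_eventuallyEq ?_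
    filter_upwards [hM.mem_nhds hx'] with w hw
    rw [indicator_of_mem hw]
  have e3 : HasFDerivAt (A1a_rot l : ℂ → ℂ) ((A1a_rot l).toContinuousLinearEquiv : ℂ →L[ℝ] ℂ) x :=
    (A1a_rot l).toContinuousLinearEquiv.hasFDerivAt
  have e4 : fderiv ℝ (fun x => (Metric.ball (0 : ℂ) R).indicator f (A1a_rot l x)) x =
      (fderiv ℝ f (A1a_rot l x)).comp ((A1a_rot l).toContinuousLinearEquiv : ℂ →L[ℝ] ℂ) :=
    (e2.comp x e3).fderiv
  rw [e4]
  rfl

/-- [YUT-A1a] rotation invariance on a disk: `∫ Δf ∂_θ f = 0`, `∂_θ f = fderiv ℝ f x (I x)`. Proof: with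
`F = M.indicator f` and `F_l x = F (e^{il} x)`, which is zero off the disk, `green_lip` gives
`-∫ F_l Δf = ∫ ∇F_l ⬝ ∇f ≤ (1/2)(∫ |∇F_l|² + ∫ |∇f|²) = ∫ |∇f|² = -∫ f Δf` for every real `l`
(`∫_M |∇F_l|² ≤ ∫_ℂ |∇F_l|² = ∫_ℂ |∇F|² = ∫_M |∇f|²`, `ae_fderiv_zero` off `M`, rotations preserve
`|∇|²` and area), so `∫ (F_l - f) Δf ≥ 0` for `l > 0` and `l < 0`; divide by `l` and let `l → 0±`. -/
theorem rot_virial {R : ℝ} (hR : 0 < R) {f : ℂ → ℝ} {C : ℝ}
    (hf : StreamLe (Metric.ball 0 R) C f) :
    ∫ x in Metric.ball (0 : ℂ) R, lap f x * fderiv ℝ f x (Complex.I * x) = 0 := by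
  set M : Set ℂ := Metric.ball (0 : ℂ) R with hMdef
  have hM : IsOpen M := Metric.isOpen_ball
  have hb : Bornology.IsBounded M := Metric.isBounded_ball
  have hMm : MeasurableSet M := hM.measurableSet
  have hfin : volume M < ⊤ := measure_ball_lt_top
  have h0M : (0 : ℂ) ∈ M := by rw [hMdef, mem_ball_zero_iff, norm_zero]; exact hR
  have hC : 0 ≤ C := (abs_nonneg _).trans (hf.abs_le 0 h0M)
  have hbd : ∀ {g : ℂ → ℝ} {B : ℝ}, ContinuousOn g M → (∀ x ∈ M, |g x| ≤ B) → IntegrableOn g M := by
    intro g B hg hB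
    have : IsFiniteMeasure (volume.restrict M) := ⟨by rwa [Measure.restrict_apply_univ]⟩
    refine Integrable.of_bound (hg.aestronglyMeasurable hMm) B ?_
    filter_upwards [ae_restrict_mem hMm] with x hx
    exact hB x hx
  have hgsq : IntegrableOn (gsq f) M := by
    refine hbd (B := C ^ 2 + C ^ 2) (((hf.dx_cont hM).pow 2).add ((hf.dy_cont hM).pow 2)) ?_
    intro x hx
    rw [abs_of_nonneg (gsq_nonneg f x)]
    have h1 := hf.dx_le x hx
    have h2 := hf.dy_le x hx
    unfold gsq
    have h3 : dx f x ^ 2 ≤ C ^ 2 := by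
      rw [← sq_abs (dx f x)]; exact pow_le_pow_left₀ (abs_nonneg _) h1 2
    have h4 : dy f x ^ 2 ≤ C ^ 2 := by
      rw [← sq_abs (dy f x)]; exact pow_le_pow_left₀ (abs_nonneg _) h2 2
    linarith
  -- the function `G`
  set G : ℝ → ℝ := fun l => ∫ x in M, f (A1a_rot l x) * lap f x with hG
  -- minimum at `0`
  have hmin : ∀ l, G 0 ≤ G l := by
    intro l
    have hlip := lip_ext hM (by positivity : 0 ≤ 2 * C) hf.diffOn hf.fderiv_le hf.zero
    have hlip' : ∀ x y, |M.indicator f (A1a_rot l x) - M.indicator f (A1a_rot l y)| ≤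
        2 * C * ‖x - y‖ := by
      intro x y
      refine (hlip _ _).trans (le_of_eq ?_)
      rw [← map_sub, LinearIsometryEquiv.norm_map]
    have hz : ∀ x, x ∉ M → M.indicator f (A1a_rot l x) = 0 := by
      intro x hx
      apply indicator_of_notMem
      intro h
      apply hx
      rw [hMdef, mem_ball_zero_iff, LinearIsometryEquiv.norm_map] at h
      rwa [hMdef, mem_ball_zero_iff]
    have hgr := green_lip hM hb (f := fun x => M.indicator f (A1a_rot l x)) (g := f) (K := 2 * C)
      (C := 2 * C) hlip' hz hf.1 hf.fderiv_le hf.lap_le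
    have hd := dirichlet hM hb hf
    have e1 : ∫ x in M, M.indicator f (A1a_rot l x) * lap f x = G l := by
      refine setIntegral_congr_fun hMm fun x hx => ?_
      rw [indicator_of_mem (A1a_mem hx)]
    have e2 : G 0 = ∫ x in M, f x * lap f x := by
      refine setIntegral_congr_fun hMm fun x hx => ?_
      rw [A1a_rot_apply]
      simp
    rw [e1] at hgr
    have e3 : ∀ x ∈ M, gsq (fun x => M.indicator f (A1a_rot l x)) x = gsq f (A1a_rot l x) := by
      intro x hx
      unfold gsq dx dy
      rw [A1a_fderiv hf.diffOn hx, A1a_fderiv hf.diffOn hx, fderiv_apply', fderiv_apply' f _ (A1a_rot l Complex.I)]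
      rw [A1a_rot_apply l 1, A1a_rot_apply l Complex.I]
      have hcs := Real.cos_sq_add_sin_sq l
      have er : (Complex.exp (l * Complex.I) * 1).re = Real.cos l := by
        rw [mul_one, Complex.exp_ofReal_mul_I_re]
      have ei : (Complex.exp (l * Complex.I) * 1).im = Real.sin l := by
        rw [mul_one, Complex.exp_ofReal_mul_I_im]
      have er' : (Complex.exp (l * Complex.I) * Complex.I).re = -Real.sin l := by
        rw [Complex.mul_I_re, Complex.exp_ofReal_mul_I_im]
      have ei' : (Complex.exp (l * Complex.I) * Complex.I).im = Real.cos l := by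
        rw [Complex.mul_I_im, Complex.exp_ofReal_mul_I_re]
      rw [er, ei, er', ei']
      unfold dx dy
      set p := fderiv ℝ f (A1a_rot l x) 1
      set q := fderiv ℝ f (A1a_rot l x) Complex.I
      linear_combination (p ^ 2 + q ^ 2) * hcs
    have hgl : IntegrableOn (fun x => gsq f (A1a_rot l x)) M := A1a_intOn hgsq
    have h5 : ∫ x in M, (dx (fun x => M.indicator f (A1a_rot l x)) x * dx f x +
        dy (fun x => M.indicator f (A1a_rot l x)) x * dy f x) ≤
        ∫ x in M, (1 / 2 * (gsq f (A1a_rot l x) + gsq f x)) := by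
      by_cases hint : IntegrableOn (fun x => dx (fun x => M.indicator f (A1a_rot l x)) x * dx f x +
        dy (fun x => M.indicator f (A1a_rot l x)) x * dy f x) M
      · refine setIntegral_mono_on hint ((hgl.add hgsq).const_mul _) hMm fun x hx => ?_
        have := e3 x hx
        rw [← this]
        unfold gsq
        nlinarith [sq_nonneg (dx (fun x => M.indicator f (A1a_rot l x)) x - dx f x),
          sq_nonneg (dy (fun x => M.indicator f (A1a_rot l x)) x - dy f x)]
      · rw [integral_undef hint]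
        refine setIntegral_nonneg hMm fun x hx => ?_
        have := gsq_nonneg f x
        have := gsq_nonneg f (A1a_rot l x)
        positivity
    have h6 : ∫ x in M, (1 / 2 * (gsq f (A1a_rot l x) + gsq f x)) = ∫ x in M, gsq f x := by
      rw [integral_const_mul, integral_add hgl hgsq, A1a_int (gsq f)]
      ring
    rw [h6, hgr, hd] at h5
    rw [e2]
    linarith
  -- the derivative of `G`
  have hcl : ContinuousOn (lap f) M := hf.lap_cont hM
  have hrotc : ∀ l, Continuous (fun x => A1a_rot l x) := fun l => (A1a_rot l).continuous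
  have hexp : ∀ (x : ℂ) (l : ℝ), HasDerivAt (fun l : ℝ => A1a_rot l x)
      (Complex.I * (A1a_rot l x)) l := by
    intro x l
    simp_rw [A1a_rot_apply]
    have h1 : HasDerivAt (fun l : ℝ => (l : ℂ) * Complex.I) Complex.I l := by
      have := (Complex.ofRealCLM.hasDerivAt (x := l)).mul_const Complex.I
      simpa using this
    have h2 := (h1.cexp).mul_const x
    refine h2.congr_deriv ?_
    ring
  have hder := hasDerivAt_integral_of_dominated_loc_of_deriv_le (𝕜 := ℝ) (x₀ := (0 : ℝ))
    (s := univ) (μ := volume.restrict M) (F := fun l x => f (A1a_rot l x) * lap f x)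
    (F' := fun l x => fderiv ℝ f (A1a_rot l x) (Complex.I * (A1a_rot l x)) * lap f x)
    (bound := fun _ => 2 * C * R * (2 * C)) univ_mem
    (Eventually.of_forall fun l => by
      refine ContinuousOn.aestronglyMeasurable ?_ hMm
      exact (hf.cont.comp (hrotc l).continuousOn (fun x hx => A1a_mem hx)).mul hcl)
    (by
      refine hbd (B := C * (2 * C)) ?_ ?_
      · exact (hf.cont.comp (hrotc 0).continuousOn (fun x hx => A1a_mem hx)).mul hcl
      · intro x hx
        rw [abs_mul]
        exact mul_le_mul (hf.abs_le _ (A1a_mem hx)) (hf.lap_le x hx) (abs_nonneg _) hC)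
    (by
      refine ContinuousOn.aestronglyMeasurable ?_ hMm
      have h1 : ContinuousOn (fun x => fderiv ℝ f (A1a_rot 0 x)) M :=
        (hf.fderiv_cont hM).comp (hrotc 0).continuousOn (fun x hx => A1a_mem hx)
      exact (h1.clm_apply (continuous_const.mul (hrotc 0)).continuousOn).mul hcl)
    (by
      filter_upwards [ae_restrict_mem hMm] with x hx l _
      rw [norm_mul]
      have h1 : ‖fderiv ℝ f (A1a_rot l x) (Complex.I * (A1a_rot l x))‖ ≤ 2 * C * R := by
        refine (ContinuousLinearMap.le_opNorm _ _).trans ?_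
        rw [norm_mul, Complex.norm_I, one_mul, LinearIsometryEquiv.norm_map]
        have h2 : ‖x‖ ≤ R := by
          rw [hMdef, mem_ball_zero_iff] at hx
          exact hx.le
        exact mul_le_mul (hf.fderiv_le _ (A1a_mem hx)) h2 (norm_nonneg _) (by positivity)
      exact mul_le_mul h1 (hf.lap_le x hx) (norm_nonneg _) (by positivity))
    (integrableOn_const hfin.ne)
    (by
      filter_upwards [ae_restrict_mem hMm] with x hx l _
      have h1 := (hf.diffOn.differentiableAt (hM.mem_nhds (A1a_mem (l := l) hx))).hasFDerivAt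
      exact (h1.comp_hasDerivAt l (hexp x l)).mul_const _)
  have h7 := hder.2
  have hloc : IsLocalMin G 0 := Eventually.of_forall fun l => hmin l
  have h8 := hloc.hasDerivAt_eq_zero h7
  rw [← h8]
  refine setIntegral_congr_fun hMm fun x hx => ?_
  have e4 : A1a_rot 0 x = x := by rw [A1a_rot_apply]; simp
  rw [e4]
  ring

end Pool.Agent.YUT
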