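import Pool.Agent.YUT.M1a

open MeasureTheory Set Filter Topology
open scoped ContDiff

namespace Pool.Agent.YUT

open Pool.Agent.YUD

variable {M : Set ℂ} {w₀ : ℂ → ℝ} {ψ : ℝ → ℂ → ℝ} {Φ : ℝ → ℂ → ℂ}

/-- [YUT-M1b] `Φ t` preserves area: `integral_image_eq_integral_abs_det_fderiv_smul` with
`Φ t '' M = M`, injectivity and `det = 1`. -/
theorem Flow.integral_comp (hM : IsOpen M) (h : Flow M w₀ ψ Φ) {t : ℝ} (ht : 0 ≤ t)
    (k : ℂ → ℝ) : ∫ x in M, k (Φ t x) = ∫ x in M, k x := by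
  have h1 := integral_image_eq_integral_abs_det_fderiv_smul (μ := volume) (s := M)
    (f := Φ t) (f' := fun x => fderiv ℝ (Φ t) x) hM.measurableSet
    (fun x hx => (((h.contDiffOn hM ht).differentiableOn (by norm_num)).differentiableAt
      (hM.mem_nhds hx)).hasFDerivAt.hasFDerivWithinAt) (h.bij t ht).injOn k
  rw [(h.bij t ht).image_eq] at h1
  rw [h1]
  refine setIntegral_congr_fun hM.measurableSet fun x hx => ?_
  simp only [h.area t ht x hx, abs_one, one_smul]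

/-- [YUT-M1b] the initial vorticity is `Δψ_0` on `M` (`Φ 0 x = x`) -/
theorem Flow.w0_eq (h : Flow M w₀ ψ Φ) : ∀ x ∈ M, lap (ψ 0) x = w₀ x := by
  intro x hx
  have h1 := h.vort 0 le_rfl x hx
  rwa [h.start x hx] at h1

/-- [YUT-M1b] the initial vorticity is bounded and continuous on `M` -/
theorem Flow.w0_bdd (hM : IsOpen M) (h : Flow M w₀ ψ Φ) :
    ContinuousOn w₀ M ∧ ∃ B, 0 ≤ B ∧ ∀ x ∈ M, |w₀ x| ≤ B := by
  obtain ⟨C, hC⟩ := h.stream 0
  have h0 := hC 0 le_rfl le_rfl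
  refine ⟨(h0.lap_cont hM).congr fun x hx => (h.w0_eq x hx).symm, 2 * |C|, by positivity, ?_⟩
  intro x hx
  rw [← h.w0_eq x hx]
  exact (h0.lap_le x hx).trans (by linarith [le_abs_self C])

end Pool.Agent.YUT
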