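import Pool.Agent.YUT.M1a

open MeasureTheory Set Filter Topology
open scoped ContDiff

namespace Pool.Agent.YUT

open Pool.Agent.YUD

variable {M : Set ℂ} {w₀ : ℂ → ℝ} {ψ : ℝ → ℂ → ℝ} {Φ : ℝ → ℂ → ℂ}

/-- [YUT-M1c] transport: for `f` of class `C¹` on `M`, `f(Φ_b x) - f(Φ_a x)` is the time integral of
`{ψ_s, f}(Φ_s x) = (∇^⊥ψ_s ⬝ ∇f)(Φ_s x)`. Proof: fundamental theorem of calculus
(`intervalIntegral.integral_eq_sub_of_hasDerivAt_of_le`-type) for `s ↦ f (Φ s x)`, whose derivative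
by `h.ode` and the chain rule is `fderiv ℝ f (Φ s x) (perp (ψ s) (Φ s x))` (`fderiv_perp`); it is
continuous in `s` by `h.cont`, `h.cont_Phi`. -/
theorem Flow.transport (hM : IsOpen M) (h : Flow M w₀ ψ Φ) {f : ℂ → ℝ} (hf : ContDiffOn ℝ 1 f M)
    {a b : ℝ} (ha : 0 ≤ a) (hab : a ≤ b) {x : ℂ} (hx : x ∈ M) :
    f (Φ b x) - f (Φ a x) = ∫ s in a..b, pb (ψ s) f (Φ s x) := by
  have hcx : ContinuousOn (fun s => Φ s x) (Ici 0) := fun s hs =>
    (h.ode s hs x hx).continuousWithinAt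
  have hmem : ∀ s, 0 ≤ s → Φ s x ∈ M := fun s hs => (h.bij s hs).mapsTo hx
  have hfd : ∀ y ∈ M, HasFDerivAt f (fderiv ℝ f y) y := fun y hy =>
    ((hf.differentiableOn (by norm_num)).differentiableAt (hM.mem_nhds hy)).hasFDerivAt
  have hfc : ContinuousOn (fderiv ℝ f) M :=
    (hf.fderiv_of_isOpen hM (m := 0) (by norm_num)).continuousOn
  have hsub : Icc a b ⊆ Ici 0 := fun s hs => ha.trans hs.1
  have hpc : ContinuousOn (fun s => (s, Φ s x)) (Ici (0 : ℝ)) := continuousOn_id.prodMk hcx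
  have hG : ContinuousOn (fun s => fderiv ℝ (ψ s) (Φ s x)) (Ici 0) := by
    have h1 := h.cont.comp hpc (fun s hs => ⟨hs, hmem s hs⟩)
    exact h1.snd
  have hF : ContinuousOn (fun s => fderiv ℝ f (Φ s x)) (Ici 0) :=
    hfc.comp hcx (fun s hs => hmem s hs)
  have hcont : ContinuousOn (fun s => pb (ψ s) f (Φ s x)) (Ici 0) := by
    have e : (fun s => pb (ψ s) f (Φ s x)) = fun s =>
        (fderiv ℝ (ψ s) (Φ s x) 1) * (fderiv ℝ f (Φ s x) Complex.I) -
        (fderiv ℝ (ψ s) (Φ s x) Complex.I) * (fderiv ℝ f (Φ s x) 1) := by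
      funext s
      simp only [pb, dx, dy]
    rw [e]
    exact ((hG.clm_apply continuousOn_const).mul (hF.clm_apply continuousOn_const)).sub
      ((hG.clm_apply continuousOn_const).mul (hF.clm_apply continuousOn_const))
  symm
  refine intervalIntegral.integral_eq_sub_of_hasDeriv_right_of_le hab
    ((hf.continuousOn.comp hcx (fun s hs => hmem s hs)).mono hsub) ?_
    ((hcont.mono hsub).intervalIntegrable_of_Icc hab)
  intro s hs
  have hs0 : 0 ≤ s := ha.trans hs.1.le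
  have h1 := (hfd (Φ s x) (hmem s hs0)).comp_hasDerivWithinAt s
    ((h.ode s hs0 x hx).mono (fun u hu => hs0.trans (le_of_lt hu) : Ioi s ⊆ Ici 0))
  rw [fderiv_perp] at h1
  exact h1

end Pool.Agent.YUT
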