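import Pool.Agent.YUT.A1a
import Pool.Agent.YUT.M1b
import Pool.Agent.YUT.M1c

open MeasureTheory Set Filter Topology
open scoped ContDiff

namespace Pool.Agent.YUT

open Pool.Agent.YUD

variable {w₀ : ℂ → ℝ} {ψ : ℝ → ℂ → ℝ} {Φ : ℝ → ℂ → ℂ}

theorem A1b_pb (g : ℂ → ℝ) (x : ℂ) :
    pb g (fun y : ℂ => ‖y‖ ^ 2) x = -2 * fderiv ℝ g x (Complex.I * x) := by
  have hd : ∀ v : ℂ, fderiv ℝ (fun y : ℂ => ‖y‖ ^ 2) x v = 2 * (x.re * v.re + x.im * v.im) := by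
    intro v
    rw [(hasStrictFDerivAt_norm_sq x).hasFDerivAt.fderiv]
    simp [Complex.inner, Complex.mul_re]
    ring
  rw [fderiv_apply']
  unfold pb
  rw [show dx (fun y : ℂ => ‖y‖ ^ 2) x = 2 * x.re by unfold dx; rw [hd]; simp,
    show dy (fun y : ℂ => ‖y‖ ^ 2) x = 2 * x.im by unfold dy; rw [hd]; simp]
  simp
  ring

theorem A1b_moment {M : Set ℂ} (hM : IsOpen M) (h : Flow M w₀ ψ Φ) {t : ℝ} (ht : 0 ≤ t) :
    ∫ x in M, ‖x‖ ^ 2 * lap (ψ t) x = ∫ x in M, ‖Φ t x‖ ^ 2 * w₀ x := by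
  rw [← h.integral_comp hM ht (fun x => ‖x‖ ^ 2 * lap (ψ t) x)]
  refine setIntegral_congr_fun hM.measurableSet ?_
  intro x hx
  show ‖Φ t x‖ ^ 2 * lap (ψ t) (Φ t x) = ‖Φ t x‖ ^ 2 * w₀ x
  rw [h.vort t ht x hx]

/-- the integrand -/
theorem A1b_int {R : ℝ} (h : Flow (Metric.ball 0 R) w₀ ψ Φ) {t : ℝ} :
    Integrable (Function.uncurry fun (x : ℂ) (s : ℝ) =>
      pb (ψ s) (fun y : ℂ => ‖y‖ ^ 2) (Φ s x) * w₀ x)
      ((volume.restrict (Metric.ball (0 : ℂ) R)).prod (volume.restrict (Ioc 0 t))) := by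
  have hM : IsOpen (Metric.ball (0 : ℂ) R) := Metric.isOpen_ball
  obtain ⟨hwc, B, hB0, hB⟩ := h.w0_bdd hM
  obtain ⟨C, hC⟩ := h.stream t
  have hmaps : MapsTo (fun p : ℂ × ℝ => (p.2, Φ p.2 p.1)) (Metric.ball (0 : ℂ) R ×ˢ Ioc 0 t)
      (Ici 0 ×ˢ Metric.ball (0 : ℂ) R) := by
    rintro ⟨x, s⟩ ⟨hx, hs⟩
    exact ⟨hs.1.le, (h.bij s hs.1.le).1 hx⟩
  have hΦ : ContinuousOn (fun p : ℂ × ℝ => Φ p.2 p.1) (Metric.ball (0 : ℂ) R ×ˢ Ioc 0 t) := by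
    refine h.cont_Phi.comp (f := fun p : ℂ × ℝ => (p.2, p.1)) (by fun_prop) ?_
    rintro ⟨x, s⟩ ⟨hx, hs⟩
    exact ⟨hs.1.le, hx⟩
  have hd : ContinuousOn (fun p : ℂ × ℝ => fderiv ℝ (ψ p.2) (Φ p.2 p.1))
      (Metric.ball (0 : ℂ) R ×ˢ Ioc 0 t) := by
    have h1 : ContinuousOn (fun p : ℝ × ℂ => fderiv ℝ (ψ p.1) p.2)
        (Ici 0 ×ˢ Metric.ball (0 : ℂ) R) := continuous_snd.comp_continuousOn h.cont
    refine h1.comp (f := fun p : ℂ × ℝ => (p.2, Φ p.2 p.1)) ?_ hmaps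
    exact continuous_snd.continuousOn.prodMk hΦ
  have hcont : ContinuousOn (Function.uncurry fun (x : ℂ) (s : ℝ) =>
      pb (ψ s) (fun y : ℂ => ‖y‖ ^ 2) (Φ s x) * w₀ x)
      (Metric.ball (0 : ℂ) R ×ˢ Ioc 0 t) := by
    have e : (Function.uncurry fun (x : ℂ) (s : ℝ) =>
        pb (ψ s) (fun y : ℂ => ‖y‖ ^ 2) (Φ s x) * w₀ x) =
        fun p : ℂ × ℝ => (-2 * fderiv ℝ (ψ p.2) (Φ p.2 p.1) (Complex.I * Φ p.2 p.1)) * w₀ p.1 := by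
      funext p
      obtain ⟨x, s⟩ := p
      show pb (ψ s) (fun y : ℂ => ‖y‖ ^ 2) (Φ s x) * w₀ x = _
      rw [A1b_pb]
    rw [e]
    refine (continuousOn_const.mul (hd.clm_apply (continuousOn_const.mul hΦ))).mul ?_
    exact hwc.comp continuousOn_fst (fun p hp => hp.1)
  rw [Measure.prod_restrict]
  have hfin : (volume.prod volume : Measure (ℂ × ℝ)) (Metric.ball (0 : ℂ) R ×ˢ Ioc 0 t) < ⊤ := by
    rw [Measure.prod_prod]
    exact ENNReal.mul_lt_top Metric.isBounded_ball.measure_lt_top measure_Ioc_lt_top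
  have : IsFiniteMeasure ((volume.prod volume : Measure (ℂ × ℝ)).restrict
      (Metric.ball (0 : ℂ) R ×ˢ Ioc 0 t)) := isFiniteMeasure_restrict.2 hfin.ne
  have hms : MeasurableSet (Metric.ball (0 : ℂ) R ×ˢ Ioc 0 t) :=
    hM.measurableSet.prod measurableSet_Ioc
  refine Integrable.of_bound (hcont.aestronglyMeasurable hms) (2 * (2 * C * R) * B) ?_
  rw [ae_restrict_iff' hms]
  refine Eventually.of_forall ?_
  rintro ⟨x, s⟩ ⟨hx, hs⟩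
  show ‖pb (ψ s) (fun y : ℂ => ‖y‖ ^ 2) (Φ s x) * w₀ x‖ ≤ _
  rw [A1b_pb, norm_mul, norm_mul, Real.norm_eq_abs, Real.norm_eq_abs (w₀ x)]
  have hs' := hC s hs.1.le hs.2
  have hX := (h.bij s hs.1.le).1 hx
  have h1 := (fderiv ℝ (ψ s) (Φ s x)).le_opNorm (Complex.I * Φ s x)
  have h2 : ‖Complex.I * Φ s x‖ ≤ R := by
    rw [norm_mul, Complex.norm_I, one_mul]
    exact (mem_ball_zero_iff.1 hX).le
  have h3 := hs'.fderiv_le _ hX
  have h4 : 0 ≤ 2 * C := (norm_nonneg _).trans h3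
  have h5 : ‖fderiv ℝ (ψ s) (Φ s x) (Complex.I * Φ s x)‖ ≤ 2 * C * R :=
    h1.trans (mul_le_mul h3 h2 (norm_nonneg _) h4)
  have h6 : |(-2 : ℝ)| = 2 := by norm_num
  rw [h6]
  exact mul_le_mul (mul_le_mul_of_nonneg_left h5 (by norm_num)) (hB x hx) (abs_nonneg _)
    (mul_nonneg (by norm_num) ((norm_nonneg _).trans h5))

/-- [YUT-A1b] conservation of angular momentum on a disk: `∫ ‖x‖² Δψ_t dx` is constant. Proof: it is
`∫ ‖Φ t x‖² w₀ x dx` (`Flow.integral_comp`), whose time derivative is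
`∫ 2 (Φ ⬝ perp ψ(Φ)) w₀ dx = -2 ∫ Δψ_t fderiv ψ_t X (I X) dX = 0` (`rot_virial`); or use
`Flow.transport` with `f x = ‖x‖²` and Fubini. -/
theorem ang_mom {R : ℝ} (hR : 0 < R) (h : Flow (Metric.ball 0 R) w₀ ψ Φ) {t : ℝ} (ht : 0 ≤ t) :
    ∫ x in Metric.ball (0 : ℂ) R, ‖x‖ ^ 2 * lap (ψ t) x =
      ∫ x in Metric.ball (0 : ℂ) R, ‖x‖ ^ 2 * lap (ψ 0) x := by
  have hM : IsOpen (Metric.ball (0 : ℂ) R) := Metric.isOpen_ball
  have hbd : Bornology.IsBounded (Metric.ball (0 : ℂ) R) := Metric.isBounded_ball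
  obtain ⟨hwc, B, hB0, hB⟩ := h.w0_bdd hM
  obtain ⟨C, hC⟩ := h.stream t
  rw [A1b_moment hM h ht, A1b_moment hM h le_rfl, ← sub_eq_zero]
  have hint : ∀ s, 0 ≤ s → IntegrableOn (fun x => ‖Φ s x‖ ^ 2 * w₀ x) (Metric.ball (0 : ℂ) R) := by
    intro s hs
    refine integrableOn_of_bdd hM hbd
      (((h.contDiffOn hM hs).continuousOn.norm.pow 2).mul hwc) (C := R ^ 2 * B) ?_
    intro x hx
    have hX := (h.bij s hs).1 hx
    have h2 : ‖Φ s x‖ ≤ R := (mem_ball_zero_iff.1 hX).le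
    rw [abs_mul, abs_of_nonneg (by positivity : 0 ≤ ‖Φ s x‖ ^ 2)]
    exact mul_le_mul (pow_le_pow_left₀ (norm_nonneg _) h2 2) (hB x hx) (abs_nonneg _)
      (by positivity)
  rw [← integral_sub (hint t ht) (hint 0 le_rfl)]
  have hf : ContDiffOn ℝ 1 (fun y : ℂ => ‖y‖ ^ 2) (Metric.ball (0 : ℂ) R) :=
    (contDiff_norm_sq ℝ).contDiffOn
  have e1 : ∀ x ∈ Metric.ball (0 : ℂ) R, ‖Φ t x‖ ^ 2 * w₀ x - ‖Φ 0 x‖ ^ 2 * w₀ x =
      ∫ s in Ioc 0 t, pb (ψ s) (fun y : ℂ => ‖y‖ ^ 2) (Φ s x) * w₀ x := by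
    intro x hx
    have g := h.transport hM hf le_rfl ht hx
    rw [← sub_mul, g, intervalIntegral.integral_of_le ht, ← integral_mul_const]
  rw [setIntegral_congr_fun hM.measurableSet e1, integral_integral_swap (A1b_int h)]
  refine setIntegral_eq_zero_of_forall_eq_zero ?_
  intro s hs
  have e2 : ∀ x ∈ Metric.ball (0 : ℂ) R, pb (ψ s) (fun y : ℂ => ‖y‖ ^ 2) (Φ s x) * w₀ x =
      (fun X => pb (ψ s) (fun y : ℂ => ‖y‖ ^ 2) X * lap (ψ s) X) (Φ s x) := by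
    intro x hx
    show _ = pb (ψ s) (fun y : ℂ => ‖y‖ ^ 2) (Φ s x) * lap (ψ s) (Φ s x)
    rw [h.vort s hs.1.le x hx]
  rw [setIntegral_congr_fun hM.measurableSet e2, h.integral_comp hM hs.1.le
    (fun X => pb (ψ s) (fun y : ℂ => ‖y‖ ^ 2) X * lap (ψ s) X)]
  have e3 : ∀ X : ℂ, pb (ψ s) (fun y : ℂ => ‖y‖ ^ 2) X * lap (ψ s) X =
      -2 * (lap (ψ s) X * fderiv ℝ (ψ s) X (Complex.I * X)) := by
    intro X
    rw [A1b_pb]
    ring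
  simp only [e3]
  rw [integral_const_mul, rot_virial hR (hC s hs.1.le hs.2), mul_zero]

end Pool.Agent.YUT
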