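import Pool.Agent.YUT.CBase

open MeasureTheory Set Filter Topology
open scoped ContDiff

namespace Pool.Agent.YUT

open Pool.Agent.YUD

variable {p h : ℝ}

/-- mean value inequality on vertical segments -/
theorem C1_vert {C : ℝ} {g : ℂ → ℝ} (hg : DifferentiableOn ℝ g (Strip h))
    (hd : ∀ x ∈ Strip h, |dy g x| ≤ C) (a : ℝ) {s t : ℝ} (hs : s ∈ Ioo 0 h) (ht : t ∈ Ioo 0 h) :
    |g ⟨a, t⟩ - g ⟨a, s⟩| ≤ C * |t - s| := by
  have hγ : ∀ u : ℝ, HasDerivAt (fun u : ℝ => (⟨a, u⟩ : ℂ)) Complex.I u := by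
    intro u
    have e : (fun u : ℝ => (⟨a, u⟩ : ℂ)) = fun u : ℝ => (a : ℂ) + (u : ℂ) * Complex.I := by
      funext u; apply Complex.ext <;> simp
    rw [e]
    have h1 := ((hasDerivAt_id u).ofReal_comp.mul_const Complex.I).const_add (a : ℂ)
    simpa using h1
  have hder : ∀ u ∈ Ioo (0 : ℝ) h, HasDerivWithinAt (fun u : ℝ => g ⟨a, u⟩) (dy g ⟨a, u⟩)
      (Ioo 0 h) u := by
    intro u hu
    have hm : (⟨a, u⟩ : ℂ) ∈ Strip h := hu
    have h1 : HasFDerivAt g (fderiv ℝ g ⟨a, u⟩) (⟨a, u⟩ : ℂ) :=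
      ((hg _ hm).differentiableAt ((isOpen_strip h).mem_nhds hm)).hasFDerivAt
    exact (HasFDerivAt.comp_hasDerivAt u h1 (hγ u)).hasDerivWithinAt
  have h2 := Convex.norm_image_sub_le_of_norm_hasDerivWithin_le hder
    (fun u hu => hd _ (show (⟨a, u⟩ : ℂ) ∈ Strip h from hu)) (convex_Ioo 0 h) hs ht
  simpa [Real.norm_eq_abs] using h2

/-- mean value inequality on horizontal segments -/
theorem C1_hor {C : ℝ} {g : ℂ → ℝ} (hg : DifferentiableOn ℝ g (Strip h)) {x : ℂ}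
    (hx : x ∈ Strip h) {σ : ℝ} (hσ : 0 ≤ σ) {c : ℝ}
    (hd : ∀ u : ℝ, 0 ≤ u → u ≤ σ → |dx g (x + u) - c| ≤ C) :
    |g (x + σ) - g x - σ * c| ≤ C * σ := by
  have hγ : ∀ u : ℝ, HasDerivAt (fun u : ℝ => x + (u : ℂ)) 1 u := by
    intro u
    have h1 := (hasDerivAt_id u).ofReal_comp.const_add x
    simpa using h1
  have hder : ∀ u ∈ Icc (0 : ℝ) σ, HasDerivWithinAt (fun u : ℝ => g (x + u) - u * c)
      (dx g (x + u) - c) (Icc 0 σ) u := by
    intro u hu
    have hm : x + (u : ℂ) ∈ Strip h := strip_add u hx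
    have h1 : HasFDerivAt g (fderiv ℝ g (x + u)) (x + (u : ℂ)) :=
      ((hg _ hm).differentiableAt ((isOpen_strip h).mem_nhds hm)).hasFDerivAt
    have h2 : HasDerivAt (fun u : ℝ => u * c) c u := by
      have := (hasDerivAt_id u).mul_const c
      simpa using this
    exact ((HasFDerivAt.comp_hasDerivAt u h1 (hγ u)).sub h2).hasDerivWithinAt
  have h2 := Convex.norm_image_sub_le_of_norm_hasDerivWithin_le hder
    (fun u hu => hd u hu.1 hu.2) (convex_Icc 0 σ) (left_mem_Icc.2 hσ) (right_mem_Icc.2 hσ)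
  have e : g (x + σ) - σ * c - (g (x + (0 : ℝ)) - (0 : ℝ) * c) = g (x + σ) - g x - σ * c := by
    rw [Complex.ofReal_zero, add_zero]; ring
  rw [e, Real.norm_eq_abs, Real.norm_eq_abs, sub_zero, abs_of_nonneg hσ] at h2
  exact h2

/-- from smallness near the walls to the linear bound -/
theorem C1_wall {C : ℝ} (hC : 0 ≤ C) {g : ℂ → ℝ} (hg : DifferentiableOn ℝ g (Strip h))
    (hd : ∀ x ∈ Strip h, |dy g x| ≤ C)
    (hn : ∀ ε > 0, ∃ η > 0, ∀ x ∈ Strip h, (x.im < η ∨ h - η < x.im) → |g x| < ε) :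
    ∀ x ∈ Strip h, |g x| ≤ C * x.im ∧ |g x| ≤ C * (h - x.im) := by
  intro x hx
  have hx1 : 0 < x.im := hx.1
  have hx2 : x.im < h := hx.2
  constructor
  · refine le_of_forall_pos_le_add fun ε hε => ?_
    obtain ⟨η, hη, hη2⟩ := hn ε hε
    have hs0 : 0 < min (η / 2) (x.im / 2) := lt_min (by linarith) (by linarith)
    have hs1 : min (η / 2) (x.im / 2) ≤ η / 2 := min_le_left _ _
    have hs2 : min (η / 2) (x.im / 2) ≤ x.im / 2 := min_le_right _ _
    obtain ⟨s, hs⟩ : ∃ s, s = min (η / 2) (x.im / 2) := ⟨_, rfl⟩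
    rw [← hs] at hs0 hs1 hs2
    have h1 := C1_vert hg hd x.re (s := s) (t := x.im) ⟨hs0, by linarith⟩ ⟨hx1, hx2⟩
    have h2 := hη2 ⟨x.re, s⟩ ⟨hs0, by change s < h; linarith⟩ (Or.inl (by change s < η; linarith))
    have h3 : g ⟨x.re, x.im⟩ = g x := rfl
    rw [h3, abs_of_pos (by linarith : 0 < x.im - s)] at h1
    have h4 : C * (x.im - s) ≤ C * x.im := mul_le_mul_of_nonneg_left (by linarith) hC
    have h5 := abs_sub_abs_le_abs_sub (g x) (g ⟨x.re, s⟩)
    linarith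
  · refine le_of_forall_pos_le_add fun ε hε => ?_
    obtain ⟨η, hη, hη2⟩ := hn ε hε
    have hs0 : 0 < min (η / 2) ((h - x.im) / 2) := lt_min (by linarith) (by linarith)
    have hs1 : min (η / 2) ((h - x.im) / 2) ≤ η / 2 := min_le_left _ _
    have hs2 : min (η / 2) ((h - x.im) / 2) ≤ (h - x.im) / 2 := min_le_right _ _
    obtain ⟨s, hs⟩ : ∃ s, s = min (η / 2) ((h - x.im) / 2) := ⟨_, rfl⟩
    rw [← hs] at hs0 hs1 hs2
    have h1 := C1_vert hg hd x.re (s := h - s) (t := x.im) ⟨by linarith, by linarith⟩ ⟨hx1, hx2⟩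
    have h2 := hη2 ⟨x.re, h - s⟩ ⟨by change 0 < h - s; linarith, by change h - s < h; linarith⟩
      (Or.inr (by change h - η < h - s; linarith))
    have h3 : g ⟨x.re, x.im⟩ = g x := rfl
    rw [h3, abs_of_neg (by linarith : x.im - (h - s) < 0)] at h1
    have h4 : C * -(x.im - (h - s)) ≤ C * (h - x.im) :=
      mul_le_mul_of_nonneg_left (by linarith) hC
    have h5 := abs_sub_abs_le_abs_sub (g x) (g ⟨x.re, h - s⟩)
    linarith

theorem C1_near {f : ℂ → ℝ} (h3 : PZero p (Strip h) f) :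
    ∀ ε > 0, ∃ η > 0, ∀ x ∈ Strip h, (x.im < η ∨ h - η < x.im) → |f x| < ε := by
  intro ε hε
  obtain ⟨K, hK, hKc, hK2⟩ := h3 ε hε
  rcases K.eq_empty_or_nonempty with rfl | hne
  · exact ⟨1, one_pos, fun x hx _ => hK2 x hx fun n => notMem_empty _⟩
  · obtain ⟨a, ha, ha2⟩ := hKc.exists_isMinOn hne Complex.continuous_im.continuousOn
    obtain ⟨b, hb, hb2⟩ := hKc.exists_isMaxOn hne Complex.continuous_im.continuousOn
    refine ⟨min a.im (h - b.im), lt_min (hK ha).1 (by linarith [(hK hb).2]), fun x hx hx2 => ?_⟩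
    refine hK2 x hx fun n hn => ?_
    have e : (x + (n * p : ℝ)).im = x.im := by
      rw [Complex.add_im, Complex.ofReal_im, add_zero]
    have h4 : a.im ≤ (x + (n * p : ℝ)).im := ha2 hn
    have h5 : (x + (n * p : ℝ)).im ≤ b.im := hb2 hn
    rw [e] at h4 h5
    have h6 := min_le_left a.im (h - b.im)
    have h7 := min_le_right a.im (h - b.im)
    rcases hx2 with hx2 | hx2 <;> linarith

/-- smallness of the horizontal derivative near the walls -/
theorem C1_dx {C : ℝ} (hC : 0 ≤ C) {f : ℂ → ℝ} (h1 : C2Le (Strip h) C f) {x : ℂ}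
    (hx : x ∈ Strip h) {d : ℝ} (hd : 0 < d) (hb : ∀ u : ℝ, |f (x + u)| ≤ C * d) :
    |dx f x| ≤ 3 * C * √d := by
  have hdx : DifferentiableOn ℝ (dx f) (Strip h) :=
    (contDiffOn_dx (n := 1) (isOpen_strip h) h1.1).differentiableOn (by norm_num)
  have hdxx : ∀ y ∈ Strip h, |dx (dx f) y| ≤ C := h1.2.2.1.2.1
  have hσ : 0 < √d := Real.sqrt_pos.2 hd
  have hsq : √d * √d = d := Real.mul_self_sqrt hd.le
  obtain ⟨σ, hσe⟩ : ∃ σ, σ = √d := ⟨_, rfl⟩
  rw [← hσe] at hσ hsq ⊢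
  have h2 : ∀ u : ℝ, 0 ≤ u → u ≤ σ → |dx f (x + u) - dx f x| ≤ C * σ := by
    intro u hu hu2
    have h3 := C1_hor hdx hx hu (c := 0) (C := C) (fun v hv hv2 => by
      rw [sub_zero]; exact hdxx _ (strip_add v hx))
    rw [mul_zero, sub_zero] at h3
    exact h3.trans (mul_le_mul_of_nonneg_left hu2 hC)
  have h4 := C1_hor h1.diffOn hx hσ.le (c := dx f x) h2
  have h5 := hb σ
  have h6 := hb 0
  rw [Complex.ofReal_zero, add_zero] at h6
  have h7 : |σ * dx f x| ≤ 3 * C * σ * σ := by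
    have h8 : σ * dx f x = (f (x + σ) - f x) - (f (x + σ) - f x - σ * dx f x) := by ring
    rw [h8]
    have h9 := abs_sub (f (x + σ) - f x) (f (x + σ) - f x - σ * dx f x)
    have h10 := abs_sub (f (x + σ)) (f x)
    have h11 : C * d = C * (σ * σ) := by rw [hsq]
    nlinarith
  rw [abs_mul, abs_of_pos hσ] at h7
  have h8 : σ * |dx f x| ≤ σ * (3 * C * σ) := by linarith
  exact le_of_mul_le_mul_left h8 hσ

theorem C1_near_dx {C : ℝ} (hC : 0 ≤ C) {f : ℂ → ℝ} (h1 : C2Le (Strip h) C f)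
    (hw : ∀ x ∈ Strip h, |f x| ≤ C * x.im ∧ |f x| ≤ C * (h - x.im)) :
    ∀ ε > 0, ∃ η > 0, ∀ x ∈ Strip h, (x.im < η ∨ h - η < x.im) → |dx f x| < ε := by
  intro ε hε
  have hD : 0 < 3 * C + 1 := by linarith
  have key : ∀ d : ℝ, 0 < d → d < (ε / (3 * C + 1)) ^ 2 → 3 * C * √d < ε := by
    intro d hd hd2
    have h2 : √d < ε / (3 * C + 1) := by
      rw [Real.sqrt_lt' (by positivity)]
      exact hd2
    have h3 : √d * (3 * C + 1) < ε := by
      rwa [lt_div_iff₀ hD] at h2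
    have h4 : 0 < √d := Real.sqrt_pos.2 hd
    nlinarith
  refine ⟨(ε / (3 * C + 1)) ^ 2, by positivity, fun x hx hx2 => ?_⟩
  rcases hx2 with hx2 | hx2
  · refine (C1_dx hC h1 hx hx.1 fun u => ?_).trans_lt (key _ hx.1 hx2)
    have h2 := (hw (x + u) (strip_add u hx)).1
    have e : (x + (u : ℂ)).im = x.im := by rw [Complex.add_im, Complex.ofReal_im, add_zero]
    rw [e] at h2
    exact h2
  · have h0 : 0 < h - x.im := by linarith [hx.2]
    refine (C1_dx hC h1 hx h0 fun u => ?_).trans_lt (key _ h0 (by linarith))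
    have h2 := (hw (x + u) (strip_add u hx)).2
    have e : (x + (u : ℂ)).im = x.im := by rw [Complex.add_im, Complex.ofReal_im, add_zero]
    rw [e] at h2
    exact h2

/-- [YUT-C1] estimates near the walls. Write `C` for the bound in `h1` (note `0 ≤ C`; `dy f`, `dy (dx f)`,
`dx (dx f)` are bounded by `C` on the strip, from `h1.2 : JetLe _ 2 C f`).
Step 1: for every `ε > 0` there is `η > 0` with `|f x| < ε` for all `x` in the strip with `x.im < η` or
`h - η < x.im`: the compact `K` of `h3 ε` is contained in the strip, so (if nonempty) `im` has a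
positive minimum and a maximum `< h` on `K`; adding `n * p` does not change `im`.
Step 2 (`low`): for `0 < s < x.im`, `|f x - f ⟨x.re, s⟩| ≤ C (x.im - s)` by the mean value inequality
along the vertical segment (contained in the strip; derivative `dy f`, bounded by `C`); for `s < η`
this gives `|f x| ≤ ε + C x.im`; let `ε → 0`. (`up`) is the same with the upper wall.
Step 3 (`xlow`): for `0 < s < x.im`, `|dx f x - dx f ⟨x.re, s⟩| ≤ C (x.im - s)` (vertical segment,
derivative `dy (dx f)`). At height `s`: for `σ > 0`, `f (z + σ) - f z - σ * dx f z` is at most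
`C σ^2` in absolute value (mean value inequality for `dx f` on the horizontal segment), so
`|dx f z| ≤ (|f (z + σ)| + |f z|) / σ + C σ ≤ 2 C s / σ + C σ` by step 2; with `σ = √s` this is
`3 C √s → 0` as `s → 0`. Hence `|dx f x| ≤ C x.im`. (`xup`) is the same at the upper wall. -/
theorem cs_of (hp : 0 < p) (hh : 0 < h) {C : ℝ} {f : ℂ → ℝ} (h1 : C2Le (Strip h) C f)
    (h2 : Per p (Strip h) f) (h3 : PZero p (Strip h) f) : CS p h C f := by
  have hx0 : (⟨0, h / 2⟩ : ℂ) ∈ Strip h := ⟨by change 0 < h / 2; linarith, by change h / 2 < h; linarith⟩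
  have hC : 0 ≤ C := (abs_nonneg _).trans (h1.abs_le _ hx0)
  have hdx : DifferentiableOn ℝ (dx f) (Strip h) :=
    (contDiffOn_dx (n := 1) (isOpen_strip h) h1.1).differentiableOn (by norm_num)
  have hdyx : ∀ y ∈ Strip h, |dy (dx f) y| ≤ C := h1.2.2.1.2.2
  have hw := C1_wall hC h1.diffOn h1.dy_le (C1_near h3)
  have hw2 := C1_wall hC hdx hdyx (C1_near_dx hC h1 hw)
  exact ⟨h1, h2, fun x hx => (hw x hx).1, fun x hx => (hw x hx).2, fun x hx => (hw2 x hx).1,
    fun x hx => (hw2 x hx).2⟩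

end Pool.Agent.YUT
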