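import Pool.Agent.YUT.CBase

open MeasureTheory Set Filter Topology
open scoped ContDiff

namespace Pool.Agent.YUT

open Pool.Agent.YUD

variable {p h : ℝ}

theorem C10a_floor (hp : 0 < p) (x : ℂ) :
    0 ≤ x.re - ⌊x.re / p⌋ * p ∧ x.re - ⌊x.re / p⌋ * p < p := by
  have h1 := Int.floor_le (x.re / p)
  have h2 := Int.lt_floor_add_one (x.re / p)
  rw [le_div_iff₀ hp] at h1
  rw [div_lt_iff₀ hp] at h2
  constructor <;> nlinarith

theorem C10a_aux {E : Type} [NormedAddCommGroup E] (hp : 0 < p) {V : ℂ → E} {c α : ℝ}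
    (hα : 0 < α) (hc : 0 ≤ c) (h0 : ∀ x, x ∉ Cell p h → V x = 0)
    (hV : ∀ x y, ‖V x - V y‖ ≤ c * ‖x - y‖ ^ α) {x y : ℂ} (hxy : ⌊x.re / p⌋ < ⌊y.re / p⌋) :
    ‖pz p V x - pz p V y‖ ≤ 2 * c * ‖x - y‖ ^ α := by
  obtain ⟨hx1, hx2⟩ := C10a_floor hp x
  obtain ⟨hy1, hy2⟩ := C10a_floor hp y
  have hnm : ((⌊x.re / p⌋ : ℝ) + 1) * p ≤ ⌊y.re / p⌋ * p := by
    refine mul_le_mul_of_nonneg_right ?_ hp.le
    exact_mod_cast hxy
  have hre : y.re - x.re ≤ ‖x - y‖ := by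
    have h1 := Complex.abs_re_le_norm (x - y)
    rw [Complex.sub_re] at h1
    have h2 := neg_abs_le (x.re - y.re)
    linarith
  have key : ∀ z w : ℂ, V w = 0 → z.im = w.im → |z.re - w.re| ≤ ‖x - y‖ →
      ‖V z‖ ≤ c * ‖x - y‖ ^ α := by
    intro z w hw hzw hd
    have h1 := hV z w
    rw [hw, sub_zero] at h1
    refine h1.trans (mul_le_mul_of_nonneg_left ?_ hc)
    refine Real.rpow_le_rpow (norm_nonneg _) ?_ hα.le
    refine (Complex.norm_le_abs_re_add_abs_im _).trans ?_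
    rw [Complex.sub_re, Complex.sub_im, hzw, sub_self, abs_zero, add_zero]
    exact hd
  have hx3 : ‖pz p V x‖ ≤ c * ‖x - y‖ ^ α := by
    refine key _ ⟨p, (x - ((⌊x.re / p⌋ * p : ℝ) : ℂ)).im⟩ (h0 _ fun h => ?_) rfl ?_
    · exact lt_irrefl _ h.2.1
    · rw [Complex.sub_re, Complex.ofReal_re]
      change |x.re - ⌊x.re / p⌋ * p - p| ≤ _
      rw [abs_of_neg (by linarith)]
      linarith
  have hy3 : ‖pz p V y‖ ≤ c * ‖x - y‖ ^ α := by
    refine key _ ⟨0, (y - ((⌊y.re / p⌋ * p : ℝ) : ℂ)).im⟩ (h0 _ fun h => ?_) rfl ?_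
    · exact lt_irrefl _ h.1
    · rw [Complex.sub_re, Complex.ofReal_re]
      change |y.re - ⌊y.re / p⌋ * p - 0| ≤ _
      rw [sub_zero, abs_of_nonneg hy1]
      linarith
  have h2 := norm_sub_le (pz p V x) (pz p V y)
  linarith

/-- [YUT-C10a] periodization and Hölder bounds. `pz p V x = V (x - ⌊x.re/p⌋ p)`; the point
`x' = x - ⌊x.re/p⌋ p` has real part in `[0, p)`. Let `n = ⌊x.re/p⌋`, `m = ⌊y.re/p⌋`. If `n = m`, then
`pz p V x - pz p V y = V x' - V y'` with `x' - y' = x - y`. If `n < m` (say), the segment from `x` to `y` contains points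
`z₁` with real part `(n+1) p` and `z₂` with real part `m p` (possibly equal; by the intermediate value theorem, or
explicitly `z = x + s (y - x)`), `‖x - z₁‖ ≤ ‖x - y‖` and `‖y - z₂‖ ≤ ‖x - y‖`; `z₁ - n p` has real part `p` and
`z₂ - m p` has real part `0`, so both are not in the cell and `V` vanishes there:
`‖V x'‖ = ‖V x' - V (z₁ - n p)‖ ≤ c ‖x - z₁‖^α ≤ c ‖x - y‖^α`, and the same for `y`. -/
theorem pz_holder {E : Type} [NormedAddCommGroup E] (hp : 0 < p) {V : ℂ → E} {c α : ℝ}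
    (hα : 0 < α) (hc : 0 ≤ c) (h0 : ∀ x, x ∉ Cell p h → V x = 0)
    (hV : ∀ x y, ‖V x - V y‖ ≤ c * ‖x - y‖ ^ α) :
    ∀ x y, ‖pz p V x - pz p V y‖ ≤ 2 * c * ‖x - y‖ ^ α := by
  intro x y
  rcases lt_trichotomy ⌊x.re / p⌋ ⌊y.re / p⌋ with h1 | h1 | h1
  · exact C10a_aux hp hα hc h0 hV h1
  · have h2 := hV (x - ((⌊x.re / p⌋ * p : ℝ) : ℂ)) (y - ((⌊y.re / p⌋ * p : ℝ) : ℂ))
    have e : x - ((⌊x.re / p⌋ * p : ℝ) : ℂ) - (y - ((⌊y.re / p⌋ * p : ℝ) : ℂ)) = x - y := by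
      rw [h1]; ring
    rw [e] at h2
    have h3 : 0 ≤ c * ‖x - y‖ ^ α := mul_nonneg hc (Real.rpow_nonneg (norm_nonneg _) _)
    have h4 : ‖pz p V x - pz p V y‖ ≤ c * ‖x - y‖ ^ α := h2
    linarith
  · have h2 := C10a_aux hp hα hc h0 hV h1
    rw [norm_sub_rev, norm_sub_rev y x] at h2
    exact h2

/-- [YUT-C10a] `pz p V` is periodic, and equal to `V` on the cell -/
theorem pz_per {E : Type} (hp : 0 < p) (V : ℂ → E) (x : ℂ) : pz p V (x + p) = pz p V x := by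
  unfold pz
  have h1 : ⌊(x + (p : ℂ)).re / p⌋ = ⌊x.re / p⌋ + 1 := by
    rw [Complex.add_re, Complex.ofReal_re, add_div, div_self hp.ne', Int.floor_add_one]
  rw [h1]
  congr 1
  push_cast
  ring

/-- [YUT-C10a] `pz p V` is equal to `V` on the cell -/
theorem pz_cell {E : Type} (hp : 0 < p) (V : ℂ → E) {x : ℂ} (hx : x ∈ Cell p h) :
    pz p V x = V x := by
  unfold pz
  have h1 : ⌊x.re / p⌋ = 0 := by
    rw [Int.floor_eq_iff]
    refine ⟨?_, ?_⟩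
    · rw [Int.cast_zero]
      exact div_nonneg hx.1.le hp.le
    · rw [Int.cast_zero, zero_add, div_lt_one hp]
      exact hx.2.1
  rw [h1, Int.cast_zero, zero_mul, Complex.ofReal_zero, sub_zero]

end Pool.Agent.YUT
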