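import Pool.Agent.YUT.C10a

open MeasureTheory Set Filter Topology
open scoped ContDiff

namespace Pool.Agent.YUT

open Pool.Agent.YUD

variable {p h : ℝ}

/-- directional derivative zero if the function vanishes along a ray -/
theorem c10b_dir0 {g : ℂ → ℝ} {x v : ℂ} (hg : DifferentiableAt ℝ g x)
    (h : ∀ s : ℝ, 0 ≤ s → g (x + (s : ℂ) * v) = 0) : fderiv ℝ g x v = 0 := by
  have h1 : HasDerivAt (fun s : ℝ => x + (s : ℂ) * v) v 0 := by
    have := ((Complex.ofRealCLM.hasDerivAt (x := (0 : ℝ))).mul_const v).const_add x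
    simpa using this
  have h2 : HasFDerivAt g (fderiv ℝ g x) ((fun s : ℝ => x + (s : ℂ) * v) 0) := by
    simpa using hg.hasFDerivAt
  have h3 : HasDerivAt (fun s : ℝ => g (x + (s : ℂ) * v)) (fderiv ℝ g x v) 0 :=
    h2.comp_hasDerivAt (0 : ℝ) h1
  have h4 : HasDerivWithinAt (fun s : ℝ => g (x + (s : ℂ) * v)) 0 (Ici (0 : ℝ)) 0 := by
    refine (hasDerivWithinAt_const (0 : ℝ) (Ici (0 : ℝ)) (0 : ℝ)).congr ?_ ?_
    · intro s hs
      exact h s hs
    · exact h 0 le_rfl
  exact (uniqueDiffWithinAt_Ici (0 : ℝ)).eq_deriv _ h3.hasDerivWithinAt h4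

theorem c10b_ext {L : ℂ →L[ℝ] ℝ} (h1 : L 1 = 0) (hI : L Complex.I = 0) : L = 0 := by
  ext z
  have hz : z = z.re • (1 : ℂ) + z.im • Complex.I := by
    apply Complex.ext <;> simp
  rw [hz, map_add, map_smul, map_smul, h1, hI]
  simp

/-- the derivative vanishes at a point of the half plane `re ≥ p` -/
theorem c10b_right {g : ℂ → ℝ} (hg : Differentiable ℝ g)
    (h0 : ∀ x, x ∉ Cell p h → g x = 0) {x : ℂ} (hx : p ≤ x.re) : fderiv ℝ g x = 0 := by
  apply c10b_ext
  · apply c10b_dir0 (hg x)
    intro s hs
    apply h0
    intro hc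
    have := hc.2.1
    simp at this
    linarith
  · apply c10b_dir0 (hg x)
    intro s hs
    apply h0
    intro hc
    have := hc.2.1
    simp at this
    linarith

/-- [YUT-C10b] the derivative of the periodization. Let `x₀ : ℂ`, `n = ⌊x₀.re/p⌋`. For `x` with
`(n-1) p < x.re < (n+1) p` (a neighbourhood of `x₀`) one has `pz p g x = g (x - n p) + g (x - (n-1) p)`: if
`n p ≤ x.re`, then `⌊x.re/p⌋ = n` and `x - (n-1) p` has real part `≥ p`, so the second term is `0`; if `x.re < n p`, then
`⌊x.re/p⌋ = n - 1` and `x - n p` has real part `< 0`, so the first term is `0`. Hence `pz p g` is differentiable at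
`x₀` with derivative `fderiv ℝ g (x₀ - n p) + fderiv ℝ g (x₀ - (n-1) p)`. The second term is `0`: the point
`x₀ - (n-1) p` has real part `≥ p`; `g` vanishes on the half plane `re ≥ p`, so the derivative of the differentiable
function `g` at such a point is `0` (at interior points clear; at boundary points by continuity of the derivative, which
is Hölder, or directly: the directional derivatives in the directions `1` and `±I` vanish). -/
theorem pz_fderiv (hp : 0 < p) {g : ℂ → ℝ} (hg : Differentiable ℝ g)
    (h0 : ∀ x, x ∉ Cell p h → g x = 0) (x : ℂ) :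
    DifferentiableAt ℝ (pz p g) x ∧ fderiv ℝ (pz p g) x = pz p (fderiv ℝ g) x := by
  set n : ℤ := ⌊x.re / p⌋ with hn
  have hn1 : (n : ℝ) * p ≤ x.re := by
    have := Int.floor_le (x.re / p)
    rw [← hn, le_div_iff₀ hp] at this
    exact this
  have hn2 : x.re < ((n : ℝ) + 1) * p := by
    have := Int.lt_floor_add_one (x.re / p)
    rw [← hn, div_lt_iff₀ hp] at this
    exact this
  -- the local formula
  have hloc : (pz p g) =ᶠ[𝓝 x] fun y => g (y - ((n * p : ℝ) : ℂ)) + g (y - (((n - 1) * p : ℝ) : ℂ)) := by
    have ho : IsOpen {y : ℂ | ((n : ℝ) - 1) * p < y.re ∧ y.re < ((n : ℝ) + 1) * p} := by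
      apply IsOpen.inter
      · exact isOpen_lt continuous_const Complex.continuous_re
      · exact isOpen_lt Complex.continuous_re continuous_const
    have hxm : x ∈ {y : ℂ | ((n : ℝ) - 1) * p < y.re ∧ y.re < ((n : ℝ) + 1) * p} := by
      refine ⟨?_, hn2⟩
      nlinarith
    filter_upwards [ho.mem_nhds hxm] with y hy
    obtain ⟨hy1, hy2⟩ := hy
    by_cases hc : (n : ℝ) * p ≤ y.re
    · have hf : ⌊y.re / p⌋ = n := by
        rw [Int.floor_eq_iff]
        constructor
        · rw [le_div_iff₀ hp]; exact hc
        · rw [div_lt_iff₀ hp]; exact hy2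
      have hz : g (y - (((n - 1) * p : ℝ) : ℂ)) = 0 := by
        apply h0
        intro hcell
        have h3 := hcell.2.1
        rw [Complex.sub_re, Complex.ofReal_re] at h3
        nlinarith
      rw [hz, add_zero]
      unfold pz
      rw [hf]
    · push Not at hc
      have hf : ⌊y.re / p⌋ = n - 1 := by
        rw [Int.floor_eq_iff]
        constructor
        · rw [le_div_iff₀ hp]; push_cast; exact hy1.le
        · rw [div_lt_iff₀ hp]; push_cast; linarith
      have hz : g (y - ((n * p : ℝ) : ℂ)) = 0 := by
        apply h0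
        intro hcell
        have h3 := hcell.1
        rw [Complex.sub_re, Complex.ofReal_re] at h3
        linarith
      rw [hz, zero_add]
      unfold pz
      rw [hf]
      push_cast
      rfl
  have hd1 : HasFDerivAt (fun y => g (y - ((n * p : ℝ) : ℂ))) (fderiv ℝ g (x - ((n * p : ℝ) : ℂ))) x := by
    have h5 := (hg (x - ((n * p : ℝ) : ℂ))).hasFDerivAt
    have h6 : HasFDerivAt (fun y : ℂ => y - ((n * p : ℝ) : ℂ)) (ContinuousLinearMap.id ℝ ℂ) x :=
      (hasFDerivAt_id x).sub_const _
    exact h5.comp x h6
  have hd2 : HasFDerivAt (fun y => g (y - (((n - 1) * p : ℝ) : ℂ))) (0 : ℂ →L[ℝ] ℝ) x := by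
    have h5 := (hg (x - (((n - 1) * p : ℝ) : ℂ))).hasFDerivAt
    rw [c10b_right (p := p) (h := h) hg h0 (by
      rw [Complex.sub_re, Complex.ofReal_re]; linarith)] at h5
    have h6 : HasFDerivAt (fun y : ℂ => y - (((n - 1) * p : ℝ) : ℂ)) (ContinuousLinearMap.id ℝ ℂ) x :=
      (hasFDerivAt_id x).sub_const _
    exact h5.comp x h6
  have hd : HasFDerivAt (pz p g) (fderiv ℝ g (x - ((n * p : ℝ) : ℂ))) x := by
    have h7 := (hd1.add hd2).congr_of_eventuallyEq hloc
    rw [add_zero] at h7
    exact h7
  exact ⟨hd.differentiableAt, hd.fderiv⟩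

/-- [YUT-C10b] the derivative of `g` vanishes off the cell (a differentiable function which vanishes off
the open cell; at the boundary points of the cell there is an open quarter or half plane of zeros adjacent to the point,
which contains line segments ending at the point in two linearly independent directions) -/
theorem fderiv_off_cell (hp : 0 < p) (hh : 0 < h) {g : ℂ → ℝ} (hg : Differentiable ℝ g)
    (h0 : ∀ x, x ∉ Cell p h → g x = 0) : ∀ x, x ∉ Cell p h → fderiv ℝ g x = 0 := by
  intro x hx
  have hneg : ∀ v : ℂ, fderiv ℝ g x (-v) = 0 → fderiv ℝ g x v = 0 := by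
    intro v hv
    rw [map_neg] at hv
    linarith
  by_cases h1 : x.re ≤ 0
  · apply c10b_ext
    · apply hneg
      apply c10b_dir0 (hg x)
      intro s hs
      apply h0
      intro hc
      have := hc.1
      simp at this
      linarith
    · apply c10b_dir0 (hg x)
      intro s hs
      apply h0
      intro hc
      have := hc.1
      simp at this
      linarith
  by_cases h2 : p ≤ x.re
  · exact c10b_right hg h0 h2
  by_cases h3 : x.im ≤ 0
  · apply c10b_ext
    · apply c10b_dir0 (hg x)
      intro s hs
      apply h0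
      intro hc
      have := hc.2.2.1
      simp at this
      linarith
    · apply hneg
      apply c10b_dir0 (hg x)
      intro s hs
      apply h0
      intro hc
      have := hc.2.2.1
      simp at this
      linarith
  by_cases h4 : h ≤ x.im
  · apply c10b_ext
    · apply c10b_dir0 (hg x)
      intro s hs
      apply h0
      intro hc
      have := hc.2.2.2
      simp at this
      linarith
    · apply c10b_dir0 (hg x)
      intro s hs
      apply h0
      intro hc
      have := hc.2.2.2
      simp at this
      linarith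
  exact absurd ⟨not_le.mp h1, not_le.mp h2, not_le.mp h3, not_le.mp h4⟩ hx

end Pool.Agent.YUT
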