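import Pool.Agent.YUT.C10b

open MeasureTheory Set Filter Topology
open scoped ContDiff

namespace Pool.Agent.YUT

open Pool.Agent.YUD

variable {p h : ℝ}

/-- [YUT-C10c] the `C^α` norm of the periodization: sup bound clear, seminorm by `pz_holder` -/
theorem pz_hnorm (hp : 0 < p) (hh : 0 < h) {g : ℂ → ℝ} {ε α : ℝ} (hα : 0 < α)
    (h0 : ∀ x, x ∉ Cell p h → g x = 0) (hg : HNormLe univ α ε g) :
    HNormLe (Strip h) α (2 * ε) (pz p g) := by

  obtain ⟨a, c, ha, hc, hac, h1, h2⟩ := hg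
  refine ⟨a, 2 * c, ha, by linarith, by linarith, fun x _ => h1 _ (mem_univ _), fun x _ y _ => ?_⟩
  have h3 := pz_holder (h := h) hp hα hc h0
    (fun x y => by rw [Real.norm_eq_abs]; exact h2 x (mem_univ _) y (mem_univ _)) x y
  rwa [Real.norm_eq_abs] at h3

/-- [YUT-C10c] the `C^{1,α}` norm of the periodization: `pz_fderiv`, `fderiv_off_cell`, and `pz_holder`
for `V = fderiv ℝ g` -/
theorem pz_norm (hp : 0 < p) (hh : 0 < h) {g : ℂ → ℝ} {ε α : ℝ} (hα : 0 < α)
    (h0 : ∀ x, x ∉ Cell p h → g x = 0) (hg : NormLe univ α ε g) :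
    NormLe (Strip h) α (2 * ε) (pz p g) := by

  obtain ⟨hd, a, b, c, ha, hb, hc, habc, h1, h2, h3⟩ := hg
  have hd' : Differentiable ℝ g := differentiableOn_univ.1 hd
  refine ⟨fun x _ => (pz_fderiv hp hd' h0 x).1.differentiableWithinAt, a, b, 2 * c, ha, hb,
    by linarith, by linarith, fun x _ => h1 _ (mem_univ _), fun x _ => ?_, fun x _ y _ => ?_⟩
  · rw [(pz_fderiv hp hd' h0 x).2]
    exact h2 _ (mem_univ _)
  · rw [(pz_fderiv hp hd' h0 x).2, (pz_fderiv hp hd' h0 y).2]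
    exact pz_holder (h := h) hp hα hc (fderiv_off_cell hp hh hd' h0)
      (fun x y => h3 x (mem_univ _) y (mem_univ _)) x y

end Pool.Agent.YUT
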