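import Pool.Agent.YUT.CBase

open MeasureTheory Set Filter Topology
open scoped ContDiff

namespace Pool.Agent.YUT

open Pool.Agent.YUD

variable {p h : ℝ}

private theorem C10d_int_mul {w : ℂ → ℝ} (hw : Per p (Strip h) w) (n : ℤ) :
    ∀ {x : ℂ}, x ∈ Strip h → w (x + (n * p : ℝ)) = w x := by
  induction n using Int.induction_on with
  | zero => intro x _; simp
  | succ i ih =>
    intro x hx
    have h1 := hw (x + ((i : ℤ) * p : ℝ)) (strip_add _ hx)
    rw [ih hx] at h1
    rw [← h1]
    congr 1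
    push_cast
    ring
  | pred i ih =>
    intro x hx
    have h1 := hw (x + ((-(i : ℤ) - 1 : ℤ) * p : ℝ)) (strip_add _ hx)
    rw [← h1, ← ih hx]
    congr 1
    push_cast
    ring

/-- [YUT-C10d] a periodic function which is rough in the cell is rough in the strip: given `x₀` in the strip,
`e`, `δ`, there are `n : ℤ` and `x₁` in the cell with `‖x₀ - (x₁ + n p)‖ < δ/2` (move `x₀` by `-n p` into `0 ≤ re < p`,
and, if the real part is `0`, by a small amount to the right). Roughness in the cell at `x₁` with `δ/2` gives `x`, `s`;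
take `x + n p`, `s`: the closed ball around `x + n p` is the translate of the one around `x`, contained in the
strip; the values of `w` are the same by periodicity (`Per` iterated: `w (x + n p) = w x` for `x` in the strip). -/
theorem rough_strip (hp : 0 < p) {γ : ℝ} {w : ℂ → ℝ} (hw : Per p (Strip h) w)
    (hr : Rough (Cell p h) γ w) : Rough (Strip h) γ w := by
  obtain ⟨c, hc, hr⟩ := hr
  refine ⟨c, hc, fun x₀ hx₀ e he δ hδ => ?_⟩
  obtain ⟨n, hn0, hn1⟩ : ∃ n : ℤ, 0 ≤ x₀.re - n * p ∧ x₀.re - n * p < p := by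
    refine ⟨⌊x₀.re / p⌋, ?_, ?_⟩
    · have := Int.floor_le (x₀.re / p)
      rw [le_div_iff₀ hp] at this
      linarith
    · have := Int.lt_floor_add_one (x₀.re / p)
      rw [div_lt_iff₀ hp] at this
      linarith
  obtain ⟨ε, hε0, hε1, hε2⟩ : ∃ ε : ℝ, 0 < ε ∧ ε < δ / 2 ∧ x₀.re - n * p + ε < p := by
    refine ⟨min (δ / 4) ((p - (x₀.re - n * p)) / 2), lt_min (by linarith) (by linarith), ?_, ?_⟩
    · exact (min_le_left _ _).trans_lt (by linarith)
    · have := min_le_right (δ / 4) ((p - (x₀.re - n * p)) / 2)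
      linarith
  have hx1 : x₀ - (n * p : ℝ) + (ε : ℝ) ∈ Cell p h := by
    refine ⟨?_, ?_, ?_, ?_⟩
    · simp only [Complex.add_re, Complex.sub_re, Complex.ofReal_re]; linarith
    · simp only [Complex.add_re, Complex.sub_re, Complex.ofReal_re]; linarith
    · simp only [Complex.add_im, Complex.sub_im, Complex.ofReal_im]; linarith [hx₀.1]
    · simp only [Complex.add_im, Complex.sub_im, Complex.ofReal_im]; linarith [hx₀.2]
  obtain ⟨x, s, hs0, hs1, hxd, hball, hrough⟩ := hr _ hx1 e he (δ / 2) (by linarith)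
  have hmem : ∀ y, ‖y - x‖ ≤ s → y ∈ Strip h := fun y hy =>
    cell_sub p h (hball (by rw [Metric.mem_closedBall, dist_eq_norm]; exact hy))
  refine ⟨x + (n * p : ℝ), s, hs0, by linarith, ?_, ?_, ?_⟩
  · have h1 : x + (n * p : ℝ) - x₀ = (x - (x₀ - (n * p : ℝ) + (ε : ℝ))) + (ε : ℝ) := by ring
    rw [h1]
    refine (norm_add_le _ _).trans_lt ?_
    have h2 : ‖((ε : ℝ) : ℂ)‖ = ε := by rw [Complex.norm_real, Real.norm_of_nonneg hε0.le]
    rw [h2]
    linarith
  · intro y hy
    rw [Metric.mem_closedBall, dist_eq_norm] at hy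
    have h1 : y - (n * p : ℝ) ∈ Strip h := by
      refine hmem _ ?_
      rw [show y - (n * p : ℝ) - x = y - (x + (n * p : ℝ)) by ring]
      exact hy
    have h2 := strip_add (n * p : ℝ) h1
    rwa [sub_add_cancel] at h2
  · have hse : ‖s • e‖ = s := by rw [norm_smul, he, mul_one, Real.norm_of_nonneg hs0.le]
    have e1 : w (x + (n * p : ℝ) + s • e) = w (x + s • e) := by
      rw [show x + (n * p : ℝ) + s • e = (x + s • e) + (n * p : ℝ) by ring]
      exact C10d_int_mul hw n (hmem _ (by rw [add_sub_cancel_left, hse]))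
    have e2 : w (x + (n * p : ℝ) - s • e) = w (x - s • e) := by
      rw [show x + (n * p : ℝ) - s • e = (x - s • e) + (n * p : ℝ) by ring]
      exact C10d_int_mul hw n (hmem _ (by rw [sub_sub_cancel_left, norm_neg, hse]))
    have e3 : w (x + (n * p : ℝ)) = w x :=
      C10d_int_mul hw n (hmem _ (by rw [sub_self, norm_zero]; exact hs0.le))
    rw [e1, e2, e3]
    exact hrough

/-- [YUT-C10d] periodicity iterated -/
theorem Per.int_mul {w : ℂ → ℝ} (hw : Per p (Strip h) w) (n : ℤ) {x : ℂ} (hx : x ∈ Strip h) :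
    w (x + (n * p : ℝ)) = w x := by
  exact C10d_int_mul hw n hx

end Pool.Agent.YUT
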