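import Pool.Agent.YUT.CBase

open MeasureTheory Set Filter Topology
open scoped ContDiff

namespace Pool.Agent.YUT

open Pool.Agent.YUD

variable {p h : ℝ}

/-- the identification of `ℝ × ℝ` with `ℂ` -/
noncomputable def C2_e : ℝ × ℝ →L[ℝ] ℂ := (Complex.equivRealProdCLM.symm : ℝ × ℝ →L[ℝ] ℂ)

theorem C2_e_apply (q : ℝ × ℝ) : C2_e q = ⟨q.1, q.2⟩ := by
  unfold C2_e
  apply Complex.ext <;> simp [Complex.equivRealProdCLM_symm_apply]

/-- the divergence theorem on a rectangle in the strip -/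
theorem C2_rect (hp : 0 < p) {F G : ℂ → ℝ} (hF : ContDiffOn ℝ 1 F (Strip h))
    (hG : ContDiffOn ℝ 1 G (Strip h)) (hFp : Per p (Strip h) F) {a b : ℝ} (ha : 0 < a)
    (hab : a ≤ b) (hbh : b < h) :
    ∫ x in {x : ℂ | 0 < x.re ∧ x.re < p ∧ a < x.im ∧ x.im < b}, (dx F x + dy G x) =
      (∫ x in (0 : ℝ)..p, G ⟨x, b⟩) - ∫ x in (0 : ℝ)..p, G ⟨x, a⟩ := by
  have hstrip : ∀ q ∈ (univ : Set ℝ) ×ˢ Icc a b, C2_e q ∈ Strip h := by
    intro q hq
    rw [C2_e_apply]
    exact ⟨ha.trans_le hq.2.1, hq.2.2.trans_lt hbh⟩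
  have hFd : ∀ x ∈ Strip h, HasFDerivAt F (fderiv ℝ F x) x := fun x hx =>
    ((hF.differentiableOn (by norm_num)).differentiableAt
      ((isOpen_strip h).mem_nhds hx)).hasFDerivAt
  have hGd : ∀ x ∈ Strip h, HasFDerivAt G (fderiv ℝ G x) x := fun x hx =>
    ((hG.differentiableOn (by norm_num)).differentiableAt
      ((isOpen_strip h).mem_nhds hx)).hasFDerivAt
  have hFc : ContinuousOn (dx F) (Strip h) :=
    (contDiffOn_dx (n := 0) (isOpen_strip h) hF).continuousOn
  have hGc : ContinuousOn (dy G) (Strip h) :=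
    (contDiffOn_dy (n := 0) (isOpen_strip h) hG).continuousOn
  have hDc : ContinuousOn (fun q : ℝ × ℝ => dx F (C2_e q) + dy G (C2_e q))
      (Icc 0 p ×ˢ Icc a b) :=
    (hFc.add hGc).comp C2_e.continuous.continuousOn fun q hq => hstrip q ⟨mem_univ _, hq.2⟩
  have hDi : IntegrableOn (fun q : ℝ × ℝ => dx F (C2_e q) + dy G (C2_e q))
      (Icc 0 p ×ˢ Icc a b) (volume.prod volume) :=
    hDc.integrableOn_compact (isCompact_Icc.prod isCompact_Icc)
  have e10 : C2_e (1, 0) = 1 := by rw [C2_e_apply]; rfl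
  have e01 : C2_e (0, 1) = Complex.I := by rw [C2_e_apply]; rfl
  have key := integral2_divergence_prod_of_hasFDerivAt_off_countable
    (fun q => F (C2_e q)) (fun q => G (C2_e q))
    (fun q => (fderiv ℝ F (C2_e q)).comp C2_e) (fun q => (fderiv ℝ G (C2_e q)).comp C2_e)
    0 a p b ∅ countable_empty
    (by
      rw [uIcc_of_le hp.le, uIcc_of_le hab]
      exact hF.continuousOn.comp C2_e.continuous.continuousOn
        fun q hq => hstrip q ⟨mem_univ _, hq.2⟩)
    (by
      rw [uIcc_of_le hp.le, uIcc_of_le hab]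
      exact hG.continuousOn.comp C2_e.continuous.continuousOn
        fun q hq => hstrip q ⟨mem_univ _, hq.2⟩)
    (fun q hq => by
      rw [min_eq_left hab, max_eq_right hab] at hq
      exact (hFd _ (hstrip q ⟨mem_univ _, Ioo_subset_Icc_self hq.1.2⟩)).comp q C2_e.hasFDerivAt)
    (fun q hq => by
      rw [min_eq_left hab, max_eq_right hab] at hq
      exact (hGd _ (hstrip q ⟨mem_univ _, Ioo_subset_Icc_self hq.1.2⟩)).comp q C2_e.hasFDerivAt)
    (by
      rw [uIcc_of_le hp.le, uIcc_of_le hab]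
      simp only [ContinuousLinearMap.comp_apply, e10, e01]
      exact hDi)
  simp only [ContinuousLinearMap.comp_apply, e10, e01] at key
  have hper : (∫ y in a..b, F (C2_e (p, y))) = ∫ y in a..b, F (C2_e (0, y)) := by
    refine intervalIntegral.integral_congr fun y hy => ?_
    rw [uIcc_of_le hab] at hy
    have h1 := hFp (C2_e (0, y)) (hstrip (0, y) ⟨mem_univ _, hy⟩)
    have h2 : C2_e (p, y) = C2_e (0, y) + p := by
      rw [C2_e_apply, C2_e_apply]
      apply Complex.ext <;> simp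
    change F (C2_e (p, y)) = F (C2_e (0, y))
    rw [h2, h1]
  rw [hper, add_sub_cancel_right] at key
  have hset : {x : ℂ | 0 < x.re ∧ x.re < p ∧ a < x.im ∧ x.im < b} =
      Complex.measurableEquivRealProd ⁻¹' (Ioo 0 p ×ˢ Ioo a b) := by
    ext x
    simp [and_assoc]
  have h1 : ∫ x in {x : ℂ | 0 < x.re ∧ x.re < p ∧ a < x.im ∧ x.im < b}, (dx F x + dy G x) =
      ∫ q in Ioo 0 p ×ˢ Ioo a b, (dx F (C2_e q) + dy G (C2_e q)) := by
    rw [hset, ← Complex.volume_preserving_equiv_real_prod.setIntegral_preimage_emb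
      Complex.measurableEquivRealProd.measurableEmbedding]
    refine integral_congr_ae (ae_of_all _ fun x => ?_)
    have h2 : C2_e (Complex.measurableEquivRealProd x) = x := by
      rw [C2_e_apply]
      rfl
    simp only [h2]
  rw [h1]
  have h2 : ∫ q in Ioo 0 p ×ˢ Ioo a b, (dx F (C2_e q) + dy G (C2_e q)) =
      ∫ x in (0 : ℝ)..p, ∫ y in a..b, (dx F (C2_e (x, y)) + dy G (C2_e (x, y))) := by
    rw [Measure.volume_eq_prod, setIntegral_prod _
      (hDi.mono_set (prod_mono Ioo_subset_Icc_self Ioo_subset_Icc_self)),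
      intervalIntegral.integral_of_le hp.le, ← integral_Ioc_eq_integral_Ioo]
    refine integral_congr_ae (ae_of_all _ fun x => ?_)
    simp only
    rw [intervalIntegral.integral_of_le hab, ← integral_Ioc_eq_integral_Ioo]
  rw [h2]
  have h3 : ∀ x y : ℝ, C2_e (x, y) = ⟨x, y⟩ := fun x y => C2_e_apply (x, y)
  simp only [h3] at key ⊢
  exact key

/-- [YUT-C2] divergence theorem on the channel. For `0 < δ < h/2` apply the divergence theorem on the
rectangle `[0,p] × [δ, h - δ]` (contained in the strip, where `F`, `G` are `C¹`):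
`MeasureTheory.integral2_divergence_prod_of_hasFDerivAt_off_countable` or a similar lemma, after
identifying `ℂ` with `ℝ × ℝ` (`Complex.measurableEquivRealProd`, `Complex.volume_preserving_equiv_real_prod`).
It gives `∫_{R_δ} (F_x + G_y) = ∫_0^p G(x, h-δ) dx - ∫_0^p G(x, δ) dx + ∫_δ^{h-δ} (F(p,y) - F(0,y)) dy`; the
last term is `0` by periodicity (`hFp` at the points `⟨0, y⟩`), the first two are `≥ -B δ p` each. The integrals
over the cell and over `R_δ` differ by at most `2 δ p B` (`hb`). So the integral over the cell is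
`≥ -4 B δ p` for all small `δ`. -/
theorem ch_div (hp : 0 < p) (hh : 0 < h) {F G : ℂ → ℝ} {B : ℝ} (hF : ContDiffOn ℝ 1 F (Strip h))
    (hG : ContDiffOn ℝ 1 G (Strip h)) (hFp : Per p (Strip h) F)
    (hb : ∀ x ∈ Strip h, |dx F x + dy G x| ≤ B) (hlow : ∀ x ∈ Strip h, G x ≤ B * x.im)
    (hup : ∀ x ∈ Strip h, -(B * (h - x.im)) ≤ G x) :
    0 ≤ ∫ x in Cell p h, (dx F x + dy G x) := by
  have hB : 0 ≤ B := (abs_nonneg _).trans
    (hb ⟨0, h / 2⟩ ⟨by change 0 < h / 2; linarith, by change h / 2 < h; linarith⟩)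
  have hFc : ContinuousOn (dx F) (Strip h) :=
    (contDiffOn_dx (n := 0) (isOpen_strip h) hF).continuousOn
  have hGc : ContinuousOn (dy G) (Strip h) :=
    (contDiffOn_dy (n := 0) (isOpen_strip h) hG).continuousOn
  have hint : IntegrableOn (fun x => dx F x + dy G x) (Cell p h) := int_cell (hFc.add hGc) hb
  let δ : ℕ → ℝ := fun n => h / 2 / (n + 1)
  have hδ : ∀ n, δ n = h / 2 / (n + 1) := fun n => rfl
  have hδ0 : ∀ n, 0 < δ n := fun n => by rw [hδ]; positivity
  have hδ1 : ∀ n, δ n ≤ h / 2 := fun n => by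
    rw [hδ]
    exact div_le_self (by linarith) (by linarith [(Nat.cast_nonneg n : (0 : ℝ) ≤ n)])
  have hδa : Antitone δ := by
    intro m n hmn
    rw [hδ, hδ]
    have : (m : ℝ) ≤ n := Nat.cast_le.2 hmn
    exact div_le_div_of_nonneg_left (by linarith) (by positivity) (by linarith)
  have hδt : Tendsto δ atTop (𝓝 0) := by
    have h1 := (tendsto_one_div_add_atTop_nhds_zero_nat (𝕜 := ℝ)).const_mul (h / 2)
    rw [mul_zero] at h1
    refine h1.congr fun n => ?_
    rw [hδ]; ring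
  let R : ℕ → Set ℂ := fun n => {x : ℂ | 0 < x.re ∧ x.re < p ∧ δ n < x.im ∧ x.im < h - δ n}
  have hRm : ∀ n, MeasurableSet (R n) := by
    intro n
    refine IsOpen.measurableSet ?_
    have e : R n = (Complex.re ⁻¹' Ioo 0 p) ∩ (Complex.im ⁻¹' Ioo (δ n) (h - δ n)) := by
      ext x; simp [R, and_assoc]
    rw [e]
    exact (isOpen_Ioo.preimage Complex.continuous_re).inter
      (isOpen_Ioo.preimage Complex.continuous_im)
  have hRmono : Monotone R := by
    intro m n hmn x hx
    have h1 := hδa hmn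
    exact ⟨hx.1, hx.2.1, by linarith [hx.2.2.1], by linarith [hx.2.2.2]⟩
  have hRU : (⋃ n, R n) = Cell p h := by
    ext x
    rw [mem_iUnion]
    constructor
    · rintro ⟨n, hx⟩
      exact ⟨hx.1, hx.2.1, (hδ0 n).trans hx.2.2.1, by linarith [hx.2.2.2, hδ0 n]⟩
    · intro hx
      have h1 : 0 < min x.im (h - x.im) := lt_min hx.2.2.1 (by linarith [hx.2.2.2])
      obtain ⟨n, hn⟩ := (hδt.eventually (gt_mem_nhds h1)).exists
      have h2 := min_le_left x.im (h - x.im)
      have h3 := min_le_right x.im (h - x.im)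
      exact ⟨n, hx.1, hx.2.1, by linarith, by linarith⟩
  have hlim := tendsto_setIntegral_of_monotone hRm hRmono (by rw [hRU]; exact hint)
  rw [hRU] at hlim
  have hlow2 : Tendsto (fun n => -(2 * B * p * δ n)) atTop (𝓝 0) := by
    have h1 := (hδt.const_mul (2 * B * p)).neg
    rw [mul_zero, neg_zero] at h1
    exact h1
  refine le_of_tendsto_of_tendsto' hlow2 hlim fun n => ?_
  have h1 := C2_rect hp hF hG hFp (hδ0 n) (by linarith [hδ1 n] : δ n ≤ h - δ n)
    (by linarith [hδ0 n] : h - δ n < h)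
  have h2 : ∫ x in R n, (dx F x + dy G x) =
    (∫ x in (0 : ℝ)..p, G ⟨x, h - δ n⟩) - ∫ x in (0 : ℝ)..p, G ⟨x, δ n⟩ := h1
  rw [h2]
  have hGi : ∀ y : ℝ, y ∈ Ioo 0 h → IntervalIntegrable (fun x : ℝ => G ⟨x, y⟩) volume 0 p := by
    intro y hy
    refine ContinuousOn.intervalIntegrable ?_
    have h3 : Continuous fun x : ℝ => (⟨x, y⟩ : ℂ) := by
      have e : (fun x : ℝ => (⟨x, y⟩ : ℂ)) = fun x : ℝ => (x : ℂ) + y * Complex.I := by
        funext x; apply Complex.ext <;> simp
      rw [e]; fun_prop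
    exact hG.continuousOn.comp h3.continuousOn fun x _ => hy
  have hn1 := hδ0 n
  have hn2 := hδ1 n
  have h4 : ∫ x in (0 : ℝ)..p, G ⟨x, δ n⟩ ≤ ∫ x in (0 : ℝ)..p, B * δ n :=
    intervalIntegral.integral_mono_on hp.le (hGi _ ⟨hn1, by linarith⟩)
      _root_.intervalIntegrable_const
      fun x _ => hlow ⟨x, δ n⟩ ⟨hn1, by change δ n < h; linarith⟩
  have h5 : ∫ x in (0 : ℝ)..p, -(B * δ n) ≤ ∫ x in (0 : ℝ)..p, G ⟨x, h - δ n⟩ := by
    refine intervalIntegral.integral_mono_on hp.le _root_.intervalIntegrable_const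
      (hGi _ ⟨by linarith, by linarith⟩) fun x _ => ?_
    have h6 := hup ⟨x, h - δ n⟩ ⟨by change 0 < h - δ n; linarith, by change h - δ n < h; linarith⟩
    have h7 : h - (⟨x, h - δ n⟩ : ℂ).im = δ n := by
      change h - (h - δ n) = δ n
      ring
    rw [h7] at h6
    exact h6
  rw [intervalIntegral.integral_const, smul_eq_mul, sub_zero] at h4 h5
  nlinarith

end Pool.Agent.YUT
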