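import Pool.Agent.YUT.C2

open MeasureTheory Set Filter Topology
open scoped ContDiff

namespace Pool.Agent.YUT

open Pool.Agent.YUD

variable {p h : ℝ}

theorem C3_nonneg (hh : 0 < h) {f : ℂ → ℝ} {C : ℝ} (hf : CS p h C f) : 0 ≤ C := by
  have hx : (⟨0, h / 2⟩ : ℂ) ∈ Strip h := ⟨by show 0 < h / 2; linarith, by show h / 2 < h; linarith⟩
  exact (abs_nonneg _).trans (hf.le.abs_le _ hx)

theorem C3_div {f g : ℂ → ℝ} {C : ℝ} (hf : CS p h C f) (hg : CS p h C g) :
    ∀ x ∈ Strip h, dx (fun x => f x * dx g x) x + dy (fun x => f x * dy g x) x =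
      (dx f x * dx g x + dy f x * dy g x) + f x * lap g x := by
  intro x hx
  have hS := isOpen_strip h
  have d1 : DifferentiableAt ℝ f x := dat (n := 1) hS hf.le.1 hx
  have d2 : DifferentiableAt ℝ (dx g) x := dat (n := 0) hS (contDiffOn_dx (n := 1) hS hg.le.1) hx
  have d3 : DifferentiableAt ℝ (dy g) x := dat (n := 0) hS (contDiffOn_dy (n := 1) hS hg.le.1) hx
  rw [dx_mul d1 d2, dy_mul d1 d3, lap]
  ring

/-- [YUT-C3] Green's identity on the channel: `ch_div` for `F = f * dx g`, `G = f * dy g` and for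
`-F`, `-G`; `F_x + G_y = ∇f ⬝ ∇g + f Δg`, `|G x| ≤ C^2 x.im`, `|G x| ≤ C^2 (h - x.im)` by `hf.low`, `hf.up`
and `|dy g| ≤ C`. Integrability: `int_cell`. -/
theorem ch_green (hp : 0 < p) (hh : 0 < h) {f g : ℂ → ℝ} {C : ℝ} (hf : CS p h C f)
    (hg : CS p h C g) :
    ∫ x in Cell p h, (dx f x * dx g x + dy f x * dy g x) = -∫ x in Cell p h, f x * lap g x := by
  have hS := isOpen_strip h
  have hC := C3_nonneg hh hf
  have cf : ContDiffOn ℝ 1 f (Strip h) := hf.le.1.of_le (by norm_num)
  have cgx : ContDiffOn ℝ 1 (dx g) (Strip h) := contDiffOn_dx (n := 1) hS hg.le.1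
  have cgy : ContDiffOn ℝ 1 (dy g) (Strip h) := contDiffOn_dy (n := 1) hS hg.le.1
  have hF : ContDiffOn ℝ 1 (fun x => f x * dx g x) (Strip h) := cf.mul cgx
  have hG : ContDiffOn ℝ 1 (fun x => f x * dy g x) (Strip h) := cf.mul cgy
  have hdiv := C3_div hf hg
  have b1 : ∀ x ∈ Strip h, |dx f x * dx g x + dy f x * dy g x| ≤ 2 * C ^ 2 := by
    intro x hx
    have e1 := mul_le_mul (hf.le.dx_le x hx) (hg.le.dx_le x hx) (abs_nonneg _) hC
    have e2 := mul_le_mul (hf.le.dy_le x hx) (hg.le.dy_le x hx) (abs_nonneg _) hC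
    rw [← abs_mul] at e1 e2
    have := abs_add_le (dx f x * dx g x) (dy f x * dy g x)
    nlinarith
  have b2 : ∀ x ∈ Strip h, |f x * lap g x| ≤ 2 * C ^ 2 := by
    intro x hx
    have e1 := mul_le_mul (hf.le.abs_le x hx) (hg.le.lap_le x hx) (abs_nonneg _) hC
    rw [← abs_mul] at e1
    nlinarith
  have b3 : ∀ x ∈ Strip h, |f x * dy g x| ≤ C ^ 2 * x.im := by
    intro x hx
    have e1 := mul_le_mul (hf.low x hx) (hg.le.dy_le x hx) (abs_nonneg _)
      (mul_nonneg hC hx.1.le)
    rw [← abs_mul] at e1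
    nlinarith
  have b4 : ∀ x ∈ Strip h, |f x * dy g x| ≤ C ^ 2 * (h - x.im) := by
    intro x hx
    have hx2 : 0 ≤ h - x.im := by linarith [hx.2]
    have e1 := mul_le_mul (hf.up x hx) (hg.le.dy_le x hx) (abs_nonneg _)
      (mul_nonneg hC hx2)
    rw [← abs_mul] at e1
    nlinarith
  have hb : ∀ x ∈ Strip h, |dx (fun x => f x * dx g x) x + dy (fun x => f x * dy g x) x| ≤
      4 * C ^ 2 := by
    intro x hx
    rw [hdiv x hx]
    have := abs_add_le (dx f x * dx g x + dy f x * dy g x) (f x * lap g x)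
    linarith [b1 x hx, b2 x hx]
  have hper : Per p (Strip h) (fun x => f x * dx g x) := by
    intro x hx
    show f (x + p) * dx g (x + p) = _
    rw [hf.per x hx, hg.per.dx x hx]
  have h1 := ch_div hp hh hF hG hper hb
    (fun x hx => by
      have e1 := (abs_le.1 (b3 x hx)).2
      have e2 : 0 ≤ C ^ 2 * x.im := mul_nonneg (sq_nonneg C) hx.1.le
      have e3 : 4 * C ^ 2 * x.im = 4 * (C ^ 2 * x.im) := by ring
      show f x * dy g x ≤ 4 * C ^ 2 * x.im
      linarith)
    (fun x hx => by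
      have e1 := (abs_le.1 (b4 x hx)).1
      have e2 : 0 ≤ C ^ 2 * (h - x.im) := mul_nonneg (sq_nonneg C) (by linarith [hx.2])
      have e3 : 4 * C ^ 2 * (h - x.im) = 4 * (C ^ 2 * (h - x.im)) := by ring
      show -(4 * C ^ 2 * (h - x.im)) ≤ f x * dy g x
      linarith)
  have h2 := ch_div (F := fun x => -(f x * dx g x)) (G := fun x => -(f x * dy g x)) (B := 4 * C ^ 2)
    hp hh hF.neg hG.neg (fun x hx => by
      show -(f (x + p) * dx g (x + p)) = _
      rw [hf.per x hx, hg.per.dx x hx])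
    (fun x hx => by
      rw [dx_neg, dy_neg, ← neg_add, abs_neg]
      exact hb x hx)
    (fun x hx => by
      have e1 := (abs_le.1 (b3 x hx)).1
      have e2 : 0 ≤ C ^ 2 * x.im := mul_nonneg (sq_nonneg C) hx.1.le
      have e3 : 4 * C ^ 2 * x.im = 4 * (C ^ 2 * x.im) := by ring
      show -(f x * dy g x) ≤ 4 * C ^ 2 * x.im
      linarith)
    (fun x hx => by
      have e1 := (abs_le.1 (b4 x hx)).2
      have e2 : 0 ≤ C ^ 2 * (h - x.im) := mul_nonneg (sq_nonneg C) (by linarith [hx.2])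
      have e3 : 4 * C ^ 2 * (h - x.im) = 4 * (C ^ 2 * (h - x.im)) := by ring
      show -(4 * C ^ 2 * (h - x.im)) ≤ -(f x * dy g x)
      linarith)
  have e2 : ∫ x in Cell p h, (dx (fun x => -(f x * dx g x)) x + dy (fun x => -(f x * dy g x)) x) =
      -∫ x in Cell p h, (dx (fun x => f x * dx g x) x + dy (fun x => f x * dy g x) x) := by
    rw [← integral_neg]
    refine setIntegral_congr_fun (isOpen_cell p h).measurableSet fun x _ => ?_
    show dx (fun x => -(f x * dx g x)) x + dy (fun x => -(f x * dy g x)) x = _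
    rw [dx_neg, dy_neg, neg_add]
  rw [e2] at h2
  have h3 : ∫ x in Cell p h, (dx (fun x => f x * dx g x) x + dy (fun x => f x * dy g x) x) = 0 :=
    le_antisymm (by linarith) h1
  have e3 : ∫ x in Cell p h, (dx (fun x => f x * dx g x) x + dy (fun x => f x * dy g x) x) =
      ∫ x in Cell p h, ((dx f x * dx g x + dy f x * dy g x) + f x * lap g x) :=
    setIntegral_congr_fun (isOpen_cell p h).measurableSet fun x hx => hdiv x (cell_sub p h hx)
  rw [e3, integral_add] at h3
  · linarith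
  · exact int_cell (((hf.le.dx_cont hS).mul (hg.le.dx_cont hS)).add
      ((hf.le.dy_cont hS).mul (hg.le.dy_cont hS))) b1
  · exact int_cell (hf.le.cont.mul (hg.le.lap_cont hS)) b2

/-- [YUT-C3] -/
theorem ch_dirichlet (hp : 0 < p) (hh : 0 < h) {f : ℂ → ℝ} {C : ℝ} (hf : CS p h C f) :
    ∫ x in Cell p h, gsq f x = -∫ x in Cell p h, f x * lap f x := by
  rw [← ch_green hp hh hf hf]
  refine setIntegral_congr_fun (isOpen_cell p h).measurableSet fun x _ => ?_
  show gsq f x = dx f x * dx f x + dy f x * dy f x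
  unfold gsq
  ring

/-- [YUT-C3] -/
theorem ch_symm (hp : 0 < p) (hh : 0 < h) {f g : ℂ → ℝ} {C : ℝ} (hf : CS p h C f)
    (hg : CS p h C g) :
    ∫ x in Cell p h, f x * lap g x = ∫ x in Cell p h, g x * lap f x := by
  have h1 := ch_green hp hh hf hg
  have h2 := ch_green hp hh hg hf
  have h3 : ∫ x in Cell p h, (dx f x * dx g x + dy f x * dy g x) =
      ∫ x in Cell p h, (dx g x * dx f x + dy g x * dy f x) := by
    refine setIntegral_congr_fun (isOpen_cell p h).measurableSet fun x _ => ?_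
    show dx f x * dx g x + dy f x * dy g x = dx g x * dx f x + dy g x * dy f x
    ring
  linarith

theorem C3_per {k : ℂ → ℝ} (hk : Per p (Strip h) k) (n : ℤ) :
    ∀ x ∈ Strip h, k (x + ((n * p : ℝ) : ℂ)) = k x := by
  induction n using Int.induction_on with
  | zero => intro x _; simp
  | succ n ih =>
    intro x hx
    have e : x + (((((n : ℤ) + 1 : ℤ) : ℝ) * p : ℝ) : ℂ) =
        (x + ((((n : ℤ) : ℝ) * p : ℝ) : ℂ)) + p := by
      push_cast
      ring
    rw [e, hk _ (strip_add _ hx), ih x hx]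
  | pred n ih =>
    intro x hx
    have hx' : x - p ∈ Strip h := by
      have := strip_add (-p) hx
      rwa [Complex.ofReal_neg, ← sub_eq_add_neg] at this
    have e : x + ((((-(n : ℤ) - 1 : ℤ) : ℝ) * p : ℝ) : ℂ) =
        (x - p) + (((((-(n : ℤ) : ℤ) : ℝ)) * p : ℝ) : ℂ) := by
      push_cast
      ring
    rw [e, ih _ hx', ← hk _ hx', sub_add_cancel]

theorem C3_gsq_cont {f : ℂ → ℝ} {C : ℝ} (hf : CS p h C f) : ContinuousOn (gsq f) (Strip h) := by
  have hS := isOpen_strip h
  exact ((hf.le.dx_cont hS).pow 2).add ((hf.le.dy_cont hS).pow 2)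

theorem C3_gsq_int {f : ℂ → ℝ} {C : ℝ} (hf : CS p h C f) : IntegrableOn (gsq f) (Cell p h) := by
  refine int_cell (B := 2 * C ^ 2) (C3_gsq_cont hf) fun x hx => ?_
  rw [abs_of_nonneg (gsq_nonneg f x), gsq]
  have e1 := sq_le_sq' (abs_le.1 (hf.le.dx_le x hx)).1 (abs_le.1 (hf.le.dx_le x hx)).2
  have e2 := sq_le_sq' (abs_le.1 (hf.le.dy_le x hx)).1 (abs_le.1 (hf.le.dy_le x hx)).2
  linarith

/-- vanishing energy -/
theorem C3_zero {f : ℂ → ℝ} {C : ℝ} (hf : CS p h C f)
    (h0 : ∫ x in Cell p h, gsq f x = 0) : ∀ x ∈ Cell p h, dx f x = 0 ∧ dy f x = 0 := by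
  have h1 : gsq f =ᵐ[volume.restrict (Cell p h)] 0 :=
    (setIntegral_eq_zero_iff_of_nonneg_ae
      (Eventually.of_forall fun x => gsq_nonneg f x) (C3_gsq_int hf)).1 h0
  have h2 : EqOn (gsq f) 0 (Cell p h) :=
    Measure.eqOn_open_of_ae_eq h1 (isOpen_cell p h) ((C3_gsq_cont hf).mono (cell_sub p h))
      continuousOn_const
  intro x hx
  have h3 : gsq f x = 0 := h2 hx
  unfold gsq at h3
  constructor
  · have : dx f x ^ 2 = 0 := le_antisymm (by nlinarith [sq_nonneg (dy f x)]) (sq_nonneg _)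
    exact pow_eq_zero_iff two_ne_zero |>.1 this
  · have : dy f x ^ 2 = 0 := le_antisymm (by nlinarith [sq_nonneg (dx f x)]) (sq_nonneg _)
    exact pow_eq_zero_iff two_ne_zero |>.1 this

/-- [YUT-C3] if `∫ gsq f = 0` over the cell, then `fderiv ℝ f = 0` on the cell (continuous nonnegative
integrand), hence on all translates by periodicity (`Per.fderiv_eq`), hence on the strip by continuity
(every point of the strip is a limit of points `x + n p`, `x` in the cell), and `lap f = 0` on the strip. -/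
theorem ch_pos (hp : 0 < p) (hh : 0 < h) {f : ℂ → ℝ} {C : ℝ} (hf : CS p h C f)
    (h0 : ∃ x ∈ Strip h, lap f x ≠ 0) : 0 < ∫ x in Cell p h, gsq f x := by
  by_contra hc
  have h1 : ∫ x in Cell p h, gsq f x = 0 :=
    le_antisymm (not_lt.1 hc) (integral_nonneg fun x => gsq_nonneg f x)
  have h2 := C3_zero hf h1
  have hS := isOpen_strip h
  have h3 : ∀ x ∈ Cell p h, lap f x = 0 := by
    intro x hx
    unfold lap
    rw [dx_congr (g := fun _ => 0) (isOpen_cell p h) (fun y hy => (h2 y hy).1) hx,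
      dy_congr (g := fun _ => 0) (isOpen_cell p h) (fun y hy => (h2 y hy).2) hx, dx_const,
      dy_const, add_zero]
  have h4 : ∀ x ∈ Strip h, 0 ≤ x.re → x.re < p → lap f x = 0 := by
    intro x hx hx0 hxp
    have hcont : ContinuousAt (lap f) x := (hf.le.lap_cont hS).continuousAt (hS.mem_nhds hx)
    have ht : Tendsto (fun e : ℝ => lap f (x + (e : ℂ))) (𝓝[>] 0) (𝓝 (lap f x)) := by
      have e1 : Tendsto (fun e : ℝ => x + (e : ℂ)) (𝓝[>] 0) (𝓝 x) := by
        have : Tendsto (fun e : ℝ => x + (e : ℂ)) (𝓝 0) (𝓝 (x + ((0 : ℝ) : ℂ))) :=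
          (continuous_const.add Complex.continuous_ofReal).tendsto 0
        rw [Complex.ofReal_zero, add_zero] at this
        exact this.mono_left nhdsWithin_le_nhds
      exact hcont.tendsto.comp e1
    have hz : (fun e : ℝ => lap f (x + (e : ℂ))) =ᶠ[𝓝[>] 0] fun _ => (0 : ℝ) := by
      have : Ioo (0 : ℝ) (p - x.re) ∈ 𝓝[>] (0 : ℝ) := Ioo_mem_nhdsGT (by linarith)
      filter_upwards [this] with e he
      refine h3 _ ⟨?_, ?_, ?_, ?_⟩
      · simp only [Complex.add_re, Complex.ofReal_re]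
        linarith [he.1]
      · simp only [Complex.add_re, Complex.ofReal_re]
        linarith [he.2]
      · simpa using hx.1
      · simpa using hx.2
    exact tendsto_nhds_unique ht (tendsto_const_nhds.congr' hz.symm)
  obtain ⟨x, hx, hne⟩ := h0
  refine hne ?_
  have hper := C3_per hf.per.lap (-⌊x.re / p⌋) x hx
  rw [← hper]
  refine h4 _ (strip_add _ hx) ?_ ?_
  · simp only [Complex.add_re, Complex.ofReal_re]
    have := Int.floor_le (x.re / p)
    rw [le_div_iff₀ hp] at this
    push_cast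
    linarith
  · simp only [Complex.add_re, Complex.ofReal_re]
    have := Int.lt_floor_add_one (x.re / p)
    rw [div_lt_iff₀ hp] at this
    push_cast
    linarith

/-- [YUT-C3] two stream functions with the same Laplacian have the same energy: for `θ = f - g`
(a `CS p h (C + C)` function) `∫ gsq θ = -∫ θ * 0 = 0`, so `fderiv ℝ θ = 0` on the cell. -/
theorem ch_ext (hp : 0 < p) (hh : 0 < h) {f g : ℂ → ℝ} {C : ℝ} (hf : CS p h C f)
    (hg : CS p h C g) (hl : ∀ x ∈ Strip h, lap f x = lap g x) :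
    ∫ x in Cell p h, gsq f x = ∫ x in Cell p h, gsq g x := by
  have hS := isOpen_strip h
  have df : ∀ x ∈ Strip h, DifferentiableAt ℝ f x := fun x hx => dat (n := 1) hS hf.le.1 hx
  have dg : ∀ x ∈ Strip h, DifferentiableAt ℝ g x := fun x hx => dat (n := 1) hS hg.le.1 hx
  have hθ : CS p h (C + C) (fun x => f x - g x) := by
    refine ⟨hf.le.sub hS hg.le, ?_, ?_, ?_, ?_, ?_⟩
    · intro x hx
      show f (x + p) - g (x + p) = f x - g x
      rw [hf.per x hx, hg.per x hx]
    · intro x hx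
      have := abs_sub (f x) (g x)
      linarith [hf.low x hx, hg.low x hx]
    · intro x hx
      have := abs_sub (f x) (g x)
      linarith [hf.up x hx, hg.up x hx]
    · intro x hx
      rw [dx_sub (df x hx) (dg x hx)]
      have := abs_sub (dx f x) (dx g x)
      linarith [hf.xlow x hx, hg.xlow x hx]
    · intro x hx
      rw [dx_sub (df x hx) (dg x hx)]
      have := abs_sub (dx f x) (dx g x)
      linarith [hf.xup x hx, hg.xup x hx]
  have h1 : ∫ x in Cell p h, gsq (fun x => f x - g x) x = 0 := by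
    rw [ch_dirichlet hp hh hθ]
    have : ∫ x in Cell p h, (f x - g x) * lap (fun x => f x - g x) x = ∫ x in Cell p h, (0 : ℝ) := by
      refine setIntegral_congr_fun (isOpen_cell p h).measurableSet fun x hx => ?_
      have hx' := cell_sub p h hx
      show (f x - g x) * lap (fun x => f x - g x) x = 0
      rw [lap_sub hS hf.le.1 hg.le.1 hx', hl x hx', sub_self, mul_zero]
    rw [this]
    simp
  have h2 := C3_zero hθ h1
  refine setIntegral_congr_fun (isOpen_cell p h).measurableSet fun x hx => ?_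
  have hx' := cell_sub p h hx
  obtain ⟨e1, e2⟩ := h2 x hx
  rw [dx_sub (df x hx') (dg x hx')] at e1
  rw [dy_sub (df x hx') (dg x hx')] at e2
  show gsq f x = gsq g x
  unfold gsq
  rw [sub_eq_zero.1 e1, sub_eq_zero.1 e2]

end Pool.Agent.YUT
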