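import Pool.Agent.YUT.C2

open MeasureTheory Set Filter Topology
open scoped ContDiff

namespace Pool.Agent.YUT

open Pool.Agent.YUD

variable {p h : ℝ}

theorem C4_im (x : ℂ) : DifferentiableAt ℝ (fun x : ℂ => x.im) x :=
  Complex.imCLM.differentiableAt

theorem C4_dx_im (x : ℂ) : dx (fun x : ℂ => x.im) x = 0 := by
  have : fderiv ℝ (fun x : ℂ => x.im) x = Complex.imCLM := Complex.imCLM.hasFDerivAt.fderiv
  unfold dx
  rw [this]
  simp

theorem C4_dy_im (x : ℂ) : dy (fun x : ℂ => x.im) x = 1 := by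
  have : fderiv ℝ (fun x : ℂ => x.im) x = Complex.imCLM := Complex.imCLM.hasFDerivAt.fderiv
  unfold dy
  rw [this]
  simp

theorem C4_div {f : ℂ → ℝ} {C : ℝ} (hf : CS p h C f) : ∀ x ∈ Strip h,
    dx (fun x => (x.im * dy f x - f x) * dx f x) x +
      dy (fun x => (x.im * dy f x - f x) * dy f x -
        1 / 2 * (x.im * (dx f x * dx f x + dy f x * dy f x))) x =
      (x.im * dy f x - f x) * lap f x - dx f x ^ 2 - 1 / 2 * gsq f x := by
  intro x hx
  have hS := isOpen_strip h
  have d1 : DifferentiableAt ℝ f x := dat (n := 1) hS hf.le.1 hx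
  have d2 : DifferentiableAt ℝ (dx f) x := dat (n := 0) hS (contDiffOn_dx (n := 1) hS hf.le.1) hx
  have d3 : DifferentiableAt ℝ (dy f) x := dat (n := 0) hS (contDiffOn_dy (n := 1) hS hf.le.1) hx
  have d0 := C4_im x
  have d4 : DifferentiableAt ℝ (fun x : ℂ => x.im * dy f x) x := d0.mul d3
  have d5 : DifferentiableAt ℝ (fun x : ℂ => x.im * dy f x - f x) x := d4.sub d1
  have d6 : DifferentiableAt ℝ (fun x : ℂ => dx f x * dx f x) x := d2.mul d2
  have d7 : DifferentiableAt ℝ (fun x : ℂ => dy f x * dy f x) x := d3.mul d3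
  have d8 : DifferentiableAt ℝ (fun x : ℂ => dx f x * dx f x + dy f x * dy f x) x := d6.add d7
  have d9 : DifferentiableAt ℝ (fun x : ℂ => x.im * (dx f x * dx f x + dy f x * dy f x)) x :=
    d0.mul d8
  have d10 : DifferentiableAt ℝ (fun x : ℂ => (x.im * dy f x - f x) * dy f x) x := d5.mul d3
  have d11 : DifferentiableAt ℝ
      (fun x : ℂ => 1 / 2 * (x.im * (dx f x * dx f x + dy f x * dy f x))) x :=
    (differentiableAt_const _).mul d9
  have hc := dx_dy_comm hS hf.le.1 hx
  rw [dx_mul d5 d2, dx_sub d4 d1, dx_mul d0 d3, C4_dx_im, dy_sub d10 d11, dy_mul d5 d3,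
    dy_sub d4 d1, dy_mul d0 d3, C4_dy_im, dy_const_mul _ d9, dy_mul d0 d8, C4_dy_im,
    dy_add d6 d7, dy_mul d2 d2, dy_mul d3 d3, hc, lap, gsq]
  ring

/-- [YUT-C4] the virial inequality on the channel. `ch_div` for
`F x = (x.im * dy f x - f x) * dx f x`, `G x = (x.im * dy f x - f x) * dy f x - 1/2 * x.im * gsq f x`.
With `dx (dy f) = dy (dx f)` (`dx_dy_comm`): `F_x + G_y = (y f_y - f) Δf - f_x^2 - 1/2 |∇f|^2`
(the derivative of `x ↦ x.im` is `0` in direction `1` and `1` in direction `I`). Bounds: at the lower wall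
`G ≤ (y C + C y) C = 2 C^2 y`; at the upper wall `G = 1/2 y f_y^2 - f f_y - 1/2 y f_x^2 ≥ -(C (h-y)) C - 1/2 h C (C (h-y))`;
`|F_x + G_y| ≤ B`: all terms are bounded by constants times `C^2`, `h`. So the integral of
`(y f_y - f) Δf` is at least the one of `f_x^2 + 1/2 |∇f|^2`. -/
theorem ch_virial (hp : 0 < p) (hh : 0 < h) {f : ℂ → ℝ} {C : ℝ} (hf : CS p h C f) :
    1 / 2 * ∫ x in Cell p h, gsq f x ≤ ∫ x in Cell p h, lap f x * gg vf f x := by
  have hS := isOpen_strip h
  have hC : 0 ≤ C := by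
    have hx : (⟨0, h / 2⟩ : ℂ) ∈ Strip h :=
      ⟨by show 0 < h / 2; linarith, by show h / 2 < h; linarith⟩
    exact (abs_nonneg _).trans (hf.le.abs_le _ hx)
  have cf : ContDiffOn ℝ 1 f (Strip h) := hf.le.1.of_le (by norm_num)
  have cx : ContDiffOn ℝ 1 (dx f) (Strip h) := contDiffOn_dx (n := 1) hS hf.le.1
  have cy : ContDiffOn ℝ 1 (dy f) (Strip h) := contDiffOn_dy (n := 1) hS hf.le.1
  have ci : ContDiffOn ℝ 1 (fun x : ℂ => x.im) (Strip h) := Complex.imCLM.contDiff.contDiffOn
  have hF : ContDiffOn ℝ 1 (fun x => (x.im * dy f x - f x) * dx f x) (Strip h) :=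
    ((ci.mul cy).sub cf).mul cx
  have hG : ContDiffOn ℝ 1 (fun x => (x.im * dy f x - f x) * dy f x -
        1 / 2 * (x.im * (dx f x * dx f x + dy f x * dy f x))) (Strip h) :=
    (((ci.mul cy).sub cf).mul cy).sub
      (contDiffOn_const.mul (ci.mul ((cx.mul cx).add (cy.mul cy))))
  have hdiv := C4_div hf
  have bx : ∀ x ∈ Strip h, dx f x ^ 2 ≤ C ^ 2 := fun x hx =>
    sq_le_sq' (abs_le.1 (hf.le.dx_le x hx)).1 (abs_le.1 (hf.le.dx_le x hx)).2
  have by' : ∀ x ∈ Strip h, dy f x ^ 2 ≤ C ^ 2 := fun x hx =>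
    sq_le_sq' (abs_le.1 (hf.le.dy_le x hx)).1 (abs_le.1 (hf.le.dy_le x hx)).2
  have bg : ∀ x ∈ Strip h, |x.im * dy f x - f x| ≤ 2 * C * x.im := by
    intro x hx
    have e1 : |x.im * dy f x| ≤ x.im * C := by
      rw [abs_mul, abs_of_pos hx.1]
      exact mul_le_mul_of_nonneg_left (hf.le.dy_le x hx) hx.1.le
    have := abs_sub (x.im * dy f x) (f x)
    linarith [hf.low x hx]
  have bl : ∀ x ∈ Strip h, |(x.im * dy f x - f x) * lap f x| ≤ 4 * C ^ 2 * h := by
    intro x hx
    have e1 := mul_le_mul (bg x hx) (hf.le.lap_le x hx) (abs_nonneg _)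
      (mul_nonneg (by linarith) hx.1.le)
    rw [← abs_mul] at e1
    have e2 : 2 * C * x.im * (2 * C) = 4 * C ^ 2 * x.im := by ring
    have e3 : 4 * C ^ 2 * x.im ≤ 4 * C ^ 2 * h := mul_le_mul_of_nonneg_left hx.2.le (by positivity)
    linarith
  have bd : ∀ x ∈ Strip h, |dx f x ^ 2 + 1 / 2 * gsq f x| ≤ 2 * C ^ 2 := by
    intro x hx
    have h1 := bx x hx
    have h2 := by' x hx
    have h3 := gsq_nonneg f x
    rw [abs_of_nonneg (by positivity), gsq]
    linarith
  have hB : ∀ x ∈ Strip h, |dx (fun x => (x.im * dy f x - f x) * dx f x) x +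
      dy (fun x => (x.im * dy f x - f x) * dy f x -
        1 / 2 * (x.im * (dx f x * dx f x + dy f x * dy f x))) x| ≤ 4 * C ^ 2 * (h + 1) := by
    intro x hx
    rw [hdiv x hx]
    have e1 : (x.im * dy f x - f x) * lap f x - dx f x ^ 2 - 1 / 2 * gsq f x =
        (x.im * dy f x - f x) * lap f x - (dx f x ^ 2 + 1 / 2 * gsq f x) := by ring
    rw [e1]
    have := abs_sub ((x.im * dy f x - f x) * lap f x) (dx f x ^ 2 + 1 / 2 * gsq f x)
    have := bl x hx
    have := bd x hx
    nlinarith [sq_nonneg C]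
  have h1 := ch_div hp hh hF hG (fun x hx => by
      have e1 := hf.per.dx x hx
      have e2 := hf.per.dy x hx
      have e3 := hf.per x hx
      show ((x + p).im * dy f (x + p) - f (x + p)) * dx f (x + p) =
        (x.im * dy f x - f x) * dx f x
      rw [e1, e2, e3]
      simp) hB
    (fun x hx => by
      have e1 := mul_le_mul (bg x hx) (hf.le.dy_le x hx) (abs_nonneg _)
        (mul_nonneg (by linarith) hx.1.le)
      rw [← abs_mul] at e1
      have e2 := (abs_le.1 e1).2
      have e3 : 0 ≤ x.im * (dx f x * dx f x + dy f x * dy f x) :=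
        mul_nonneg hx.1.le (by nlinarith [sq_nonneg (dx f x), sq_nonneg (dy f x)])
      have e4 : 2 * C * x.im * C = 2 * C ^ 2 * x.im := by ring
      have e5 : 2 * C ^ 2 * x.im ≤ 4 * C ^ 2 * (h + 1) * x.im := by
        refine mul_le_mul_of_nonneg_right ?_ hx.1.le
        nlinarith [sq_nonneg C]
      show (x.im * dy f x - f x) * dy f x -
        1 / 2 * (x.im * (dx f x * dx f x + dy f x * dy f x)) ≤ 4 * C ^ 2 * (h + 1) * x.im
      linarith)
    (fun x hx => by
      have hy : 0 ≤ h - x.im := by linarith [hx.2]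
      have e1 := mul_le_mul (hf.up x hx) (hf.le.dy_le x hx) (abs_nonneg _) (mul_nonneg hC hy)
      rw [← abs_mul] at e1
      have e2 := (abs_le.1 e1).2
      have e3 := mul_le_mul (hf.xup x hx) (hf.le.dx_le x hx) (abs_nonneg _) (mul_nonneg hC hy)
      rw [← abs_mul] at e3
      have e4 := (abs_le.1 e3).2
      have e5 : x.im * (dx f x * dx f x) ≤ h * (C * (h - x.im) * C) :=
        mul_le_mul hx.2.le e4 (by nlinarith [sq_nonneg (dx f x)]) hh.le
      have e6 : 0 ≤ x.im * (dy f x * dy f x) :=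
        mul_nonneg hx.1.le (by nlinarith [sq_nonneg (dy f x)])
      have e7 : 0 ≤ C * (h - x.im) * C := mul_nonneg (mul_nonneg hC hy) hC
      have e8 : 0 ≤ h * (C * (h - x.im) * C) := mul_nonneg hh.le e7
      have e9 : 4 * C ^ 2 * (h + 1) * (h - x.im) =
        4 * (h * (C * (h - x.im) * C)) + 4 * (C * (h - x.im) * C) := by ring
      show -(4 * C ^ 2 * (h + 1) * (h - x.im)) ≤ (x.im * dy f x - f x) * dy f x -
        1 / 2 * (x.im * (dx f x * dx f x + dy f x * dy f x))
      have e10 : (x.im * dy f x - f x) * dy f x -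
        1 / 2 * (x.im * (dx f x * dx f x + dy f x * dy f x)) =
        1 / 2 * (x.im * (dy f x * dy f x)) - f x * dy f x - 1 / 2 * (x.im * (dx f x * dx f x)) := by
        ring
      rw [e10, e9]
      linarith)
  have hcont : ContinuousOn (fun x => (x.im * dy f x - f x) * lap f x) (Strip h) :=
    ((ci.continuousOn.mul cy.continuousOn).sub cf.continuousOn).mul (hf.le.lap_cont hS)
  have e3 : ∫ x in Cell p h, (dx (fun x => (x.im * dy f x - f x) * dx f x) x +
      dy (fun x => (x.im * dy f x - f x) * dy f x -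
        1 / 2 * (x.im * (dx f x * dx f x + dy f x * dy f x))) x) =
      ∫ x in Cell p h, ((x.im * dy f x - f x) * lap f x - (dx f x ^ 2 + 1 / 2 * gsq f x)) := by
    refine setIntegral_congr_fun (isOpen_cell p h).measurableSet fun x hx => ?_
    refine (hdiv x (cell_sub p h hx)).trans ?_
    ring
  have i1 : IntegrableOn (fun x => (x.im * dy f x - f x) * lap f x) (Cell p h) :=
    int_cell hcont bl
  have hgc : ContinuousOn (gsq f) (Strip h) := (cx.continuousOn.pow 2).add (cy.continuousOn.pow 2)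
  have i2 : IntegrableOn (fun x => dx f x ^ 2 + 1 / 2 * gsq f x) (Cell p h) :=
    int_cell ((cx.continuousOn.pow 2).add (continuousOn_const.mul hgc)) bd
  have i3 : IntegrableOn (fun x => 1 / 2 * gsq f x) (Cell p h) := by
    refine int_cell (B := 2 * C ^ 2) (continuousOn_const.mul hgc) fun x hx => ?_
    have h1 := bx x hx
    have h2 := by' x hx
    have h3 := gsq_nonneg f x
    rw [abs_of_nonneg (by positivity), gsq]
    nlinarith [sq_nonneg C]
  rw [e3, integral_sub i1 i2] at h1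
  have e4 : ∫ x in Cell p h, 1 / 2 * gsq f x ≤ ∫ x in Cell p h, (dx f x ^ 2 + 1 / 2 * gsq f x) :=
    setIntegral_mono_on i3 i2 (isOpen_cell p h).measurableSet fun x _ => by
      nlinarith [sq_nonneg (dx f x)]
  have e5 : ∫ x in Cell p h, lap f x * gg vf f x =
      ∫ x in Cell p h, (x.im * dy f x - f x) * lap f x := by
    refine setIntegral_congr_fun (isOpen_cell p h).measurableSet fun x _ => ?_
    show lap f x * gg vf f x = _
    rw [gg_vf, mul_comm]
  rw [e5, ← integral_const_mul]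
  linarith

end Pool.Agent.YUT
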