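import Pool.Agent.YUT.CBase

open MeasureTheory Set Filter Topology
open scoped ContDiff

namespace Pool.Agent.YUT

open Pool.Agent.YUD

variable {p h : ℝ}

/-- the vertical period strip -/
def C5_Q (p : ℝ) : Set ℂ := {x | 0 ≤ x.re ∧ x.re < p}

theorem C5_meas (p : ℝ) : MeasurableSet (C5_Q p) := by
  have e : C5_Q p = Complex.re ⁻¹' Ico 0 p := by ext x; simp [C5_Q]
  rw [e]
  exact Complex.measurable_re measurableSet_Ico

theorem C5_unique (hp : 0 < p) (x : ℂ) :
    ∃! g : AddSubgroup.zmultiples (p : ℂ), (g : ℂ) + x ∈ C5_Q p := by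
  obtain ⟨m, hm, hu⟩ := existsUnique_add_zsmul_mem_Ico hp x.re 0
  rw [zero_add] at hm
  have key : ∀ n : ℤ, (n • (p : ℂ) + x ∈ C5_Q p) ↔ x.re + n • p ∈ Ico 0 p := by
    intro n
    simp only [C5_Q, mem_ofPred_eq, Complex.add_re, zsmul_eq_mul, Complex.mul_re,
      Complex.intCast_re, Complex.intCast_im, Complex.ofReal_re, Complex.ofReal_im, mul_zero,
      sub_zero, mem_Ico]
    rw [add_comm]
  refine ⟨⟨m • (p : ℂ), AddSubgroup.mem_zmultiples_iff.2 ⟨m, rfl⟩⟩, (key m).2 hm, ?_⟩
  rintro ⟨g, hg⟩ hgx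
  obtain ⟨n, rfl⟩ := AddSubgroup.mem_zmultiples_iff.1 hg
  have h1 : n = m := hu n (by
    rw [zero_add]
    exact (key n).1 hgx)
  subst h1
  rfl

theorem C5_strip (h : ℝ) (g : AddSubgroup.zmultiples (p : ℂ)) (x : ℂ) :
    (g : ℂ) + x ∈ Strip h ↔ x ∈ Strip h := by
  obtain ⟨g, hg⟩ := g
  obtain ⟨n, rfl⟩ := AddSubgroup.mem_zmultiples_iff.1 hg
  simp [Strip]

theorem C5_zsmul {k : ℂ → ℂ} (hk : ∀ x ∈ Strip h, k (x + p) = k x + p) (n : ℤ) :
    ∀ x ∈ Strip h, k (n • (p : ℂ) + x) = n • (p : ℂ) + k x := by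
  induction n using Int.induction_on with
  | zero => intro x _; simp
  | succ n ih =>
    intro x hx
    have e : (((n : ℤ) + 1) • (p : ℂ) + x) = ((n : ℤ) • (p : ℂ) + x) + p := by
      rw [add_smul, one_smul]
      ring
    have hx' : (n : ℤ) • (p : ℂ) + x ∈ Strip h :=
      (C5_strip h ⟨(n : ℤ) • (p : ℂ), AddSubgroup.mem_zmultiples_iff.2 ⟨n, rfl⟩⟩ x).2 hx
    rw [e, hk _ hx', ih x hx, add_smul, one_smul]
    ring
  | pred n ih =>
    intro x hx
    have hx' : x - p ∈ Strip h := by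
      have := strip_add (-p) hx
      rwa [Complex.ofReal_neg, ← sub_eq_add_neg] at this
    have e : ((-(n : ℤ) - 1) • (p : ℂ) + x) = (-(n : ℤ)) • (p : ℂ) + (x - p) := by
      rw [sub_smul, one_smul]
      ring
    have e2 := hk _ hx'
    rw [sub_add_cancel] at e2
    rw [e, ih _ hx', e2, sub_smul, one_smul]
    ring

theorem C5_per {k : ℂ → ℝ} (hk : Per p (Strip h) k) (n : ℤ) :
    ∀ x ∈ Strip h, k (n • (p : ℂ) + x) = k x := by
  induction n using Int.induction_on with
  | zero => intro x _; simp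
  | succ n ih =>
    intro x hx
    have e : (((n : ℤ) + 1) • (p : ℂ) + x) = ((n : ℤ) • (p : ℂ) + x) + p := by
      rw [add_smul, one_smul]
      ring
    have hx' : (n : ℤ) • (p : ℂ) + x ∈ Strip h :=
      (C5_strip h ⟨(n : ℤ) • (p : ℂ), AddSubgroup.mem_zmultiples_iff.2 ⟨n, rfl⟩⟩ x).2 hx
    rw [e, hk _ hx', ih x hx]
  | pred n ih =>
    intro x hx
    have hx' : x - p ∈ Strip h := by
      have := strip_add (-p) hx
      rwa [Complex.ofReal_neg, ← sub_eq_add_neg] at this
    have e : ((-(n : ℤ) - 1) • (p : ℂ) + x) = (-(n : ℤ)) • (p : ℂ) + (x - p) := by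
      rw [sub_smul, one_smul]
      ring
    rw [e, ih _ hx', ← hk _ hx', sub_add_cancel]

theorem C5_cell (p h : ℝ) : (C5_Q p ∩ Strip h : Set ℂ) =ᵐ[volume] Cell p h := by
  have h0 : volume {x : ℂ | x.re = 0} = 0 := by
    have hz := (Complex.volume_preserving_equiv_real_prod).measure_preimage
      (s := ({0} : Set ℝ) ×ˢ (univ : Set ℝ))
      ((measurableSet_singleton (0 : ℝ)).prod MeasurableSet.univ).nullMeasurableSet
    have e : (Complex.measurableEquivRealProd ⁻¹' (({0} : Set ℝ) ×ˢ (univ : Set ℝ))) =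
        {x : ℂ | x.re = 0} := by
      ext x
      simp [Complex.measurableEquivRealProd_apply]
    rw [e] at hz
    rw [hz, Measure.volume_eq_prod, Measure.prod_prod]
    simp
  have h1 : ∀ᵐ x : ℂ ∂volume, x.re ≠ 0 := by
    rw [ae_iff]
    simpa using h0
  filter_upwards [h1] with x hx
  apply propext
  show (x ∈ C5_Q p ∩ Strip h) ↔ (x ∈ Cell p h)
  constructor
  · rintro ⟨⟨e1, e2⟩, e3⟩
    exact ⟨lt_of_le_of_ne e1 (Ne.symm hx), e2, e3.1, e3.2⟩
  · rintro ⟨e1, e2, e3, e4⟩
    exact ⟨⟨e1.le, e2⟩, e3, e4⟩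

/-- [YUT-C5] `Φ t` preserves the integral of periodic functions over the cell. Let `G` be the subgroup
`AddSubgroup.zmultiples (p : ℂ)` acting on `ℂ` by translation, `Q' = {x | 0 ≤ x.re < p}`, `S = Strip h`,
`μ = volume.restrict S` (invariant under `G`, as `S` is). `Q'` is a fundamental domain for `G` and `μ`, and so is
`Φ t '' (Q' ∩ S)`: every `x ∈ S` is `Φ t y` with `y ∈ S`, there is exactly one `n : ℤ` with `y + n p ∈ Q'`, and
`Φ t (y + n p) = x + n p` (from `hF.per`, induction on `n`; injectivity of `Φ t`). Hence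
(`IsAddFundamentalDomain.setIntegral_eq`, for the `G`-periodic function `S.indicator k`) the integrals of `k` over
`Q' ∩ S` and over `Φ t '' (Q' ∩ S)` agree, and the latter is the integral of `k ∘ Φ t` over `Q' ∩ S` by
`integral_image_eq_integral_abs_det_fderiv_smul` (as in `M1b.lean`, `Flow.integral_comp`). `Q' ∩ S` and the cell
differ by a subset of the line `re = 0`, a null set. (Alternatively: compare the integrals over `N` periods, using
that `‖Φ t x - x‖` is bounded on the strip, and divide by `N`.) -/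
theorem PFlow.comp {w₀ : ℂ → ℝ} {ψ : ℝ → ℂ → ℝ} {Φ : ℝ → ℂ → ℂ} (hp : 0 < p) (hh : 0 < h)
    (hF : PFlow p (Strip h) w₀ ψ Φ) {t : ℝ} (ht : 0 ≤ t) {k : ℂ → ℝ} (hk : Per p (Strip h) k) :
    ∫ x in Cell p h, k (Φ t x) = ∫ x in Cell p h, k x := by
  have hS := isOpen_strip h
  have hbij := hF.bij t ht
  have hcd : ContDiffOn ℝ 1 (Φ t) (Strip h) := hF.weak.contDiffOn hS ht
  have hQS : MeasurableSet (C5_Q p ∩ Strip h) := (C5_meas p).inter hS.measurableSet
  set I : Set ℂ := Φ t '' (C5_Q p ∩ Strip h) with hI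
  have hIm : MeasurableSet I :=
    hQS.image_of_continuousOn_injOn (hcd.continuousOn.mono inter_subset_right)
      (hbij.injOn.mono inter_subset_right)
  have hIS : I ⊆ Strip h := by
    rintro _ ⟨y, hy, rfl⟩
    exact hbij.mapsTo hy.2
  set T : Set ℂ := I ∪ (C5_Q p \ Strip h) with hT
  have f1 : IsAddFundamentalDomain (AddSubgroup.zmultiples (p : ℂ)) (C5_Q p)
      (volume : Measure ℂ) :=
    IsAddFundamentalDomain.mk' (C5_meas p).nullMeasurableSet fun x => C5_unique hp x
  have f2 : IsAddFundamentalDomain (AddSubgroup.zmultiples (p : ℂ)) T (volume : Measure ℂ) := by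
    refine IsAddFundamentalDomain.mk'
      (hIm.union ((C5_meas p).diff hS.measurableSet)).nullMeasurableSet fun x => ?_
    by_cases hx : x ∈ Strip h
    · obtain ⟨y, hy, hyx⟩ := hbij.surjOn hx
      have key : ∀ g : AddSubgroup.zmultiples (p : ℂ), (g +ᵥ x ∈ T) ↔ ((g : ℂ) + y ∈ C5_Q p) := by
        intro g
        have hgx : (g : ℂ) + x ∈ Strip h := (C5_strip h g x).2 hx
        have hgy : (g : ℂ) + y ∈ Strip h := (C5_strip h g y).2 hy
        have hΦ : Φ t ((g : ℂ) + y) = (g : ℂ) + x := by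
          obtain ⟨g, hg⟩ := g
          obtain ⟨n, rfl⟩ := AddSubgroup.mem_zmultiples_iff.1 hg
          rw [← hyx]
          exact C5_zsmul (fun z hz => (hF.per t ht z hz).2) n y hy
        show ((g : ℂ) + x ∈ T) ↔ _
        constructor
        · rintro (⟨z, hz, hzx⟩ | hz)
          · rw [← hΦ] at hzx
            rw [← hbij.injOn hz.2 hgy hzx]
            exact hz.1
          · exact absurd hgx hz.2
        · intro hq
          exact Or.inl ⟨_, ⟨hq, hgy⟩, hΦ⟩
      obtain ⟨g, hg, hu⟩ := C5_unique hp y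
      exact ⟨g, (key g).2 hg, fun g' hg' => hu g' ((key g').1 hg')⟩
    · have key : ∀ g : AddSubgroup.zmultiples (p : ℂ), (g +ᵥ x ∈ T) ↔ ((g : ℂ) + x ∈ C5_Q p) := by
        intro g
        have hgx : (g : ℂ) + x ∉ Strip h := fun h' => hx ((C5_strip h g x).1 h')
        show ((g : ℂ) + x ∈ T) ↔ _
        constructor
        · rintro (hz | hz)
          · exact absurd (hIS hz) hgx
          · exact hz.1
        · intro hq
          exact Or.inr ⟨hq, hgx⟩
      obtain ⟨g, hg, hu⟩ := C5_unique hp x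
      exact ⟨g, (key g).2 hg, fun g' hg' => hu g' ((key g').1 hg')⟩
  have h1 := f1.setIntegral_eq f2 (f := (Strip h).indicator k) (fun g x => by
    show (Strip h).indicator k ((g : ℂ) + x) = (Strip h).indicator k x
    by_cases hx : x ∈ Strip h
    · rw [indicator_of_mem hx, indicator_of_mem ((C5_strip h g x).2 hx)]
      obtain ⟨g, hg⟩ := g
      obtain ⟨n, rfl⟩ := AddSubgroup.mem_zmultiples_iff.1 hg
      exact C5_per hk n x hx
    · rw [indicator_of_notMem hx, indicator_of_notMem fun h' => hx ((C5_strip h g x).1 h')])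
  have e1 : ∫ x in C5_Q p, (Strip h).indicator k x = ∫ x in C5_Q p ∩ Strip h, k x := by
    rw [setIntegral_indicator hS.measurableSet]
  have e2 : ∫ x in T, (Strip h).indicator k x = ∫ x in I, k x := by
    rw [setIntegral_indicator hS.measurableSet]
    congr 2
    ext x
    constructor
    · rintro ⟨hx | hx, hx'⟩
      · exact hx
      · exact absurd hx' hx.2
    · intro hx
      exact ⟨Or.inl hx, hIS hx⟩
  have e3 : ∫ x in I, k x = ∫ x in C5_Q p ∩ Strip h, k (Φ t x) := by
    have h1 := integral_image_eq_integral_abs_det_fderiv_smul (μ := volume)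
      (s := C5_Q p ∩ Strip h) (f := Φ t) (f' := fun x => fderiv ℝ (Φ t) x) hQS
      (fun x hx => ((hcd.differentiableOn (by norm_num)).differentiableAt
        (hS.mem_nhds hx.2)).hasFDerivAt.hasFDerivWithinAt)
      (hbij.injOn.mono inter_subset_right) k
    rw [hI, h1]
    refine setIntegral_congr_fun hQS fun x hx => ?_
    simp only [hF.area t ht x hx.2, abs_one, one_smul]
  rw [e1, e2, e3] at h1
  rw [← setIntegral_congr_set (C5_cell p h), ← setIntegral_congr_set (C5_cell p h)]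
  exact h1.symm

end Pool.Agent.YUT
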