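import Pool.Agent.YUT.C1

open MeasureTheory Set Filter Topology
open scoped ContDiff

namespace Pool.Agent.YUT

open Pool.Agent.YUD

variable {p h : ℝ}

/-- [YUT-C6a] the stream functions of a flow of the channel, locally uniformly in time: `cs_of`. -/
theorem PFlow.cs {w₀ : ℂ → ℝ} {ψ : ℝ → ℂ → ℝ} {Φ : ℝ → ℂ → ℂ} (hp : 0 < p) (hh : 0 < h)
    (hF : PFlow p (Strip h) w₀ ψ Φ) (T : ℝ) :
    ∃ C : ℝ, 0 ≤ C ∧ ∀ t, 0 ≤ t → t ≤ T → CS p h C (ψ t) := by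
  obtain ⟨C, hC⟩ := hF.stream T
  refine ⟨|C|, abs_nonneg C, fun t h0 h1 => ?_⟩
  obtain ⟨a, b, c⟩ := hC t h0 h1
  have h2 : C2Le (Strip h) C (ψ t) := ⟨a, b⟩
  exact cs_of hp hh (h2.mono (le_abs_self C)) (fun x hx => (hF.per t h0 x hx).1) c

/-- [YUT-C6a] the initial vorticity is bounded and continuous on the strip, and periodic
(`lap (ψ 0)` is `w₀` on the strip, as `Φ 0 x = x`); cf. `Flow.w0_bdd` in `M1b.lean`. -/
theorem PFlow.w0 {w₀ : ℂ → ℝ} {ψ : ℝ → ℂ → ℝ} {Φ : ℝ → ℂ → ℂ} (hp : 0 < p) (hh : 0 < h)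
    (hF : PFlow p (Strip h) w₀ ψ Φ) : (∀ x ∈ Strip h, lap (ψ 0) x = w₀ x) ∧
      ContinuousOn w₀ (Strip h) ∧ Per p (Strip h) w₀ ∧ ∃ B, 0 ≤ B ∧ ∀ x ∈ Strip h, |w₀ x| ≤ B := by
  have hw : ∀ x ∈ Strip h, lap (ψ 0) x = w₀ x := by
    intro x hx
    have h1 := hF.vort 0 le_rfl x hx
    rwa [hF.start x hx] at h1
  obtain ⟨C, hC0, hC⟩ := hF.cs hp hh 0
  have h0 := hC 0 le_rfl le_rfl
  refine ⟨hw, (h0.le.lap_cont (isOpen_strip h)).congr fun x hx => (hw x hx).symm, ?_, 2 * C,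
    by positivity, ?_⟩
  · intro x hx
    rw [← hw x hx, ← hw (x + p) (strip_add p hx)]
    exact h0.per.lap x hx
  · intro x hx
    rw [← hw x hx]
    exact h0.le.lap_le x hx

/-- [YUT-C6a] continuity in time of the gradient in `L¹` of the cell: the proof of `Flow.grad_cont`
(`M1d.lean`) with the set of integration `M` replaced by `Cell p h` (an open bounded subset of the strip). -/
theorem PFlow.grad_cont {w₀ : ℂ → ℝ} {ψ : ℝ → ℂ → ℝ} {Φ : ℝ → ℂ → ℂ} (hp : 0 < p) (hh : 0 < h)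
    (hF : PFlow p (Strip h) w₀ ψ Φ) (T : ℝ) {ε : ℝ} (hε : 0 < ε) :
    ∃ δ > 0, ∀ s s' : ℝ, 0 ≤ s → s ≤ T → 0 ≤ s' → s' ≤ T → |s - s'| < δ →
      ∫ x in Cell p h, ‖fderiv ℝ (ψ s) x - fderiv ℝ (ψ s') x‖ ≤ ε := by
  obtain ⟨C, hC0, hC⟩ := hF.cs hp hh T
  have hM : IsOpen (Cell p h) := isOpen_cell p h
  have hfin : volume (Cell p h) ≠ ⊤ := (cell_bounded p h).measure_lt_top.ne
  have hcx : ∀ x ∈ Cell p h, ContinuousOn (fun s => fderiv ℝ (ψ s) x) (Ici 0) := by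
    intro x hx
    have h1 := hF.cont.comp (continuousOn_id.prodMk continuousOn_const :
      ContinuousOn (fun s : ℝ => (s, x)) (Ici (0 : ℝ))) (fun s hs => ⟨hs, cell_sub p h hx⟩)
    exact h1.snd
  have hfc : ∀ s, 0 ≤ s → s ≤ T → ContinuousOn (fderiv ℝ (ψ s)) (Cell p h) := fun s h0 h1 =>
    ((hC s h0 h1).le.fderiv_cont (isOpen_strip h)).mono (cell_sub p h)
  have hN : ContinuousOn (fun q : ℝ × ℝ => ∫ x in Cell p h,
      ‖fderiv ℝ (ψ q.1) x - fderiv ℝ (ψ q.2) x‖) (Icc 0 T ×ˢ Icc 0 T) := by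
    refine continuousOn_of_dominated (bound := fun _ => 2 * C + 2 * C) ?_ ?_ ?_ ?_
    · intro q hq
      exact (((hfc q.1 hq.1.1 hq.1.2).sub (hfc q.2 hq.2.1 hq.2.2)).norm).aestronglyMeasurable
        hM.measurableSet
    · intro q hq
      refine ae_restrict_of_forall_mem hM.measurableSet fun x hx => ?_
      rw [norm_norm]
      exact (norm_sub_le _ _).trans (add_le_add
        ((hC q.1 hq.1.1 hq.1.2).le.fderiv_le x (cell_sub p h hx))
        ((hC q.2 hq.2.1 hq.2.2).le.fderiv_le x (cell_sub p h hx)))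
    · exact integrableOn_const hfin
    · refine ae_restrict_of_forall_mem hM.measurableSet fun x hx => ?_
      exact (((hcx x hx).comp continuousOn_fst (fun q hq => hq.1.1)).sub
        ((hcx x hx).comp continuousOn_snd (fun q hq => hq.2.1))).norm
  have hU := (isCompact_Icc.prod isCompact_Icc).uniformContinuousOn_of_continuous hN
  rw [Metric.uniformContinuousOn_iff] at hU
  obtain ⟨δ, hδ, hU⟩ := hU ε hε
  refine ⟨δ, hδ, fun s s' h0 h1 h0' h1' hd => ?_⟩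
  have h2 := hU (s, s') ⟨⟨h0, h1⟩, ⟨h0', h1'⟩⟩ (s, s) ⟨⟨h0, h1⟩, ⟨h0, h1⟩⟩ (by
    rw [Prod.dist_eq]
    simp only [dist_self]
    rw [max_eq_right dist_nonneg, Real.dist_eq, abs_sub_comm]
    exact hd)
  simp only [sub_self, norm_zero, integral_zero, Real.dist_eq, sub_zero] at h2
  exact (le_abs_self _).trans h2.le

end Pool.Agent.YUT
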