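import Pool.Agent.YUT.C3
import Pool.Agent.YUT.C5
import Pool.Agent.YUT.C6a

open MeasureTheory Set Filter Topology
open scoped ContDiff

namespace Pool.Agent.YUT

open Pool.Agent.YUD

variable {p h : ℝ}

/-- `{ψ_s, ψ_a + ψ_b}` is bounded by the gradients of `ψ_a - ψ_s`, `ψ_b - ψ_s` -/
theorem C6b_pb {f g k : ℂ → ℝ} {C : ℝ} (hf : C2Le (Strip h) C f)
    (hg : C2Le (Strip h) C g) (hk : C2Le (Strip h) C k) {x : ℂ} (hx : x ∈ Strip h) :
    |pb k (fun y => f y + g y) x| ≤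
      4 * |C| * (‖fderiv ℝ f x - fderiv ℝ k x‖ + ‖fderiv ℝ g x - fderiv ℝ k x‖) := by
  have hM := isOpen_strip h
  have hfd := hf.diffOn.differentiableAt (hM.mem_nhds hx)
  have hgd := hg.diffOn.differentiableAt (hM.mem_nhds hx)
  have hkd := hk.diffOn.differentiableAt (hM.mem_nhds hx)
  have h1 : pb k (fun y => f y + g y) x = pb k (fun y => f y - k y) x + pb k (fun y => g y - k y) x := by
    have e1 : fderiv ℝ (fun y => f y + g y) x = fderiv ℝ f x + fderiv ℝ g x := fderiv_fun_add hfd hgd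
    have e2 : fderiv ℝ (fun y => f y - k y) x = fderiv ℝ f x - fderiv ℝ k x := fderiv_fun_sub hfd hkd
    have e3 : fderiv ℝ (fun y => g y - k y) x = fderiv ℝ g x - fderiv ℝ k x := fderiv_fun_sub hgd hkd
    simp only [pb, dx, dy, e1, e2, e3, add_apply, sub_apply]
    ring
  have e2 : fderiv ℝ (fun y => f y - k y) x = fderiv ℝ f x - fderiv ℝ k x := fderiv_fun_sub hfd hkd
  have e3 : fderiv ℝ (fun y => g y - k y) x = fderiv ℝ g x - fderiv ℝ k x := fderiv_fun_sub hgd hkd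
  have h2 := abs_pb_le k (fun y => f y - k y) x
  have h3 := abs_pb_le k (fun y => g y - k y) x
  rw [e2] at h2
  rw [e3] at h3
  have h4 : ‖fderiv ℝ k x‖ ≤ 2 * |C| := (hk.fderiv_le x hx).trans (by linarith [le_abs_self C])
  have h5 : 2 * ‖fderiv ℝ k x‖ * ‖fderiv ℝ f x - fderiv ℝ k x‖ ≤
      4 * |C| * ‖fderiv ℝ f x - fderiv ℝ k x‖ :=
    mul_le_mul_of_nonneg_right (by linarith) (norm_nonneg _)
  have h6 : 2 * ‖fderiv ℝ k x‖ * ‖fderiv ℝ g x - fderiv ℝ k x‖ ≤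
      4 * |C| * ‖fderiv ℝ g x - fderiv ℝ k x‖ :=
    mul_le_mul_of_nonneg_right (by linarith) (norm_nonneg _)
  rw [h1]
  refine (abs_add_le _ _).trans ?_
  rw [mul_add]
  linarith

/-- the difference of the gradients at time `s`, composed with the flow -/
noncomputable def C6b_D (ψ : ℝ → ℂ → ℝ) (Φ : ℝ → ℂ → ℂ) (a b : ℝ) (x : ℂ) (s : ℝ) : ℝ :=
  ‖fderiv ℝ (ψ a) (Φ s x) - fderiv ℝ (ψ s) (Φ s x)‖ + ‖fderiv ℝ (ψ b) (Φ s x) - fderiv ℝ (ψ s) (Φ s x)‖

theorem C6b_D_cont {M : Set ℂ} {w₀ : ℂ → ℝ} {ψ : ℝ → ℂ → ℝ} {Φ : ℝ → ℂ → ℂ} (hM : IsOpen M)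
    (hF : WFlow M w₀ ψ Φ) {a b : ℝ} (ha : 0 ≤ a) (hab : a ≤ b) :
    ContinuousOn (fun q : ℂ × ℝ => C6b_D ψ Φ a b q.1 q.2) (M ×ˢ Ici 0) := by
  have h1 : ContinuousOn (fun q : ℂ × ℝ => Φ q.2 q.1) (M ×ˢ Ici 0) := by
    have h2 := hF.cont_Phi.comp (continuous_swap.continuousOn (s := M ×ˢ Ici (0 : ℝ)))
      (fun q hq => ⟨hq.2, hq.1⟩)
    exact h2
  have hmem : ∀ q ∈ M ×ˢ Ici (0 : ℝ), Φ q.2 q.1 ∈ M := fun q hq => (hF.bij q.2 hq.2).mapsTo hq.1
  have h3 : ContinuousOn (fun q : ℂ × ℝ => fderiv ℝ (ψ q.2) (Φ q.2 q.1)) (M ×ˢ Ici 0) := by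
    have h4 : ContinuousOn (fun q : ℝ × ℂ => fderiv ℝ (ψ q.1) q.2) (Ici 0 ×ˢ M) :=
      continuous_snd.comp_continuousOn hF.cont
    exact h4.comp (continuousOn_snd.prodMk h1) (fun q hq => ⟨hq.2, hmem q hq⟩)
  have h5 : ∀ t, 0 ≤ t → ContinuousOn (fun q : ℂ × ℝ => fderiv ℝ (ψ t) (Φ q.2 q.1)) (M ×ˢ Ici 0) := by
    intro t ht
    obtain ⟨C, hC⟩ := hF.stream t
    exact ((hC t ht le_rfl).fderiv_cont hM).comp h1 hmem
  exact ((h5 a ha).sub h3).norm.add ((h5 b (ha.trans hab)).sub h3).norm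

/-- [YUT-C6b] the basic estimate for the energy on the channel: the proof of `Flow.energy_step`
(`E1a.lean`, complete; copy it) with all integrals over `Cell p h`, `ch_symm`, `ch_dirichlet` for `green_symm`,
`dirichlet`, `PFlow.comp` for `Flow.integral_comp` (for the periodic functions `x ↦ (ψ a x + ψ b x) * lap (ψ t) x`,
and `x ↦ ‖fderiv ℝ (ψ a) x - fderiv ℝ (ψ s) x‖ + ‖fderiv ℝ (ψ b) x - fderiv ℝ (ψ s) x‖`: `Per.lap`,
`Per.fderiv_eq`), and `hF.weak.transport` (`WFlow.transport`, `PBase.lean`) for `Flow.transport`. The functions are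
continuous and bounded on the strip, the cell is an open bounded subset of the strip (`cell_sub`). -/
theorem PFlow.energy_step {w₀ : ℂ → ℝ} {ψ : ℝ → ℂ → ℝ} {Φ : ℝ → ℂ → ℂ} (hp : 0 < p) (hh : 0 < h)
    (hF : PFlow p (Strip h) w₀ ψ Φ) (T : ℝ) : ∃ K : ℝ, 0 ≤ K ∧ ∀ a b : ℝ, 0 ≤ a → a ≤ b → b ≤ T →
      |(∫ x in Cell p h, gsq (ψ b) x) - ∫ x in Cell p h, gsq (ψ a) x| ≤
        K * ∫ s in a..b, ((∫ x in Cell p h, ‖fderiv ℝ (ψ a) x - fderiv ℝ (ψ s) x‖) +
          ∫ x in Cell p h, ‖fderiv ℝ (ψ b) x - fderiv ℝ (ψ s) x‖) := by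
  obtain ⟨C, hC0, hC⟩ := hF.cs hp hh T
  obtain ⟨hw0, hw, hwp, B, hB0, hB⟩ := hF.w0 hp hh
  have hS : IsOpen (Strip h) := isOpen_strip h
  have hM : IsOpen (Cell p h) := isOpen_cell p h
  have hb : Bornology.IsBounded (Cell p h) := cell_bounded p h
  have hsub : Cell p h ⊆ Strip h := cell_sub p h
  have hW := hF.weak
  refine ⟨B * (4 * |C|), by positivity, ?_⟩
  intro a b ha hab hbT
  have hfin : volume (Cell p h) < ⊤ := hb.measure_lt_top
  have hμ : IsFiniteMeasure (volume.restrict (Cell p h)) := isFiniteMeasure_restrict.2 hfin.ne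
  have hb0 : 0 ≤ b := ha.trans hab
  have hsa := hC a ha (hab.trans hbT)
  have hsb := hC b hb0 hbT
  have hf : C2Le (Strip h) (C + C) (fun x => ψ a x + ψ b x) := hsa.le.add hS hsb.le
  -- integrability of products
  have hint : ∀ f g : ℂ → ℝ, CS p h C f → CS p h C g →
      IntegrableOn (fun x => f x * lap g x) (Cell p h) := by
    intro f g hf hg
    refine int_cell (B := |C| * (2 * |C|)) (hf.le.cont.mul (hg.le.lap_cont hS)) ?_
    intro x hx
    rw [abs_mul]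
    exact mul_le_mul ((hf.le.abs_le x hx).trans (le_abs_self C))
      ((hg.le.lap_le x hx).trans (by linarith [le_abs_self C])) (abs_nonneg _) (abs_nonneg _)
  -- step 1
  have h1 : (∫ x in Cell p h, gsq (ψ b) x) - ∫ x in Cell p h, gsq (ψ a) x =
      -((∫ x in Cell p h, (ψ a x + ψ b x) * lap (ψ b) x) -
        ∫ x in Cell p h, (ψ a x + ψ b x) * lap (ψ a) x) := by
    have e1 : (∫ x in Cell p h, (ψ a x + ψ b x) * lap (ψ b) x) =
        (∫ x in Cell p h, ψ a x * lap (ψ b) x) + ∫ x in Cell p h, ψ b x * lap (ψ b) x := by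
      rw [← integral_add (hint _ _ hsa hsb) (hint _ _ hsb hsb)]
      exact integral_congr_ae (Eventually.of_forall fun x => by ring)
    have e2 : (∫ x in Cell p h, (ψ a x + ψ b x) * lap (ψ a) x) =
        (∫ x in Cell p h, ψ a x * lap (ψ a) x) + ∫ x in Cell p h, ψ b x * lap (ψ a) x := by
      rw [← integral_add (hint _ _ hsa hsa) (hint _ _ hsb hsa)]
      exact integral_congr_ae (Eventually.of_forall fun x => by ring)
    rw [ch_dirichlet hp hh hsa, ch_dirichlet hp hh hsb, e1, e2, ch_symm hp hh hsa hsb]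
    ring
  -- step 2
  have h2 : ∀ t, 0 ≤ t → t ≤ T → (∫ x in Cell p h, (ψ a x + ψ b x) * lap (ψ t) x) =
      ∫ x in Cell p h, (ψ a (Φ t x) + ψ b (Φ t x)) * w₀ x := by
    intro t ht htT
    have hper : Per p (Strip h) (fun x => (ψ a x + ψ b x) * lap (ψ t) x) := by
      intro x hx
      change (ψ a (x + p) + ψ b (x + p)) * lap (ψ t) (x + p) = (ψ a x + ψ b x) * lap (ψ t) x
      rw [hsa.per x hx, hsb.per x hx, (hC t ht htT).per.lap x hx]
    rw [← hF.comp hp hh ht hper]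
    refine setIntegral_congr_fun hM.measurableSet ?_
    intro x hx
    change (ψ a (Φ t x) + ψ b (Φ t x)) * lap (ψ t) (Φ t x) = _
    rw [hF.vort t ht x (hsub hx)]
  have hint2 : ∀ t, 0 ≤ t → IntegrableOn (fun x => (ψ a (Φ t x) + ψ b (Φ t x)) * w₀ x) (Cell p h) := by
    intro t ht
    refine int_cell (B := (|C| + |C|) * B) ?_ ?_
    · exact ((hf.cont.comp (hW.contDiffOn hS ht).continuousOn (hF.bij t ht).mapsTo)).mul hw
    · intro x hx
      rw [abs_mul]
      refine mul_le_mul ?_ (hB x hx) (abs_nonneg _) (by positivity)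
      have h3 := (hF.bij t ht).mapsTo hx
      refine (abs_add_le _ _).trans (add_le_add ?_ ?_)
      · exact (hsa.le.abs_le _ h3).trans (le_abs_self C)
      · exact (hsb.le.abs_le _ h3).trans (le_abs_self C)
  have h3 : (∫ x in Cell p h, gsq (ψ b) x) - ∫ x in Cell p h, gsq (ψ a) x =
      -∫ x in Cell p h, (∫ s in a..b, pb (ψ s) (fun y => ψ a y + ψ b y) (Φ s x)) * w₀ x := by
    rw [h1, h2 b hb0 hbT, h2 a ha (hab.trans hbT), ← integral_sub (hint2 b hb0) (hint2 a ha)]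
    congr 1
    refine setIntegral_congr_fun hM.measurableSet ?_
    intro x hx
    have h4 := hW.transport hS (f := fun y => ψ a y + ψ b y) (hf.1.of_le (by norm_num)) ha hab
      (hsub hx)
    change _ = (∫ s in a..b, pb (ψ s) (fun y => ψ a y + ψ b y) (Φ s x)) * w₀ x
    rw [← h4]
    ring
  -- the bounding function
  have hDc := C6b_D_cont hS hW ha hab
  have hDb : ∀ x ∈ Strip h, ∀ s ∈ Icc a b, |C6b_D ψ Φ a b x s| ≤ 8 * |C| := by
    intro x hx s hs
    have hs0 : 0 ≤ s := ha.trans hs.1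
    have h5 := (hF.bij s hs0).mapsTo hx
    have h6 := hC s hs0 (hs.2.trans hbT)
    have h7 : ∀ f : ℂ → ℝ, CS p h C f → ‖fderiv ℝ f (Φ s x)‖ ≤ 2 * |C| := fun f hf =>
      (hf.le.fderiv_le _ h5).trans (by linarith [le_abs_self C])
    rw [abs_of_nonneg (by unfold C6b_D; positivity)]
    unfold C6b_D
    have h8 := norm_sub_le (fderiv ℝ (ψ a) (Φ s x)) (fderiv ℝ (ψ s) (Φ s x))
    have h9 := norm_sub_le (fderiv ℝ (ψ b) (Φ s x)) (fderiv ℝ (ψ s) (Φ s x))
    linarith [h7 _ hsa, h7 _ hsb, h7 _ h6]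
  have hDint : Integrable (Function.uncurry (C6b_D ψ Φ a b))
      ((volume.restrict (Cell p h)).prod (volume.restrict (Ioc a b))) := by
    rw [Measure.prod_restrict]
    have hms : MeasurableSet (Cell p h ×ˢ Ioc a b) := hM.measurableSet.prod measurableSet_Ioc
    have hfm : IsFiniteMeasure ((volume.prod volume : Measure (ℂ × ℝ)).restrict
        (Cell p h ×ˢ Ioc a b)) := by
      refine isFiniteMeasure_restrict.2 ?_
      rw [Measure.prod_prod]
      exact ENNReal.mul_ne_top hfin.ne (by simp)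
    refine Integrable.of_bound (C := 8 * |C|) ?_ ?_
    · refine ContinuousOn.aestronglyMeasurable ?_ hms
      exact hDc.mono (Set.prod_mono hsub (fun s hs => ha.trans hs.1.le))
    · rw [ae_restrict_iff' hms]
      refine Eventually.of_forall ?_
      rintro ⟨x, s⟩ ⟨hx, hs⟩
      exact hDb x (hsub hx) s (Ioc_subset_Icc_self hs)
  -- step 3: the bound
  have h4 : |∫ x in Cell p h, (∫ s in a..b, pb (ψ s) (fun y => ψ a y + ψ b y) (Φ s x)) * w₀ x| ≤
      ∫ x in Cell p h, B * (4 * |C|) * ∫ s in a..b, C6b_D ψ Φ a b x s := by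
    rw [← Real.norm_eq_abs]
    have hI : Integrable (fun x => ∫ s in a..b, C6b_D ψ Φ a b x s) (volume.restrict (Cell p h)) := by
      simp only [intervalIntegral.integral_of_le hab]
      exact hDint.integral_prod_left
    refine norm_integral_le_of_norm_le (hI.const_mul _) ?_
    rw [ae_restrict_iff' hM.measurableSet]
    refine Eventually.of_forall ?_
    intro x hx'
    have hx : x ∈ Strip h := hsub hx'
    rw [norm_mul, mul_comm]
    have hIx : IntervalIntegrable (fun s => C6b_D ψ Φ a b x s) volume a b := by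
      refine ContinuousOn.intervalIntegrable ?_
      rw [uIcc_of_le hab]
      have h5 : ContinuousOn (fun s : ℝ => ((x, s) : ℂ × ℝ)) (Icc a b) := by fun_prop
      have h7 : MapsTo (fun s : ℝ => ((x, s) : ℂ × ℝ)) (Icc a b) (Strip h ×ˢ Ici 0) := by
        intro s hs
        exact Set.mk_mem_prod hx (Set.mem_Ici.2 (ha.trans hs.1))
      have h8 := ContinuousOn.comp hDc h5 h7
      exact h8
    have h5 : ‖∫ s in a..b, pb (ψ s) (fun y => ψ a y + ψ b y) (Φ s x)‖ ≤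
        ∫ s in a..b, 4 * |C| * C6b_D ψ Φ a b x s := by
      refine intervalIntegral.norm_integral_le_of_norm_le hab ?_ (hIx.const_mul _)
      refine Eventually.of_forall ?_
      intro s hs
      have hs0 : 0 ≤ s := ha.trans hs.1.le
      have h7 := C6b_pb hsa.le hsb.le (hC s hs0 (hs.2.trans hbT)).le ((hF.bij s hs0).mapsTo hx)
      rw [Real.norm_eq_abs]
      unfold C6b_D
      exact h7
    rw [intervalIntegral.integral_const_mul] at h5
    have h6 : ‖w₀ x‖ ≤ B := hB x hx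
    calc ‖w₀ x‖ * ‖∫ s in a..b, pb (ψ s) (fun y => ψ a y + ψ b y) (Φ s x)‖
        ≤ B * (4 * |C| * ∫ s in a..b, C6b_D ψ Φ a b x s) := mul_le_mul h6 h5 (norm_nonneg _) hB0
      _ = B * (4 * |C|) * ∫ s in a..b, C6b_D ψ Φ a b x s := by ring
  rw [h3, abs_neg]
  refine h4.trans (le_of_eq ?_)
  rw [integral_const_mul]
  congr 1
  simp only [intervalIntegral.integral_of_le hab]
  rw [integral_integral_swap hDint]
  refine setIntegral_congr_fun measurableSet_Ioc ?_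
  intro s hs
  have hs0 : 0 ≤ s := ha.trans hs.1.le
  have hss := hC s hs0 (hs.2.trans hbT)
  have hper : Per p (Strip h) (fun x => ‖fderiv ℝ (ψ a) x - fderiv ℝ (ψ s) x‖ +
      ‖fderiv ℝ (ψ b) x - fderiv ℝ (ψ s) x‖) := by
    intro x hx
    change ‖fderiv ℝ (ψ a) (x + p) - fderiv ℝ (ψ s) (x + p)‖ +
      ‖fderiv ℝ (ψ b) (x + p) - fderiv ℝ (ψ s) (x + p)‖ = ‖fderiv ℝ (ψ a) x - fderiv ℝ (ψ s) x‖ +
      ‖fderiv ℝ (ψ b) x - fderiv ℝ (ψ s) x‖
    rw [hsa.per.fderiv_eq hx, hsb.per.fderiv_eq hx, hss.per.fderiv_eq hx]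
  have h5 := hF.comp hp hh hs0 hper
  have hI : ∀ f : ℂ → ℝ, CS p h C f →
      IntegrableOn (fun x => ‖fderiv ℝ f x - fderiv ℝ (ψ s) x‖) (Cell p h) := by
    intro f hf
    refine int_cell (B := 4 * |C|) ((hf.le.fderiv_cont hS).sub (hss.le.fderiv_cont hS)).norm ?_
    intro x hx
    rw [abs_of_nonneg (norm_nonneg _)]
    refine (norm_sub_le _ _).trans ?_
    linarith [hf.le.fderiv_le x hx, hss.le.fderiv_le x hx, le_abs_self C]
  have h6 := integral_add (hI _ hsa) (hI _ hsb)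
  change (∫ x in Cell p h, C6b_D ψ Φ a b x s) =
    (∫ x in Cell p h, ‖fderiv ℝ (ψ a) x - fderiv ℝ (ψ s) x‖) +
    ∫ x in Cell p h, ‖fderiv ℝ (ψ b) x - fderiv ℝ (ψ s) x‖
  rw [← h6, ← h5]
  rfl

end Pool.Agent.YUT
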