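import Pool.Agent.YUT.C5
import Pool.Agent.YUT.C6a

open MeasureTheory Set Filter Topology
open scoped ContDiff

namespace Pool.Agent.YUT

open Pool.Agent.YUD

variable {p h : ℝ}

theorem C7_integrable {w₀ : ℂ → ℝ} {ψ : ℝ → ℂ → ℝ} {Φ : ℝ → ℂ → ℂ} (hp : 0 < p) (hh : 0 < h)
    (hF : PFlow p (Strip h) w₀ ψ Φ) (t : ℝ) :
    Integrable (fun q : ℂ × ℝ => w₀ q.1 * gg vf (ψ q.2) (Φ q.2 q.1))
      ((volume.restrict (Cell p h)).prod (volume.restrict (Ioc 0 t))) := by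
  obtain ⟨hc, hB⟩ := hF.weak.gg_flow vf_cont (fun x hx => vf_le hx)
  obtain ⟨B, hB⟩ := hB t
  obtain ⟨-, hw, -, B₀, hB₀, hwB⟩ := hF.w0 hp hh
  rw [Measure.prod_restrict]
  have hmeas : MeasurableSet (Cell p h ×ˢ Ioc (0 : ℝ) t) :=
    (isOpen_cell p h).measurableSet.prod measurableSet_Ioc
  have hcont : ContinuousOn (fun q : ℂ × ℝ => w₀ q.1 * gg vf (ψ q.2) (Φ q.2 q.1))
      (Cell p h ×ˢ Ioc (0 : ℝ) t) := by
    have h1 : ContinuousOn (fun q : ℂ × ℝ => w₀ q.1) (Cell p h ×ˢ Ioc (0 : ℝ) t) :=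
      hw.comp continuousOn_fst (fun q hq => cell_sub p h hq.1)
    have h2 : ContinuousOn (fun q : ℂ × ℝ => gg vf (ψ q.2) (Φ q.2 q.1))
        (Cell p h ×ˢ Ioc (0 : ℝ) t) := by
      have := hc.comp (f := fun q : ℂ × ℝ => (q.2, q.1)) (s := Cell p h ×ˢ Ioc (0 : ℝ) t)
        (continuousOn_snd.prodMk continuousOn_fst) (fun q hq => ⟨hq.2.1.le, cell_sub p h hq.1⟩)
      exact this
    exact h1.mul h2
  have hfin : (volume.prod volume) (Cell p h ×ˢ Ioc (0 : ℝ) t) < ⊤ := by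
    rw [Measure.prod_prod]
    exact ENNReal.mul_lt_top (cell_bounded p h).measure_lt_top measure_Ioc_lt_top
  have : IsFiniteMeasure ((volume.prod volume).restrict (Cell p h ×ˢ Ioc (0 : ℝ) t)) :=
    ⟨by rw [Measure.restrict_apply_univ]; exact hfin⟩
  refine Integrable.mono' (g := fun _ => B₀ * B) (integrable_const _)
    (hcont.aestronglyMeasurable hmeas) ?_
  refine (ae_restrict_iff' hmeas).mpr (ae_of_all _ fun q hq => ?_)
  have h1 : |w₀ q.1| ≤ B₀ := hwB q.1 (cell_sub p h hq.1)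
  have h2 : |gg vf (ψ q.2) (Φ q.2 q.1)| ≤ B :=
    hB q.2 hq.2.1.le hq.2.2 _ ((hF.bij q.2 hq.2.1.le).mapsTo (cell_sub p h hq.1))
  rw [Real.norm_eq_abs, abs_mul]
  exact mul_le_mul h1 h2 (abs_nonneg _) hB₀

theorem C7_slice {w₀ : ℂ → ℝ} {ψ : ℝ → ℂ → ℝ} {Φ : ℝ → ℂ → ℂ} (hp : 0 < p) (hh : 0 < h)
    (hF : PFlow p (Strip h) w₀ ψ Φ) {τ : ℝ} (hτ : 0 ≤ τ) :
    ∫ x in Cell p h, w₀ x * gg vf (ψ τ) (Φ τ x) =
      ∫ x in Cell p h, lap (ψ τ) x * gg vf (ψ τ) x := by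
  have hper : Per p (Strip h) (ψ τ) := fun x hx => (hF.per τ hτ x hx).1
  rw [← hF.comp hp hh hτ (k := fun X => lap (ψ τ) X * gg vf (ψ τ) X) (fun x hx => by
    change lap (ψ τ) (x + p) * gg vf (ψ τ) (x + p) = lap (ψ τ) x * gg vf (ψ τ) x
    rw [hper.lap x hx, hper.gg x hx])]
  refine setIntegral_congr_fun (isOpen_cell p h).measurableSet fun x hx => ?_
  simp only [hF.vort τ hτ x (cell_sub p h hx)]

/-- continuity of the action on the strip -/
theorem C7_act_cont {w₀ : ℂ → ℝ} {ψ : ℝ → ℂ → ℝ} {Φ : ℝ → ℂ → ℂ}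
    (hF : PFlow p (Strip h) w₀ ψ Φ) {t : ℝ} (ht : 0 ≤ t) :
    ContinuousOn (act vf ψ Φ t) (Strip h) := by
  obtain ⟨hc, hB⟩ := hF.weak.gg_flow vf_cont (fun x hx => vf_le hx)
  obtain ⟨B, hB⟩ := hB t
  intro x₀ hx₀
  have key : ContinuousWithinAt (fun x => ∫ τ in (0 : ℝ)..t, gg vf (ψ τ) (Φ τ x)) (Strip h) x₀ := by
    refine intervalIntegral.continuousWithinAt_of_dominated_interval (bound := fun _ => B) ?_ ?_
      _root_.intervalIntegrable_const ?_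
    · filter_upwards [self_mem_nhdsWithin] with x hx
      rw [uIoc_of_le ht]
      refine ContinuousOn.aestronglyMeasurable ?_ measurableSet_Ioc
      have := hc.comp (f := fun τ : ℝ => (τ, x)) (s := Ioc (0 : ℝ) t)
        (continuousOn_id.prodMk continuousOn_const) (fun τ hτ => ⟨hτ.1.le, hx⟩)
      exact this
    · filter_upwards [self_mem_nhdsWithin] with x hx
      refine ae_of_all _ fun τ hτ => ?_
      rw [uIoc_of_le ht] at hτ
      exact hB τ hτ.1.le hτ.2 _ ((hF.bij τ hτ.1.le).mapsTo hx)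
    · refine ae_of_all _ fun τ hτ => ?_
      rw [uIoc_of_le ht] at hτ
      have := hc.comp (f := fun x : ℂ => (τ, x)) (s := Strip h)
        (continuousOn_const.prodMk continuousOn_id) (fun x hx => ⟨hτ.1.le, hx⟩)
      exact this x₀ hx₀
  exact key

/-- boundedness of the action on the strip -/
theorem C7_act_bdd {w₀ : ℂ → ℝ} {ψ : ℝ → ℂ → ℝ} {Φ : ℝ → ℂ → ℂ}
    (hF : PFlow p (Strip h) w₀ ψ Φ) {t : ℝ} (ht : 0 ≤ t) :
    ∃ B : ℝ, ∀ x ∈ Strip h, |act vf ψ Φ t x| ≤ B := by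
  obtain ⟨hc, hB⟩ := hF.weak.gg_flow vf_cont (fun x hx => vf_le hx)
  obtain ⟨B, hB⟩ := hB t
  refine ⟨B * |t - 0|, fun x hx => ?_⟩
  have := intervalIntegral.norm_integral_le_of_norm_le_const (a := (0 : ℝ)) (b := t) (C := B)
    (f := fun τ => gg vf (ψ τ) (Φ τ x)) (fun τ hτ => by
      rw [uIoc_of_le ht] at hτ
      exact hB τ hτ.1.le hτ.2 _ ((hF.bij τ hτ.1.le).mapsTo hx))
  exact this

/-- [YUT-C7] the weighted action on the channel: the proofs of `weight` (`W1b.lean`, complete; copy it)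
with `m = 0`, integrals over `Cell p h`, `hF.weak.gg_flow vf_cont (fun x hx => vf_le hx)` (`WFlow.gg_flow`,
`PBase.lean`) for `gg_flow`, and `PFlow.comp` for the periodic function
`x ↦ lap (ψ τ) x * gg vf (ψ τ) x` (`Per.lap`, `Per.gg`). -/
theorem PFlow.weight {w₀ : ℂ → ℝ} {ψ : ℝ → ℂ → ℝ} {Φ : ℝ → ℂ → ℂ} (hp : 0 < p) (hh : 0 < h)
    (hF : PFlow p (Strip h) w₀ ψ Φ) {t : ℝ} (ht : 0 ≤ t) :
    ∫ x in Cell p h, w₀ x * act vf ψ Φ t x =
      ∫ τ in (0 : ℝ)..t, ∫ x in Cell p h, lap (ψ τ) x * gg vf (ψ τ) x := by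
  have h1 : ∫ x in Cell p h, w₀ x * act vf ψ Φ t x =
      ∫ x in Cell p h, ∫ τ in Ioc (0 : ℝ) t, w₀ x * gg vf (ψ τ) (Φ τ x) := by
    refine integral_congr_ae (ae_of_all _ fun x => ?_)
    simp only [act]
    rw [intervalIntegral.integral_of_le ht, integral_const_mul]
  rw [h1, integral_integral_swap (C7_integrable hp hh hF t),
    intervalIntegral.integral_of_le ht]
  refine setIntegral_congr_fun measurableSet_Ioc fun τ hτ => ?_
  exact C7_slice hp hh hF hτ.1.le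

/-- [YUT-C7] a lower bound for the integrand and an upper bound for the action: the proofs of
`weight_lower` (`W1c.lean`) and `weight_upper` (`W1d.lean`), complete; copy them, with `m = κ = 0`. -/
theorem PFlow.weight_ineq {w₀ : ℂ → ℝ} {ψ : ℝ → ℂ → ℝ} {Φ : ℝ → ℂ → ℂ} (hp : 0 < p) (hh : 0 < h)
    (hF : PFlow p (Strip h) w₀ ψ Φ) {t : ℝ} (ht : 0 ≤ t) {c₀ A : ℝ}
    (hJ : ∀ τ, 0 ≤ τ → c₀ ≤ ∫ x in Cell p h, lap (ψ τ) x * gg vf (ψ τ) x)
    (hA : ∀ x ∈ Cell p h, |act vf ψ Φ t x| ≤ A) :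
    c₀ * t ≤ A * ∫ x in Cell p h, |w₀ x| := by
  have hlow : c₀ * t ≤ ∫ x in Cell p h, w₀ x * act vf ψ Φ t x := by
    rw [hF.weight hp hh ht]
    have h1 : Integrable (fun τ => ∫ x in Cell p h, w₀ x * gg vf (ψ τ) (Φ τ x))
        (volume.restrict (Ioc 0 t)) :=
      (C7_integrable hp hh hF t).integral_prod_right
    have h2 : IntegrableOn (fun τ => ∫ x in Cell p h, lap (ψ τ) x * gg vf (ψ τ) x)
        (Ioc 0 t) := by
      refine IntegrableOn.congr_fun h1 (fun τ hτ => ?_) measurableSet_Ioc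
      exact C7_slice hp hh hF hτ.1.le
    have h3 : IntervalIntegrable (fun τ => ∫ x in Cell p h, lap (ψ τ) x * gg vf (ψ τ) x)
        volume 0 t :=
      (intervalIntegrable_iff_integrableOn_Ioc_of_le ht).mpr h2
    have h4 := intervalIntegral.integral_mono_on ht (_root_.intervalIntegrable_const
      (c := c₀)) h3 (fun τ hτ => hJ τ hτ.1)
    rw [intervalIntegral.integral_const, smul_eq_mul, sub_zero] at h4
    linarith
  refine hlow.trans ?_
  have hac := C7_act_cont hF ht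
  obtain ⟨B, hB⟩ := C7_act_bdd hF ht
  obtain ⟨-, hw, -, B₀, hB₀, hwB⟩ := hF.w0 hp hh
  have hi1 : IntegrableOn w₀ (Cell p h) := int_cell hw hwB
  have hi2 : IntegrableOn (fun x => w₀ x * act vf ψ Φ t x) (Cell p h) := by
    refine int_cell (B := B₀ * B) (hw.mul hac) fun x hx => ?_
    rw [abs_mul]
    exact mul_le_mul (hwB x hx) (hB x hx) (abs_nonneg _) hB₀
  rw [← integral_const_mul]
  refine setIntegral_mono_on hi2 (hi1.abs.const_mul A) (isOpen_cell p h).measurableSet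
    fun x hx => ?_
  calc w₀ x * act vf ψ Φ t x ≤ |w₀ x * act vf ψ Φ t x| := le_abs_self _
    _ = |act vf ψ Φ t x| * |w₀ x| := by rw [abs_mul, mul_comm]
    _ ≤ A * |w₀ x| := mul_le_mul_of_nonneg_right (hA x hx) (abs_nonneg _)

end Pool.Agent.YUT
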