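import Pool.Agent.YUT.C6a

open MeasureTheory Set Filter Topology
open scoped ContDiff

namespace Pool.Agent.YUT

open Pool.Agent.YUD

variable {p h : ℝ}

theorem C8_grow {w₀ : ℂ → ℝ} {ψ : ℝ → ℂ → ℝ} {Φ : ℝ → ℂ → ℂ}
    (hF : PFlow p (Strip h) w₀ ψ Φ) {t C : ℝ} (hC0 : 0 ≤ C)
    (hC : ∀ τ, 0 ≤ τ → τ ≤ t → CS p h C (ψ τ)) {y : ℂ} (hy : y ∈ Strip h) {τ : ℝ}
    (hτ : 0 ≤ τ) (hτt : τ ≤ t) : (Φ τ y).im ≤ y.im * Real.exp (C * t) := by
  have hmem : ∀ s, 0 ≤ s → Φ s y ∈ Strip h := fun s hs => (hF.bij s hs).mapsTo hy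
  have hder : ∀ s, 0 ≤ s → HasDerivWithinAt (fun s => (Φ s y).im) (dx (ψ s) (Φ s y)) (Ici 0) s := by
    intro s hs
    have h1 := Complex.imCLM.hasFDerivAt.comp_hasDerivWithinAt s (hF.ode s hs y hy)
    exact h1
  have h2 := norm_le_gronwallBound_of_norm_deriv_right_le (f := fun s => (Φ s y).im)
    (f' := fun s => dx (ψ s) (Φ s y)) (δ := y.im) (K := C) (ε := 0) (a := 0) (b := t)
    (fun s hs => ((hder s hs.1).continuousWithinAt).mono fun u hu => hu.1)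
    (fun s hs => (hder s hs.1).mono fun u hu => hs.1.trans hu)
    (by
      rw [hF.start y hy, Real.norm_eq_abs, abs_of_pos hy.1])
    (fun s hs => by
      rw [add_zero, Real.norm_eq_abs, Real.norm_eq_abs, abs_of_pos (hmem s hs.1).1]
      exact (hC s hs.1 hs.2.le).xlow _ (hmem s hs.1)) τ ⟨hτ, hτt⟩
  rw [gronwallBound_ε0, sub_zero, Real.norm_eq_abs, abs_of_pos (hmem τ hτ).1] at h2
  refine h2.trans (mul_le_mul_of_nonneg_left ?_ hy.1.le)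
  exact Real.exp_le_exp.2 (mul_le_mul_of_nonneg_left hτt hC0)

/-- [YUT-C8] the action is small near the lower wall. Let `C ≥ 0` be the constant of `PFlow.cs` for `T = t`.
For `y` in the strip let `v τ = (Φ τ y).im > 0`; by `hF.ode` its derivative (within `Ici 0`) is
`(perp (ψ τ) (Φ τ y)).im = dx (ψ τ) (Φ τ y)`, which is at most `C v τ` (`CS.xlow`), so `v τ ≤ exp (C τ) * y.im` on
`[0,t]` (Gronwall; or monotonicity of `exp (-C τ) v τ`). Moreover `|gg vf (ψ τ) z| ≤ z.im * C + C * z.im` (`gg_vf`,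
`CS.low`). So `|act vf ψ Φ t y| ≤ t * (2 C exp (C t) y.im)`, which is `≤ ε` if `y.im` is small. -/
theorem PFlow.anchor {w₀ : ℂ → ℝ} {ψ : ℝ → ℂ → ℝ} {Φ : ℝ → ℂ → ℂ} (hp : 0 < p) (hh : 0 < h)
    (hF : PFlow p (Strip h) w₀ ψ Φ) {t : ℝ} (ht : 0 ≤ t) {ε : ℝ} (hε : 0 < ε) :
    ∃ y ∈ Strip h, |act vf ψ Φ t y| ≤ ε := by
  obtain ⟨C, hC0, hC⟩ := hF.cs hp hh t
  obtain ⟨D, hD⟩ : ∃ D, D = 2 * C * Real.exp (C * t) * t := ⟨_, rfl⟩
  have hD0 : 0 ≤ D := by rw [hD]; positivity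
  obtain ⟨s, hs⟩ : ∃ s, s = min (h / 2) (ε / (D + 1)) := ⟨_, rfl⟩
  have hs0 : 0 < s := by rw [hs]; exact lt_min (by linarith) (by positivity)
  have hs1 : s ≤ h / 2 := by rw [hs]; exact min_le_left _ _
  have hs2 : s ≤ ε / (D + 1) := by rw [hs]; exact min_le_right _ _
  have hy : (⟨0, s⟩ : ℂ) ∈ Strip h := ⟨hs0, by change s < h; linarith⟩
  refine ⟨⟨0, s⟩, hy, ?_⟩
  have h1 := intervalIntegral.norm_integral_le_of_norm_le_const (a := (0 : ℝ)) (b := t)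
    (C := 2 * C * (s * Real.exp (C * t)))
    (f := fun τ => gg vf (ψ τ) (Φ τ ⟨0, s⟩)) (fun τ hτ => by
      rw [uIoc_of_le ht] at hτ
      have h2 := C8_grow hF hC0 hC hy hτ.1.le hτ.2
      have hm : Φ τ ⟨0, s⟩ ∈ Strip h := (hF.bij τ hτ.1.le).mapsTo hy
      have h3 := (hC τ hτ.1.le hτ.2).low _ hm
      have h4 := (hC τ hτ.1.le hτ.2).le.dy_le _ hm
      have h5 : (Φ τ ⟨0, s⟩).im * |dy (ψ τ) (Φ τ ⟨0, s⟩)| ≤ (Φ τ ⟨0, s⟩).im * C :=
        mul_le_mul_of_nonneg_left h4 hm.1.le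
      rw [gg_vf, Real.norm_eq_abs]
      refine (abs_sub _ _).trans ?_
      rw [abs_mul, abs_of_pos hm.1]
      have h6 : 2 * C * (Φ τ ⟨0, s⟩).im ≤ 2 * C * (s * Real.exp (C * t)) :=
        mul_le_mul_of_nonneg_left h2 (by linarith)
      linarith)
  rw [sub_zero, abs_of_nonneg ht, Real.norm_eq_abs] at h1
  refine h1.trans ?_
  have h7 : 2 * C * (s * Real.exp (C * t)) * t = D * s := by rw [hD]; ring
  rw [h7]
  have h8 : D * s ≤ D * (ε / (D + 1)) := mul_le_mul_of_nonneg_left hs2 hD0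
  refine h8.trans ?_
  rw [← mul_div_assoc, div_le_iff₀ (by linarith)]
  nlinarith

end Pool.Agent.YUT
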