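import Pool.Agent.YUT.Base

open MeasureTheory Set Filter Topology
open scoped ContDiff

namespace Pool.Agent.YUT

open Pool.Agent.YUD

/-- the head: terms with `r i ≥ h` -/
theorem D2a_head {θ α : ℝ} (hθ : 0 < θ) (hθ1 : θ < 1) (hα1 : α < 1) {r : ℕ → ℝ}
    (hr0 : ∀ j, 0 < r j) (hr : ∀ j, r (j + 1) ≤ θ * r j) (n : ℕ) :
    ∑ i ∈ Finset.range (n + 1), r i ^ (α - 1) ≤ r n ^ (α - 1) / (1 - θ ^ (1 - α)) := by
  have hs1 : θ ^ (1 - α) < 1 := Real.rpow_lt_one hθ.le hθ1 (by linarith)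
  have hs0 : 0 < θ ^ (1 - α) := Real.rpow_pos_of_pos hθ _
  have hs : 0 < 1 - θ ^ (1 - α) := by linarith
  induction n with
  | zero =>
    rw [zero_add, Finset.sum_range_one, le_div_iff₀ hs]
    have h1 : 0 < r 0 ^ (α - 1) := Real.rpow_pos_of_pos (hr0 0) _
    nlinarith
  | succ n ih =>
    rw [Finset.sum_range_succ]
    have h1 : r n ^ (α - 1) ≤ θ ^ (1 - α) * r (n + 1) ^ (α - 1) := by
      have h2 : (θ * r n) ^ (α - 1) ≤ r (n + 1) ^ (α - 1) :=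
        Real.rpow_le_rpow_of_nonpos (hr0 (n + 1)) (hr n) (by linarith)
      rw [Real.mul_rpow hθ.le (hr0 n).le] at h2
      have h3 : θ ^ (1 - α) * θ ^ (α - 1) = 1 := by
        rw [← Real.rpow_add hθ, show 1 - α + (α - 1) = 0 by ring, Real.rpow_zero]
      calc r n ^ (α - 1) = θ ^ (1 - α) * (θ ^ (α - 1) * r n ^ (α - 1)) := by
            rw [← mul_assoc, h3, one_mul]
        _ ≤ θ ^ (1 - α) * r (n + 1) ^ (α - 1) := mul_le_mul_of_nonneg_left h2 hs0.le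
    have h4 : r n ^ (α - 1) / (1 - θ ^ (1 - α)) ≤
        θ ^ (1 - α) * r (n + 1) ^ (α - 1) / (1 - θ ^ (1 - α)) := div_le_div_of_nonneg_right h1 hs.le
    calc ∑ i ∈ Finset.range (n + 1), r i ^ (α - 1) + r (n + 1) ^ (α - 1)
        ≤ θ ^ (1 - α) * r (n + 1) ^ (α - 1) / (1 - θ ^ (1 - α)) + r (n + 1) ^ (α - 1) := by
          linarith
      _ = r (n + 1) ^ (α - 1) / (1 - θ ^ (1 - α)) := by
          field_simp
          ring

/-- the tail -/
theorem D2a_tail {θ α : ℝ} (hθ : 0 < θ) (hθ1 : θ < 1) (hα : 0 < α) {r : ℕ → ℝ}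
    (hr0 : ∀ j, 0 < r j) (hr : ∀ j, r (j + 1) ≤ θ * r j) (m : ℕ) :
    ∀ N : ℕ, ∑ i ∈ Finset.range m, r (N + i) ^ α ≤ r N ^ α / (1 - θ ^ α) := by
  have hq1 : θ ^ α < 1 := Real.rpow_lt_one hθ.le hθ1 hα
  have hq : 0 < 1 - θ ^ α := by linarith
  induction m with
  | zero =>
    intro N
    rw [Finset.sum_range_zero]
    exact div_nonneg (Real.rpow_nonneg (hr0 N).le _) hq.le
  | succ m ih =>
    intro N
    rw [Finset.sum_range_succ', add_zero]
    have h1 : ∑ i ∈ Finset.range m, r (N + (i + 1)) ^ α ≤ r (N + 1) ^ α / (1 - θ ^ α) := by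
      have h2 := ih (N + 1)
      refine le_trans (le_of_eq (Finset.sum_congr rfl fun i _ => ?_)) h2
      rw [show N + (i + 1) = N + 1 + i by ring]
    have h3 : r (N + 1) ^ α ≤ θ ^ α * r N ^ α := by
      rw [← Real.mul_rpow hθ.le (hr0 N).le]
      exact Real.rpow_le_rpow (hr0 (N + 1)).le (hr N) hα.le
    have h4 : r (N + 1) ^ α / (1 - θ ^ α) ≤ θ ^ α * r N ^ α / (1 - θ ^ α) :=
      div_le_div_of_nonneg_right h3 hq.le
    calc ∑ i ∈ Finset.range m, r (N + (i + 1)) ^ α + r N ^ α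
        ≤ θ ^ α * r N ^ α / (1 - θ ^ α) + r N ^ α := by linarith
      _ = r N ^ α / (1 - θ ^ α) := by
          field_simp
          ring

/-- the part of the sum with `r i ≥ h` -/
theorem D2a_part {θ α : ℝ} (hθ : 0 < θ) (hθ1 : θ < 1) (hα1 : α < 1) {r : ℕ → ℝ}
    (hr0 : ∀ j, 0 < r j) (hr : ∀ j, r (j + 1) ≤ θ * r j) {h : ℝ} (hh : 0 < h) (n : ℕ)
    (hn : ∀ i, i < n → h ≤ r i) :
    ∑ i ∈ Finset.range n, min (r i ^ α) (r i ^ (α - 1) * h) ≤ 1 / (1 - θ ^ (1 - α)) * h ^ α := by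
  have hs1 : θ ^ (1 - α) < 1 := Real.rpow_lt_one hθ.le hθ1 (by linarith)
  have hs : 0 < 1 - θ ^ (1 - α) := by linarith
  rcases n with _ | n
  · rw [Finset.sum_range_zero]
    exact mul_nonneg (by positivity) (Real.rpow_nonneg hh.le _)
  calc ∑ i ∈ Finset.range (n + 1), min (r i ^ α) (r i ^ (α - 1) * h)
      ≤ ∑ i ∈ Finset.range (n + 1), r i ^ (α - 1) * h := Finset.sum_le_sum fun i _ => min_le_right _ _
    _ = (∑ i ∈ Finset.range (n + 1), r i ^ (α - 1)) * h := by rw [Finset.sum_mul]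
    _ ≤ r n ^ (α - 1) / (1 - θ ^ (1 - α)) * h :=
        mul_le_mul_of_nonneg_right (D2a_head hθ hθ1 hα1 hr0 hr n) hh.le
    _ ≤ h ^ (α - 1) / (1 - θ ^ (1 - α)) * h := by
        refine mul_le_mul_of_nonneg_right (div_le_div_of_nonneg_right ?_ hs.le) hh.le
        exact Real.rpow_le_rpow_of_nonpos hh (hn n (Nat.lt_succ_self n)) (by linarith)
    _ = 1 / (1 - θ ^ (1 - α)) * h ^ α := by
        have h5 : h ^ α = h ^ (α - 1) * h := by
          rw [← Real.rpow_add_one hh.ne', sub_add_cancel]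
        rw [h5]
        ring

/-- [YUT-D2a] lacunary sums: `Σ_i min (r_i^α) (r_i^(α-1) h) ≤ C h^α`. Proof: `r` is decreasing to `0`.
If `h > r 0` all terms are at most `r_i^α ≤ θ^(iα) r_0^α ≤ θ^(iα) h^α`. Otherwise let `N` be the
least index with `r_N < h`; for `i ≥ N`: `r_i^α ≤ θ^((i-N)α) h^α`; for `i < N`:
`r_i ≥ θ^(-(N-1-i)) r_{N-1} ≥ θ^(-(N-1-i)) h`, so `r_i^(α-1) h ≤ θ^((N-1-i)(1-α)) h^α`. Hence
`C = 1/(1-θ^α) + 1/(1-θ^(1-α))` works, for every finite partial sum. -/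
theorem lacunary_sum {θ α : ℝ} (hθ : 0 < θ) (hθ1 : θ < 1) (hα : 0 < α) (hα1 : α < 1) :
    ∃ C : ℝ, 0 ≤ C ∧ ∀ r : ℕ → ℝ, (∀ j, 0 < r j) → (∀ j, r j ≤ 1) → (∀ j, r (j + 1) ≤ θ * r j) →
      ∀ h : ℝ, 0 < h → ∀ n : ℕ,
        ∑ i ∈ Finset.range n, min (r i ^ α) (r i ^ (α - 1) * h) ≤ C * h ^ α := by
  have hs1 : θ ^ (1 - α) < 1 := Real.rpow_lt_one hθ.le hθ1 (by linarith)
  have hs : 0 < 1 - θ ^ (1 - α) := by linarith
  have hq1 : θ ^ α < 1 := Real.rpow_lt_one hθ.le hθ1 hα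
  have hq : 0 < 1 - θ ^ α := by linarith
  refine ⟨1 / (1 - θ ^ (1 - α)) + 1 / (1 - θ ^ α), by positivity, ?_⟩
  intro r hr0 _ hr h hh n
  have hhα : 0 ≤ h ^ α := Real.rpow_nonneg hh.le _
  by_cases hex : ∃ i, i < n ∧ r i < h
  · classical
    obtain ⟨hN1, hN2⟩ := Nat.find_spec hex
    have hN3 : ∀ i, i < Nat.find hex → h ≤ r i := by
      intro i hi
      have := Nat.find_min hex hi
      by_contra hcon
      push Not at hcon
      exact this ⟨hi.trans hN1, hcon⟩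
    generalize Nat.find hex = N at hN1 hN2 hN3
    obtain ⟨m, rfl⟩ := Nat.exists_eq_add_of_le hN1.le
    rw [Finset.sum_range_add, add_mul]
    refine add_le_add (D2a_part hθ hθ1 hα1 hr0 hr hh N hN3) ?_
    calc ∑ i ∈ Finset.range m, min (r (N + i) ^ α) (r (N + i) ^ (α - 1) * h)
        ≤ ∑ i ∈ Finset.range m, r (N + i) ^ α := Finset.sum_le_sum fun i _ => min_le_left _ _
      _ ≤ r N ^ α / (1 - θ ^ α) := D2a_tail hθ hθ1 hα hr0 hr m N
      _ ≤ h ^ α / (1 - θ ^ α) :=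
          div_le_div_of_nonneg_right (Real.rpow_le_rpow (hr0 N).le hN2.le hα.le) hq.le
      _ = 1 / (1 - θ ^ α) * h ^ α := by ring
  · push Not at hex
    refine (D2a_part hθ hθ1 hα1 hr0 hr hh n hex).trans ?_
    refine mul_le_mul_of_nonneg_right ?_ hhα
    exact le_add_of_nonneg_right (by positivity)

end Pool.Agent.YUT
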