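import Pool.Agent.YUD.Defs

/-!
# [YUT] Universal stretching and growth of vorticity for the 2D Euler equations: definitions

The plane is `ℂ` (as a real normed space); `M` is a bounded open subset of it. The partial
derivatives `dx`, `dy`, the Laplacian `lap`, `JetLe`, `ZeroAtBoundary` and the `C^{1,α}` norm
`NormLe` are those of `Pool/Agent/YUD/Defs.lean`.
-/

open MeasureTheory Set Filter Topology
open scoped ContDiff

namespace Pool.Agent.YUT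

open Pool.Agent.YUD

/-- `∇^⊥ f = (-f_y, f_x)`, as a complex number -/
noncomputable def perp (f : ℂ → ℝ) (x : ℂ) : ℂ := ⟨-dy f x, dx f x⟩

/-- `f` is `C²` in `M`, zero at the boundary, and `f` and all its partial derivatives of order
`≤ 2` are bounded by `C` on `M`. -/
def StreamLe (M : Set ℂ) (C : ℝ) (f : ℂ → ℝ) : Prop :=
  ContDiffOn ℝ 2 f M ∧ JetLe M 2 C f ∧ ZeroAtBoundary M f

/-- `(ψ, Φ)` is a global solution, in Lagrangian form, of the Euler equations in `M` with initial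
vorticity `w₀`: `Φ t : M → M` are area preserving diffeomorphisms, `Φ 0 = id`,
`∂_t Φ = ∇^⊥ ψ(Φ)`, `ψ = 0` on the boundary, and the vorticity `Δψ` is transported by `Φ`. -/
structure Flow (M : Set ℂ) (w₀ : ℂ → ℝ) (ψ : ℝ → ℂ → ℝ) (Φ : ℝ → ℂ → ℂ) : Prop where
  stream : ∀ T : ℝ, ∃ C : ℝ, ∀ t, 0 ≤ t → t ≤ T → StreamLe M C (ψ t)
  cont : ContinuousOn (fun p : ℝ × ℂ => (ψ p.1 p.2, fderiv ℝ (ψ p.1) p.2)) (Ici 0 ×ˢ M)
  c1 : ContDiffOn ℝ 1 (fun p : ℝ × ℂ => Φ p.1 p.2) (Ici 0 ×ˢ M)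
  bij : ∀ t, 0 ≤ t → BijOn (Φ t) M M
  area : ∀ t, 0 ≤ t → ∀ x ∈ M, (fderiv ℝ (Φ t) x).det = 1
  start : ∀ x ∈ M, Φ 0 x = x
  ode : ∀ t, 0 ≤ t → ∀ x ∈ M,
    HasDerivWithinAt (fun s => Φ s x) (perp (ψ t) (Φ t x)) (Ici 0) t
  vort : ∀ t, 0 ≤ t → ∀ x ∈ M, lap (ψ t) (Φ t x) = w₀ x

/-- `‖f‖_{C^α(M)} ≤ C` for the norm `sup |f| + [f]_α` over `M`. -/
def HNormLe (M : Set ℂ) (α C : ℝ) (f : ℂ → ℝ) : Prop :=
  ∃ a c : ℝ, 0 ≤ a ∧ 0 ≤ c ∧ a + c ≤ C ∧ (∀ x ∈ M, |f x| ≤ a) ∧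
    ∀ x ∈ M, ∀ y ∈ M, |f x - f y| ≤ c * ‖x - y‖ ^ α

/-- the (open, full) ellipse with half axes `a`, `b`; a disk if `a = b` -/
def Ellipse (a b : ℝ) : Set ℂ := {x | (x.re / a) ^ 2 + (x.im / b) ^ 2 < 1}

/-- a bounded nonempty open set which is star-shaped about `0` -/
def Star (M : Set ℂ) : Prop :=
  IsOpen M ∧ Bornology.IsBounded M ∧ M.Nonempty ∧ ∀ x ∈ M, ∀ s : ℝ, 0 ≤ s → s ≤ 1 → s • x ∈ M

/-- a star-shaped set with a round hole about its centre (for instance any round annulus) -/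
def StarRing (M : Set ℂ) : Prop :=
  ∃ (Ω : Set ℂ) (ρ : ℝ), Star Ω ∧ 0 < ρ ∧ Metric.closedBall 0 ρ ⊆ Ω ∧
    M = Ω \ Metric.closedBall 0 ρ

/-- Twist fields: a Lipschitz vector field `Y` of the plane, `C¹` in `M`, with `div Y = 1` in `M`,
whose symmetrised derivative has no eigenvalue larger than `3/2 - d` in `M`, and which points out of
`M` (the steps `x ↦ x + l Y(x)` do not enter `M` for small `l > 0`). -/
structure TwistField (M : Set ℂ) (Y : ℂ → ℂ) (d : ℝ) : Prop where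
  pos : 0 < d
  lip : ∃ K : ℝ, ∀ x y, ‖Y x - Y y‖ ≤ K * ‖x - y‖
  c1 : ContDiffOn ℝ 1 Y M
  div_eq : ∀ x ∈ M, (fderiv ℝ Y x 1).re + (fderiv ℝ Y x Complex.I).im = 1
  strain : ∀ x ∈ M, ∀ v : ℂ,
    v.re * (fderiv ℝ Y x v).re + v.im * (fderiv ℝ Y x v).im ≤ (3 / 2 - d) * ‖v‖ ^ 2
  outward : ∃ l₀ > 0, ∀ l : ℝ, 0 < l → l < l₀ → ∀ x, x ∉ M → x + l • Y x ∉ M

/-- `x` and `y` are joined in `M` by a `C¹` path of speed at most `Λ` -/
def C1Join (M : Set ℂ) (Λ : ℝ) (x y : ℂ) : Prop :=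
  ∃ γ γ' : ℝ → ℂ, γ 0 = x ∧ γ 1 = y ∧ (∀ s ∈ Icc (0 : ℝ) 1, γ s ∈ M) ∧
    (∀ s ∈ Icc (0 : ℝ) 1, HasDerivWithinAt γ (γ' s) (Icc 0 1) s) ∧
    ContinuousOn γ' (Icc 0 1) ∧ ∀ s ∈ Icc (0 : ℝ) 1, ‖γ' s‖ ≤ Λ

/-- finite intrinsic diameter: any two points of `M` are joined in `M` by a path consisting of `n`
`C¹` pieces of length at most `Λ` -/
def FinDiam (M : Set ℂ) : Prop :=
  ∃ (n : ℕ) (Λ : ℝ), ∀ x ∈ M, ∀ y ∈ M, ∃ z : ℕ → ℂ, z 0 = x ∧ z n = y ∧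
    ∀ i < n, C1Join M Λ (z i) (z (i + 1))

/-- Twisted domains: bounded, with finite intrinsic diameter, and with a twist field. Every
star-shaped set is one (`Y = x/2`). -/
def Twisted (M : Set ℂ) : Prop :=
  IsOpen M ∧ Bornology.IsBounded M ∧ M.Nonempty ∧ FinDiam M ∧
    ∃ (Y : ℂ → ℂ) (d : ℝ), TwistField M Y d

/-- Twisted domains with a round hole `‖x‖ ≤ ρ` on whose boundary the twist field vanishes. Every
star-shaped set with a round hole about its centre is one. -/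
def TwistedHole (M : Set ℂ) : Prop :=
  IsOpen M ∧ Bornology.IsBounded M ∧ M.Nonempty ∧ FinDiam M ∧
    ∃ (Y : ℂ → ℂ) (d ρ ρ₁ : ℝ), TwistField M Y d ∧ 0 < ρ ∧ ρ < ρ₁ ∧ (∀ x ∈ M, ρ < ‖x‖) ∧
      (∀ x : ℂ, ρ < ‖x‖ → ‖x‖ < ρ₁ → x ∈ M) ∧ ∀ x : ℂ, ‖x‖ = ρ → Y x = 0

/-- the torsion function of the ellipse: `Δ(tor a b) = 1`, zero on the boundary -/
noncomputable def tor (a b : ℝ) (x : ℂ) : ℝ :=
  ((x.re / a) ^ 2 + (x.im / b) ^ 2 - 1) / (2 * (1 / a ^ 2 + 1 / b ^ 2))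

/-- The domains `M` and vorticities `w` of the growth theorems: ellipses (in particular disks) and
star-shaped (or twisted) domains with a hole, all vorticities; star-shaped (or twisted) domains,
vorticities of mean zero; star-shaped domains, vorticities of arbitrary mean `m` with a stream
function `φ` whose kinetic energy `∫ |∇φ|²` is larger than `m² ∫ |x|²`. -/
def Good (M : Set ℂ) (w : ℂ → ℝ) : Prop :=
  (∃ a b : ℝ, 0 < a ∧ 0 < b ∧ M = Ellipse a b) ∨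
    (StarRing M ∨ TwistedHole M) ∨
    ((Star M ∨ Twisted M) ∧ ∫ x in M, w x = 0) ∨
    (Star M ∧ ∃ (φ : ℂ → ℝ) (C : ℝ), StreamLe M C φ ∧ (∀ x ∈ M, lap φ x = w x) ∧
      (⨍ x in M, w x) ^ 2 * ∫ x in M, ‖x‖ ^ 2 < ∫ x in M, gsq φ x)

/-- The vorticities of the stretching theorem: in disks, all nonconstant ones; in ellipses, all
those whose kinetic energy `∫ |∇φ|²` (`φ` the stream function) is not equal to the energy of the
constant vorticity with the same mean; in star-shaped (or twisted) domains with a hole, all nonzero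
ones; in star-shaped (or twisted) domains, all nonzero ones of mean zero; in star-shaped domains,
all those whose kinetic energy is larger than `m² ∫ |x|²`, where `m` is the mean. -/
def Charged (M : Set ℂ) (w : ℂ → ℝ) : Prop :=
  (∃ R : ℝ, 0 < R ∧ M = Metric.ball 0 R ∧ ∃ x ∈ M, ∃ y ∈ M, w x ≠ w y) ∨
    (∃ a b : ℝ, 0 < a ∧ 0 < b ∧ M = Ellipse a b ∧ ∀ (φ : ℂ → ℝ) (C : ℝ), StreamLe M C φ →
      (∀ x ∈ M, lap φ x = w x) →
        ∫ x in M, gsq φ x ≠ (⨍ x in M, w x) ^ 2 * ∫ x in M, gsq (tor a b) x) ∨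
    ((StarRing M ∨ TwistedHole M) ∧ ∃ x ∈ M, w x ≠ 0) ∨
    ((Star M ∨ Twisted M) ∧ ∫ x in M, w x = 0 ∧ ∃ x ∈ M, w x ≠ 0) ∨
    (Star M ∧ ∀ (φ : ℂ → ℝ) (C : ℝ), StreamLe M C φ → (∀ x ∈ M, lap φ x = w x) →
      (⨍ x in M, w x) ^ 2 * ∫ x in M, ‖x‖ ^ 2 < ∫ x in M, gsq φ x)

/-- Lyapunov stability of `ws` in `C^{1,α}(M)`, for Lagrangian solutions with `C²` flow maps. -/
def StableFlow (M : Set ℂ) (α : ℝ) (ws : ℂ → ℝ) : Prop :=
  ∀ ε > 0, ∃ δ > 0, ∀ w₀ : ℂ → ℝ, NormLe M α δ (fun x => w₀ x - ws x) →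
    ∃ (ψ : ℝ → ℂ → ℝ) (Φ : ℝ → ℂ → ℂ), Flow M w₀ ψ Φ ∧
      (∀ t, 0 ≤ t → ContDiffOn ℝ 2 (Φ t) M) ∧
      ∀ t, 0 ≤ t → NormLe M α ε (fun x => lap (ψ t) x - ws x)

end Pool.Agent.YUT
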