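import Pool.Agent.YUT.Base

open MeasureTheory Set Filter Topology
open scoped ContDiff

namespace Pool.Agent.YUT

open Pool.Agent.YUD

variable {M : Set ℂ} {w₀ : ℂ → ℝ} {ψ : ℝ → ℂ → ℝ} {Φ : ℝ → ℂ → ℂ}

/-- [YUT-M1d] continuity in time of the gradient in `L¹(M)`: for every `T` and `ε > 0` there is
`δ > 0` such that `∫_M |∇ψ_s - ∇ψ_{s'}| ≤ ε` for `s, s' ∈ [0,T]`, `|s - s'| < δ`.
Proof: `s ↦ ∫_M ‖fderiv ℝ (ψ s) x - fderiv ℝ (ψ s') x‖` ... for each fixed `s'` dominated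
convergence (pointwise continuity from `h.cont`, bound `2C` from `h.stream T`) gives continuity at
`s'` of `s ↦ fderiv ℝ (ψ s)` as a map into `L¹`; a uniform `δ` on the compact `[0,T]` by the usual
covering argument (or by contradiction with sequences `s_n, s_n'` converging to a common limit). -/
theorem Flow.grad_cont (hM : IsOpen M) (hb : Bornology.IsBounded M) (h : Flow M w₀ ψ Φ) (T : ℝ)
    {ε : ℝ} (hε : 0 < ε) : ∃ δ > 0, ∀ s s' : ℝ, 0 ≤ s → s ≤ T → 0 ≤ s' → s' ≤ T → |s - s'| < δ →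
      ∫ x in M, ‖fderiv ℝ (ψ s) x - fderiv ℝ (ψ s') x‖ ≤ ε := by
  obtain ⟨C, hC⟩ := h.stream T
  have hfin : volume M ≠ ⊤ := hb.measure_lt_top.ne
  have hcx : ∀ x ∈ M, ContinuousOn (fun s => fderiv ℝ (ψ s) x) (Ici 0) := by
    intro x hx
    have h1 := h.cont.comp (continuousOn_id.prodMk continuousOn_const :
      ContinuousOn (fun s : ℝ => (s, x)) (Ici (0 : ℝ))) (fun s hs => ⟨hs, hx⟩)
    exact h1.snd
  have hN : ContinuousOn (fun p : ℝ × ℝ => ∫ x in M, ‖fderiv ℝ (ψ p.1) x - fderiv ℝ (ψ p.2) x‖)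
      (Icc 0 T ×ˢ Icc 0 T) := by
    refine continuousOn_of_dominated (bound := fun _ => 2 * C + 2 * C) ?_ ?_ ?_ ?_
    · intro p hp
      exact ((((hC p.1 hp.1.1 hp.1.2).fderiv_cont hM).sub
        ((hC p.2 hp.2.1 hp.2.2).fderiv_cont hM)).norm).aestronglyMeasurable hM.measurableSet
    · intro p hp
      refine ae_restrict_of_forall_mem hM.measurableSet fun x hx => ?_
      rw [norm_norm]
      exact (norm_sub_le _ _).trans (add_le_add ((hC p.1 hp.1.1 hp.1.2).fderiv_le x hx)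
        ((hC p.2 hp.2.1 hp.2.2).fderiv_le x hx))
    · exact integrableOn_const hfin
    · refine ae_restrict_of_forall_mem hM.measurableSet fun x hx => ?_
      exact (((hcx x hx).comp continuousOn_fst (fun p hp => hp.1.1)).sub
        ((hcx x hx).comp continuousOn_snd (fun p hp => hp.2.1))).norm
  have hU := (isCompact_Icc.prod isCompact_Icc).uniformContinuousOn_of_continuous hN
  rw [Metric.uniformContinuousOn_iff] at hU
  obtain ⟨δ, hδ, hU⟩ := hU ε hε
  refine ⟨δ, hδ, fun s s' h0 h1 h0' h1' hd => ?_⟩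
  have h2 := hU (s, s') ⟨⟨h0, h1⟩, ⟨h0', h1'⟩⟩ (s, s) ⟨⟨h0, h1⟩, ⟨h0, h1⟩⟩ (by
    rw [Prod.dist_eq]
    simp only [dist_self]
    rw [max_eq_right dist_nonneg, Real.dist_eq, abs_sub_comm]
    exact hd)
  simp only [sub_self, norm_zero, integral_zero, Real.dist_eq, sub_zero] at h2
  exact (le_abs_self _).trans h2.le

end Pool.Agent.YUT
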