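import Pool.Agent.YUT.G3a
import Pool.Agent.YUT.M1b
import Pool.Agent.YUT.M1c
import Pool.Agent.YUT.M1d

open MeasureTheory Set Filter Topology
open scoped ContDiff

namespace Pool.Agent.YUT

open Pool.Agent.YUD

variable {M : Set ℂ} {w₀ : ℂ → ℝ} {ψ : ℝ → ℂ → ℝ} {Φ : ℝ → ℂ → ℂ}

/-- `{ψ_s, ψ_a + ψ_b}` is bounded by the gradients of `ψ_a - ψ_s`, `ψ_b - ψ_s` -/
theorem E1a_pb {M : Set ℂ} (hM : IsOpen M) {f g k : ℂ → ℝ} {C : ℝ} (hf : StreamLe M C f)
    (hg : StreamLe M C g) (hk : StreamLe M C k) {x : ℂ} (hx : x ∈ M) :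
    |pb k (fun y => f y + g y) x| ≤
      4 * |C| * (‖fderiv ℝ f x - fderiv ℝ k x‖ + ‖fderiv ℝ g x - fderiv ℝ k x‖) := by
  have hfd := hf.diffOn.differentiableAt (hM.mem_nhds hx)
  have hgd := hg.diffOn.differentiableAt (hM.mem_nhds hx)
  have hkd := hk.diffOn.differentiableAt (hM.mem_nhds hx)
  have h1 : pb k (fun y => f y + g y) x = pb k (fun y => f y - k y) x + pb k (fun y => g y - k y) x := by
    have e1 : fderiv ℝ (fun y => f y + g y) x = fderiv ℝ f x + fderiv ℝ g x := fderiv_fun_add hfd hgd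
    have e2 : fderiv ℝ (fun y => f y - k y) x = fderiv ℝ f x - fderiv ℝ k x := fderiv_fun_sub hfd hkd
    have e3 : fderiv ℝ (fun y => g y - k y) x = fderiv ℝ g x - fderiv ℝ k x := fderiv_fun_sub hgd hkd
    simp only [pb, dx, dy, e1, e2, e3, add_apply, sub_apply]
    ring
  have e2 : fderiv ℝ (fun y => f y - k y) x = fderiv ℝ f x - fderiv ℝ k x := fderiv_fun_sub hfd hkd
  have e3 : fderiv ℝ (fun y => g y - k y) x = fderiv ℝ g x - fderiv ℝ k x := fderiv_fun_sub hgd hkd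
  have h2 := abs_pb_le k (fun y => f y - k y) x
  have h3 := abs_pb_le k (fun y => g y - k y) x
  rw [e2] at h2
  rw [e3] at h3
  have h4 : ‖fderiv ℝ k x‖ ≤ 2 * |C| := (hk.fderiv_le x hx).trans (by linarith [le_abs_self C])
  have h5 : 2 * ‖fderiv ℝ k x‖ * ‖fderiv ℝ f x - fderiv ℝ k x‖ ≤
      4 * |C| * ‖fderiv ℝ f x - fderiv ℝ k x‖ :=
    mul_le_mul_of_nonneg_right (by linarith) (norm_nonneg _)
  have h6 : 2 * ‖fderiv ℝ k x‖ * ‖fderiv ℝ g x - fderiv ℝ k x‖ ≤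
      4 * |C| * ‖fderiv ℝ g x - fderiv ℝ k x‖ :=
    mul_le_mul_of_nonneg_right (by linarith) (norm_nonneg _)
  rw [h1]
  refine (abs_add_le _ _).trans ?_
  rw [mul_add]
  linarith

/-- the difference of the gradients at time `s`, composed with the flow -/
noncomputable def E1a_D (ψ : ℝ → ℂ → ℝ) (Φ : ℝ → ℂ → ℂ) (a b : ℝ) (x : ℂ) (s : ℝ) : ℝ :=
  ‖fderiv ℝ (ψ a) (Φ s x) - fderiv ℝ (ψ s) (Φ s x)‖ + ‖fderiv ℝ (ψ b) (Φ s x) - fderiv ℝ (ψ s) (Φ s x)‖

theorem E1a_D_cont (hM : IsOpen M) (h : Flow M w₀ ψ Φ) {a b : ℝ} (ha : 0 ≤ a) (hab : a ≤ b) :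
    ContinuousOn (fun q : ℂ × ℝ => E1a_D ψ Φ a b q.1 q.2) (M ×ˢ Ici 0) := by
  have h1 : ContinuousOn (fun q : ℂ × ℝ => Φ q.2 q.1) (M ×ˢ Ici 0) := by
    have h2 := h.cont_Phi.comp (continuous_swap.continuousOn (s := M ×ˢ Ici (0 : ℝ)))
      (fun q hq => ⟨hq.2, hq.1⟩)
    exact h2
  have hmem : ∀ q ∈ M ×ˢ Ici (0 : ℝ), Φ q.2 q.1 ∈ M := fun q hq => (h.bij q.2 hq.2).mapsTo hq.1
  have h3 : ContinuousOn (fun q : ℂ × ℝ => fderiv ℝ (ψ q.2) (Φ q.2 q.1)) (M ×ˢ Ici 0) := by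
    have h4 : ContinuousOn (fun q : ℝ × ℂ => fderiv ℝ (ψ q.1) q.2) (Ici 0 ×ˢ M) :=
      continuous_snd.comp_continuousOn h.cont
    exact h4.comp (continuousOn_snd.prodMk h1) (fun q hq => ⟨hq.2, hmem q hq⟩)
  have h5 : ∀ t, 0 ≤ t → ContinuousOn (fun q : ℂ × ℝ => fderiv ℝ (ψ t) (Φ q.2 q.1)) (M ×ˢ Ici 0) := by
    intro t ht
    obtain ⟨C, hC⟩ := h.stream t
    exact ((hC t ht le_rfl).fderiv_cont hM).comp h1 hmem
  exact ((h5 a ha).sub h3).norm.add ((h5 b (ha.trans hab)).sub h3).norm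

/-- [YUT-E1a] the basic estimate for the energy. With `e(t) = -∫_M ψ_t Δψ_t`:
`e(b) - e(a) = -∫_M (ψ_b + ψ_a)(Δψ_b - Δψ_a)` (by `green_symm` for `ψ_a, ψ_b`), and with
`f = ψ_a + ψ_b`: `∫_M f Δψ_b = ∫_M f(Φ_b x) w₀ x dx`, `∫_M f Δψ_a = ∫_M f(Φ_a x) w₀ x dx`
(`Flow.integral_comp` for `k = f * lap (ψ _)` and `h.vort`), so
`e(b) - e(a) = -∫_M w₀ x ∫_a^b {ψ_s, f}(Φ_s x) ds dx` (`Flow.transport`). Since `{ψ_s, ψ_s} = 0`,
`{ψ_s, f} = {ψ_s, (ψ_a - ψ_s) + (ψ_b - ψ_s)}`, and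
`|{ψ_s, k}(X)| ≤ 2 ‖fderiv ψ_s X‖ ‖fderiv k X‖ ≤ 4 C ‖fderiv ℝ k X‖`. Fubini (everything is bounded and
continuous on `[a,b] × M`) and `Flow.integral_comp` in the inner integral give the claim with a
constant `K` depending only on `T` and `B = sup |w₀|`. -/
theorem Flow.energy_step (hM : IsOpen M) (hb : Bornology.IsBounded M) (h : Flow M w₀ ψ Φ)
    (T : ℝ) : ∃ K : ℝ, 0 ≤ K ∧ ∀ a b : ℝ, 0 ≤ a → a ≤ b → b ≤ T →
      |(∫ x in M, gsq (ψ b) x) - ∫ x in M, gsq (ψ a) x| ≤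
        K * ∫ s in a..b, ((∫ x in M, ‖fderiv ℝ (ψ a) x - fderiv ℝ (ψ s) x‖) +
          ∫ x in M, ‖fderiv ℝ (ψ b) x - fderiv ℝ (ψ s) x‖) := by
  obtain ⟨C, hC⟩ := h.stream T
  obtain ⟨hw, B, hB0, hB⟩ := h.w0_bdd hM
  refine ⟨B * (4 * |C|), by positivity, ?_⟩
  intro a b ha hab hbT
  have hfin : volume M < ⊤ := hb.measure_lt_top
  have hμ : IsFiniteMeasure (volume.restrict M) := isFiniteMeasure_restrict.2 hfin.ne
  have hb0 : 0 ≤ b := ha.trans hab
  have hsa := hC a ha (hab.trans hbT)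
  have hsb := hC b hb0 hbT
  have hf : StreamLe M (C + C) (fun x => ψ a x + ψ b x) := hsa.add hM hsb
  -- integrability of products
  have hint : ∀ f g : ℂ → ℝ, StreamLe M C f → StreamLe M C g → IntegrableOn (fun x => f x * lap g x) M := by
    intro f g hf hg
    refine integrableOn_of_bdd hM hb (C := |C| * (2 * |C|)) (hf.cont.mul (hg.lap_cont hM)) ?_
    intro x hx
    rw [abs_mul]
    exact mul_le_mul ((hf.abs_le x hx).trans (le_abs_self C))
      ((hg.lap_le x hx).trans (by linarith [le_abs_self C])) (abs_nonneg _) (abs_nonneg _)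
  -- step 1
  have h1 : (∫ x in M, gsq (ψ b) x) - ∫ x in M, gsq (ψ a) x =
      -((∫ x in M, (ψ a x + ψ b x) * lap (ψ b) x) - ∫ x in M, (ψ a x + ψ b x) * lap (ψ a) x) := by
    have e1 : (∫ x in M, (ψ a x + ψ b x) * lap (ψ b) x) =
        (∫ x in M, ψ a x * lap (ψ b) x) + ∫ x in M, ψ b x * lap (ψ b) x := by
      rw [← integral_add (hint _ _ hsa hsb) (hint _ _ hsb hsb)]
      exact integral_congr_ae (Eventually.of_forall fun x => by ring)
    have e2 : (∫ x in M, (ψ a x + ψ b x) * lap (ψ a) x) =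
        (∫ x in M, ψ a x * lap (ψ a) x) + ∫ x in M, ψ b x * lap (ψ a) x := by
      rw [← integral_add (hint _ _ hsa hsa) (hint _ _ hsb hsa)]
      exact integral_congr_ae (Eventually.of_forall fun x => by ring)
    rw [dirichlet hM hb hsa, dirichlet hM hb hsb, e1, e2, green_symm hM hb hsa hsb]
    ring
  -- step 2
  have h2 : ∀ t, 0 ≤ t → (∫ x in M, (ψ a x + ψ b x) * lap (ψ t) x) =
      ∫ x in M, (ψ a (Φ t x) + ψ b (Φ t x)) * w₀ x := by
    intro t ht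
    rw [← h.integral_comp hM ht (fun x => (ψ a x + ψ b x) * lap (ψ t) x)]
    refine setIntegral_congr_fun hM.measurableSet ?_
    intro x hx
    change (ψ a (Φ t x) + ψ b (Φ t x)) * lap (ψ t) (Φ t x) = _
    rw [h.vort t ht x hx]
  have hint2 : ∀ t, 0 ≤ t → IntegrableOn (fun x => (ψ a (Φ t x) + ψ b (Φ t x)) * w₀ x) M := by
    intro t ht
    refine integrableOn_of_bdd hM hb (C := (|C| + |C|) * B) ?_ ?_
    · exact ((hf.cont.comp (h.contDiffOn hM ht).continuousOn (h.bij t ht).mapsTo)).mul hw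
    · intro x hx
      rw [abs_mul]
      refine mul_le_mul ?_ (hB x hx) (abs_nonneg _) (by positivity)
      have h3 := (h.bij t ht).mapsTo hx
      refine (abs_add_le _ _).trans (add_le_add ?_ ?_)
      · exact (hsa.abs_le _ h3).trans (le_abs_self C)
      · exact (hsb.abs_le _ h3).trans (le_abs_self C)
  have h3 : (∫ x in M, gsq (ψ b) x) - ∫ x in M, gsq (ψ a) x =
      -∫ x in M, (∫ s in a..b, pb (ψ s) (fun y => ψ a y + ψ b y) (Φ s x)) * w₀ x := by
    rw [h1, h2 b hb0, h2 a ha, ← integral_sub (hint2 b hb0) (hint2 a ha)]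
    congr 1
    refine setIntegral_congr_fun hM.measurableSet ?_
    intro x hx
    have h4 := h.transport hM (f := fun y => ψ a y + ψ b y) (hf.1.of_le (by norm_num)) ha hab hx
    change _ = (∫ s in a..b, pb (ψ s) (fun y => ψ a y + ψ b y) (Φ s x)) * w₀ x
    rw [← h4]
    ring
  -- the bounding function
  have hDc := E1a_D_cont hM h ha hab
  have hDb : ∀ x ∈ M, ∀ s ∈ Icc a b, |E1a_D ψ Φ a b x s| ≤ 8 * |C| := by
    intro x hx s hs
    have hs0 : 0 ≤ s := ha.trans hs.1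
    have h5 := (h.bij s hs0).mapsTo hx
    have h6 := hC s hs0 (hs.2.trans hbT)
    have h7 : ∀ f : ℂ → ℝ, StreamLe M C f → ‖fderiv ℝ f (Φ s x)‖ ≤ 2 * |C| := fun f hf =>
      (hf.fderiv_le _ h5).trans (by linarith [le_abs_self C])
    rw [abs_of_nonneg (by unfold E1a_D; positivity)]
    unfold E1a_D
    have h8 := norm_sub_le (fderiv ℝ (ψ a) (Φ s x)) (fderiv ℝ (ψ s) (Φ s x))
    have h9 := norm_sub_le (fderiv ℝ (ψ b) (Φ s x)) (fderiv ℝ (ψ s) (Φ s x))
    linarith [h7 _ hsa, h7 _ hsb, h7 _ h6]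
  have hDint : Integrable (Function.uncurry (E1a_D ψ Φ a b))
      ((volume.restrict M).prod (volume.restrict (Ioc a b))) := by
    rw [Measure.prod_restrict]
    have hms : MeasurableSet (M ×ˢ Ioc a b) := hM.measurableSet.prod measurableSet_Ioc
    have hfm : IsFiniteMeasure ((volume.prod volume : Measure (ℂ × ℝ)).restrict (M ×ˢ Ioc a b)) := by
      refine isFiniteMeasure_restrict.2 ?_
      rw [Measure.prod_prod]
      exact ENNReal.mul_ne_top hfin.ne (by simp)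
    refine Integrable.of_bound (C := 8 * |C|) ?_ ?_
    · refine ContinuousOn.aestronglyMeasurable ?_ hms
      exact hDc.mono (Set.prod_mono subset_rfl (fun s hs => ha.trans hs.1.le))
    · rw [ae_restrict_iff' hms]
      refine Eventually.of_forall ?_
      rintro ⟨x, s⟩ ⟨hx, hs⟩
      exact hDb x hx s (Ioc_subset_Icc_self hs)
  -- step 3: the bound
  have h4 : |∫ x in M, (∫ s in a..b, pb (ψ s) (fun y => ψ a y + ψ b y) (Φ s x)) * w₀ x| ≤
      ∫ x in M, B * (4 * |C|) * ∫ s in a..b, E1a_D ψ Φ a b x s := by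
    rw [← Real.norm_eq_abs]
    have hI : Integrable (fun x => ∫ s in a..b, E1a_D ψ Φ a b x s) (volume.restrict M) := by
      simp only [intervalIntegral.integral_of_le hab]
      exact hDint.integral_prod_left
    refine norm_integral_le_of_norm_le (hI.const_mul _) ?_
    rw [ae_restrict_iff' hM.measurableSet]
    refine Eventually.of_forall ?_
    intro x hx
    rw [norm_mul, mul_comm]
    have hIx : IntervalIntegrable (fun s => E1a_D ψ Φ a b x s) volume a b := by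
      refine ContinuousOn.intervalIntegrable ?_
      rw [uIcc_of_le hab]
      have h5 : ContinuousOn (fun s : ℝ => ((x, s) : ℂ × ℝ)) (Icc a b) := by fun_prop
      have h7 : MapsTo (fun s : ℝ => ((x, s) : ℂ × ℝ)) (Icc a b) (M ×ˢ Ici 0) := by
        intro s hs
        exact Set.mk_mem_prod hx (Set.mem_Ici.2 (ha.trans hs.1))
      have h8 := ContinuousOn.comp hDc h5 h7
      exact h8
    have h5 : ‖∫ s in a..b, pb (ψ s) (fun y => ψ a y + ψ b y) (Φ s x)‖ ≤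
        ∫ s in a..b, 4 * |C| * E1a_D ψ Φ a b x s := by
      refine intervalIntegral.norm_integral_le_of_norm_le hab ?_ (hIx.const_mul _)
      refine Eventually.of_forall ?_
      intro s hs
      have hs0 : 0 ≤ s := ha.trans hs.1.le
      have h7 := E1a_pb hM hsa hsb (hC s hs0 (hs.2.trans hbT)) ((h.bij s hs0).mapsTo hx)
      rw [Real.norm_eq_abs]
      unfold E1a_D
      exact h7
    rw [intervalIntegral.integral_const_mul] at h5
    have h6 : ‖w₀ x‖ ≤ B := hB x hx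
    calc ‖w₀ x‖ * ‖∫ s in a..b, pb (ψ s) (fun y => ψ a y + ψ b y) (Φ s x)‖
        ≤ B * (4 * |C| * ∫ s in a..b, E1a_D ψ Φ a b x s) := mul_le_mul h6 h5 (norm_nonneg _) hB0
      _ = B * (4 * |C|) * ∫ s in a..b, E1a_D ψ Φ a b x s := by ring
  rw [h3, abs_neg]
  refine h4.trans (le_of_eq ?_)
  rw [integral_const_mul]
  congr 1
  simp only [intervalIntegral.integral_of_le hab]
  rw [integral_integral_swap hDint]
  refine setIntegral_congr_fun measurableSet_Ioc ?_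
  intro s hs
  have hs0 : 0 ≤ s := ha.trans hs.1.le
  have hss := hC s hs0 (hs.2.trans hbT)
  have h5 := h.integral_comp hM hs0 (fun x => ‖fderiv ℝ (ψ a) x - fderiv ℝ (ψ s) x‖ +
    ‖fderiv ℝ (ψ b) x - fderiv ℝ (ψ s) x‖)
  have hI : ∀ f : ℂ → ℝ, StreamLe M C f →
      IntegrableOn (fun x => ‖fderiv ℝ f x - fderiv ℝ (ψ s) x‖) M := by
    intro f hf
    refine integrableOn_of_bdd hM hb (C := 4 * |C|) ((hf.fderiv_cont hM).sub (hss.fderiv_cont hM)).norm ?_
    intro x hx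
    rw [abs_of_nonneg (norm_nonneg _)]
    refine (norm_sub_le _ _).trans ?_
    linarith [hf.fderiv_le x hx, hss.fderiv_le x hx, le_abs_self C]
  have h6 := integral_add (hI _ hsa) (hI _ hsb)
  change (∫ x in M, E1a_D ψ Φ a b x s) = (∫ x in M, ‖fderiv ℝ (ψ a) x - fderiv ℝ (ψ s) x‖) +
    ∫ x in M, ‖fderiv ℝ (ψ b) x - fderiv ℝ (ψ s) x‖
  rw [← h6, ← h5]
  rfl

end Pool.Agent.YUT
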