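import Pool.Agent.YUT.K2a

open MeasureTheory Set Filter Topology
open scoped ContDiff

namespace Pool.Agent.YUT

open Pool.Agent.YUD

variable {M : Set ℂ} {w₀ : ℂ → ℝ} {ψ : ℝ → ℂ → ℝ} {Φ : ℝ → ℂ → ℂ}

theorem K2b_field {ρ : ℝ} (hρ : 0 < ρ) {Y : ℂ → ℂ} {KY : ℝ}
    (hY : ∀ x y, ‖Y x - Y y‖ ≤ KY * ‖x - y‖) (hY0 : ∀ x : ℂ, ‖x‖ = ρ → Y x = 0) {x : ℂ}
    (hx : ρ < ‖x‖) : ‖Y x‖ ≤ KY * (‖x‖ - ρ) := by
  have hx0 : 0 < ‖x‖ := hρ.trans hx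
  have h1 : ‖((ρ / ‖x‖ : ℝ) • x : ℂ)‖ = ρ := by
    rw [norm_smul, Real.norm_eq_abs, abs_of_pos (div_pos hρ hx0), div_mul_cancel₀ _ hx0.ne']
  have h2 := hY x ((ρ / ‖x‖ : ℝ) • x)
  rw [hY0 _ h1, sub_zero] at h2
  have h3 : ‖x - ((ρ / ‖x‖ : ℝ) • x : ℂ)‖ = ‖x‖ - ρ := by
    have h4 : x - ((ρ / ‖x‖ : ℝ) • x : ℂ) = ((1 - ρ / ‖x‖ : ℝ) • x : ℂ) := by
      rw [sub_smul, one_smul]
    have h5 : 0 ≤ 1 - ρ / ‖x‖ := by
      have : ρ / ‖x‖ ≤ 1 := by rw [div_le_one hx0]; exact hx.le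
      linarith
    rw [h4, norm_smul, Real.norm_eq_abs, abs_of_nonneg h5, sub_mul, one_mul,
      div_mul_cancel₀ _ hx0.ne']
  rw [h3] at h2
  exact h2

/-- [YUT-K2b] the action is arbitrarily small near the hole: `|gg Y (ψ τ) X| ≤ ‖fderiv ψ_τ X‖ ‖Y X‖ +
|ψ_τ X| ≤ K' (‖X‖ - ρ)` (`Y` Lipschitz and zero on the circle; `hole_small`), along the trajectory of
`x` this is at most `K' K (‖x‖ - ρ)` by `hole_flow`; integrate over `[0,t]`, let `‖x‖ → ρ`. -/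
theorem hole_act (hM : IsOpen M) {ρ ρ₁ : ℝ} (hρ : 0 < ρ) (hρ1 : ρ < ρ₁)
    (hole : ∀ x ∈ M, ρ < ‖x‖) (hann : ∀ x : ℂ, ρ < ‖x‖ → ‖x‖ < ρ₁ → x ∈ M)
    (h : Flow M w₀ ψ Φ) {Y : ℂ → ℂ} {KY : ℝ} (hY : ∀ x y, ‖Y x - Y y‖ ≤ KY * ‖x - y‖)
    (hY0 : ∀ x : ℂ, ‖x‖ = ρ → Y x = 0) {t : ℝ} (ht : 0 ≤ t) {ε : ℝ} (hε : 0 < ε) :
    ∃ y ∈ M, |act Y ψ Φ t y| ≤ ε := by
  obtain ⟨C, hC⟩ := h.stream t
  obtain ⟨K, hK0, hK⟩ := hole_small hM hρ hρ1 hole hann C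
  obtain ⟨K', δ, hK'0, hδ, hflow⟩ := hole_flow hM hρ hρ1 hole hann h t
  have hKY : 0 ≤ KY := by
    have h1 := hY 1 0
    rw [sub_zero, norm_one, mul_one] at h1
    exact (norm_nonneg _).trans h1
  have hC0 : 0 ≤ C := by
    have hm : (((ρ + ρ₁) / 2 : ℝ) : ℂ) ∈ M := by
      have hn : ‖(((ρ + ρ₁) / 2 : ℝ) : ℂ)‖ = (ρ + ρ₁) / 2 := by
        rw [Complex.norm_real, Real.norm_eq_abs, abs_of_pos (by linarith)]
      exact hann _ (by rw [hn]; linarith) (by rw [hn]; linarith)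
    exact (abs_nonneg _).trans ((hC 0 le_rfl ht).abs_le _ hm)
  set A : ℝ := 2 * C * KY + K with hA
  have hA0 : 0 ≤ A := by positivity
  have hb : ∀ τ, 0 ≤ τ → τ ≤ t → ∀ X : ℂ, ρ < ‖X‖ → ‖X‖ < ρ₁ →
      |gg Y (ψ τ) X| ≤ A * (‖X‖ - ρ) := by
    intro τ h0 h1 X hX hX1
    have hXM := hann X hX hX1
    have hs := hC τ h0 h1
    have f1 : |fderiv ℝ (ψ τ) X (Y X)| ≤ 2 * C * (KY * (‖X‖ - ρ)) := by
      have g1 := (fderiv ℝ (ψ τ) X).le_opNorm (Y X)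
      rw [Real.norm_eq_abs] at g1
      exact g1.trans (mul_le_mul (hs.fderiv_le X hXM) (K2b_field hρ hY hY0 hX)
        (norm_nonneg _) (by positivity))
    have f2 := (hK (ψ τ) hs X hX hX1).1
    have f3 : |gg Y (ψ τ) X| ≤ |fderiv ℝ (ψ τ) X (Y X)| + |ψ τ X| := by
      unfold gg
      exact abs_sub _ _
    rw [hA]
    nlinarith
  obtain ⟨η, hη0, hη1, hη2, hη3⟩ : ∃ η : ℝ, 0 < η ∧ η < δ ∧ η < ρ₁ - ρ ∧ t * (A * K') * η ≤ ε := by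
    have hp : 0 ≤ t * (A * K') := by positivity
    refine ⟨min (δ / 2) (min ((ρ₁ - ρ) / 2) (ε / (t * (A * K') + 1))), ?_, ?_, ?_, ?_⟩
    · refine lt_min (by linarith) (lt_min (by linarith) (by positivity))
    · exact (min_le_left _ _).trans_lt (by linarith)
    · exact ((min_le_right _ _).trans (min_le_left _ _)).trans_lt (by linarith)
    · have g1 : min (δ / 2) (min ((ρ₁ - ρ) / 2) (ε / (t * (A * K') + 1))) ≤
          ε / (t * (A * K') + 1) := (min_le_right _ _).trans (min_le_right _ _)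
      refine (mul_le_mul_of_nonneg_left g1 hp).trans ?_
      rw [← mul_div_assoc, div_le_iff₀ (by positivity)]
      nlinarith
  have hyn : ‖((ρ + η : ℝ) : ℂ)‖ = ρ + η := by
    rw [Complex.norm_real, Real.norm_eq_abs, abs_of_pos (by linarith)]
  have hyM : ((ρ + η : ℝ) : ℂ) ∈ M :=
    hann _ (by rw [hyn]; linarith) (by rw [hyn]; linarith)
  refine ⟨((ρ + η : ℝ) : ℂ), hyM, ?_⟩
  unfold act
  have hint : ∀ τ ∈ Set.uIoc 0 t, ‖gg Y (ψ τ) (Φ τ ((ρ + η : ℝ) : ℂ))‖ ≤ A * (K' * η) := by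
    intro τ hτ
    rw [Set.uIoc_of_le ht] at hτ
    have g0 := hflow ((ρ + η : ℝ) : ℂ) (by rw [hyn]; linarith) (by rw [hyn]; linarith) τ
      hτ.1.le hτ.2
    have g1 := hole _ ((h.bij τ hτ.1.le).1 hyM)
    have g2 := hb τ hτ.1.le hτ.2 _ g1 g0.1
    rw [Real.norm_eq_abs]
    refine g2.trans (mul_le_mul_of_nonneg_left ?_ hA0)
    have g3 := g0.2
    rw [hyn] at g3
    have g4 : ρ + η - ρ = η := by ring
    rw [g4] at g3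
    exact g3
  have hfin := intervalIntegral.norm_integral_le_of_norm_le_const hint
  rw [Real.norm_eq_abs, sub_zero, abs_of_nonneg ht] at hfin
  calc _ ≤ A * (K' * η) * t := hfin
    _ = t * (A * K') * η := by ring
    _ ≤ ε := hη3

end Pool.Agent.YUT
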