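import Pool.Agent.YUT.Base

open MeasureTheory Set Filter Topology
open scoped ContDiff

namespace Pool.Agent.YUT

open Pool.Agent.YUD

/-- [YUT-S1a] a star-shaped set is twisted: `Y x = x / 2`, `d = 1`; `x + l • x/2 ∉ M` if `x ∉ M`;
two points are joined through `0` by two segments. -/
theorem Star.twistField {M : Set ℂ} (hM : Star M) : TwistField M (fun x => (1 / 2 : ℝ) • x) 1 := by
  have hfd : ∀ x : ℂ, HasFDerivAt (fun x : ℂ => (1 / 2 : ℝ) • x) ((1 / 2 : ℝ) • ContinuousLinearMap.id ℝ ℂ) x :=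
    fun x => (hasFDerivAt_id x).const_smul (1 / 2 : ℝ)
  have hf : ∀ x v : ℂ, fderiv ℝ (fun x : ℂ => (1 / 2 : ℝ) • x) x v = (1 / 2 : ℝ) • v := by
    intro x v
    rw [(hfd x).fderiv]
    rfl
  refine ⟨one_pos, ⟨1 / 2, ?_⟩, ?_, ?_, ?_, ⟨1, one_pos, ?_⟩⟩
  · intro x y
    show ‖(1 / 2 : ℝ) • x - (1 / 2 : ℝ) • y‖ ≤ 1 / 2 * ‖x - y‖
    rw [← smul_sub, norm_smul]
    norm_num
  · exact (contDiff_const_smul (1 / 2 : ℝ)).contDiffOn
  · intro x _
    rw [hf, hf, Complex.real_smul, Complex.real_smul]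
    norm_num
  · intro x _ v
    rw [hf, Complex.real_smul, ← Complex.normSq_eq_norm_sq, Complex.normSq_apply, Complex.re_ofReal_mul,
      Complex.im_ofReal_mul]
    apply le_of_eq
    ring
  · intro l hl0 _ x hx hy
    apply hx
    have h1 : (0 : ℝ) < 1 + l / 2 := by positivity
    have h2 := hM.2.2.2 _ hy (1 / (1 + l / 2)) (by positivity)
      ((div_le_one h1).2 (by linarith))
    have h3 : (1 / (1 + l / 2)) • (x + l • ((1 / 2 : ℝ) • x)) = x := by
      rw [smul_smul]
      nth_rewrite 1 [← one_smul ℝ x]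
      rw [← add_smul, smul_smul]
      have h4 : 1 / (1 + l / 2) * (1 + l * (1 / 2)) = 1 := by
        have h5 : 1 + l * (1 / 2) = 1 + l / 2 := by ring
        rw [h5, one_div_mul_cancel h1.ne']
      rw [h4, one_smul]
    rwa [h3] at h2

/-- [YUT-S1a] -/
theorem Star.finDiam {M : Set ℂ} (hM : Star M) : FinDiam M := by
  obtain ⟨_, hb, ⟨x0, hx0⟩, hs⟩ := hM
  have h0 : (0 : ℂ) ∈ M := by
    have := hs x0 hx0 0 le_rfl zero_le_one
    rwa [zero_smul] at this
  obtain ⟨R, hR⟩ := hb.exists_norm_le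
  refine ⟨2, R, fun x hx y hy => ?_⟩
  have j1 : C1Join M R x 0 := by
    refine ⟨fun s => (1 - s) • x, fun _ => -x, by simp, by simp, ?_, ?_, continuousOn_const, ?_⟩
    · intro s hs'
      exact hs x hx (1 - s) (by linarith [hs'.2]) (by linarith [hs'.1])
    · intro s _
      have h1 : HasDerivAt (fun s : ℝ => 1 - s) (-1) s := by
        simpa using (hasDerivAt_id s).const_sub 1
      have h2 := h1.smul_const x
      rw [neg_one_smul] at h2
      exact h2.hasDerivWithinAt
    · intro s _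
      show ‖-x‖ ≤ R
      rw [norm_neg]
      exact hR x hx
  have j2 : C1Join M R 0 y := by
    refine ⟨fun s => s • y, fun _ => y, by simp, by simp, ?_, ?_, continuousOn_const, ?_⟩
    · intro s hs'
      exact hs y hy s hs'.1 hs'.2
    · intro s _
      have h2 := (hasDerivAt_id s).smul_const y
      rw [one_smul] at h2
      exact h2.hasDerivWithinAt
    · intro s _
      exact hR y hy
  refine ⟨fun i => if i = 0 then x else if i = 1 then 0 else y, by simp, by simp, ?_⟩
  intro i hi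
  interval_cases i
  · simpa using j1
  · simpa using j2

end Pool.Agent.YUT
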