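import Pool.Agent.YUT.Base

open MeasureTheory Set Filter Topology
open scoped ContDiff

namespace Pool.Agent.YUT

open Pool.Agent.YUD

theorem S1b_quad (A B D : ℝ) (x : ℂ) :
    HasFDerivAt (fun x : ℂ => A * (x.re * x.re) + B * (x.im * x.im) - D)
      ((2 * A * x.re) • Complex.reCLM + (2 * B * x.im) • Complex.imCLM) x := by
  have h1 : HasFDerivAt (fun x : ℂ => x.re) Complex.reCLM x := Complex.reCLM.hasFDerivAt
  have h2 : HasFDerivAt (fun x : ℂ => x.im) Complex.imCLM x := Complex.imCLM.hasFDerivAt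
  have h3 := (((h1.mul h1).const_mul A).add ((h2.mul h2).const_mul B)).sub_const D
  refine h3.congr_fderiv ?_
  ext v
  simp
  ring

theorem S1b_tor (a b : ℝ) : tor a b = fun x : ℂ =>
    1 / (2 * (a ^ 2 * (1 / a ^ 2 + 1 / b ^ 2))) * (x.re * x.re) +
      1 / (2 * (b ^ 2 * (1 / a ^ 2 + 1 / b ^ 2))) * (x.im * x.im) - 1 / (2 * (1 / a ^ 2 + 1 / b ^ 2)) := by
  funext x
  simp only [tor]
  generalize (1 / a ^ 2 + 1 / b ^ 2) = κ
  rw [sub_div, add_div, div_pow, div_pow, div_div, div_div]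
  ring_nf

theorem S1b_fd (a b : ℝ) (x v : ℂ) : fderiv ℝ (tor a b) x v =
    x.re / (a ^ 2 * (1 / a ^ 2 + 1 / b ^ 2)) * v.re + x.im / (b ^ 2 * (1 / a ^ 2 + 1 / b ^ 2)) * v.im := by
  rw [S1b_tor, (S1b_quad _ _ _ x).fderiv]
  generalize a ^ 2 * (1 / a ^ 2 + 1 / b ^ 2) = κ
  generalize b ^ 2 * (1 / a ^ 2 + 1 / b ^ 2) = κ'
  show 2 * (1 / (2 * κ)) * x.re * v.re + 2 * (1 / (2 * κ')) * x.im * v.im = _
  rw [mul_one_div, mul_one_div, mul_comm 2 κ, mul_comm 2 κ', div_mul_eq_div_div_swap,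
    div_mul_eq_div_div_swap, div_self two_ne_zero]
  ring

theorem S1b_lin (A B : ℝ) (x v : ℂ) : fderiv ℝ (fun x : ℂ => A * x.re + B * x.im) x v = A * v.re + B * v.im := by
  have h1 : HasFDerivAt (fun x : ℂ => x.re) Complex.reCLM x := Complex.reCLM.hasFDerivAt
  have h2 : HasFDerivAt (fun x : ℂ => x.im) Complex.imCLM x := Complex.imCLM.hasFDerivAt
  have h3 : HasFDerivAt (fun x : ℂ => A * x.re + B * x.im) (A • Complex.reCLM + B • Complex.imCLM) x :=
    (h1.const_mul A).add (h2.const_mul B)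
  rw [h3.fderiv]
  simp

theorem S1b_dx (a b : ℝ) : dx (tor a b) = fun x : ℂ => (1 / (a ^ 2 * (1 / a ^ 2 + 1 / b ^ 2))) * x.re + 0 * x.im := by
  funext x
  rw [dx, S1b_fd]
  simp only [Complex.one_re, Complex.one_im]
  ring

theorem S1b_dy (a b : ℝ) : dy (tor a b) = fun x : ℂ => 0 * x.re + (1 / (b ^ 2 * (1 / a ^ 2 + 1 / b ^ 2))) * x.im := by
  funext x
  rw [dy, S1b_fd]
  simp only [Complex.I_re, Complex.I_im]
  ring

/-- [YUT-S1b] an ellipse is star-shaped (bounded by `max a b`, open, contains `0`) -/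
theorem star_ellipse {a b : ℝ} (ha : 0 < a) (hb : 0 < b) : Star (Ellipse a b) := by
  refine ⟨?_, ?_, ⟨0, by simp [Ellipse]⟩, ?_⟩
  · exact isOpen_lt (((Complex.continuous_re.div_const a).pow 2).add
      ((Complex.continuous_im.div_const b).pow 2)) continuous_const
  · refine isBounded_iff_forall_norm_le.2 ⟨a + b, ?_⟩
    intro x hx
    have hx' : (x.re / a) ^ 2 + (x.im / b) ^ 2 < 1 := hx
    have h1 : |x.re| ≤ a := by
      have : |x.re / a| ≤ 1 := by
        rw [← sq_le_one_iff_abs_le_one]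
        nlinarith [sq_nonneg (x.im / b)]
      rwa [abs_div, abs_of_pos ha, div_le_one ha] at this
    have h2 : |x.im| ≤ b := by
      have : |x.im / b| ≤ 1 := by
        rw [← sq_le_one_iff_abs_le_one]
        nlinarith [sq_nonneg (x.re / a)]
      rwa [abs_div, abs_of_pos hb, div_le_one hb] at this
    exact (Complex.norm_le_abs_re_add_abs_im x).trans (add_le_add h1 h2)
  · intro x hx s hs0 hs1
    have hx' : (x.re / a) ^ 2 + (x.im / b) ^ 2 < 1 := hx
    show ((s • x).re / a) ^ 2 + ((s • x).im / b) ^ 2 < 1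
    rw [Complex.smul_re, Complex.smul_im, smul_eq_mul, smul_eq_mul]
    have e : (s * x.re / a) ^ 2 + (s * x.im / b) ^ 2 = s ^ 2 * ((x.re / a) ^ 2 + (x.im / b) ^ 2) := by ring
    rw [e]
    have h0 : 0 ≤ (x.re / a) ^ 2 + (x.im / b) ^ 2 := by positivity
    have h1 : s ^ 2 ≤ 1 := by nlinarith
    nlinarith

/-- [YUT-S1b] the torsion function: stream function, Laplacian `1`, and
`(1/2) x ⬝ ∇z - z` is constant. -/
theorem tor_facts {a b : ℝ} (ha : 0 < a) (hb : 0 < b) :
    (∃ C, StreamLe (Ellipse a b) C (tor a b)) ∧ (∀ x, lap (tor a b) x = 1) ∧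
      (∀ x, gg (fun x => (1 / 2 : ℝ) • x) (tor a b) x = 1 / (2 * (1 / a ^ 2 + 1 / b ^ 2))) := by
  have ha2 : (0 : ℝ) < a ^ 2 := by positivity
  have hb2 : (0 : ℝ) < b ^ 2 := by positivity
  have hκ : 0 < 1 / a ^ 2 + 1 / b ^ 2 := by positivity
  have hstar := star_ellipse ha hb
  refine ⟨?_, ?_, ?_⟩
  · obtain ⟨R, hR⟩ := hstar.2.1.exists_norm_le
    have hR' : ∀ x ∈ Ellipse a b, |x.re| ≤ R ∧ |x.im| ≤ R := fun x hx =>
      ⟨(Complex.abs_re_le_norm x).trans (hR x hx), (Complex.abs_im_le_norm x).trans (hR x hx)⟩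
    have hR0 : 0 ≤ R := (norm_nonneg _).trans (hR 0 (by simp [Ellipse]))
    set p : ℝ := 1 / (a ^ 2 * (1 / a ^ 2 + 1 / b ^ 2)) with hp
    set q : ℝ := 1 / (b ^ 2 * (1 / a ^ 2 + 1 / b ^ 2)) with hq
    set u : ℝ := 1 / (2 * (1 / a ^ 2 + 1 / b ^ 2)) with hu
    have hp0 : 0 < p := by rw [hp]; positivity
    have hq0 : 0 < q := by rw [hq]; positivity
    have hu0 : 0 < u := by rw [hu]; positivity
    refine ⟨u + p * R + q * R + p + q, ?_, ⟨?_, ⟨?_, ?_, ?_⟩, ⟨?_, ?_, ?_⟩⟩, ?_⟩
    · rw [S1b_tor]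
      have c1 : ContDiff ℝ 2 (fun x : ℂ => x.re) := Complex.reCLM.contDiff
      have c2 : ContDiff ℝ 2 (fun x : ℂ => x.im) := Complex.imCLM.contDiff
      exact (((contDiff_const.mul (c1.mul c1)).add (contDiff_const.mul (c2.mul c2))).sub contDiff_const).contDiffOn
    · intro x hx
      have hx' : (x.re / a) ^ 2 + (x.im / b) ^ 2 < 1 := hx
      have h0 : 0 ≤ (x.re / a) ^ 2 + (x.im / b) ^ 2 := by positivity
      have h1 : |tor a b x| ≤ u := by
        have e : tor a b x = ((x.re / a) ^ 2 + (x.im / b) ^ 2 - 1) * u := by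
          rw [tor, hu, mul_one_div]
        rw [e, abs_mul, abs_of_pos hu0]
        have h2 : |(x.re / a) ^ 2 + (x.im / b) ^ 2 - 1| ≤ 1 := by
          rw [abs_le]; constructor <;> linarith
        nlinarith
      have : 0 ≤ p * R + q * R + p + q := by positivity
      linarith
    · intro x hx
      rw [S1b_dx]
      show |p * x.re + 0 * x.im| ≤ _
      rw [zero_mul, add_zero, abs_mul, abs_of_pos hp0]
      have h1 := (hR' x hx).1
      have : 0 ≤ u + q * R + p + q := by positivity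
      nlinarith [mul_le_mul_of_nonneg_left h1 hp0.le]
    · intro x hx
      rw [S1b_dx, dx, S1b_lin]
      show |p * (1 : ℂ).re + 0 * (1 : ℂ).im| ≤ _
      rw [Complex.one_re, Complex.one_im, mul_one, mul_zero, add_zero, abs_of_pos hp0]
      have : 0 ≤ u + p * R + q * R + q := by positivity
      linarith
    · intro x hx
      rw [S1b_dx, dy, S1b_lin]
      show |p * Complex.I.re + 0 * Complex.I.im| ≤ _
      rw [Complex.I_re, Complex.I_im, mul_zero, zero_mul, add_zero, abs_zero]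
      positivity
    · intro x hx
      rw [S1b_dy]
      show |0 * x.re + q * x.im| ≤ _
      rw [zero_mul, zero_add, abs_mul, abs_of_pos hq0]
      have h1 := (hR' x hx).2
      have : 0 ≤ u + p * R + p + q := by positivity
      nlinarith [mul_le_mul_of_nonneg_left h1 hq0.le]
    · intro x hx
      rw [S1b_dy, dx, S1b_lin]
      show |0 * (1 : ℂ).re + q * (1 : ℂ).im| ≤ _
      rw [Complex.one_re, Complex.one_im, zero_mul, mul_zero, add_zero, abs_zero]
      positivity
    · intro x hx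
      rw [S1b_dy, dy, S1b_lin]
      show |0 * Complex.I.re + q * Complex.I.im| ≤ _
      rw [Complex.I_re, Complex.I_im, mul_one, zero_mul, zero_add, abs_of_pos hq0]
      have : 0 ≤ u + p * R + q * R + p := by positivity
      linarith
    · intro ε hε
      have hcont : Continuous fun x : ℂ => (x.re / a) ^ 2 + (x.im / b) ^ 2 :=
        ((Complex.continuous_re.div_const a).pow 2).add ((Complex.continuous_im.div_const b).pow 2)
      set m : ℝ := min (ε / u) 1 with hm
      have hm0 : 0 < m := lt_min (by positivity) one_pos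
      refine ⟨{x | (x.re / a) ^ 2 + (x.im / b) ^ 2 ≤ 1 - m}, ?_, ?_, ?_⟩
      · intro x hx
        have hx' : (x.re / a) ^ 2 + (x.im / b) ^ 2 ≤ 1 - m := hx
        show (x.re / a) ^ 2 + (x.im / b) ^ 2 < 1
        linarith
      · apply Metric.isCompact_of_isClosed_isBounded (isClosed_le hcont continuous_const)
        apply hstar.2.1.subset
        intro x hx
        have hx' : (x.re / a) ^ 2 + (x.im / b) ^ 2 ≤ 1 - m := hx
        show (x.re / a) ^ 2 + (x.im / b) ^ 2 < 1
        linarith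
      · intro x hx hxK
        have hx' : (x.re / a) ^ 2 + (x.im / b) ^ 2 < 1 := hx
        have hxK' : 1 - m < (x.re / a) ^ 2 + (x.im / b) ^ 2 := not_le.1 hxK
        have e : tor a b x = ((x.re / a) ^ 2 + (x.im / b) ^ 2 - 1) * u := by
          rw [tor, hu, mul_one_div]
        rw [e, abs_mul, abs_of_pos hu0, abs_of_neg (by linarith)]
        have h1 : -((x.re / a) ^ 2 + (x.im / b) ^ 2 - 1) < m := by linarith
        have h2 : m ≤ ε / u := min_le_left _ _
        rw [le_div_iff₀ hu0] at h2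
        nlinarith
  · intro x
    rw [lap, S1b_dx, S1b_dy, dx, dy, S1b_lin, S1b_lin, Complex.one_re, Complex.one_im, Complex.I_re, Complex.I_im]
    field_simp
    ring
  · intro x
    rw [gg, S1b_fd, tor, Complex.smul_re, Complex.smul_im, smul_eq_mul, smul_eq_mul]
    field_simp
    ring

end Pool.Agent.YUT
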