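import Pool.Agent.YUT.V2b
import Pool.Agent.YUT.S1a
import Pool.Agent.YUT.S1b

open MeasureTheory Set Filter Topology
open scoped ContDiff

namespace Pool.Agent.YUT

open Pool.Agent.YUD

/-- [YUT-S1c] the twist form on an ellipse: with `m` the mean of `Δf` and `φ = f - m z`,
`∫ (Δf - m) gg(f) = ∫ Δφ gg(φ) + m ∫ (Δf - m) gg(z) ≥ ∫ |∇φ|²`: on the ellipse `lap φ = lap f - m`,
`gg f = gg φ + m gg z` (linearity), `gg z` is a constant and `∫ (Δf - m) = 0`; then `J_twist` for `φ`
with `d = 1`. -/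
theorem J_ellipse {a b : ℝ} (ha : 0 < a) (hb : 0 < b) {f : ℂ → ℝ} {C m : ℝ}
    (hf : StreamLe (Ellipse a b) C f) (hm : ∫ x in Ellipse a b, (lap f x - m) = 0) :
    ∫ x in Ellipse a b, gsq (fun y => f y - m * tor a b y) x ≤
      ∫ x in Ellipse a b, (lap f x - m) * gg (fun x => (1 / 2 : ℝ) • x) f x := by
  have hstar := star_ellipse ha hb
  have hM : IsOpen (Ellipse a b) := hstar.1
  have hbd := hstar.2.1
  obtain ⟨⟨C', hz⟩, hzl, hzg⟩ := tor_facts ha hb
  have hφs : StreamLe (Ellipse a b) (C + |m| * C') (fun y => f y - m * tor a b y) :=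
    hf.sub hM (hz.const_mul hM m)
  have hJ := J_twist hM hbd hstar.twistField hφs
  rw [one_mul] at hJ
  refine hJ.trans (le_of_eq ?_)
  set κ : ℝ := 1 / (2 * (1 / a ^ 2 + 1 / b ^ 2)) with hκ
  have hpt : ∀ x ∈ Ellipse a b, lap (fun y => f y - m * tor a b y) x *
      gg (fun x => (1 / 2 : ℝ) • x) (fun y => f y - m * tor a b y) x =
      (lap f x - m) * gg (fun x => (1 / 2 : ℝ) • x) f x - (m * κ) * (lap f x - m) := by
    intro x hx
    have h1 : lap (fun y => f y - m * tor a b y) x = lap f x - m := by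
      rw [lap_sub hM hf.1 (contDiffOn_const.mul hz.1) hx, lap_const_mul hM m hz.1 hx, hzl x, mul_one]
    have d1 : DifferentiableAt ℝ f x := hf.diffOn.differentiableAt (hM.mem_nhds hx)
    have d2 : DifferentiableAt ℝ (tor a b) x := hz.diffOn.differentiableAt (hM.mem_nhds hx)
    have h2 : gg (fun x => (1 / 2 : ℝ) • x) (fun y => f y - m * tor a b y) x =
        gg (fun x => (1 / 2 : ℝ) • x) f x - m * gg (fun x => (1 / 2 : ℝ) • x) (tor a b) x := by
      have e : fderiv ℝ (fun y => f y - m * tor a b y) x =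
          fderiv ℝ f x - m • fderiv ℝ (tor a b) x := by
        rw [fderiv_fun_sub d1 (d2.const_mul m), fderiv_const_mul d2]
      rw [gg, e, gg, gg]
      simp only [sub_apply, smul_apply, smul_eq_mul]
      ring
    rw [h1, h2, hzg x]
    ring
  rw [setIntegral_congr_fun hM.measurableSet hpt]
  obtain ⟨R, hR⟩ := hbd.subset_closedBall 0
  have hfd := hf.fderiv_cont hM
  have hC0 : ∀ x ∈ Ellipse a b, ‖x‖ ≤ R := fun x hx => by
    have := hR hx
    rwa [mem_closedBall_zero_iff] at this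
  have hc1 : ContinuousOn (fun x => lap f x - m) (Ellipse a b) :=
    (hf.lap_cont hM).sub continuousOn_const
  have hc2 : ContinuousOn (fun x => gg (fun x => (1 / 2 : ℝ) • x) f x) (Ellipse a b) := by
    have : ContinuousOn (fun x : ℂ => fderiv ℝ f x ((1 / 2 : ℝ) • x) - f x) (Ellipse a b) :=
      (hfd.clm_apply (by fun_prop)).sub hf.cont
    exact this
  have hb1 : ∀ x ∈ Ellipse a b, |lap f x - m| ≤ 2 * C + |m| := by
    intro x hx
    have h1 := hf.lap_le x hx
    have h2 := abs_sub (lap f x) m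
    linarith
  have hb2 : ∀ x ∈ Ellipse a b, |gg (fun x => (1 / 2 : ℝ) • x) f x| ≤ 2 * C * R + C := by
    intro x hx
    have h1 : |fderiv ℝ f x ((1 / 2 : ℝ) • x)| ≤ 2 * C * R := by
      rw [← Real.norm_eq_abs]
      refine ((fderiv ℝ f x).le_opNorm _).trans ?_
      refine mul_le_mul (hf.fderiv_le x hx) ?_ (norm_nonneg _)
        ((norm_nonneg _).trans (hf.fderiv_le x hx))
      rw [norm_smul, Real.norm_eq_abs, abs_of_pos (by norm_num : (0 : ℝ) < 1 / 2)]
      have h3 := norm_nonneg x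
      linarith [hC0 x hx]
    have h2 := hf.abs_le x hx
    have h3 : gg (fun x => (1 / 2 : ℝ) • x) f x = fderiv ℝ f x ((1 / 2 : ℝ) • x) - f x := rfl
    rw [h3]
    have h4 := abs_sub (fderiv ℝ f x ((1 / 2 : ℝ) • x)) (f x)
    linarith
  have i1 : IntegrableOn (fun x => (lap f x - m) * gg (fun x => (1 / 2 : ℝ) • x) f x)
      (Ellipse a b) := by
    refine integrableOn_of_bdd hM hbd (hc1.mul hc2) (C := (2 * C + |m|) * (2 * C * R + C)) ?_
    intro x hx
    rw [abs_mul]
    exact mul_le_mul (hb1 x hx) (hb2 x hx) (abs_nonneg _) ((abs_nonneg _).trans (hb1 x hx))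
  have i2 : IntegrableOn (fun x => (m * κ) * (lap f x - m)) (Ellipse a b) :=
    (integrableOn_of_bdd hM hbd hc1 hb1).const_mul _
  rw [integral_sub i1 i2, integral_const_mul, hm, mul_zero, sub_zero]

end Pool.Agent.YUT
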