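import Pool.Agent.YUT.G3b
import Pool.Agent.YUT.S1b

open MeasureTheory Set Filter Topology
open scoped ContDiff

namespace Pool.Agent.YUT

open Pool.Agent.YUD

theorem S1d_expand {M : Set ℂ} (hM : IsOpen M) (hb : Bornology.IsBounded M) {f g : ℂ → ℝ}
    {C D : ℝ} (hf : StreamLe M C f) (hg : StreamLe M D g) (c : ℝ) :
    ∫ x in M, gsq (fun y => f y + c * g y) x =
      (∫ x in M, gsq f x) + 2 * c * (∫ x in M, (dx f x * dx g x + dy f x * dy g x)) +
        c ^ 2 * ∫ x in M, gsq g x := by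
  have hfx := hf.dx_cont hM
  have hfy := hf.dy_cont hM
  have hgx := hg.dx_cont hM
  have hgy := hg.dy_cont hM
  have i1 : IntegrableOn (fun x => gsq f x) M := by
    refine integrableOn_of_bdd hM hb ((hfx.pow 2).add (hfy.pow 2)) (C := C ^ 2 + C ^ 2) ?_
    intro x hx
    have h1 := hf.dx_le x hx
    have h2 := hf.dy_le x hx
    rw [abs_of_nonneg (gsq_nonneg f x)]
    exact add_le_add (sq_le_sq' (abs_le.1 h1).1 (abs_le.1 h1).2)
      (sq_le_sq' (abs_le.1 h2).1 (abs_le.1 h2).2)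
  have i2 : IntegrableOn (fun x => gsq g x) M := by
    refine integrableOn_of_bdd hM hb ((hgx.pow 2).add (hgy.pow 2)) (C := D ^ 2 + D ^ 2) ?_
    intro x hx
    have h1 := hg.dx_le x hx
    have h2 := hg.dy_le x hx
    rw [abs_of_nonneg (gsq_nonneg g x)]
    exact add_le_add (sq_le_sq' (abs_le.1 h1).1 (abs_le.1 h1).2)
      (sq_le_sq' (abs_le.1 h2).1 (abs_le.1 h2).2)
  have i3 : IntegrableOn (fun x => dx f x * dx g x + dy f x * dy g x) M := by
    refine integrableOn_of_bdd hM hb ((hfx.mul hgx).add (hfy.mul hgy)) (C := C * D + C * D) ?_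
    intro x hx
    have h1 := hf.dx_le x hx
    have h2 := hf.dy_le x hx
    have h3 := hg.dx_le x hx
    have h4 := hg.dy_le x hx
    have hC : 0 ≤ C := (abs_nonneg _).trans h1
    refine (abs_add_le _ _).trans (add_le_add ?_ ?_)
    · rw [abs_mul]
      exact mul_le_mul h1 h3 (abs_nonneg _) hC
    · rw [abs_mul]
      exact mul_le_mul h2 h4 (abs_nonneg _) hC
  have e1 : ∀ x ∈ M, gsq (fun y => f y + c * g y) x =
      gsq f x + (2 * c) * (dx f x * dx g x + dy f x * dy g x) + c ^ 2 * gsq g x := by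
    intro x hx
    have df : DifferentiableAt ℝ f x := (hf.diffOn x hx).differentiableAt (hM.mem_nhds hx)
    have dg : DifferentiableAt ℝ g x := (hg.diffOn x hx).differentiableAt (hM.mem_nhds hx)
    have dcg : DifferentiableAt ℝ (fun y => c * g y) x := dg.const_mul c
    unfold gsq
    rw [dx_add df dcg, dy_add df dcg, dx_const_mul c dg, dy_const_mul c dg]
    ring
  rw [setIntegral_congr_fun hM.measurableSet e1]
  have i3' : IntegrableOn (fun x => (2 * c) * (dx f x * dx g x + dy f x * dy g x)) M :=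
    i3.const_mul _
  have i2' : IntegrableOn (fun x => c ^ 2 * gsq g x) M := i2.const_mul _
  have i13 : IntegrableOn
      (fun x => gsq f x + (2 * c) * (dx f x * dx g x + dy f x * dy g x)) M := i1.add i3'
  rw [integral_add i13 i2', integral_add i1 i3', integral_const_mul, integral_const_mul]

theorem S1d_congr {M : Set ℂ} (hM : IsOpen M) {f g : ℂ → ℝ} (h : ∀ x ∈ M, f x = g x) :
    ∫ x in M, gsq f x = ∫ x in M, gsq g x := by
  refine setIntegral_congr_fun hM.measurableSet ?_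
  intro x hx
  show gsq f x = gsq g x
  unfold gsq
  rw [dx_congr hM h hx, dy_congr hM h hx]

/-- [YUT-S1d] lower bound by the conserved quantity `D = ∫ |∇f|² - m² ∫ |∇z|²`: with
`G = ∫ |∇φ|²`, `φ = f - m z`, `Z = ∫ |∇z|²`, `f = φ + m z`: `D = G + 2 m ∫ ∇φ ⬝ ∇z`,
`(∫ ∇φ ⬝ ∇z)² ≤ G Z` (`dirichlet_cs`), so `|D| ≤ G + 2 |m| √(G Z) ≤ G + (2 m² Z / |D|) G + |D| / 2`
(AM-GM: `2 |m| √(G Z) ≤ κ G + m² Z / κ` with `κ = 2 m² Z / |D|`; if `m² Z = 0` simply `|D| ≤ G`). -/
theorem D_bound {a b : ℝ} (ha : 0 < a) (hb : 0 < b) {f : ℂ → ℝ} {C m D : ℝ}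
    (hf : StreamLe (Ellipse a b) C f)
    (hD : D = (∫ x in Ellipse a b, gsq f x) - m ^ 2 * ∫ x in Ellipse a b, gsq (tor a b) x)
    (hD0 : D ≠ 0) :
    D ^ 2 / (2 * (|D| + 2 * m ^ 2 * ∫ x in Ellipse a b, gsq (tor a b) x)) ≤
      ∫ x in Ellipse a b, gsq (fun y => f y - m * tor a b y) x := by
  obtain ⟨hM, hbd, -, -⟩ := star_ellipse ha hb
  obtain ⟨⟨K, hz⟩, -, -⟩ := tor_facts ha hb
  set M := Ellipse a b with hMdef
  have hφ : StreamLe M (C + |m| * K) (fun y => f y - m * tor a b y) :=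
    hf.sub hM (hz.const_mul hM m)
  set φ : ℂ → ℝ := fun y => f y - m * tor a b y with hφdef
  have e1 := S1d_expand hM hbd hφ hz m
  have e2 : ∫ x in M, gsq f x = ∫ x in M, gsq (fun y => φ y + m * tor a b y) x := by
    apply S1d_congr hM
    intro x _
    simp only [hφdef]
    ring
  have hcs := dirichlet_cs hM hbd (hφ.mono (le_max_left _ K)) (hz.mono (le_max_right _ _))
  rw [← e2] at e1
  set G := ∫ x in M, gsq φ x with hG
  set Z := ∫ x in M, gsq (tor a b) x with hZ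
  set X := ∫ x in M, (dx φ x * dx (tor a b) x + dy φ x * dy (tor a b) x) with hX
  have hG0 : 0 ≤ G := integral_nonneg fun x => gsq_nonneg φ x
  have hZ0 : 0 ≤ Z := integral_nonneg fun x => gsq_nonneg _ x
  have hDpos : 0 < |D| := abs_pos.2 hD0
  have hden : 0 < 2 * (|D| + 2 * m ^ 2 * Z) := by positivity
  rw [div_le_iff₀ hden]
  have h1 : D = G + 2 * m * X := by rw [hD, e1]; ring
  have h2 : D * G ≤ |D| * G := mul_le_mul_of_nonneg_right (le_abs_self D) hG0
  have h3 : D * (2 * m * X) ≤ D ^ 2 / 2 + 2 * m ^ 2 * X ^ 2 := by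
    nlinarith [sq_nonneg (D - 2 * m * X)]
  have h4 : 2 * m ^ 2 * X ^ 2 ≤ 2 * m ^ 2 * (G * Z) :=
    mul_le_mul_of_nonneg_left hcs (by positivity)
  have h5 : D ^ 2 = D * G + D * (2 * m * X) := by
    rw [← mul_add, ← h1]; ring
  nlinarith

end Pool.Agent.YUT
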