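import Pool.Agent.YUT.Base

open MeasureTheory Set Filter Topology
open scoped ContDiff

namespace Pool.Agent.YUT

open Pool.Agent.YUD

/-- [YUT-V1b] the pointwise inequality: for a linear map `A` of the plane with `‖A‖ ≤ K`, trace `1` and
largest eigenvalue of the symmetric part at most `3/2 - d`, and small `l > 0`:
`|(I + l A)ᵀ p|² ≤ (1 + (2 - 2d) l + C l²) |p|² det(I + l A)`, `det(I + l A) ≥ 1/2`, with `l₁, C`
depending only on `K`, `d`. Here `p` is given as a linear form `p : ℂ →L[ℝ] ℝ`, `(I + lA)ᵀ p = p ∘ (I + lA)`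
and `|q|² = q(1)² + q(I)²`. Proof: with `v = p(1) + p(I) i`, `|v|² = |p|²`, one has
`|p∘(I + lA)|² = |p|² + 2 l (v ⬝ A v) + l² |Aᵀ v|² ≤ (1 + (3 - 2d) l + K² l²) |p|²` (expand in the
entries of `A`; `|Aᵀ v| ≤ K |v|` by duality) and `det(I + lA) = 1 + l + l² det A ≥ 1 + l - K² l²`
(`|det A| ≤ ‖A 1‖ ‖A I‖ ≤ K²`). -/
theorem strain_ineq (K d : ℝ) (hd : 0 < d) : ∃ (l₁ C : ℝ), 0 < l₁ ∧ 0 ≤ C ∧ ∀ l : ℝ, 0 < l → l < l₁ →
    ∀ A : ℂ →L[ℝ] ℂ, ‖A‖ ≤ K → (A 1).re + (A Complex.I).im = 1 →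
      (∀ v : ℂ, v.re * (A v).re + v.im * (A v).im ≤ (3 / 2 - d) * ‖v‖ ^ 2) →
      1 / 2 ≤ (ContinuousLinearMap.id ℝ ℂ + l • A).det ∧ ∀ p : ℂ →L[ℝ] ℝ,
        (p (1 + l • A 1)) ^ 2 + (p (Complex.I + l • A Complex.I)) ^ 2 ≤
          (1 + (2 - 2 * d) * l + C * l ^ 2) * (p 1 ^ 2 + p Complex.I ^ 2) *
            (ContinuousLinearMap.id ℝ ℂ + l • A).det := by
  refine ⟨1 / (2 * (K ^ 2 + d + 1)), 10 * K ^ 2 + 4 * d, by positivity, by positivity, ?_⟩
  intro l hl0 hl1 A hA htr hst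
  have hdet : (ContinuousLinearMap.id ℝ ℂ + l • A).det =
      (1 + l * (A 1).re) * (1 + l * (A Complex.I).im) - l ^ 2 * ((A 1).im * (A Complex.I).re) := by
    unfold ContinuousLinearMap.det
    rw [← LinearMap.det_toMatrix Complex.basisOneI, Matrix.det_fin_two]
    simp [LinearMap.toMatrix_apply]
    ring
  have hK0 : 0 ≤ K := (norm_nonneg _).trans hA
  have hA1 : ‖A 1‖ ^ 2 ≤ K ^ 2 := by
    have h := A.le_opNorm 1
    rw [norm_one, mul_one] at h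
    exact pow_le_pow_left₀ (norm_nonneg _) (h.trans hA) 2
  have hAI : ‖A Complex.I‖ ^ 2 ≤ K ^ 2 := by
    have h := A.le_opNorm Complex.I
    rw [Complex.norm_I, mul_one] at h
    exact pow_le_pow_left₀ (norm_nonneg _) (h.trans hA) 2
  rw [← Complex.normSq_eq_norm_sq, Complex.normSq_apply] at hA1 hAI
  set a := (A 1).re with ha
  set b := (A 1).im with hb
  set c := (A Complex.I).re with hc
  set e := (A Complex.I).im with he
  have hK2 : 0 ≤ K ^ 2 := sq_nonneg K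
  have hlb : l * (2 * (K ^ 2 + d + 1)) < 1 := by
    rwa [lt_div_iff₀ (by positivity)] at hl1
  have hdl : 1 + l - K ^ 2 * l ^ 2 ≤ (ContinuousLinearMap.id ℝ ℂ + l • A).det := by
    rw [hdet]
    have h1 : -(K ^ 2) ≤ a * e - b * c := by nlinarith [sq_nonneg (a - e), sq_nonneg (b - c), sq_nonneg (a + e), sq_nonneg (b + c)]
    have h2 : (1 + l * a) * (1 + l * e) - l ^ 2 * (b * c) = 1 + l * (a + e) + l ^ 2 * (a * e - b * c) := by ring
    rw [h2, htr]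
    nlinarith [mul_le_mul_of_nonneg_left h1 (sq_nonneg l)]
  have hKl : K ^ 2 * l ^ 2 ≤ l / 2 := by
    have h1 : l * K ^ 2 ≤ 1 / 2 := by nlinarith
    nlinarith
  have hlow : 1 ≤ 1 + l - K ^ 2 * l ^ 2 := by linarith
  refine ⟨by linarith, fun p => ?_⟩
  have hpA1 : p (A 1) = a * p 1 + b * p Complex.I := by
    have : A 1 = a • (1:ℂ) + b • Complex.I := by
      apply Complex.ext <;> simp [ha, hb]
    rw [this, map_add, map_smul, map_smul, smul_eq_mul, smul_eq_mul]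
  have hpAI : p (A Complex.I) = c * p 1 + e * p Complex.I := by
    have : A Complex.I = c • (1:ℂ) + e • Complex.I := by
      apply Complex.ext <;> simp [hc, he]
    rw [this, map_add, map_smul, map_smul, smul_eq_mul, smul_eq_mul]
  rw [map_add, map_add, map_smul, map_smul, hpA1, hpAI, smul_eq_mul, smul_eq_mul]
  set x := p 1 with hx
  set y := p Complex.I with hy
  have hs := hst (x + y * Complex.I)
  have hAv : A (x + y * Complex.I) = x • A 1 + y • A Complex.I := by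
    have : (x + y * Complex.I : ℂ) = x • (1:ℂ) + y • Complex.I := by
      apply Complex.ext <;> simp
    rw [this, map_add, map_smul, map_smul]
  rw [hAv, ← Complex.normSq_eq_norm_sq, Complex.normSq_apply] at hs
  simp only [Complex.add_re, Complex.add_im, Complex.mul_re, Complex.mul_im, Complex.ofReal_re,
    Complex.ofReal_im, Complex.I_re, Complex.I_im, mul_zero, mul_one, sub_zero, zero_add, add_zero,
    Complex.real_smul, zero_mul, ← ha, ← hb, ← hc, ← he] at hs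
  have hn : 0 ≤ x ^ 2 + y ^ 2 := by positivity
  have hsq : (a * x + b * y) ^ 2 + (c * x + e * y) ^ 2 ≤ 2 * K ^ 2 * (x ^ 2 + y ^ 2) := by
    have h1 : (a * x + b * y) ^ 2 ≤ (a * a + b * b) * (x ^ 2 + y ^ 2) := by
      nlinarith [sq_nonneg (a * y - b * x)]
    have h2 : (c * x + e * y) ^ 2 ≤ (c * c + e * e) * (x ^ 2 + y ^ 2) := by
      nlinarith [sq_nonneg (c * y - e * x)]
    have h3 := mul_le_mul_of_nonneg_right hA1 hn
    have h4 := mul_le_mul_of_nonneg_right hAI hn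
    linarith
  have hup : (x + l * (a * x + b * y)) ^ 2 + (y + l * (c * x + e * y)) ^ 2 ≤
      (1 + (3 - 2 * d) * l + 2 * K ^ 2 * l ^ 2) * (x ^ 2 + y ^ 2) := by
    have h1 : (x + l * (a * x + b * y)) ^ 2 + (y + l * (c * x + e * y)) ^ 2 =
        (x ^ 2 + y ^ 2) + 2 * l * (x * (x * a + y * c) + y * (x * b + y * e)) +
          l ^ 2 * ((a * x + b * y) ^ 2 + (c * x + e * y) ^ 2) := by ring
    rw [h1]
    have h2 := mul_le_mul_of_nonneg_left hsq (sq_nonneg l)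
    have h3 := mul_le_mul_of_nonneg_left hs (by linarith : (0:ℝ) ≤ 2 * l)
    nlinarith
  have hfac : 0 ≤ 1 + (2 - 2 * d) * l + (10 * K ^ 2 + 4 * d) * l ^ 2 := by
    have h1 : 0 ≤ (10 * K ^ 2 + 4 * d) * l ^ 2 := by positivity
    nlinarith
  have hmain : 1 + (3 - 2 * d) * l + 2 * K ^ 2 * l ^ 2 ≤
      (1 + (2 - 2 * d) * l + (10 * K ^ 2 + 4 * d) * l ^ 2) * (1 + l - K ^ 2 * l ^ 2) := by
    have h1 : (1 + (2 - 2 * d) * l + (10 * K ^ 2 + 4 * d) * l ^ 2) * (1 + l - K ^ 2 * l ^ 2) =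
        1 + (3 - 2 * d) * l + l ^ 2 * (-K ^ 2 + (2 - 2 * d) - (2 - 2 * d) * (K ^ 2 * l) +
          (10 * K ^ 2 + 4 * d) * (1 + l - K ^ 2 * l ^ 2)) := by ring
    rw [h1]
    have h2 : K ^ 2 * l ≤ 1 / 2 := by nlinarith
    have h3 : 0 ≤ K ^ 2 * l := by positivity
    have h4 : (10 * K ^ 2 + 4 * d) ≤ (10 * K ^ 2 + 4 * d) * (1 + l - K ^ 2 * l ^ 2) := by
      nlinarith
    have h5 : (2 - 2 * d) * (K ^ 2 * l) ≤ 2 * (K ^ 2 * l) := by
      nlinarith [mul_nonneg hd.le h3]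
    have h6 : 2 * K ^ 2 ≤ -K ^ 2 + (2 - 2 * d) - (2 - 2 * d) * (K ^ 2 * l) +
          (10 * K ^ 2 + 4 * d) * (1 + l - K ^ 2 * l ^ 2) := by linarith
    nlinarith [mul_le_mul_of_nonneg_left h6 (sq_nonneg l)]
  calc _ ≤ (1 + (3 - 2 * d) * l + 2 * K ^ 2 * l ^ 2) * (x ^ 2 + y ^ 2) := hup
    _ ≤ ((1 + (2 - 2 * d) * l + (10 * K ^ 2 + 4 * d) * l ^ 2) * (1 + l - K ^ 2 * l ^ 2)) *
        (x ^ 2 + y ^ 2) := mul_le_mul_of_nonneg_right hmain hn
    _ = ((1 + (2 - 2 * d) * l + (10 * K ^ 2 + 4 * d) * l ^ 2) * (x ^ 2 + y ^ 2)) *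
        (1 + l - K ^ 2 * l ^ 2) := by ring
    _ ≤ _ := mul_le_mul_of_nonneg_left hdl (mul_nonneg hfac hn)

end Pool.Agent.YUT
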