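import Pool.Agent.YUT.Base

open MeasureTheory Set Filter Topology
open scoped ContDiff

namespace Pool.Agent.YUT

open Pool.Agent.YUD

/-- [YUT-V1c] `x ↦ x + l Y(x)` is a homeomorphism of the plane for `l K < 1`: injective and surjective
(`AntilipschitzWith`; surjective by the contraction `x ↦ y - l Y(x)`). -/
theorem step_bij {Y : ℂ → ℂ} {K l : ℝ} (hY : ∀ x y, ‖Y x - Y y‖ ≤ K * ‖x - y‖) (hK : 0 ≤ K)
    (hl : 0 < l) (hlK : l * K < 1) : Function.Bijective fun x : ℂ => x + l • Y x := by
  have hlip : ∀ x y, ‖l • Y x - l • Y y‖ ≤ l * K * ‖x - y‖ := by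
    intro x y
    rw [← smul_sub, norm_smul, Real.norm_of_nonneg hl.le, mul_assoc]
    exact mul_le_mul_of_nonneg_left (hY x y) hl.le
  constructor
  · intro x y hxy
    simp only at hxy
    have h1 : x - y = l • Y y - l • Y x := by
      rw [sub_eq_sub_iff_add_eq_add, add_comm (l • Y y)]
      rw [hxy, add_comm]
    have h2 := hlip y x
    rw [← h1, norm_sub_rev y x] at h2
    have h3 : ‖x - y‖ = 0 := by
      have := norm_nonneg (x - y)
      nlinarith
    exact sub_eq_zero.1 (norm_eq_zero.1 h3)
  · intro y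
    have hc : ContractingWith (l * K).toNNReal (fun x => y - l • Y x) := by
      refine ⟨by rw [Real.toNNReal_lt_one]; exact hlK, ?_⟩
      refine LipschitzWith.of_dist_le_mul fun a b => ?_
      rw [dist_eq_norm, dist_eq_norm, Real.coe_toNNReal _ (mul_nonneg hl.le hK)]
      have : y - l • Y a - (y - l • Y b) = -(l • Y a - l • Y b) := by ring
      rw [this, norm_neg]
      exact hlip a b
    refine ⟨hc.fixedPoint, ?_⟩
    have h1 : y - l • Y hc.fixedPoint = hc.fixedPoint := hc.fixedPoint_isFixedPt
    show hc.fixedPoint + l • Y hc.fixedPoint = y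
    nth_rewrite 1 [← h1]
    ring

end Pool.Agent.YUT
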