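import Pool.Agent.YUT.G1
import Pool.Agent.YUT.V1a
import Pool.Agent.YUT.V1b
import Pool.Agent.YUT.V1c

open MeasureTheory Set Filter Topology
open scoped ContDiff

namespace Pool.Agent.YUT

open Pool.Agent.YUD

/-- [YUT-V2a] The Dirichlet integral of `F ∘ (id + lY)`, `F = M.indicator f`, for small `l > 0`, is at
most `(1 + (2 - 2d) l + C l²) ∫_M |∇f|²`.
Proof. `G x = x + l Y x` (bijective by `step_bij`), `F_l = F ∘ G` is Lipschitz. For `x` with `G x ∈ M`
one has `x ∈ M` (`outward`), so `G` is `C¹` near `x` with derivative `I + l A`, `A = fderiv ℝ Y x`,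
`‖A‖ ≤ K`, and `fderiv ℝ F_l x = (fderiv ℝ f (G x)) ∘ (I + l A)`. For almost every `x` with
`G x ∉ M`: `F_l x = 0`, `fderiv ℝ F_l x = 0` (`ae_fderiv_zero`). So with `N = G⁻¹(M)` (open, contained
in `M`): `∫_M |∇F_l|² = ∫_N |(I + lA)ᵀ ∇f(G x)|² dx ≤ (1 + (2-2d) l + C l²) ∫_N |∇f(G x)|² det(I+lA) dx`
(`strain_ineq`) and `∫_N |∇f(G x)|² det(I + lA) dx = ∫_M |∇f|²` (change of variables
`integral_image_eq_integral_abs_det_fderiv_smul`, `G '' N = M`). -/
theorem gsq_step {M : Set ℂ} (hM : IsOpen M) (hb : Bornology.IsBounded M) {Y : ℂ → ℂ} {d : ℝ}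
    (hY : TwistField M Y d) {f : ℂ → ℝ} {C : ℝ} (hf : StreamLe M C f) :
    ∃ (l₁ D : ℝ), 0 < l₁ ∧ 0 ≤ D ∧ ∀ l : ℝ, 0 < l → l < l₁ →
      ∫ x in M, gsq (fun y => M.indicator f (y + l • Y y)) x ≤
        (1 + (2 - 2 * d) * l + D * l ^ 2) * ∫ x in M, gsq f x := by
  obtain ⟨K0, hK0⟩ := hY.lip
  set K := max K0 0 with hKdef
  have hKn : 0 ≤ K := le_max_right _ _
  have hK : ∀ x y, ‖Y x - Y y‖ ≤ K * ‖x - y‖ := fun x y =>
    (hK0 x y).trans (mul_le_mul_of_nonneg_right (le_max_left _ _) (norm_nonneg _))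
  have hYlip : LipschitzWith K.toNNReal Y := by
    refine LipschitzWith.of_dist_le_mul fun x y => ?_
    rw [dist_eq_norm, dist_eq_norm, Real.coe_toNNReal _ hKn]
    exact hK x y
  have hA : ∀ x, ‖fderiv ℝ Y x‖ ≤ K := by
    intro x
    have := norm_fderiv_le_of_lipschitz ℝ hYlip (x₀ := x)
    rwa [Real.coe_toNNReal _ hKn] at this
  obtain ⟨l₁, D, hl₁, hD, hst⟩ := strain_ineq K d hY.pos
  obtain ⟨l₀, hl₀, hout⟩ := hY.outward
  refine ⟨min l₁ (min l₀ (1 / (K + 1))), D, by positivity, hD, ?_⟩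
  intro l hl hll
  have hla : l < l₁ := hll.trans_le (min_le_left _ _)
  have hlb : l < l₀ := hll.trans_le ((min_le_right _ _).trans (min_le_left _ _))
  have hlc : l < 1 / (K + 1) := hll.trans_le ((min_le_right _ _).trans (min_le_right _ _))
  have hlK : l * K < 1 := by
    rw [lt_div_iff₀ (by positivity)] at hlc
    nlinarith
  set G : ℂ → ℂ := fun x => x + l • Y x with hG
  have hbij : Function.Bijective G := step_bij hK hKn hl hlK
  have hGc : Continuous G := continuous_id.add (hYlip.continuous.const_smul l)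
  set N : Set ℂ := G ⁻¹' M with hN
  have hNo : IsOpen N := hM.preimage hGc
  have hNM : N ⊆ M := by
    intro x hx
    by_contra hc
    exact hout l hl hlb x hc hx
  have hGN : G '' N = M := image_preimage_eq M hbij.2
  set F : ℂ → ℝ := M.indicator f with hF
  -- the Lipschitz bound
  have hFl : ∀ x y, |F x - F y| ≤ (2 * |C|) * ‖x - y‖ := by
    refine lip_ext hM (by positivity) hf.diffOn ?_ hf.zero
    intro x hx
    refine (hf.fderiv_le x hx).trans ?_
    have := le_abs_self C
    linarith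
  have hFG : ∀ x y, |F (G x) - F (G y)| ≤ (2 * |C| * (1 + l * K)) * ‖x - y‖ := by
    intro x y
    refine (hFl _ _).trans ?_
    rw [mul_assoc (2 * |C|)]
    refine mul_le_mul_of_nonneg_left ?_ (by positivity)
    have h1 : G x - G y = (x - y) + l • (Y x - Y y) := by
      simp only [hG, smul_sub]; ring
    rw [h1]
    refine (norm_add_le _ _).trans ?_
    rw [norm_smul, Real.norm_of_nonneg hl.le, add_mul, one_mul, mul_assoc l]
    have := mul_le_mul_of_nonneg_left (hK x y) hl.le
    linarith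
  have hae := ae_fderiv_zero hFG
  -- derivative on `N`
  have hGd : ∀ x ∈ N, HasFDerivAt G (ContinuousLinearMap.id ℝ ℂ + l • fderiv ℝ Y x) x := by
    intro x hx
    have h1 : DifferentiableAt ℝ Y x :=
      (hY.c1.differentiableOn (by norm_num)).differentiableAt (hM.mem_nhds (hNM hx))
    exact (hasFDerivAt_id x).add (h1.hasFDerivAt.const_smul l)
  have hFd : ∀ x ∈ N, HasFDerivAt (fun y => F (G y))
      ((fderiv ℝ f (G x)).comp (ContinuousLinearMap.id ℝ ℂ + l • fderiv ℝ Y x)) x := by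
    intro x hx
    have h1 : DifferentiableAt ℝ f (G x) := hf.diffOn.differentiableAt (hM.mem_nhds hx)
    have h2 := h1.hasFDerivAt.comp x (hGd x hx)
    refine h2.congr_of_eventuallyEq ?_
    filter_upwards [hNo.mem_nhds hx] with y hy
    simp only [hF, Function.comp]
    exact indicator_of_mem (show G y ∈ M from hy) f
  have hpt : ∀ x ∈ N, gsq (fun y => F (G y)) x ≤ (1 + (2 - 2 * d) * l + D * l ^ 2) *
      (|(ContinuousLinearMap.id ℝ ℂ + l • fderiv ℝ Y x).det| • gsq f (G x)) := by
    intro x hx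
    have h1 := hst l hl hla (fderiv ℝ Y x) (hA x) (hY.div_eq x (hNM hx)) (hY.strain x (hNM hx))
    have h2 := h1.2 (fderiv ℝ f (G x))
    have h3 : gsq (fun y => F (G y)) x =
        (fderiv ℝ f (G x) (1 + l • fderiv ℝ Y x 1)) ^ 2 +
          (fderiv ℝ f (G x) (Complex.I + l • fderiv ℝ Y x Complex.I)) ^ 2 := by
      unfold gsq dx dy
      rw [(hFd x hx).fderiv]
      rfl
    rw [h3, abs_of_nonneg (by linarith [h1.1]), smul_eq_mul]
    refine h2.trans (le_of_eq ?_)
    unfold gsq dx dy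
    ring
  have hgi : IntegrableOn (gsq f) M := by
    refine integrableOn_of_bdd hM hb ((hf.dx_cont hM).pow 2 |>.add ((hf.dy_cont hM).pow 2))
      (C := 2 * C ^ 2) ?_
    intro x hx
    rw [abs_of_nonneg (gsq_nonneg f x)]
    have h1 := hf.dx_le x hx
    have h2 := hf.dy_le x hx
    have h3 : dx f x ^ 2 ≤ C ^ 2 := sq_le_sq' (by linarith [(abs_le.1 h1).1]) (abs_le.1 h1).2
    have h4 : dy f x ^ 2 ≤ C ^ 2 := sq_le_sq' (by linarith [(abs_le.1 h2).1]) (abs_le.1 h2).2
    unfold gsq; linarith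
  have hgi' : IntegrableOn (fun x => |(ContinuousLinearMap.id ℝ ℂ + l • fderiv ℝ Y x).det| •
      gsq f (G x)) N := by
    rw [← integrableOn_image_iff_integrableOn_abs_det_fderiv_smul volume hNo.measurableSet
      (fun x hx => (hGd x hx).hasFDerivWithinAt) hbij.1.injOn, hGN]
    exact hgi
  have hcv : ∫ x in N, |(ContinuousLinearMap.id ℝ ℂ + l • fderiv ℝ Y x).det| • gsq f (G x) =
      ∫ x in M, gsq f x := by
    rw [← integral_image_eq_integral_abs_det_fderiv_smul volume hNo.measurableSet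
      (fun x hx => (hGd x hx).hasFDerivWithinAt) hbij.1.injOn, hGN]
  have hL : ∫ x in M, gsq (fun y => F (G y)) x = ∫ x in N, gsq (fun y => F (G y)) x := by
    have h1 : (fun x => gsq (fun y => F (G y)) x) =ᵐ[volume]
        N.indicator (fun x => gsq (fun y => F (G y)) x) := by
      filter_upwards [hae] with x hx
      by_cases hxN : x ∈ N
      · rw [indicator_of_mem hxN]
      · rw [indicator_of_notMem hxN]
        have h2 : F (G x) = 0 := indicator_of_notMem (show G x ∉ M from hxN) f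
        have h3 := hx h2
        unfold gsq dx dy
        rw [h3]; simp
    rw [setIntegral_congr_ae hM.measurableSet (h1.mono fun x hx _ => hx),
      setIntegral_indicator hNo.measurableSet, inter_eq_self_of_subset_right hNM]
  show ∫ x in M, gsq (fun y => F (G y)) x ≤ _
  rw [hL, ← hcv, ← integral_const_mul]
  refine integral_mono_of_nonneg (Eventually.of_forall fun x => gsq_nonneg _ _)
    (hgi'.const_mul _) ?_
  rw [EventuallyLE, ae_restrict_iff' hNo.measurableSet]
  exact Eventually.of_forall fun x hx => hpt x hx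

end Pool.Agent.YUT
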