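import Pool.Agent.YUT.G3a
import Pool.Agent.YUT.V2a

open MeasureTheory Set Filter Topology
open scoped ContDiff

namespace Pool.Agent.YUT

open Pool.Agent.YUD

theorem V2b_cont {Y : ℂ → ℂ} {K : ℝ} (hK : ∀ x y, ‖Y x - Y y‖ ≤ K * ‖x - y‖) :
    Continuous Y := by
  have h1 : LipschitzWith (Real.toNNReal K) Y := by
    refine LipschitzWith.of_dist_le_mul fun x y => ?_
    rw [dist_eq_norm, dist_eq_norm]
    exact (hK x y).trans (mul_le_mul_of_nonneg_right (Real.le_coe_toNNReal K) (norm_nonneg _))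
  exact h1.continuous

theorem V2b_lip {F : ℂ → ℝ} {K : ℝ} (hK : ∀ x y, |F x - F y| ≤ K * ‖x - y‖) :
    LipschitzWith (Real.toNNReal K) F := by
  refine LipschitzWith.of_dist_le_mul fun x y => ?_
  rw [dist_eq_norm, dist_eq_norm]
  exact (hK x y).trans (mul_le_mul_of_nonneg_right (Real.le_coe_toNNReal K) (norm_nonneg _))

theorem V2b_cont' {F : ℂ → ℝ} {K : ℝ} (hK : ∀ x y, |F x - F y| ≤ K * ‖x - y‖) :
    Continuous F := (V2b_lip hK).continuous

theorem V2b_bdd {M : Set ℂ} (hb : Bornology.IsBounded M) {Y : ℂ → ℂ} (hYc : Continuous Y) :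
    ∃ B : ℝ, 0 ≤ B ∧ ∀ x ∈ M, ‖Y x‖ ≤ B := by
  obtain ⟨R, hR⟩ := hb.subset_closedBall (0 : ℂ)
  obtain ⟨B, hB⟩ := ((isCompact_closedBall (0 : ℂ) R).image hYc).isBounded.exists_norm_le
  exact ⟨|B|, abs_nonneg B, fun x hx =>
    (hB _ (mem_image_of_mem _ (hR hx))).trans (le_abs_self B)⟩

theorem V2b_gsq_int {M : Set ℂ} (hb : Bornology.IsBounded M) {F : ℂ → ℝ} {K : ℝ}
    (hK : ∀ x y, |F x - F y| ≤ K * ‖x - y‖) : IntegrableOn (gsq F) M := by
  have hfin : volume M ≠ ⊤ := hb.measure_lt_top.ne
  have hn : ∀ x, ‖fderiv ℝ F x‖ ≤ (Real.toNNReal K : ℝ) := fun x =>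
    norm_fderiv_le_of_lipschitz ℝ (V2b_lip hK)
  set L : ℝ := (Real.toNNReal K : ℝ) with hL
  have m1 : Measurable fun x => dx F x := measurable_fderiv_apply_const ℝ F (1 : ℂ)
  have m2 : Measurable fun x => dy F x := measurable_fderiv_apply_const ℝ F Complex.I
  have b1 : ∀ x, |dx F x| ≤ L := by
    intro x
    have h1 := (fderiv ℝ F x).le_opNorm (1 : ℂ)
    rw [norm_one, mul_one] at h1
    exact h1.trans (hn x)
  have b2 : ∀ x, |dy F x| ≤ L := by
    intro x
    have h1 := (fderiv ℝ F x).le_opNorm Complex.I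
    rw [Complex.norm_I, mul_one] at h1
    exact h1.trans (hn x)
  refine Integrable.mono' (integrableOn_const (C := L ^ 2 + L ^ 2) hfin)
    ((m1.pow_const 2).add (m2.pow_const 2)).aestronglyMeasurable (ae_of_all _ fun x => ?_)
  rw [Real.norm_eq_abs, abs_of_nonneg (gsq_nonneg F x)]
  unfold gsq
  have h1 := sq_le_sq' (by linarith [neg_abs_le (dx F x), b1 x] : -L ≤ dx F x)
    ((le_abs_self _).trans (b1 x))
  have h2 := sq_le_sq' (by linarith [neg_abs_le (dy F x), b2 x] : -L ≤ dy F x)
    ((le_abs_self _).trans (b2 x))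
  linarith

theorem V2b_young (f g : ℂ → ℝ) (x : ℂ) :
    |dx f x * dx g x + dy f x * dy g x| ≤ (1 / 2) * gsq f x + (1 / 2) * gsq g x := by
  unfold gsq
  rw [abs_le]
  constructor <;> nlinarith [sq_nonneg (dx f x + dx g x), sq_nonneg (dy f x + dy g x),
    sq_nonneg (dx f x - dx g x), sq_nonneg (dy f x - dy g x)]

/-- [YUT-V2b] THE VIRIAL INEQUALITY: `∫_M Δf (Y ⬝ ∇f) ≥ -(1 - d) ∫_M |∇f|²`
(formally the left side is `(1/2) ∮ (∂_ν f)² Y ⬝ ν + ∫ ((1/2) |∇f|² - ∇f ⬝ DY ∇f)`).
Proof. `F = M.indicator f` is Lipschitz (`lip_ext`), `F_l x = F (x + l • Y x)`, `l > 0` small: Lipschitz,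
and zero off `M` by `outward`. `green_lip` with `f := F_l`, `g := f`:
`-∫_M F_l Δf = ∫_M ∇F_l ⬝ ∇f ≤ (1/2) ∫_M |∇F_l|² + (1/2) ∫_M |∇f|² ≤ (1 + (1-d) l + D l²/2) ∫_M |∇f|²`
(`gsq_step`); subtract `-∫_M f Δf = ∫_M |∇f|²` (`dirichlet`):
`-∫_M (F_l - f) Δf ≤ ((1-d) l + D l²/2) ∫_M |∇f|²`. Divide by `l`, let `l → 0+` (`l = l₂/(n+1)`):
`(F (x + l • Y x) - F x)/l → fderiv ℝ f x (Y x)` for `x ∈ M`, bounded by `Lip(F) ‖Y x‖`; `Y` is bounded
on the bounded `M`; dominated convergence. -/
theorem virial {M : Set ℂ} (hM : IsOpen M) (hb : Bornology.IsBounded M) {Y : ℂ → ℂ} {d : ℝ}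
    (hY : TwistField M Y d) {f : ℂ → ℝ} {C : ℝ} (hf : StreamLe M C f) :
    -((1 - d) * ∫ x in M, gsq f x) ≤ ∫ x in M, lap f x * fderiv ℝ f x (Y x) := by
  obtain ⟨KY, hKY⟩ := hY.lip
  have hYc : Continuous Y := V2b_cont hKY
  obtain ⟨B, hB0, hB⟩ := V2b_bdd hb hYc
  obtain ⟨l₀, hl₀, hout⟩ := hY.outward
  obtain ⟨l₁, D, hl₁, hD, hstep⟩ := gsq_step hM hb hY hf
  set F : ℂ → ℝ := M.indicator f with hFdef
  have hFM : ∀ x ∈ M, F x = f x := fun x hx => indicator_of_mem hx f
  have hfin : volume M ≠ ⊤ := hb.measure_lt_top.ne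
  have hF : ∀ x y, |F x - F y| ≤ (2 * |C|) * ‖x - y‖ :=
    lip_ext hM (by positivity) hf.diffOn (fun x hx => (hf.fderiv_le x hx).trans
      (by linarith [le_abs_self C])) hf.zero
  set E := ∫ x in M, gsq f x with hE
  have hdir : E = -∫ x in M, f x * lap f x := dirichlet hM hb hf
  have hlapc := hf.lap_cont hM
  have hlapb := hf.lap_le
  have hFlc : ∀ l : ℝ, Continuous fun x => F (x + l • Y x) := by
    intro l
    have h1 : Continuous F := V2b_cont' hF
    exact h1.comp (continuous_id.add (hYc.const_smul l))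
  -- bound of the difference quotient
  have hq : ∀ l : ℝ, 0 < l → ∀ x ∈ M, |(F (x + l • Y x) - f x) / l| ≤ (2 * |C|) * B := by
    intro l hl x hx
    rw [abs_div, abs_of_pos hl, div_le_iff₀ hl, ← hFM x hx]
    refine (hF _ _).trans ?_
    rw [add_sub_cancel_left, norm_smul, Real.norm_eq_abs, abs_of_pos hl]
    have := hB x hx
    have h3 : 0 ≤ 2 * |C| := by positivity
    calc 2 * |C| * (l * ‖Y x‖) ≤ 2 * |C| * (l * B) := by gcongr
      _ = 2 * |C| * B * l := by ring
  have hint : ∀ l : ℝ, 0 < l →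
      IntegrableOn (fun x => (F (x + l • Y x) - f x) / l * lap f x) M := by
    intro l hl
    refine integrableOn_of_bdd hM hb (C := (2 * |C|) * B * (2 * |C|)) ?_ ?_
    · exact ((((hFlc l).continuousOn.sub hf.cont).div_const l).mul hlapc)
    · intro x hx
      rw [abs_mul]
      exact mul_le_mul (hq l hl x hx) ((hlapb x hx).trans (by linarith [le_abs_self C]))
        (abs_nonneg _) (by positivity)
  have key : ∀ l : ℝ, 0 < l → l < min l₀ l₁ →
      -∫ x in M, (F (x + l • Y x) - f x) / l * lap f x ≤ ((1 - d) + D / 2 * l) * E := by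
    intro l hl hlm
    have hl0 : l < l₀ := lt_of_lt_of_le hlm (min_le_left _ _)
    have hl1 : l < l₁ := lt_of_lt_of_le hlm (min_le_right _ _)
    have hKl : ∀ x y, |F (x + l • Y x) - F (y + l • Y y)| ≤
        (2 * |C| * (1 + l * KY)) * ‖x - y‖ := by
      intro x y
      refine (hF _ _).trans ?_
      have h1 : ‖x + l • Y x - (y + l • Y y)‖ ≤ (1 + l * KY) * ‖x - y‖ := by
        have h2 : x + l • Y x - (y + l • Y y) = (x - y) + l • (Y x - Y y) := by
          rw [smul_sub]; abel
        rw [h2]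
        refine (norm_add_le _ _).trans ?_
        rw [norm_smul, Real.norm_eq_abs, abs_of_pos hl]
        have := mul_le_mul_of_nonneg_left (hKY x y) hl.le
        linarith
      calc 2 * |C| * ‖x + l • Y x - (y + l • Y y)‖ ≤ 2 * |C| * ((1 + l * KY) * ‖x - y‖) := by
            gcongr
        _ = _ := by ring
    have hzero : ∀ x, x ∉ M → F (x + l • Y x) = 0 := fun x hx =>
      indicator_of_notMem (hout l hl hl0 x hx) f
    have hgr := green_lip (C := 2 * |C|) hM hb hKl hzero hf.c2
      (fun x hx => (hf.fderiv_le x hx).trans (by linarith [le_abs_self C]))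
      (fun x hx => (hlapb x hx).trans (by linarith [le_abs_self C]))
    have hgint : IntegrableOn (gsq fun y => F (y + l • Y y)) M := V2b_gsq_int hb hKl
    have hfint : IntegrableOn (gsq f) M := by
      refine integrableOn_of_bdd hM hb (C := C ^ 2 + C ^ 2) ?_ ?_
      · exact ((hf.dx_cont hM).pow 2).add ((hf.dy_cont hM).pow 2)
      · intro x hx
        rw [abs_of_nonneg (gsq_nonneg f x)]
        unfold gsq
        have h1 := sq_le_sq' (by linarith [neg_abs_le (dx f x), hf.dx_le x hx] :
          -C ≤ dx f x) ((le_abs_self _).trans (hf.dx_le x hx))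
        have h2 := sq_le_sq' (by linarith [neg_abs_le (dy f x), hf.dy_le x hx] :
          -C ≤ dy f x) ((le_abs_self _).trans (hf.dy_le x hx))
        linarith
    have hyoung : (∫ x in M, (dx (fun y => F (y + l • Y y)) x * dx f x +
        dy (fun y => F (y + l • Y y)) x * dy f x)) ≤
        ∫ x in M, ((1 / 2) * gsq (fun y => F (y + l • Y y)) x + (1 / 2) * gsq f x) := by
      refine setIntegral_mono_on ?_ ((hgint.const_mul _).add (hfint.const_mul _))
        hM.measurableSet ?_
      · refine Integrable.mono' ((hgint.const_mul (1 / 2)).add (hfint.const_mul (1 / 2))) ?_ ?_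
        · have m1 : AEStronglyMeasurable (fun x => dx (fun y => F (y + l • Y y)) x)
              (volume.restrict M) := by
            exact ((measurable_fderiv_apply_const ℝ _ (1 : ℂ))).aestronglyMeasurable
          have m2 : AEStronglyMeasurable (fun x => dy (fun y => F (y + l • Y y)) x)
              (volume.restrict M) := by
            exact ((measurable_fderiv_apply_const ℝ _ Complex.I)).aestronglyMeasurable
          exact (m1.mul ((hf.dx_cont hM).aestronglyMeasurable hM.measurableSet)).add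
            (m2.mul ((hf.dy_cont hM).aestronglyMeasurable hM.measurableSet))
        · refine ae_of_all _ fun x => ?_
          simp only [Real.norm_eq_abs, Pi.add_apply]
          exact V2b_young _ _ _
      · intro x _
        exact (le_abs_self _).trans (V2b_young _ _ _)
    rw [integral_add (hgint.const_mul _) (hfint.const_mul _), integral_const_mul,
      integral_const_mul] at hyoung
    have hst := hstep l hl hl1
    have hfl : IntegrableOn (fun x => f x * lap f x) M := by
      refine integrableOn_of_bdd hM hb (C := |C| * (2 * |C|)) (hf.cont.mul hlapc) ?_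
      intro x hx
      rw [abs_mul]
      exact mul_le_mul ((hf.abs_le x hx).trans (le_abs_self C))
        ((hlapb x hx).trans (by linarith [le_abs_self C])) (abs_nonneg _) (abs_nonneg _)
    have hsplit : (∫ x in M, F (x + l • Y x) * lap f x) =
        l * (∫ x in M, (F (x + l • Y x) - f x) / l * lap f x) + ∫ x in M, f x * lap f x := by
      rw [← integral_const_mul, ← integral_add ((hint l hl).const_mul l) hfl]
      refine setIntegral_congr_fun hM.measurableSet fun x _ => ?_
      field_simp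
      ring
    set Q := ∫ x in M, (F (x + l • Y x) - f x) / l * lap f x with hQ
    have h5 : -(l * Q) ≤ l * (((1 - d) + D / 2 * l) * E) := by
      have e1 : (∫ x in M, gsq (fun y => F (y + l • Y y)) x) ≤
          (1 + (2 - 2 * d) * l + D * l ^ 2) * E := hst
      rw [hgr, hsplit] at hyoung
      nlinarith [hyoung, e1, hdir]
    have h6 : l * (-Q) ≤ l * (((1 - d) + D / 2 * l) * E) := by linarith
    exact le_of_mul_le_mul_left h6 hl
  -- the limit
  have hlim : Tendsto (fun l : ℝ => ∫ x in M, (F (x + l • Y x) - f x) / l * lap f x) (𝓝[>] 0)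
      (𝓝 (∫ x in M, fderiv ℝ f x (Y x) * lap f x)) := by
    refine tendsto_integral_filter_of_dominated_convergence
      (fun _ => (2 * |C|) * B * (2 * |C|)) ?_ ?_ ?_ ?_
    · filter_upwards [self_mem_nhdsWithin] with l hl
      exact (hint l hl).aestronglyMeasurable
    · filter_upwards [self_mem_nhdsWithin] with l hl
      refine ae_restrict_of_forall_mem hM.measurableSet fun x hx => ?_
      rw [Real.norm_eq_abs, abs_mul]
      exact mul_le_mul (hq l hl x hx) ((hlapb x hx).trans (by linarith [le_abs_self C]))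
        (abs_nonneg _) (by positivity)
    · exact integrableOn_const hfin
    · refine ae_restrict_of_forall_mem hM.measurableSet fun x hx => ?_
      refine Tendsto.mul_const _ ?_
      have h1 : HasFDerivAt F (fderiv ℝ f x) x := by
        have h2 : HasFDerivAt f (fderiv ℝ f x) x :=
          (hf.diffOn.differentiableAt (hM.mem_nhds hx)).hasFDerivAt
        exact h2.congr_of_eventuallyEq
          (Filter.eventuallyEq_of_mem (hM.mem_nhds hx) fun y hy => hFM y hy)
      have h3 : HasDerivAt (fun l : ℝ => F (x + l • Y x)) (fderiv ℝ f x (Y x)) 0 := by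
        have h4 : HasDerivAt (fun l : ℝ => x + l • Y x) (Y x) 0 := by
          have := ((hasDerivAt_id (0 : ℝ)).smul_const (Y x)).const_add x
          simpa using this
        have h5 : HasFDerivAt F (fderiv ℝ f x) (x + (0 : ℝ) • Y x) := by simpa using h1
        exact h5.comp_hasDerivAt (0 : ℝ) h4
      have h6 := h3.tendsto_slope_zero_right
      refine h6.congr' ?_
      filter_upwards [self_mem_nhdsWithin] with l hl
      simp only [zero_add, zero_smul, add_zero, smul_eq_mul, hFM x hx]
      rw [inv_mul_eq_div]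
  have hlim2 : Tendsto (fun l : ℝ => ((1 - d) + D / 2 * l) * E) (𝓝[>] 0) (𝓝 ((1 - d) * E)) := by
    have h1 : Continuous fun l : ℝ => ((1 - d) + D / 2 * l) * E := by fun_prop
    have h2 := h1.tendsto 0
    simp only [mul_zero, add_zero] at h2
    exact h2.mono_left nhdsWithin_le_nhds
  have hfinal : -(∫ x in M, fderiv ℝ f x (Y x) * lap f x) ≤ (1 - d) * E := by
    refine le_of_tendsto_of_tendsto hlim.neg hlim2 ?_
    filter_upwards [Ioo_mem_nhdsGT (lt_min hl₀ hl₁)] with l hl
    exact key l hl.1 hl.2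
  have hcomm : (∫ x in M, lap f x * fderiv ℝ f x (Y x)) =
      ∫ x in M, fderiv ℝ f x (Y x) * lap f x := by
    refine setIntegral_congr_fun hM.measurableSet fun x _ => mul_comm _ _
  rw [hcomm]
  linarith

/-- [YUT-V2b] lower bound for the twist form: `∫ Δf (Y ⬝ ∇f - f) ≥ d ∫ |∇f|²`
(`virial`, `dirichlet`). -/
theorem J_twist {M : Set ℂ} (hM : IsOpen M) (hb : Bornology.IsBounded M) {Y : ℂ → ℂ} {d : ℝ}
    (hY : TwistField M Y d) {f : ℂ → ℝ} {C : ℝ} (hf : StreamLe M C f) :
    d * ∫ x in M, gsq f x ≤ ∫ x in M, lap f x * gg Y f x := by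
  obtain ⟨KY, hKY⟩ := hY.lip
  have hYc : Continuous Y := V2b_cont hKY
  obtain ⟨B, hB0, hB⟩ := V2b_bdd hb hYc
  have hv := virial hM hb hY hf
  have hdir := dirichlet hM hb hf
  have hlapc := hf.lap_cont hM
  have i1 : IntegrableOn (fun x => lap f x * fderiv ℝ f x (Y x)) M := by
    refine integrableOn_of_bdd hM hb (C := (2 * |C|) * ((2 * |C|) * B))
      (hlapc.mul ((hf.fderiv_cont hM).clm_apply hYc.continuousOn)) ?_
    intro x hx
    rw [abs_mul]
    refine mul_le_mul ((hf.lap_le x hx).trans (by linarith [le_abs_self C])) ?_ (abs_nonneg _)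
      (by positivity)
    refine ((fderiv ℝ f x).le_opNorm (Y x)).trans ?_
    exact mul_le_mul ((hf.fderiv_le x hx).trans (by linarith [le_abs_self C])) (hB x hx)
      (norm_nonneg _) (by positivity)
  have i2 : IntegrableOn (fun x => f x * lap f x) M := by
    refine integrableOn_of_bdd hM hb (C := |C| * (2 * |C|)) (hf.cont.mul hlapc) ?_
    intro x hx
    rw [abs_mul]
    exact mul_le_mul ((hf.abs_le x hx).trans (le_abs_self C))
      ((hf.lap_le x hx).trans (by linarith [le_abs_self C])) (abs_nonneg _) (abs_nonneg _)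
  have e1 : (∫ x in M, lap f x * gg Y f x) =
      (∫ x in M, lap f x * fderiv ℝ f x (Y x)) - ∫ x in M, f x * lap f x := by
    rw [← integral_sub i1 i2]
    refine setIntegral_congr_fun hM.measurableSet fun x _ => ?_
    simp only [gg]
    ring
  rw [e1]
  linarith

end Pool.Agent.YUT
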