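import Pool.Agent.YUT.W1b

open MeasureTheory Set Filter Topology
open scoped ContDiff

namespace Pool.Agent.YUT

open Pool.Agent.YUD

variable {M : Set ℂ} {w₀ : ℂ → ℝ} {ψ : ℝ → ℂ → ℝ} {Φ : ℝ → ℂ → ℂ}

/-- [YUT-W1c] the function of `τ` in `weight` is interval integrable (it is
`τ ↦ ∫_M (w₀ x - m) gg(ψ_τ)(Φ_τ x) dx`, continuous on `[0,t]` by dominated convergence), so a
pointwise lower bound `c₀` integrates to `c₀ t`. -/
theorem weight_lower (hM : IsOpen M) (hb : Bornology.IsBounded M) {Y : ℂ → ℂ} (hY : Continuous Y)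
    (h : Flow M w₀ ψ Φ) {m c₀ : ℝ}
    (hJ : ∀ τ, 0 ≤ τ → c₀ ≤ ∫ x in M, (lap (ψ τ) x - m) * gg Y (ψ τ) x) {t : ℝ} (ht : 0 ≤ t) :
    c₀ * t ≤ ∫ x in M, (w₀ x - m) * act Y ψ Φ t x := by
  rw [weight hM hb hY h m ht]
  have h1 : Integrable (fun τ => ∫ x in M, (w₀ x - m) * gg Y (ψ τ) (Φ τ x))
      (volume.restrict (Ioc 0 t)) :=
    (W1b_integrable hM hb hY h m t).integral_prod_right
  have h2 : IntegrableOn (fun τ => ∫ x in M, (lap (ψ τ) x - m) * gg Y (ψ τ) x) (Ioc 0 t) := by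
    refine IntegrableOn.congr_fun h1 (fun τ hτ => ?_) measurableSet_Ioc
    exact W1b_slice hM h Y m hτ.1.le
  have h3 : IntervalIntegrable (fun τ => ∫ x in M, (lap (ψ τ) x - m) * gg Y (ψ τ) x) volume 0 t :=
    (intervalIntegrable_iff_integrableOn_Ioc_of_le ht).mpr h2
  have h4 := intervalIntegral.integral_mono_on ht (_root_.intervalIntegrable_const
    (c := c₀)) h3 (fun τ hτ => hJ τ hτ.1)
  rw [intervalIntegral.integral_const, smul_eq_mul, sub_zero] at h4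
  linarith

end Pool.Agent.YUT
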