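import Pool.Agent.YUT.W1a
import Pool.Agent.YUT.M1b

open MeasureTheory Set Filter Topology
open scoped ContDiff

namespace Pool.Agent.YUT

open Pool.Agent.YUD

variable {M : Set ℂ} {w₀ : ℂ → ℝ} {ψ : ℝ → ℂ → ℝ} {Φ : ℝ → ℂ → ℂ}

/-- continuity of the action on `M` -/
theorem W1d_act_cont (hM : IsOpen M) (hb : Bornology.IsBounded M) {Y : ℂ → ℂ} (hY : Continuous Y)
    (h : Flow M w₀ ψ Φ) {t : ℝ} (ht : 0 ≤ t) : ContinuousOn (act Y ψ Φ t) M := by
  obtain ⟨hc, hB⟩ := gg_flow hM hb hY h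
  obtain ⟨B, hB⟩ := hB t
  intro x₀ hx₀
  have key : ContinuousWithinAt (fun x => ∫ τ in (0 : ℝ)..t, gg Y (ψ τ) (Φ τ x)) M x₀ := by
    refine intervalIntegral.continuousWithinAt_of_dominated_interval (bound := fun _ => B) ?_ ?_
      _root_.intervalIntegrable_const ?_
    · filter_upwards [self_mem_nhdsWithin] with x hx
      rw [uIoc_of_le ht]
      refine ContinuousOn.aestronglyMeasurable ?_ measurableSet_Ioc
      have := hc.comp (f := fun τ : ℝ => (τ, x)) (s := Ioc (0 : ℝ) t)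
        (continuousOn_id.prodMk continuousOn_const) (fun τ hτ => ⟨hτ.1.le, hx⟩)
      exact this
    · filter_upwards [self_mem_nhdsWithin] with x hx
      refine ae_of_all _ fun τ hτ => ?_
      rw [uIoc_of_le ht] at hτ
      exact hB τ hτ.1.le hτ.2 _ ((h.bij τ hτ.1.le).mapsTo hx)
    · refine ae_of_all _ fun τ hτ => ?_
      rw [uIoc_of_le ht] at hτ
      have := hc.comp (f := fun x : ℂ => (τ, x)) (s := M)
        (continuousOn_const.prodMk continuousOn_id) (fun x hx => ⟨hτ.1.le, hx⟩)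
      exact this x₀ hx₀
  exact key

/-- boundedness of the action on `M` -/
theorem W1d_act_bdd (hM : IsOpen M) (hb : Bornology.IsBounded M) {Y : ℂ → ℂ} (hY : Continuous Y)
    (h : Flow M w₀ ψ Φ) {t : ℝ} (ht : 0 ≤ t) : ∃ B : ℝ, ∀ x ∈ M, |act Y ψ Φ t x| ≤ B := by
  obtain ⟨hc, hB⟩ := gg_flow hM hb hY h
  obtain ⟨B, hB⟩ := hB t
  refine ⟨B * |t - 0|, fun x hx => ?_⟩
  have := intervalIntegral.norm_integral_le_of_norm_le_const (a := (0 : ℝ)) (b := t) (C := B)
    (f := fun τ => gg Y (ψ τ) (Φ τ x)) (fun τ hτ => by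
      rw [uIoc_of_le ht] at hτ
      exact hB τ hτ.1.le hτ.2 _ ((h.bij τ hτ.1.le).mapsTo hx))
  exact this

/-- a continuous bounded function on a bounded open set is integrable -/
theorem W1d_int (hM : IsOpen M) (hb : Bornology.IsBounded M) {f : ℂ → ℝ} (hf : ContinuousOn f M)
    {B : ℝ} (hB : ∀ x ∈ M, |f x| ≤ B) : IntegrableOn f M := by
  have : IsFiniteMeasure (volume.restrict M) :=
    ⟨by rw [Measure.restrict_apply_univ]; exact hb.measure_lt_top⟩
  refine Integrable.mono' (g := fun _ => B) (integrable_const _)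
    (hf.aestronglyMeasurable hM.measurableSet) ?_
  exact (ae_restrict_iff' hM.measurableSet).mpr (ae_of_all _ fun x hx => hB x hx)

/-- [YUT-W1d] if the action differs from a constant `κ` by at most `A` on `M` and either `κ = 0` or
`∫ (w₀ - m) = 0`, then `∫ (w₀ - m) act ≤ A ∫ |w₀ - m|`. (`act Y ψ Φ t` is continuous on `M`: dominated
convergence.) -/
theorem weight_upper (hM : IsOpen M) (hb : Bornology.IsBounded M) {Y : ℂ → ℂ} (hY : Continuous Y)
    (h : Flow M w₀ ψ Φ) {m κ A t : ℝ} (ht : 0 ≤ t)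
    (hκ : κ = 0 ∨ ∫ x in M, (w₀ x - m) = 0) (hA : ∀ x ∈ M, |act Y ψ Φ t x - κ| ≤ A) :
    ∫ x in M, (w₀ x - m) * act Y ψ Φ t x ≤ A * ∫ x in M, |w₀ x - m| := by
  have hac := W1d_act_cont hM hb hY h ht
  obtain ⟨B, hB⟩ := W1d_act_bdd hM hb hY h ht
  obtain ⟨hw, B₀, hB₀, hwB⟩ := h.w0_bdd hM
  have hwm : ∀ x ∈ M, |w₀ x - m| ≤ B₀ + |m| := fun x hx =>
    (abs_sub _ _).trans (by linarith [hwB x hx])
  have hi1 : IntegrableOn (fun x => w₀ x - m) M :=
    W1d_int hM hb (hw.sub continuousOn_const) hwm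
  have hi2 : IntegrableOn (fun x => (w₀ x - m) * act Y ψ Φ t x) M := by
    refine W1d_int hM hb ((hw.sub continuousOn_const).mul hac) (B := (B₀ + |m|) * B) fun x hx => ?_
    rw [abs_mul]
    exact mul_le_mul (hwm x hx) (hB x hx) (abs_nonneg _) ((abs_nonneg _).trans (hwm x hx))
  have h0 : ∫ x in M, (w₀ x - m) * κ = 0 := by
    rw [integral_mul_const]
    rcases hκ with h | h <;> rw [h] <;> simp
  have hi3 : IntegrableOn (fun x => (w₀ x - m) * κ) M := hi1.mul_const κ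
  have h1 : ∫ x in M, (w₀ x - m) * act Y ψ Φ t x =
      ∫ x in M, (w₀ x - m) * (act Y ψ Φ t x - κ) := by
    have h2 : ∫ x in M, (w₀ x - m) * (act Y ψ Φ t x - κ) =
        (∫ x in M, (w₀ x - m) * act Y ψ Φ t x) - ∫ x in M, (w₀ x - m) * κ := by
      rw [← integral_sub hi2 hi3]
      refine integral_congr_ae (ae_of_all _ fun x => ?_)
      simp only []
      ring
    rw [h2, h0, sub_zero]
  rw [h1, ← integral_const_mul]
  refine setIntegral_mono_on ?_ (hi1.abs.const_mul A) hM.measurableSet fun x hx => ?_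
  · refine (hi2.sub hi3).congr (ae_of_all _ fun x => ?_)
    simp only [Pi.sub_apply]
    ring
  · calc (w₀ x - m) * (act Y ψ Φ t x - κ) ≤ |(w₀ x - m) * (act Y ψ Φ t x - κ)| := le_abs_self _
      _ = |act Y ψ Φ t x - κ| * |w₀ x - m| := by rw [abs_mul, mul_comm]
      _ ≤ A * |w₀ x - m| := mul_le_mul_of_nonneg_right (hA x hx) (abs_nonneg _)

end Pool.Agent.YUT
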