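import Pool.Agent.YUT.X1a

open MeasureTheory Set Filter Topology
open scoped ContDiff

namespace Pool.Agent.YUT

open Pool.Agent.YUD

variable {M : Set ℂ} {w₀ : ℂ → ℝ} {ψ : ℝ → ℂ → ℝ} {Φ : ℝ → ℂ → ℂ}

/-- [YUT-X1b] the oscillation of the action along a `C¹` path of speed at most `Λ` is at most
`B Λ (L + 1)`, `B` a bound for `‖Y‖` on `M` (`wed_le`). -/
theorem action_join (hM : IsOpen M) {Y : ℂ → ℂ} (hYc : Continuous Y) (hY : ContDiffOn ℝ 1 Y M)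
    (hdiv : ∀ x ∈ M, (fderiv ℝ Y x 1).re + (fderiv ℝ Y x Complex.I).im = 1)
    (h : Flow M w₀ ψ Φ) {t : ℝ} (ht : 0 ≤ t) {B L Λ : ℝ}
    (hB : ∀ x ∈ M, ‖Y x‖ ≤ B) (hL : ∀ x ∈ M, ‖fderiv ℝ (Φ t) x‖ ≤ L) {x y : ℂ}
    (hxy : C1Join M Λ x y) :
    |act Y ψ Φ t y - act Y ψ Φ t x| ≤ B * Λ * (L + 1) := by
  obtain ⟨γ, γ', h0, h1, hγM, hγ, hγc, hΛ⟩ := hxy
  have h01 : (0 : ℝ) ∈ Icc (0 : ℝ) 1 := ⟨le_rfl, zero_le_one⟩
  have hB0 : 0 ≤ B := (norm_nonneg _).trans (hB _ (hγM 0 h01))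
  have hL0 : 0 ≤ L := (norm_nonneg _).trans (hL _ (hγM 0 h01))
  have hΛ0 : 0 ≤ Λ := (norm_nonneg _).trans (hΛ 0 h01)
  have hd := action_diff hM hYc hY hdiv h ht hγM hγ hγc
  rw [h0, h1] at hd
  rw [hd]
  have i1 : ‖∫ s in (0 : ℝ)..1, wed (Y (Φ t (γ s))) (fderiv ℝ (Φ t) (γ s) (γ' s))‖ ≤
      (B * (L * Λ)) * |1 - 0| := by
    refine intervalIntegral.norm_integral_le_of_norm_le_const fun s hs => ?_
    rw [uIoc_of_le zero_le_one] at hs
    have hs' : s ∈ Icc (0 : ℝ) 1 := ⟨hs.1.le, hs.2⟩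
    rw [Real.norm_eq_abs]
    refine (wed_le _ _).trans ?_
    refine mul_le_mul (hB _ ((h.bij t ht).mapsTo (hγM s hs'))) ?_ (norm_nonneg _) hB0
    refine (ContinuousLinearMap.le_opNorm _ _).trans ?_
    exact mul_le_mul (hL _ (hγM s hs')) (hΛ s hs') (norm_nonneg _) hL0
  have i2 : ‖∫ s in (0 : ℝ)..1, wed (Y (γ s)) (γ' s)‖ ≤ (B * Λ) * |1 - 0| := by
    refine intervalIntegral.norm_integral_le_of_norm_le_const fun s hs => ?_
    rw [uIoc_of_le zero_le_one] at hs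
    have hs' : s ∈ Icc (0 : ℝ) 1 := ⟨hs.1.le, hs.2⟩
    rw [Real.norm_eq_abs]
    refine (wed_le _ _).trans ?_
    exact mul_le_mul (hB _ (hγM s hs')) (hΛ s hs') (norm_nonneg _) hB0
  rw [sub_zero, abs_one, mul_one, Real.norm_eq_abs] at i1 i2
  refine (abs_sub _ _).trans ?_
  nlinarith [i1, i2]

/-- [YUT-X1b] hence on a set of finite intrinsic diameter all values of the action differ by at most
a constant times `L + 1` (chain of `n` paths; the constant does not depend on the flow). -/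
theorem action_osc (hM : IsOpen M) (hb : Bornology.IsBounded M) (hd : FinDiam M) {Y : ℂ → ℂ}
    {d : ℝ} (hY : TwistField M Y d) :
    ∃ A : ℝ, 0 < A ∧ ∀ (w₀ : ℂ → ℝ) (ψ : ℝ → ℂ → ℝ) (Φ : ℝ → ℂ → ℂ), Flow M w₀ ψ Φ →
      ∀ t, 0 ≤ t → ∀ L, (∀ x ∈ M, ‖fderiv ℝ (Φ t) x‖ ≤ L) → ∀ x ∈ M, ∀ y ∈ M,
        |act Y ψ Φ t y - act Y ψ Φ t x| ≤ A * (L + 1) := by
  obtain ⟨K, hK⟩ := hY.lip
  have hYc : Continuous Y := by
    have h1 : LipschitzWith (Real.toNNReal K) Y := by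
      refine LipschitzWith.of_dist_le_mul fun x y => ?_
      rw [dist_eq_norm, dist_eq_norm]
      refine (hK x y).trans (mul_le_mul_of_nonneg_right ?_ (norm_nonneg _))
      exact Real.le_coe_toNNReal K
    exact h1.continuous
  obtain ⟨R, hR⟩ := hb.subset_closedBall (0 : ℂ)
  obtain ⟨B, hB⟩ := ((isCompact_closedBall (0 : ℂ) R).image hYc).isBounded.exists_norm_le
  have hB' : ∀ x ∈ M, ‖Y x‖ ≤ |B| := fun x hx =>
    (hB _ (mem_image_of_mem _ (hR hx))).trans (le_abs_self B)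
  obtain ⟨n, Λ, hn⟩ := hd
  refine ⟨n * (|B| * |Λ|) + 1, by positivity, fun w₀ ψ Φ h t ht L hL x hx y hy => ?_⟩
  have hL0 : 0 ≤ L := (norm_nonneg _).trans (hL _ hx)
  obtain ⟨z, hz0, hzn, hz⟩ := hn x hx y hy
  have h1 : act Y ψ Φ t y - act Y ψ Φ t x =
      ∑ i ∈ Finset.range n, (act Y ψ Φ t (z (i + 1)) - act Y ψ Φ t (z i)) := by
    rw [Finset.sum_range_sub (fun i => act Y ψ Φ t (z i)), hz0, hzn]
  rw [h1]
  refine (Finset.abs_sum_le_sum_abs _ _).trans ?_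
  have h2 : ∀ i ∈ Finset.range n, |act Y ψ Φ t (z (i + 1)) - act Y ψ Φ t (z i)| ≤
      |B| * |Λ| * (L + 1) := by
    intro i hi
    refine (action_join hM hYc hY.c1 hY.div_eq h ht hB' hL
      (hz i (Finset.mem_range.1 hi))).trans ?_
    refine mul_le_mul_of_nonneg_right (mul_le_mul_of_nonneg_left (le_abs_self Λ) (abs_nonneg B))
      (by linarith)
  refine (Finset.sum_le_sum h2).trans ?_
  rw [Finset.sum_const, Finset.card_range, nsmul_eq_mul]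
  nlinarith

end Pool.Agent.YUT
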