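import Pool.Agent.YUT.E1b
import Pool.Agent.YUT.V2b
import Pool.Agent.YUT.X1b
import Pool.Agent.YUT.W1c
import Pool.Agent.YUT.W1d
import Pool.Agent.YUT.K2b
import Pool.Agent.YUT.S1c
import Pool.Agent.YUT.S1d
import Pool.Agent.YUT.L1
import Pool.Agent.YUT.A1b

/-!
# [YUT] F1: the stretching theorems
-/

open MeasureTheory Set Filter Topology
open scoped ContDiff

namespace Pool.Agent.YUT

open Pool.Agent.YUD

variable {M : Set ℂ} {w₀ : ℂ → ℝ} {ψ ψ' : ℝ → ℂ → ℝ} {Φ Φ' : ℝ → ℂ → ℂ} {Y : ℂ → ℂ} {d : ℝ}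

theorem Flow.one_le (hne : M.Nonempty) (h : Flow M w₀ ψ Φ) {t L : ℝ} (ht : 0 ≤ t)
    (hL : ∀ x ∈ M, ‖fderiv ℝ (Φ t) x‖ ≤ L) : 1 ≤ L := by
  obtain ⟨x, hx⟩ := hne
  exact (one_le_norm _ (h.area t ht x hx)).trans (hL x hx)

theorem TwistField.cont (hY : TwistField M Y d) : Continuous Y := by
  obtain ⟨K, hK⟩ := hY.lip
  have : LipschitzWith (Real.toNNReal K) Y := by
    refine LipschitzWith.of_dist_le_mul fun x y => ?_
    rw [dist_eq_norm, dist_eq_norm]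
    refine (hK x y).trans ?_
    gcongr
    exact Real.le_coe_toNNReal K
  exact this.continuous

/-- the stream function of the initial vorticity -/
theorem Flow.stream_at (h : Flow M w₀ ψ Φ) {t : ℝ} (ht : 0 ≤ t) : ∃ C, StreamLe M C (ψ t) := by
  obtain ⟨C, hC⟩ := h.stream t
  exact ⟨C, hC t ht le_rfl⟩

theorem Flow.psi0_eq (hM : IsOpen M) (hb : Bornology.IsBounded M) (h : Flow M w₀ ψ Φ)
    (h' : Flow M w₀ ψ' Φ') : ∀ x ∈ M, ψ 0 x = ψ' 0 x := by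
  obtain ⟨C, hC⟩ := h.stream_at le_rfl
  obtain ⟨C', hC'⟩ := h'.stream_at le_rfl
  exact stream_ext hM hb hC hC' fun x hx => by rw [h.w0_eq x hx, h'.w0_eq x hx]

theorem gsq_congr (hM : IsOpen M) {f g : ℂ → ℝ} (h : ∀ x ∈ M, f x = g x) :
    ∫ x in M, gsq f x = ∫ x in M, gsq g x := by
  refine setIntegral_congr_fun hM.measurableSet fun x hx => ?_
  simp only [gsq]
  rw [dx_congr hM h hx, dy_congr hM h hx]

theorem Flow.energy_eq (hM : IsOpen M) (hb : Bornology.IsBounded M) (h : Flow M w₀ ψ Φ)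
    (h' : Flow M w₀ ψ' Φ') : ∫ x in M, gsq (ψ 0) x = ∫ x in M, gsq (ψ' 0) x :=
  gsq_congr hM (h.psi0_eq hM hb h')

/-- the core of the stretching theorems -/
theorem stretch_core (hM : IsOpen M) (hb : Bornology.IsBounded M) (hne : M.Nonempty)
    (hY : Continuous Y) {m c₀ A : ℝ} (hc₀ : 0 < c₀) (hA : 0 ≤ A)
    (hJ : ∀ ψ Φ, Flow M w₀ ψ Φ → ∀ τ, 0 ≤ τ → c₀ ≤ ∫ x in M, (lap (ψ τ) x - m) * gg Y (ψ τ) x)
    (hosc : ∀ ψ Φ, Flow M w₀ ψ Φ → ∀ t, 0 ≤ t → ∀ L, (∀ x ∈ M, ‖fderiv ℝ (Φ t) x‖ ≤ L) →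
      ∃ κ, (κ = 0 ∨ ∫ x in M, (w₀ x - m) = 0) ∧ ∀ x ∈ M, |act Y ψ Φ t x - κ| ≤ A * (L + 1)) :
    Stretch M w₀ := by
  set I := ∫ x in M, |w₀ x - m| with hI
  have hI0 : 0 ≤ I := integral_nonneg fun x => abs_nonneg _
  refine ⟨c₀ / (2 * A * I + 1), by positivity, fun ψ Φ h t ht L hL => ?_⟩
  have hL1 := h.one_le hne ht hL
  obtain ⟨κ, hκ, hκ2⟩ := hosc ψ Φ h t ht L hL
  have h1 := weight_lower hM hb hY h (hJ ψ Φ h) ht
  have h2 := weight_upper hM hb hY h ht hκ hκ2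
  rw [div_mul_eq_mul_div, div_le_iff₀ (by positivity)]
  have h3 : A * (L + 1) * I ≤ A * (2 * L) * I := by gcongr; linarith
  nlinarith

/-- **Stretching in twisted domains** for vorticities of mean zero. -/
theorem stretch_twisted (hM : Twisted M) (hw : ∫ x in M, w₀ x = 0)
    (hw0 : ∃ x ∈ M, w₀ x ≠ 0) : Stretch M w₀ := by
  obtain ⟨hMo, hb, hne, hd, Y, d, hY⟩ := hM
  by_cases hex : ∃ ψ Φ, Flow M w₀ ψ Φ
  swap
  · exact ⟨1, one_pos, fun ψ Φ h => absurd ⟨ψ, Φ, h⟩ hex⟩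
  obtain ⟨ψ₁, Φ₁, h₁⟩ := hex
  obtain ⟨C, hs⟩ := h₁.stream_at le_rfl
  have hE : 0 < ∫ x in M, gsq (ψ₁ 0) x := by
    refine dirichlet_pos hMo hb hs ?_
    obtain ⟨x, hx, h⟩ := hw0
    exact ⟨x, hx, by rw [h₁.w0_eq x hx]; exact h⟩
  obtain ⟨A, hA, hA2⟩ := action_osc hMo hb hd hY
  obtain ⟨x₀, hx₀⟩ := hne
  refine stretch_core hMo hb ⟨x₀, hx₀⟩ hY.cont (m := 0) (c₀ := d * ∫ x in M, gsq (ψ₁ 0) x)
    (A := A) (mul_pos hY.pos hE) hA.le ?_ ?_
  · intro ψ Φ h τ hτ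
    obtain ⟨C, hC⟩ := h.stream_at hτ
    have h1 := J_twist hMo hb hY hC
    rw [h.energy hMo hb hτ, h.energy_eq hMo hb h₁] at h1
    simpa using h1
  · intro ψ Φ h t ht L hL
    exact ⟨act Y ψ Φ t x₀, Or.inr (by simpa using hw), fun x hx =>
      hA2 w₀ ψ Φ h t ht L hL x₀ hx₀ x hx⟩

/-- **Stretching in twisted domains with a hole**, for all vorticities. -/
theorem stretch_hole (hM : TwistedHole M) (hw0 : ∃ x ∈ M, w₀ x ≠ 0) : Stretch M w₀ := by
  obtain ⟨hMo, hb, hne, hd, Y, d, ρ, ρ₁, hY, hρ, hρ1, hole, hann, hY0⟩ := hM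
  by_cases hex : ∃ ψ Φ, Flow M w₀ ψ Φ
  swap
  · exact ⟨1, one_pos, fun ψ Φ h => absurd ⟨ψ, Φ, h⟩ hex⟩
  obtain ⟨ψ₁, Φ₁, h₁⟩ := hex
  obtain ⟨C, hs⟩ := h₁.stream_at le_rfl
  have hE : 0 < ∫ x in M, gsq (ψ₁ 0) x := by
    refine dirichlet_pos hMo hb hs ?_
    obtain ⟨x, hx, h⟩ := hw0
    exact ⟨x, hx, by rw [h₁.w0_eq x hx]; exact h⟩
  obtain ⟨A, hA, hA2⟩ := action_osc hMo hb hd hY
  obtain ⟨KY, hKY⟩ := hY.lip
  refine stretch_core hMo hb hne hY.cont (m := 0) (c₀ := d * ∫ x in M, gsq (ψ₁ 0) x)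
    (A := A) (mul_pos hY.pos hE) hA.le ?_ ?_
  · intro ψ Φ h τ hτ
    obtain ⟨C, hC⟩ := h.stream_at hτ
    have h1 := J_twist hMo hb hY hC
    rw [h.energy hMo hb hτ, h.energy_eq hMo hb h₁] at h1
    simpa using h1
  · intro ψ Φ h t ht L hL
    refine ⟨0, Or.inl rfl, fun x hx => ?_⟩
    refine le_of_forall_pos_le_add fun ε hε => ?_
    obtain ⟨y, hy, hyε⟩ := hole_act hMo hρ hρ1 hole hann h hKY hY0 ht hε
    have h1 := hA2 w₀ ψ Φ h t ht L hL y hy x hx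
    have h2 := abs_add_le (act Y ψ Φ t x - act Y ψ Φ t y) (act Y ψ Φ t y)
    rw [sub_add_cancel] at h2
    rw [sub_zero]
    linarith

theorem ellipse_nonempty {a b : ℝ} : (Ellipse a b).Nonempty := ⟨0, by simp [Ellipse]⟩

/-- the mean is conserved -/
theorem Flow.mean (hM : IsOpen M) (h : Flow M w₀ ψ Φ) {m : ℝ} (hm : ∫ x in M, (w₀ x - m) = 0)
    {t : ℝ} (ht : 0 ≤ t) : ∫ x in M, (lap (ψ t) x - m) = 0 := by
  rw [← h.integral_comp hM ht fun x => lap (ψ t) x - m, ← hm]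
  refine setIntegral_congr_fun hM.measurableSet fun x hx => ?_
  rw [h.vort t ht x hx]

/-- **Stretching in ellipses**: all vorticities whose energy differs from the energy of their
mean. -/
theorem stretch_ellipse {a b : ℝ} (ha : 0 < a) (hb : 0 < b) {m : ℝ}
    (hm : ∫ x in Ellipse a b, (w₀ x - m) = 0)
    (hD : ∀ (φ : ℂ → ℝ) (C : ℝ), StreamLe (Ellipse a b) C φ →
      (∀ x ∈ Ellipse a b, lap φ x = w₀ x) →
      ∫ x in Ellipse a b, gsq φ x ≠ m ^ 2 * ∫ x in Ellipse a b, gsq (tor a b) x) :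
    Stretch (Ellipse a b) w₀ := by
  have hS := star_ellipse ha hb
  have hMo := hS.1
  have hMb := hS.2.1
  have hY := hS.twistField
  by_cases hex : ∃ ψ Φ, Flow (Ellipse a b) w₀ ψ Φ
  swap
  · exact ⟨1, one_pos, fun ψ Φ h => absurd ⟨ψ, Φ, h⟩ hex⟩
  obtain ⟨ψ₁, Φ₁, h₁⟩ := hex
  obtain ⟨C, hs⟩ := h₁.stream_at le_rfl
  set Z := ∫ x in Ellipse a b, gsq (tor a b) x with hZ
  have hZ0 : 0 ≤ Z := integral_nonneg fun x => gsq_nonneg _ _
  set D := (∫ x in Ellipse a b, gsq (ψ₁ 0) x) - m ^ 2 * Z with hDdef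
  have hD0 : D ≠ 0 := sub_ne_zero.2 (hD _ _ hs h₁.w0_eq)
  obtain ⟨A, hA, hA2⟩ := action_osc hMo hMb hS.finDiam hY
  obtain ⟨x₀, hx₀⟩ := hS.2.2.1
  have hDp : 0 < |D| := abs_pos.2 hD0
  refine stretch_core hMo hMb ⟨x₀, hx₀⟩ hY.cont (m := m)
    (c₀ := D ^ 2 / (2 * (|D| + 2 * m ^ 2 * Z))) (A := A) (by positivity) hA.le ?_ ?_
  · intro ψ Φ h τ hτ
    obtain ⟨C, hC⟩ := h.stream_at hτ
    refine (D_bound ha hb hC ?_ hD0).trans (J_ellipse ha hb hC (h.mean hMo hm hτ))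
    rw [h.energy hMo hMb hτ, h.energy_eq hMo hMb h₁]
  · intro ψ Φ h t ht L hL
    exact ⟨act _ ψ Φ t x₀, Or.inr hm, fun x hx =>
      hA2 w₀ ψ Φ h t ht L hL x₀ hx₀ x hx⟩

theorem ellipse_eq_ball {R : ℝ} (hR : 0 < R) : Ellipse R R = Metric.ball 0 R := by
  ext x
  simp only [Ellipse, mem_ofPred_eq, mem_ball_zero_iff]
  have h : (x.re / R) ^ 2 + (x.im / R) ^ 2 = ‖x‖ ^ 2 / R ^ 2 := by
    rw [← Complex.normSq_eq_norm_sq, Complex.normSq_apply]; ring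
  rw [h, div_lt_one (by positivity)]
  exact pow_lt_pow_iff_left₀ (norm_nonneg _) hR.le two_ne_zero

theorem tor_ball {R : ℝ} (hR : 0 < R) (x : ℂ) : tor R R x = (‖x‖ ^ 2 - R ^ 2) / 4 := by
  have h : ‖x‖ ^ 2 = x.re ^ 2 + x.im ^ 2 := by
    rw [← Complex.normSq_eq_norm_sq, Complex.normSq_apply]; ring
  rw [h, tor]
  field_simp
  ring

theorem gsq_sub_int (hM : IsOpen M) (hb : Bornology.IsBounded M) {f g : ℂ → ℝ} {C D : ℝ}
    (hf : StreamLe M C f) (hg : StreamLe M D g) :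
    ∫ x in M, gsq (fun y => f y - g y) x =
      (∫ x in M, gsq f x) - 2 * (∫ x in M, (dx g x * dx f x + dy g x * dy f x)) +
        ∫ x in M, gsq g x := by
  have i1 : IntegrableOn (gsq f) M := by
    refine integrableOn_of_bdd hM hb (C := C ^ 2 + C ^ 2)
      (((hf.dx_cont hM).pow 2).add ((hf.dy_cont hM).pow 2)) fun x hx => ?_
    rw [abs_of_nonneg (gsq_nonneg f x)]
    exact add_le_add (sq_le_sq' (neg_le_of_abs_le (hf.dx_le x hx)) (le_of_abs_le (hf.dx_le x hx)))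
      (sq_le_sq' (neg_le_of_abs_le (hf.dy_le x hx)) (le_of_abs_le (hf.dy_le x hx)))
  have i2 : IntegrableOn (gsq g) M := by
    refine integrableOn_of_bdd hM hb (C := D ^ 2 + D ^ 2)
      (((hg.dx_cont hM).pow 2).add ((hg.dy_cont hM).pow 2)) fun x hx => ?_
    rw [abs_of_nonneg (gsq_nonneg g x)]
    exact add_le_add (sq_le_sq' (neg_le_of_abs_le (hg.dx_le x hx)) (le_of_abs_le (hg.dx_le x hx)))
      (sq_le_sq' (neg_le_of_abs_le (hg.dy_le x hx)) (le_of_abs_le (hg.dy_le x hx)))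
  have i3 : IntegrableOn (fun x => dx g x * dx f x + dy g x * dy f x) M := by
    refine integrableOn_of_bdd hM hb (C := |D| * |C| + |D| * |C|)
      (((hg.dx_cont hM).mul (hf.dx_cont hM)).add ((hg.dy_cont hM).mul (hf.dy_cont hM)))
      fun x hx => ?_
    refine (abs_add_le _ _).trans (add_le_add ?_ ?_)
    · rw [abs_mul]
      exact mul_le_mul ((hg.dx_le x hx).trans (le_abs_self _))
        ((hf.dx_le x hx).trans (le_abs_self _)) (abs_nonneg _) (abs_nonneg _)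
    · rw [abs_mul]
      exact mul_le_mul ((hg.dy_le x hx).trans (le_abs_self _))
        ((hf.dy_le x hx).trans (le_abs_self _)) (abs_nonneg _) (abs_nonneg _)
  have e1 : ∫ x in M, gsq (fun y => f y - g y) x =
      ∫ x in M, (gsq f x - 2 * (dx g x * dx f x + dy g x * dy f x) + gsq g x) := by
    refine setIntegral_congr_fun hM.measurableSet fun x hx => ?_
    have hdf : DifferentiableAt ℝ f x := dat (n := 1) hM hf.1 hx
    have hdg : DifferentiableAt ℝ g x := dat (n := 1) hM hg.1 hx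
    simp only [gsq]
    rw [dx_sub hdf hdg, dy_sub hdf hdg]; ring
  have i13 : IntegrableOn (fun x => gsq f x - 2 * (dx g x * dx f x + dy g x * dy f x)) M :=
    i1.sub (i3.const_mul 2)
  rw [e1, integral_add i13 i2, integral_sub i1 (i3.const_mul 2), integral_const_mul]

/-- **Stretching in disks**: all nonconstant vorticities. -/
theorem stretch_disk {R : ℝ} (hR : 0 < R)
    (hw : ∃ x ∈ Metric.ball (0 : ℂ) R, ∃ y ∈ Metric.ball (0 : ℂ) R, w₀ x ≠ w₀ y) :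
    Stretch (Metric.ball 0 R) w₀ := by
  have hS := star_ellipse hR hR
  have hJ := @J_ellipse R R hR hR
  obtain ⟨⟨Ct, hCt⟩, hlt, -⟩ := tor_facts hR hR
  rw [ellipse_eq_ball hR] at hS hJ hCt
  set M := Metric.ball (0 : ℂ) R with hM
  have hMo := hS.1
  have hMb := hS.2.1
  have hY := hS.twistField
  by_cases hex : ∃ ψ Φ, Flow M w₀ ψ Φ
  swap
  · exact ⟨1, one_pos, fun ψ Φ h => absurd ⟨ψ, Φ, h⟩ hex⟩
  obtain ⟨ψ₁, Φ₁, h₁⟩ := hex
  obtain ⟨C, hs⟩ := h₁.stream_at le_rfl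
  obtain ⟨hwc, B, hB0, hB⟩ := h₁.w0_bdd hMo
  have hwi : IntegrableOn w₀ M := integrableOn_of_bdd hMo hMb hwc hB
  have hV : 0 < volume.real M := by
    rw [Measure.real, ENNReal.toReal_pos_iff]
    exact ⟨hMo.measure_pos _ hS.2.2.1, hMb.measure_lt_top⟩
  set m := (∫ x in M, w₀ x) / volume.real M with hm'
  have hfin : volume M < ⊤ := hMb.measure_lt_top
  have hm : ∫ x in M, (w₀ x - m) = 0 := by
    rw [integral_sub hwi (integrableOn_const hfin.ne), setIntegral_const, smul_eq_mul, hm']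
    field_simp
    ring
  set c₀ := ∫ x in M, gsq (fun y => ψ₁ 0 y - m * tor R R y) x with hc₀
  have hCt' : StreamLe M (|m| * Ct) (fun y => m * tor R R y) := hCt.const_mul hMo m
  have hc₀p : 0 < c₀ := by
    refine dirichlet_pos hMo hMb (hs.sub hMo hCt') ?_
    by_contra hcon
    push Not at hcon
    obtain ⟨x, hx, y, hy, hxy⟩ := hw
    have key : ∀ z ∈ M, w₀ z = m := by
      intro z hz
      have h1 := hcon z hz
      rw [lap_sub hMo hs.1 hCt'.1 hz, lap_const_mul hMo m hCt.1 hz, hlt, h₁.w0_eq z hz] at h1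
      linarith
    exact hxy (by rw [key x hx, key y hy])
  obtain ⟨A, hA, hA2⟩ := action_osc hMo hMb hS.finDiam hY
  obtain ⟨x₀, hx₀⟩ := hS.2.2.1
  refine stretch_core hMo hMb ⟨x₀, hx₀⟩ hY.cont (m := m) (c₀ := c₀) (A := A) hc₀p hA.le ?_ ?_
  · intro ψ Φ h τ hτ
    obtain ⟨C', hC'⟩ := h.stream_at hτ
    obtain ⟨C0, hC0⟩ := h.stream_at le_rfl
    have hmτ := h.mean hMo hm hτ
    have hm0 := h.mean hMo hm le_rfl
    refine le_trans (le_of_eq ?_) (hJ hC' hmτ)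
    rw [hc₀, gsq_congr hMo (g := fun y => ψ 0 y - m * tor R R y)
      (fun x hx => by rw [h₁.psi0_eq hMo hMb h x hx])]
    rw [gsq_sub_int hMo hMb hC0 hCt', gsq_sub_int hMo hMb hC' hCt', h.energy hMo hMb hτ]
    congr 2
    congr 1
    -- Green
    have hgr : ∀ {f : ℂ → ℝ} {C : ℝ}, StreamLe M C f →
        ∫ x in M, (dx (fun y => m * tor R R y) x * dx f x + dy (fun y => m * tor R R y) x * dy f x)
          = - ∫ x in M, m * tor R R x * lap f x := by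
      intro f C hf
      exact green hMo hMb (hCt'.mono (le_max_left _ C)) (hf.mono (le_max_right (|m| * Ct) _))
    rw [hgr hC0, hgr hC']
    congr 1
    -- angular momentum
    have ht : ∀ {f : ℂ → ℝ} {C : ℝ}, StreamLe M C f → ∫ x in M, (lap f x - m) = 0 →
        ∫ x in M, m * tor R R x * lap f x =
          m / 4 * (∫ x in M, ‖x‖ ^ 2 * lap f x) - m * R ^ 2 / 4 * (m * volume.real M) := by
      intro f C hf hfm
      have il : IntegrableOn (lap f) M := integrableOn_of_bdd hMo hMb (hf.lap_cont hMo) hf.lap_le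
      have il2 : IntegrableOn (fun x => ‖x‖ ^ 2 * lap f x) M := by
        refine integrableOn_of_bdd hMo hMb (C := R ^ 2 * (2 * C))
          ((by fun_prop : Continuous fun x : ℂ => ‖x‖ ^ 2).continuousOn.mul (hf.lap_cont hMo))
          fun x hx => ?_
        rw [abs_mul, abs_of_nonneg (by positivity : (0:ℝ) ≤ ‖x‖ ^ 2)]
        have hxR : ‖x‖ ≤ R := (mem_ball_zero_iff.1 hx).le
        have := hf.lap_le x hx
        gcongr
      have e1 : ∫ x in M, lap f x = m * volume.real M := by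
        rw [integral_sub il (integrableOn_const hfin.ne), setIntegral_const, smul_eq_mul] at hfm
        linarith
      rw [← e1, ← integral_const_mul, ← integral_const_mul, ← integral_sub (il2.const_mul _)
        (il.const_mul _)]
      refine setIntegral_congr_fun hMo.measurableSet fun x hx => ?_
      rw [tor_ball hR]; ring
    rw [ht hC0 hm0, ht hC' hmτ, ang_mom hR h hτ]
  · intro ψ Φ h t ht L hL
    exact ⟨act _ ψ Φ t x₀, Or.inr hm, fun x hx =>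
      hA2 w₀ ψ Φ h t ht L hL x₀ hx₀ x hx⟩

end Pool.Agent.YUT
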