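import Pool.Agent.YUT.F1

/-!
# [YUT] F1b: star-shaped domains, vorticities of arbitrary mean with enough kinetic energy
-/

open MeasureTheory Set Filter Topology
open scoped ContDiff

namespace Pool.Agent.YUT

open Pool.Agent.YUD

variable {M : Set ℂ} {w₀ : ℂ → ℝ}

/-- the function `|x|² / 4` -/
noncomputable def qd (x : ℂ) : ℝ := (x.re ^ 2 + x.im ^ 2) / 4

theorem qd_eq (x : ℂ) : qd x = ‖x‖ ^ 2 / 4 := by
  rw [← Complex.normSq_eq_norm_sq, Complex.normSq_apply, qd]; ring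

theorem qd_contDiff : ContDiff ℝ 2 qd := by
  have h1 : ContDiff ℝ 2 Complex.re := Complex.reCLM.contDiff
  have h2 : ContDiff ℝ 2 Complex.im := Complex.imCLM.contDiff
  exact ((h1.pow 2).add (h2.pow 2)).div_const 4

theorem qd_hasFDeriv (z : ℂ) :
    HasFDerivAt qd ((z.re / 2) • Complex.reCLM + (z.im / 2) • Complex.imCLM) z := by
  have hre : HasFDerivAt (fun z : ℂ => z.re) Complex.reCLM z := Complex.reCLM.hasFDerivAt
  have him : HasFDerivAt (fun z : ℂ => z.im) Complex.imCLM z := Complex.imCLM.hasFDerivAt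
  have h := ((hre.pow 2).fun_add (him.pow 2)).mul_const (1 / 4 : ℝ)
  have e : qd = fun z : ℂ => (z.re ^ 2 + z.im ^ 2) * (1 / 4) := by
    funext z; simp only [qd]; ring
  rw [e]
  refine h.congr_fderiv ?_
  ext v
  simp
  ring

theorem dx_qd (z : ℂ) : dx qd z = z.re / 2 := by
  rw [dx, (qd_hasFDeriv z).fderiv]; simp

theorem dy_qd (z : ℂ) : dy qd z = z.im / 2 := by
  rw [dy, (qd_hasFDeriv z).fderiv]; simp

theorem lap_qd (z : ℂ) : lap qd z = 1 := by
  have hre : HasFDerivAt (fun z : ℂ => z.re / 2) ((1 / 2 : ℝ) • Complex.reCLM) z := by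
    have := (Complex.reCLM.hasFDerivAt (x := z)).mul_const (1 / 2 : ℝ)
    have e : (fun z : ℂ => z.re / 2) = fun z : ℂ => Complex.reCLM z * (1 / 2) := by
      funext z; simp only [Complex.reCLM_apply]; ring
    rw [e]; exact this
  have him : HasFDerivAt (fun z : ℂ => z.im / 2) ((1 / 2 : ℝ) • Complex.imCLM) z := by
    have := (Complex.imCLM.hasFDerivAt (x := z)).mul_const (1 / 2 : ℝ)
    have e : (fun z : ℂ => z.im / 2) = fun z : ℂ => Complex.imCLM z * (1 / 2) := by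
      funext z; simp only [Complex.imCLM_apply]; ring
    rw [e]; exact this
  have e1 : dx qd = fun z => z.re / 2 := funext dx_qd
  have e2 : dy qd = fun z => z.im / 2 := funext dy_qd
  unfold lap
  rw [e1, e2, dx, dy, hre.fderiv, him.fderiv]
  simp; norm_num

/-- `∫ f = - ∫ (x/2) ⬝ ∇f` for Lipschitz `f` vanishing off `M` -/
theorem int_radial (hM : IsOpen M) (hb : Bornology.IsBounded M) {f : ℂ → ℝ} {K : ℝ}
    (hf : ∀ x y, |f x - f y| ≤ K * ‖x - y‖) (hf0 : ∀ x, x ∉ M → f x = 0) :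
    ∫ x in M, fderiv ℝ f x ((1 / 2 : ℝ) • x) = - ∫ x in M, f x := by
  obtain ⟨R, hR⟩ := hb.exists_norm_le
  have hR' : ∀ x ∈ M, ‖x‖ ≤ |R| := fun x hx => (hR x hx).trans (le_abs_self R)
  have h := green_lip hM hb (C := |R| + 1) hf hf0 (g := qd) qd_contDiff.contDiffOn
    (fun x hx => by
      have h1 := norm_fderiv_le qd x
      rw [dx_qd, dy_qd] at h1
      have h2 := Complex.abs_re_le_norm x
      have h3 := Complex.abs_im_le_norm x
      have h4 : |x.re / 2| = |x.re| / 2 := by rw [abs_div]; norm_num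
      have h5 : |x.im / 2| = |x.im| / 2 := by rw [abs_div]; norm_num
      have := hR' x hx
      rw [h4, h5] at h1
      linarith)
    (fun x hx => by rw [lap_qd]; simp)
  have e1 : ∫ x in M, fderiv ℝ f x ((1 / 2 : ℝ) • x) =
      ∫ x in M, (dx f x * dx qd x + dy f x * dy qd x) := by
    refine setIntegral_congr_fun hM.measurableSet fun x _ => ?_
    rw [fderiv_apply', dx_qd, dy_qd]
    simp
    ring
  have e2 : ∫ x in M, f x = ∫ x in M, f x * lap qd x := by
    refine setIntegral_congr_fun hM.measurableSet fun x _ => ?_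
    rw [lap_qd, mul_one]
  rw [e1, h, e2]

theorem fderiv_indicator (hM : IsOpen M) {f : ℂ → ℝ} {x : ℂ} (hx : x ∈ M) :
    fderiv ℝ (M.indicator f) x = fderiv ℝ f x :=
  (fderiv_congr_on hM (fun _ hy => (indicator_of_mem hy f).symm) hx).symm

/-- `∫ f = - ∫ (x/2) ⬝ ∇f` for stream functions -/
theorem int_radial_stream (hM : IsOpen M) (hb : Bornology.IsBounded M) {f : ℂ → ℝ} {C : ℝ}
    (hf : StreamLe M C f) :
    ∫ x in M, fderiv ℝ f x ((1 / 2 : ℝ) • x) = - ∫ x in M, f x := by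
  rcases M.eq_empty_or_nonempty with rfl | ⟨x₀, hx₀⟩
  · simp
  have hC : 0 ≤ 2 * C := (norm_nonneg _).trans (hf.fderiv_le x₀ hx₀)
  have hl := lip_ext hM hC hf.diffOn hf.fderiv_le hf.zero
  have h := int_radial hM hb hl (fun x hx => indicator_of_notMem hx f)
  rw [setIntegral_congr_fun hM.measurableSet (g := fun x => fderiv ℝ f x ((1 / 2 : ℝ) • x))
    (fun x hx => by simp only; rw [fderiv_indicator hM hx])] at h
  rw [h]
  congr 1
  exact setIntegral_congr_fun hM.measurableSet fun x hx => indicator_of_mem hx f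

/-! ### integrability -/

theorem StreamLe.int_gsq (hM : IsOpen M) (hb : Bornology.IsBounded M) {f : ℂ → ℝ} {C : ℝ}
    (hf : StreamLe M C f) : IntegrableOn (gsq f) M := by
  refine integrableOn_of_bdd hM hb (C := C ^ 2 + C ^ 2)
    (((hf.dx_cont hM).pow 2).add ((hf.dy_cont hM).pow 2)) fun x hx => ?_
  rw [abs_of_nonneg (gsq_nonneg f x)]
  exact add_le_add (sq_le_sq' (neg_le_of_abs_le (hf.dx_le x hx)) (le_of_abs_le (hf.dx_le x hx)))
    (sq_le_sq' (neg_le_of_abs_le (hf.dy_le x hx)) (le_of_abs_le (hf.dy_le x hx)))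

theorem StreamLe.int_self (hM : IsOpen M) (hb : Bornology.IsBounded M) {f : ℂ → ℝ} {C : ℝ}
    (hf : StreamLe M C f) : IntegrableOn f M := integrableOn_of_bdd hM hb hf.cont hf.abs_le

theorem StreamLe.int_sq (hM : IsOpen M) (hb : Bornology.IsBounded M) {f : ℂ → ℝ} {C : ℝ}
    (hf : StreamLe M C f) : IntegrableOn (fun x => f x ^ 2) M := by
  refine integrableOn_of_bdd hM hb (C := C ^ 2) (hf.cont.pow 2) fun x hx => ?_
  rw [abs_of_nonneg (sq_nonneg _)]
  exact sq_le_sq' (neg_le_of_abs_le (hf.abs_le x hx)) (le_of_abs_le (hf.abs_le x hx))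

theorem int_cont (hM : IsOpen M) (hb : Bornology.IsBounded M) {k : ℂ → ℝ} (hk : Continuous k) :
    IntegrableOn k M := by
  have : IsCompact (closure M) := hb.isCompact_closure
  exact (hk.continuousOn.integrableOn_compact this).mono_set subset_closure

theorem StreamLe.cont_radial (hM : IsOpen M) {f : ℂ → ℝ} {C : ℝ}
    (hf : StreamLe M C f) : ContinuousOn (fun x => fderiv ℝ f x ((1 / 2 : ℝ) • x)) M :=
  (hf.fderiv_cont hM).clm_apply (by fun_prop)

theorem StreamLe.int_radial (hM : IsOpen M) (hb : Bornology.IsBounded M) {f : ℂ → ℝ} {C : ℝ}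
    (hf : StreamLe M C f) : IntegrableOn (fun x => fderiv ℝ f x ((1 / 2 : ℝ) • x)) M := by
  obtain ⟨R, hR⟩ := hb.exists_norm_le
  refine integrableOn_of_bdd hM hb (C := |2 * C| * |R|) (hf.cont_radial hM) fun x hx => ?_
  have h1 := (fderiv ℝ f x).le_opNorm ((1 / 2 : ℝ) • x)
  rw [Real.norm_eq_abs, norm_smul] at h1
  have h2 : ‖(1 / 2 : ℝ)‖ * ‖x‖ ≤ |R| := by
    have h4 := (hR x hx).trans (le_abs_self R)
    have h5 : ‖(1 / 2 : ℝ)‖ = 1 / 2 := by norm_num
    rw [h5]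
    linarith [norm_nonneg x]
  have h3 := (hf.fderiv_le x hx).trans (le_abs_self _)
  exact h1.trans (mul_le_mul h3 h2 (by positivity) (abs_nonneg _))

/-- `4 (∫ f)² ≤ ∫ |x|² ∫ |∇f|²` -/
theorem int_sq_le (hM : IsOpen M) (hb : Bornology.IsBounded M) {f : ℂ → ℝ} {C : ℝ}
    (hf : StreamLe M C f) :
    4 * (∫ x in M, f x) ^ 2 ≤ (∫ x in M, ‖x‖ ^ 2) * ∫ x in M, gsq f x := by
  have hP : IntegrableOn (fun x : ℂ => ‖x‖ ^ 2) M := int_cont hM hb (by fun_prop)
  have hG := hf.int_gsq hM hb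
  have hR := hf.int_radial hM hb
  have key : ∀ s : ℝ, 0 ≤ (∫ x in M, ‖x‖ ^ 2) * (s * s) + (-(4 * ∫ x in M, f x)) * s +
      ∫ x in M, gsq f x := by
    intro s
    have e : (∫ x in M, ‖x‖ ^ 2) * (s * s) + (-(4 * ∫ x in M, f x)) * s + ∫ x in M, gsq f x =
        ∫ x in M, (s * s * ‖x‖ ^ 2 + 4 * s * fderiv ℝ f x ((1 / 2 : ℝ) • x) + gsq f x) := by
      have i1 : IntegrableOn (fun x : ℂ => s * s * ‖x‖ ^ 2) M := hP.const_mul _
      have i2 : IntegrableOn (fun x => 4 * s * fderiv ℝ f x ((1 / 2 : ℝ) • x)) M := hR.const_mul _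
      have i12 : IntegrableOn (fun x : ℂ => s * s * ‖x‖ ^ 2 +
        4 * s * fderiv ℝ f x ((1 / 2 : ℝ) • x)) M := i1.add i2
      rw [integral_add i12 hG, integral_add i1 i2, integral_const_mul, integral_const_mul,
        int_radial_stream hM hb hf]
      ring
    rw [e]
    refine integral_nonneg fun x => ?_
    have h1 : ‖x‖ ^ 2 = x.re ^ 2 + x.im ^ 2 := by
      rw [← Complex.normSq_eq_norm_sq, Complex.normSq_apply]; ring
    have h2 : s * s * ‖x‖ ^ 2 + 4 * s * fderiv ℝ f x ((1 / 2 : ℝ) • x) + gsq f x =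
        (dx f x + s * x.re) ^ 2 + (dy f x + s * x.im) ^ 2 := by
      rw [h1, fderiv_apply', gsq]
      simp
      ring
    simp only [Pi.zero_apply]
    rw [h2]
    positivity
  have := discrim_le_zero key
  rw [discrim] at this
  nlinarith

/-- Poincaré's inequality -/
theorem poincare (hM : IsOpen M) (hb : Bornology.IsBounded M) {f : ℂ → ℝ} {C R : ℝ}
    (hR : ∀ x ∈ M, ‖x‖ ≤ R) (hf : StreamLe M C f) :
    ∫ x in M, f x ^ 2 ≤ R ^ 2 * ∫ x in M, gsq f x := by
  rcases M.eq_empty_or_nonempty with rfl | ⟨x₀, hx₀⟩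
  · simp
  have hR0 : 0 ≤ R := (norm_nonneg _).trans (hR x₀ hx₀)
  have hC0 : 0 ≤ C := (abs_nonneg _).trans (hf.abs_le x₀ hx₀)
  have hl := lip_ext hM (by positivity : 0 ≤ 2 * C) hf.diffOn hf.fderiv_le hf.zero
  set F := M.indicator f with hF
  have hFC : ∀ x, |F x| ≤ C := by
    intro x
    by_cases hx : x ∈ M
    · rw [hF, indicator_of_mem hx]; exact hf.abs_le x hx
    · rw [hF, indicator_of_notMem hx]; simpa using hC0
  have hl2 : ∀ x y, |F x ^ 2 - F y ^ 2| ≤ (2 * C) * (2 * C) * ‖x - y‖ := by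
    intro x y
    have e : F x ^ 2 - F y ^ 2 = (F x + F y) * (F x - F y) := by ring
    rw [e, abs_mul, mul_assoc]
    refine mul_le_mul ?_ (hl x y) (abs_nonneg _) (by positivity)
    linarith [abs_add_le (F x) (F y), hFC x, hFC y]
  have h := int_radial hM hb hl2 (fun x hx => by
    rw [hF, indicator_of_notMem hx]; simp)
  have e1 : ∫ x in M, fderiv ℝ (fun y => F y ^ 2) x ((1 / 2 : ℝ) • x) =
      ∫ x in M, 2 * f x * fderiv ℝ f x ((1 / 2 : ℝ) • x) := by
    refine setIntegral_congr_fun hM.measurableSet fun x hx => ?_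
    have hd : DifferentiableAt ℝ f x := dat (n := 1) hM hf.1 hx
    have e2 : fderiv ℝ (fun y => F y ^ 2) x = fderiv ℝ (fun y => f y ^ 2) x :=
      fderiv_congr_on hM (fun y hy => by rw [hF, indicator_of_mem hy]) hx
    rw [e2, fderiv_fun_pow 2 hd]
    simp
  have e3 : ∫ x in M, F x ^ 2 = ∫ x in M, f x ^ 2 :=
    setIntegral_congr_fun hM.measurableSet fun x hx => by
      rw [hF, indicator_of_mem hx]
  rw [e1, e3] at h
  have hS := hf.int_sq hM hb
  have hG := hf.int_gsq hM hb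
  have hi : IntegrableOn (fun x => 2 * f x * fderiv ℝ f x ((1 / 2 : ℝ) • x)) M := by
    refine integrableOn_of_bdd hM hb (C := 2 * C * (2 * C * R))
      ((continuousOn_const.mul hf.cont).mul (hf.cont_radial hM)) fun x hx => ?_
    rw [abs_mul]
    refine mul_le_mul ?_ ?_ (abs_nonneg _) (by positivity)
    · rw [abs_mul, abs_two]; linarith [hf.abs_le x hx]
    · have h1 := (fderiv ℝ f x).le_opNorm ((1 / 2 : ℝ) • x)
      rw [Real.norm_eq_abs, norm_smul] at h1
      have h5 : ‖(1 / 2 : ℝ)‖ = 1 / 2 := by norm_num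
      rw [h5] at h1
      have h2 := hf.fderiv_le x hx
      have h3 := hR x hx
      have h4 := norm_nonneg (fderiv ℝ f x)
      have h6 := norm_nonneg x
      have h7 : ‖fderiv ℝ f x‖ * (1 / 2 * ‖x‖) ≤ 2 * C * R :=
        mul_le_mul h2 (by linarith) (by positivity) (by positivity)
      linarith
  have hle : -∫ x in M, 2 * f x * fderiv ℝ f x ((1 / 2 : ℝ) • x) ≤
      ∫ x in M, (1 / 2 * f x ^ 2 + R ^ 2 / 2 * gsq f x) := by
    rw [← integral_neg]
    refine setIntegral_mono_on hi.neg ((hS.const_mul _).add (hG.const_mul _)) hM.measurableSet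
      fun x hx => ?_
    rw [fderiv_apply']
    have h1 : ‖x‖ ^ 2 = x.re ^ 2 + x.im ^ 2 := by
      rw [← Complex.normSq_eq_norm_sq, Complex.normSq_apply]; ring
    have h2 : ‖x‖ ^ 2 ≤ R ^ 2 := pow_le_pow_left₀ (norm_nonneg _) (hR x hx) 2
    have h3 : ((1 / 2 : ℝ) • x).re = x.re / 2 := by simp; ring
    have h4 : ((1 / 2 : ℝ) • x).im = x.im / 2 := by simp; ring
    rw [h3, h4, gsq]
    have h5 : (x.re * dx f x + x.im * dy f x) ^ 2 ≤ R ^ 2 * (dx f x ^ 2 + dy f x ^ 2) := by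
      have h6 : (x.re * dx f x + x.im * dy f x) ^ 2 ≤
          (x.re ^ 2 + x.im ^ 2) * (dx f x ^ 2 + dy f x ^ 2) := by
        nlinarith [sq_nonneg (x.re * dy f x - x.im * dx f x)]
      refine h6.trans ?_
      rw [← h1]
      exact mul_le_mul_of_nonneg_right h2 (by positivity)
    nlinarith [sq_nonneg (f x + (x.re * dx f x + x.im * dy f x))]
  rw [integral_add (hS.const_mul _) (hG.const_mul _), integral_const_mul,
    integral_const_mul] at hle
  linarith

/-- stability of the energy -/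
theorem energy_small (hM : IsOpen M) (hb : Bornology.IsBounded M) {f : ℂ → ℝ} {C R ρ : ℝ}
    (hR0 : 0 < R) (hR : ∀ x ∈ M, ‖x‖ ≤ R) (hf : StreamLe M C f) (hρ : ∀ x ∈ M, |lap f x| ≤ ρ) :
    ∫ x in M, gsq f x ≤ ρ ^ 2 * R ^ 2 * volume.real M := by
  have hS := hf.int_sq hM hb
  have hG := hf.int_gsq hM hb
  have hP := poincare hM hb hR hf
  have hfin : volume M < ⊤ := hb.measure_lt_top
  have hi : IntegrableOn (fun x => f x * lap f x) M := by
    refine integrableOn_of_bdd hM hb (C := |C| * |ρ|) (hf.cont.mul (hf.lap_cont hM)) fun x hx => ?_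
    rw [abs_mul]
    exact mul_le_mul ((hf.abs_le x hx).trans (le_abs_self _)) ((hρ x hx).trans (le_abs_self _))
      (abs_nonneg _) (abs_nonneg _)
  have hc : IntegrableOn (fun _ : ℂ => ρ ^ 2 * R ^ 2 / 2) M := integrableOn_const hfin.ne
  have h2 : IntegrableOn (fun x => 1 / (2 * R ^ 2) * f x ^ 2) M := hS.const_mul _
  have h1 : -∫ x in M, f x * lap f x ≤
      ∫ x in M, (1 / (2 * R ^ 2) * f x ^ 2 + ρ ^ 2 * R ^ 2 / 2) := by
    rw [← integral_neg]
    refine setIntegral_mono_on hi.neg (h2.add hc) hM.measurableSet fun x hx => ?_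
    have h3 : -(f x * lap f x) ≤ |f x| * ρ := by
      rw [← neg_mul]
      refine (le_abs_self _).trans ?_
      rw [abs_mul, abs_neg]
      exact mul_le_mul_of_nonneg_left (hρ x hx) (abs_nonneg _)
    have h4 : |f x| * ρ ≤ 1 / (2 * R ^ 2) * f x ^ 2 + ρ ^ 2 * R ^ 2 / 2 := by
      rw [← sq_abs (f x)]
      have h5 : 0 ≤ (|f x| / R - ρ * R) ^ 2 := sq_nonneg _
      have h6 : (|f x| / R - ρ * R) ^ 2 =
          1 / R ^ 2 * |f x| ^ 2 - 2 * (|f x| * ρ) + ρ ^ 2 * R ^ 2 := by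
        field_simp
        ring
      rw [h6] at h5
      have h7 : 1 / (2 * R ^ 2) * |f x| ^ 2 = (1 / R ^ 2 * |f x| ^ 2) / 2 := by
        field_simp
      rw [h7]
      linarith
    exact h3.trans h4
  rw [integral_add h2 hc, integral_const_mul, setIntegral_const, smul_eq_mul] at h1
  rw [← dirichlet hM hb hf] at h1
  have h8 : 1 / (2 * R ^ 2) * ∫ x in M, f x ^ 2 ≤ 1 / 2 * ∫ x in M, gsq f x := by
    have : 1 / (2 * R ^ 2) * ∫ x in M, f x ^ 2 ≤ 1 / (2 * R ^ 2) * (R ^ 2 * ∫ x in M, gsq f x) :=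
      mul_le_mul_of_nonneg_left hP (by positivity)
    refine this.trans (le_of_eq ?_)
    field_simp
  nlinarith

/-- `w` has large kinetic energy: `E(w) > m² ∫ |x|²`, where `m` is the mean of `w` and `E(w)` its
kinetic energy `∫ |∇ψ|²`. (If `m = 0` this says that `w` is not zero.) -/
def Energetic (M : Set ℂ) (w : ℂ → ℝ) : Prop :=
  ∀ (φ : ℂ → ℝ) (C : ℝ), StreamLe M C φ → (∀ x ∈ M, lap φ x = w x) →
    (⨍ x in M, w x) ^ 2 * ∫ x in M, ‖x‖ ^ 2 < ∫ x in M, gsq φ x

theorem mean_int (hM : IsOpen M) (hb : Bornology.IsBounded M) (hne : M.Nonempty)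
    (hw : IntegrableOn w₀ M) : ∫ x in M, (w₀ x - ⨍ y in M, w₀ y) = 0 := by
  have hfin : volume M < ⊤ := hb.measure_lt_top
  have hV : 0 < volume.real M := by
    rw [Measure.real, ENNReal.toReal_pos_iff]
    exact ⟨hM.measure_pos _ hne, hfin⟩
  rw [integral_sub hw (integrableOn_const hfin.ne), setIntegral_const, smul_eq_mul,
    setAverage_eq, smul_eq_mul]
  field_simp
  ring

/-- **Stretching in star-shaped domains** for vorticities of large kinetic energy. -/
theorem stretch_energetic (hS : Star M) (hE : Energetic M w₀) : Stretch M w₀ := by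
  have hMo := hS.1
  have hMb := hS.2.1
  have hY := hS.twistField
  by_cases hex : ∃ ψ Φ, Flow M w₀ ψ Φ
  swap
  · exact ⟨1, one_pos, fun ψ Φ h => absurd ⟨ψ, Φ, h⟩ hex⟩
  obtain ⟨ψ₁, Φ₁, h₁⟩ := hex
  obtain ⟨C, hs⟩ := h₁.stream_at le_rfl
  obtain ⟨hwc, B, hB0, hB⟩ := h₁.w0_bdd hMo
  have hwi : IntegrableOn w₀ M := integrableOn_of_bdd hMo hMb hwc hB
  set m := ⨍ x in M, w₀ x with hm'
  have hm : ∫ x in M, (w₀ x - m) = 0 := mean_int hMo hMb hS.2.2.1 hwi
  set P := ∫ x in M, ‖x‖ ^ 2 with hP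
  have hP0 : 0 ≤ P := integral_nonneg fun x => by positivity
  set E := ∫ x in M, gsq (ψ₁ 0) x with hEdef
  have hE1 : m ^ 2 * P < E := hE _ _ hs h₁.w0_eq
  have hE0 : 0 < E := lt_of_le_of_lt (by positivity) hE1
  obtain ⟨A, hA, hA2⟩ := action_osc hMo hMb hS.finDiam hY
  obtain ⟨x₀, hx₀⟩ := hS.2.2.1
  have hc₀ : 0 < E - |m| * √(P * E) := by
    rw [sub_pos]
    have h1 : |m| * √(P * E) = √(m ^ 2 * P * E) := by
      rw [mul_assoc, Real.sqrt_mul (sq_nonneg m), Real.sqrt_sq_eq_abs]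
    rw [h1, Real.sqrt_lt' hE0]
    nlinarith
  refine stretch_core hMo hMb ⟨x₀, hx₀⟩ hY.cont (m := m) (c₀ := E - |m| * √(P * E)) (A := A)
    hc₀ hA.le ?_ ?_
  · intro ψ Φ h τ hτ
    obtain ⟨C, hC⟩ := h.stream_at hτ
    have h1 := J_twist hMo hMb hY hC
    rw [h.energy hMo hMb hτ, h.energy_eq hMo hMb h₁, one_mul] at h1
    have h2 := int_sq_le hMo hMb hC
    rw [h.energy hMo hMb hτ, h.energy_eq hMo hMb h₁] at h2
    have hF := hC.int_self hMo hMb
    have hR := hC.int_radial hMo hMb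
    have hggi : IntegrableOn (gg (fun x => (1 / 2 : ℝ) • x) (ψ τ)) M := hR.sub hF
    have hgg : ∫ x in M, gg (fun x => (1 / 2 : ℝ) • x) (ψ τ) x = -2 * ∫ x in M, ψ τ x := by
      have : ∫ x in M, gg (fun x => (1 / 2 : ℝ) • x) (ψ τ) x =
          (∫ x in M, fderiv ℝ (ψ τ) x ((1 / 2 : ℝ) • x)) - ∫ x in M, ψ τ x :=
        integral_sub hR hF
      rw [this, int_radial_stream hMo hMb hC]
      ring
    obtain ⟨-, hBB⟩ := gg_flow hMo hMb hY.cont h
    obtain ⟨B', hB'⟩ := hBB τ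
    have hli : IntegrableOn (fun x => lap (ψ τ) x * gg (fun x => (1 / 2 : ℝ) • x) (ψ τ) x) M := by
      refine integrableOn_of_bdd hMo hMb (C := |2 * C| * |B'|)
        ((hC.lap_cont hMo).mul ((hC.cont_radial hMo).sub hC.cont)) fun x hx => ?_
      rw [abs_mul]
      exact mul_le_mul ((hC.lap_le x hx).trans (le_abs_self _))
        ((hB' τ hτ le_rfl x hx).trans (le_abs_self _)) (abs_nonneg _) (abs_nonneg _)
    have e : ∫ x in M, (lap (ψ τ) x - m) * gg (fun x => (1 / 2 : ℝ) • x) (ψ τ) x =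
        (∫ x in M, lap (ψ τ) x * gg (fun x => (1 / 2 : ℝ) • x) (ψ τ) x) +
          2 * m * ∫ x in M, ψ τ x := by
      have e1 : ∀ x, (lap (ψ τ) x - m) * gg (fun x => (1 / 2 : ℝ) • x) (ψ τ) x =
          lap (ψ τ) x * gg (fun x => (1 / 2 : ℝ) • x) (ψ τ) x -
            m * gg (fun x => (1 / 2 : ℝ) • x) (ψ τ) x := fun x => by ring
      simp_rw [e1]
      rw [integral_sub hli (hggi.const_mul m), integral_const_mul, hgg]
      ring
    rw [e]
    have h3 : |2 * m * ∫ x in M, ψ τ x| ≤ |m| * √(P * E) := by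
      have h4 : |2 * m * ∫ x in M, ψ τ x| = |m| * |2 * ∫ x in M, ψ τ x| := by
        rw [← abs_mul]; congr 1; ring
      rw [h4]
      refine mul_le_mul_of_nonneg_left ?_ (abs_nonneg _)
      refine Real.abs_le_sqrt ?_
      rw [mul_pow]
      linarith
    have := neg_le_of_abs_le h3
    linarith
  · intro ψ Φ h t ht L hL
    exact ⟨act _ ψ Φ t x₀, Or.inr hm, fun x hx =>
      hA2 w₀ ψ Φ h t ht L hL x₀ hx₀ x hx⟩

end Pool.Agent.YUT
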