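import Pool.Agent.YUT.F1b

/-!
# [YUT] F1c: large kinetic energy is an open condition
-/

open MeasureTheory Set Filter Topology
open scoped ContDiff

namespace Pool.Agent.YUT

open Pool.Agent.YUD

variable {M : Set ℂ} {w₀ : ℂ → ℝ}

theorem energy_split (hM : IsOpen M) (hb : Bornology.IsBounded M) {f g : ℂ → ℝ} {C D l : ℝ}
    (hl : 0 < l) (hf : StreamLe M C f) (hg : StreamLe M D g) :
    ∫ x in M, gsq f x ≤ (1 + l) * (∫ x in M, gsq g x) +
      (1 + 1 / l) * ∫ x in M, gsq (fun y => g y - f y) x := by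
  have i1 := hf.int_gsq hM hb
  have i2 := hg.int_gsq hM hb
  have i3 := (hg.sub hM hf).int_gsq hM hb
  rw [← integral_const_mul, ← integral_const_mul, ← integral_add (i2.const_mul _)
    (i3.const_mul _)]
  refine setIntegral_mono_on i1 ((i2.const_mul _).add (i3.const_mul _)) hM.measurableSet
    fun x hx => ?_
  have hdf : DifferentiableAt ℝ f x := dat (n := 1) hM hf.1 hx
  have hdg : DifferentiableAt ℝ g x := dat (n := 1) hM hg.1 hx
  have key : ∀ a b : ℝ, a ^ 2 ≤ (1 + l) * b ^ 2 + (1 + 1 / l) * (b - a) ^ 2 := by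
    intro a b
    have h1 : 0 ≤ (l * b + (b - a)) ^ 2 / l := by positivity
    have h2 : (l * b + (b - a)) ^ 2 / l = l * b ^ 2 + 2 * b * (b - a) + (b - a) ^ 2 / l := by
      field_simp
      ring
    rw [h2] at h1
    have h3 : (1 + 1 / l) * (b - a) ^ 2 = (b - a) ^ 2 + (b - a) ^ 2 / l := by ring
    rw [h3]
    nlinarith
  simp only [gsq]
  rw [dx_sub hdg hdf, dy_sub hdg hdf]
  nlinarith [key (dx f x) (dx g x), key (dy f x) (dy g x)]

/-- the class of vorticities of large kinetic energy is open in the uniform norm -/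
theorem energetic_near (hM : IsOpen M) (hb : Bornology.IsBounded M) (hne : M.Nonempty)
    {ws : ℂ → ℝ} (hws : IntegrableOn ws M) {φs : ℂ → ℝ} {C : ℝ} (hφs : StreamLe M C φs)
    (hl : ∀ x ∈ M, lap φs x = ws x)
    (hE : (⨍ x in M, ws x) ^ 2 * ∫ x in M, ‖x‖ ^ 2 < ∫ x in M, gsq φs x) :
    ∃ ρ > 0, ∀ w₀ : ℂ → ℝ, IntegrableOn w₀ M → (∀ x ∈ M, |w₀ x - ws x| ≤ ρ) →
      Energetic M w₀ := by
  obtain ⟨R, hR0, hR⟩ := hb.exists_pos_norm_le
  have hfin : volume M < ⊤ := hb.measure_lt_top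
  have hV : 0 < volume.real M := by
    rw [Measure.real, ENNReal.toReal_pos_iff]
    exact ⟨hM.measure_pos _ hne, hfin⟩
  set m := ⨍ x in M, ws x with hm
  set P := ∫ x in M, ‖x‖ ^ 2 with hP
  have hP0 : 0 ≤ P := integral_nonneg fun x => by positivity
  set E := ∫ x in M, gsq φs x with hEdef
  obtain ⟨l, hl0, hlE⟩ : ∃ l > 0, (1 + l) * (m ^ 2 * P) < E := by
    have hS : 0 ≤ m ^ 2 * P := by positivity
    refine ⟨(E - m ^ 2 * P) / (2 * (m ^ 2 * P + 1)), by
      have : 0 < E - m ^ 2 * P := by linarith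
      positivity, ?_⟩
    have h1 : 0 < E - m ^ 2 * P := by linarith
    have h2 : (E - m ^ 2 * P) / (2 * (m ^ 2 * P + 1)) * (m ^ 2 * P) ≤ (E - m ^ 2 * P) / 2 := by
      rw [div_mul_eq_mul_div, div_le_div_iff₀ (by positivity) (by norm_num)]
      nlinarith
    linarith
  have hcont : Continuous fun ρ : ℝ => E - (1 + 1 / l) * (ρ ^ 2 * R ^ 2 * volume.real M) -
      (1 + l) * ((|m| + ρ) ^ 2 * P) := by fun_prop
  have h0 : 0 < E - (1 + 1 / l) * ((0 : ℝ) ^ 2 * R ^ 2 * volume.real M) -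
      (1 + l) * ((|m| + 0) ^ 2 * P) := by
    rw [add_zero, sq_abs]
    linarith
  obtain ⟨ρ, hρ0, hρ⟩ : ∃ ρ > 0, 0 < E - (1 + 1 / l) * (ρ ^ 2 * R ^ 2 * volume.real M) -
      (1 + l) * ((|m| + ρ) ^ 2 * P) := by
    have h1 := (hcont.tendsto 0).eventually (lt_mem_nhds h0)
    rw [Metric.eventually_nhds_iff] at h1
    obtain ⟨e, he, h2⟩ := h1
    refine ⟨e / 2, by positivity, h2 ?_⟩
    rw [dist_zero_right, Real.norm_eq_abs, abs_of_pos (by positivity)]
    linarith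
  refine ⟨ρ, hρ0, fun w₀ hwi hw φ D hφ hlφ => ?_⟩
  have hθ := hφ.sub hM hφs
  have h1 := energy_split hM hb hl0 hφs hφ
  have h2 := energy_small hM hb hR0 hR hθ (ρ := ρ) fun x hx => by
    rw [lap_sub hM hφ.1 hφs.1 hx, hlφ x hx, hl x hx]
    exact hw x hx
  have h3 : |⨍ x in M, w₀ x| ≤ |m| + ρ := by
    have e : (⨍ x in M, w₀ x) = m + (volume.real M)⁻¹ * ∫ x in M, (w₀ x - ws x) := by
      rw [integral_sub hwi hws, hm, setAverage_eq, setAverage_eq, smul_eq_mul, smul_eq_mul]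
      ring
    have h4 : |∫ x in M, (w₀ x - ws x)| ≤ ρ * volume.real M := by
      have := norm_setIntegral_le_of_norm_le_const (μ := volume) (s := M)
        (f := fun x => w₀ x - ws x) (C := ρ) hfin hw
      simpa using this
    rw [e]
    refine (abs_add_le _ _).trans ?_
    gcongr
    rw [abs_mul, abs_of_pos (by positivity : 0 < (volume.real M)⁻¹), inv_mul_le_iff₀ hV]
    linarith
  have h5 : (⨍ x in M, w₀ x) ^ 2 * P ≤ (|m| + ρ) ^ 2 * P := by
    refine mul_le_mul_of_nonneg_right ?_ hP0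
    rw [← sq_abs]
    exact pow_le_pow_left₀ (abs_nonneg _) h3 2
  have h6 : (1 + 1 / l) * ∫ x in M, gsq (fun y => φ y - φs y) x ≤
      (1 + 1 / l) * (ρ ^ 2 * R ^ 2 * volume.real M) :=
    mul_le_mul_of_nonneg_left h2 (by positivity)
  have h7 : (1 + l) * ((⨍ x in M, w₀ x) ^ 2 * P) ≤ (1 + l) * ((|m| + ρ) ^ 2 * P) :=
    mul_le_mul_of_nonneg_left h5 (by positivity)
  have h8 : (1 + l) * ((⨍ x in M, w₀ x) ^ 2 * P) < (1 + l) * ∫ x in M, gsq φ x := by linarith
  exact lt_of_mul_lt_mul_left h8 (by positivity)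

end Pool.Agent.YUT
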