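import Pool.Agent.YUT.Base

open MeasureTheory Set Filter Topology
open scoped ContDiff

namespace Pool.Agent.YUT

open Pool.Agent.YUD

/-- continuity of the extension -/
private theorem G1_cont {M : Set ℂ} (hM : IsOpen M) {f : ℂ → ℝ}
    (hf : DifferentiableOn ℝ f M) (h0 : ZeroAtBoundary M f) : Continuous (M.indicator f) := by
  rw [continuous_iff_continuousAt]
  intro z
  by_cases hz : z ∈ M
  · have h1 : ContinuousAt f z := (hf.continuousOn).continuousAt (hM.mem_nhds hz)
    refine h1.congr ?_
    filter_upwards [hM.mem_nhds hz] with w hw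
    rw [indicator_of_mem hw]
  · rw [ContinuousAt, indicator_of_notMem hz, Metric.tendsto_nhds]
    intro ε hε
    obtain ⟨K, hKM, hKc, hK⟩ := h0 ε hε
    have hzK : Kᶜ ∈ 𝓝 z := hKc.isClosed.isOpen_compl.mem_nhds fun h => hz (hKM h)
    filter_upwards [hzK] with w hw
    rw [dist_zero_right, Real.norm_eq_abs]
    by_cases hwM : w ∈ M
    · rw [indicator_of_mem hwM]
      exact hK w hwM hw
    · rw [indicator_of_notMem hwM, abs_zero]
      exact hε

/-- the mean value inequality on a segment in `M` -/
private theorem G1_seg {M : Set ℂ} (hM : IsOpen M) {f : ℂ → ℝ} {C : ℝ}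
    (hf : DifferentiableOn ℝ f M) (hb : ∀ x ∈ M, ‖fderiv ℝ f x‖ ≤ C)
    (hF : Continuous (M.indicator f)) (x y : ℂ) {s₀ : ℝ} (hs₀ : 0 ≤ s₀)
    (h : ∀ s, 0 ≤ s → s < s₀ → x + s • (y - x) ∈ M) :
    |M.indicator f (x + s₀ • (y - x)) - M.indicator f x| ≤ C * ‖x - y‖ * s₀ := by
  have hcont : ContinuousOn (fun s : ℝ => M.indicator f (x + s • (y - x))) (Icc 0 s₀) := by
    apply Continuous.continuousOn
    exact hF.comp (by fun_prop)
  have hder : ∀ s ∈ Ico 0 s₀, HasDerivWithinAt (fun s : ℝ => M.indicator f (x + s • (y - x)))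
      (fderiv ℝ f (x + s • (y - x)) (y - x)) (Ici s) s := by
    intro s hs
    have hm := h s hs.1 hs.2
    have e1 : HasFDerivAt (M.indicator f) (fderiv ℝ f (x + s • (y - x))) (x + s • (y - x)) := by
      have e2 := (hf.differentiableAt (hM.mem_nhds hm)).hasFDerivAt
      refine e2.congr_of_eventuallyEq ?_
      filter_upwards [hM.mem_nhds hm] with w hw
      rw [indicator_of_mem hw]
    have e3 : HasDerivAt (fun s : ℝ => x + s • (y - x)) (y - x) s := by
      have := ((hasDerivAt_id s).smul_const (y - x)).const_add x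
      simpa using this
    exact (e1.comp_hasDerivAt s e3).hasDerivWithinAt
  have h1 := norm_image_sub_le_of_norm_deriv_right_le_segment hcont hder (C := C * ‖x - y‖)
    (fun s hs => by
      refine (ContinuousLinearMap.le_opNorm _ _).trans ?_
      rw [norm_sub_rev y x]
      exact mul_le_mul_of_nonneg_right (hb _ (h s hs.1 hs.2)) (norm_nonneg _)) s₀
    (right_mem_Icc.2 hs₀)
  simp only [zero_smul, add_zero, sub_zero, Real.norm_eq_abs] at h1
  exact h1

/-- [YUT-G1] The extension by zero of a function with bounded gradient on the open set `M`, zero at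
the boundary, is Lipschitz on the whole plane.
Proof: let `F = M.indicator f`. It is continuous (at points of `M` clear; at `z ∉ M` and `ε > 0`
take the compact `K ⊆ M` of `h0`: off `K` one has `|F| < ε`, and `Kᶜ` is a neighbourhood of `z`).
Let `x, y` be given, `h s = F (x + s • (y - x))`, continuous on `[0,1]`. If `h s ≠ 0` on all of
`[0,1]` the whole segment is in `M`, and the mean value inequality gives the claim
(`Convex.norm_image_sub_le_of_norm_fderiv_le` or the one dimensional version for `h`, whose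
derivative is `fderiv ℝ f (x + s • (y-x)) (y - x)`). Otherwise let `s₁` be the least and `s₂` the
greatest zero of `h` in `[0,1]` (compactness). On `[0, s₁)` the segment is in `M`, so
`|h 0| = |h 0 - h s₁| ≤ C s₁ ‖y - x‖` (mean value inequality on `[0, s₁]`: continuity on the closed
interval and derivative bound on `(0,s₁)`), likewise `|h 1| ≤ C (1 - s₂) ‖y - x‖`; add. -/
theorem lip_ext {M : Set ℂ} (hM : IsOpen M) {f : ℂ → ℝ} {C : ℝ} (hC : 0 ≤ C)
    (hf : DifferentiableOn ℝ f M) (hb : ∀ x ∈ M, ‖fderiv ℝ f x‖ ≤ C) (h0 : ZeroAtBoundary M f) :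
    ∀ x y, |M.indicator f x - M.indicator f y| ≤ C * ‖x - y‖ := by
  intro x y
  have hF := G1_cont hM hf h0
  have hmem : ∀ z, M.indicator f z ≠ 0 → z ∈ M := by
    intro z hz
    by_contra h
    exact hz (indicator_of_notMem h _)
  have hc : Continuous (fun s : ℝ => M.indicator f (x + s • (y - x))) := hF.comp (by fun_prop)
  set Z : Set ℝ := Icc (0 : ℝ) 1 ∩ {s | M.indicator f (x + s • (y - x)) = 0} with hZ
  have hZc : IsCompact Z := isCompact_Icc.inter_right (isClosed_eq hc continuous_const)
  have e1 : x + (1 : ℝ) • (y - x) = y := by rw [one_smul]; ring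
  rcases Z.eq_empty_or_nonempty with he | hne
  · have h1 := G1_seg hM hf hb hF x y (s₀ := 1) zero_le_one (fun s hs0 hs1 => by
      apply hmem
      intro hh
      have : s ∈ Z := ⟨⟨hs0, hs1.le⟩, hh⟩
      rw [he] at this
      exact this)
    rw [e1, mul_one, abs_sub_comm] at h1
    exact h1
  · obtain ⟨s₁, hs₁, hmin⟩ := hZc.exists_isLeast hne
    obtain ⟨s₂, hs₂, hmax⟩ := hZc.exists_isGreatest hne
    have h12 : s₁ ≤ s₂ := hmin hs₂
    have h1 := G1_seg hM hf hb hF x y (s₀ := s₁) hs₁.1.1 (fun s hs0 hs1 => by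
      apply hmem
      intro hh
      have : s ∈ Z := ⟨⟨hs0, hs1.le.trans hs₁.1.2⟩, hh⟩
      exact absurd (hmin this) (not_le.2 hs1))
    have h2 := G1_seg hM hf hb hF y x (s₀ := 1 - s₂) (by linarith [hs₂.1.2]) (fun s hs0 hs1 => by
      apply hmem
      intro hh
      have e2 : y + s • (x - y) = x + (1 - s) • (y - x) := by
        rw [sub_smul, one_smul, smul_sub, smul_sub]; ring
      rw [e2] at hh
      have : (1 - s) ∈ Z := ⟨⟨by linarith [hs₂.1.1], by linarith⟩, hh⟩
      have := hmax this
      linarith)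
    have e3 : y + (1 - s₂) • (x - y) = x + s₂ • (y - x) := by
      rw [sub_smul, one_smul, smul_sub, smul_sub]; ring
    have e4 : M.indicator f (x + s₁ • (y - x)) = 0 := hs₁.2
    have e5 : M.indicator f (x + s₂ • (y - x)) = 0 := hs₂.2
    rw [e4, zero_sub, abs_neg] at h1
    rw [e3, e5, zero_sub, abs_neg, norm_sub_rev y x] at h2
    have h3 := abs_sub (M.indicator f x) (M.indicator f y)
    have h4 : 0 ≤ C * ‖x - y‖ := by positivity
    nlinarith

end Pool.Agent.YUT
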