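import Pool.Agent.YUT.Base

open MeasureTheory Set Filter Topology
open scoped ContDiff

namespace Pool.Agent.YUT

open Pool.Agent.YUD

/-- [YUT-G2a] Integration by parts of a Lipschitz function against a compactly supported `C¹`
function. Proof: `LipschitzWith.integral_lineDeriv_mul_eq` (Mathlib.Analysis.Calculus.Rademacher)
for the directions `v = 1` and `v = I`; `P` is Lipschitz (`C¹` with compact support:
`ContDiff.lipschitzWith_of_hasCompactSupport`); `lineDeriv ℝ f x v = fderiv ℝ f x v` at the points
of differentiability, which are almost all points (`LipschitzWith.ae_differentiableAt`). -/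
theorem ibp_lip {f P : ℂ → ℝ} {K : ℝ} (hf : ∀ x y, |f x - f y| ≤ K * ‖x - y‖)
    (hP : ContDiff ℝ 1 P) (hPc : HasCompactSupport P) (v : ℂ) :
    ∫ x, fderiv ℝ f x v * P x = -∫ x, f x * fderiv ℝ P x v := by
  have hfl : LipschitzWith K.toNNReal f := LipschitzWith.of_dist_le_mul (fun x y => by
    rw [Real.dist_eq, dist_eq_norm]
    exact (hf x y).trans (mul_le_mul_of_nonneg_right (Real.le_coe_toNNReal K) (norm_nonneg _)))
  obtain ⟨C, hC⟩ := hP.lipschitzWith_of_hasCompactSupport hPc one_ne_zero
  have h1 := hfl.integral_lineDeriv_mul_eq (μ := volume) hC hPc v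
  have h2 : ∫ x, fderiv ℝ f x v * P x = ∫ x, lineDeriv ℝ f x v * P x := by
    refine integral_congr_ae ?_
    filter_upwards [hfl.ae_differentiableAt] with x hx
    rw [hx.lineDeriv_eq_fderiv]
  rw [h2, h1, ← integral_neg]
  refine integral_congr_ae (Eventually.of_forall fun x => ?_)
  have hd : DifferentiableAt ℝ P x := hP.differentiable one_ne_zero x
  show lineDeriv ℝ P x (-v) * f x = -(f x * fderiv ℝ P x v)
  rw [hd.lineDeriv_eq_fderiv, map_neg]
  ring

end Pool.Agent.YUT
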