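import Pool.Agent.YUT.G3a

open MeasureTheory Set Filter Topology
open scoped ContDiff

namespace Pool.Agent.YUT

open Pool.Agent.YUD

theorem G3b_int {M : Set ℂ} (hM : IsOpen M) (hb : Bornology.IsBounded M) {F : ℂ → ℝ} {B : ℝ}
    (hF : ContinuousOn F M) (hB : ∀ x ∈ M, |F x| ≤ B) : IntegrableOn F M := by
  have : IsFiniteMeasure (volume.restrict M) :=
    ⟨by rw [Measure.restrict_apply_univ]; exact hb.measure_lt_top⟩
  refine Integrable.of_bound (hF.aestronglyMeasurable hM.measurableSet) B ?_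
  rw [ae_restrict_iff' hM.measurableSet]
  exact Eventually.of_forall fun x hx => by rw [Real.norm_eq_abs]; exact hB x hx

theorem G3b_mul_le {a b C : ℝ} (ha : |a| ≤ C) (hb : |b| ≤ C) : |a * b| ≤ C * C := by
  rw [abs_mul]
  exact mul_le_mul ha hb (abs_nonneg _) ((abs_nonneg _).trans ha)

theorem G3b_form {M : Set ℂ} (hM : IsOpen M) (hb : Bornology.IsBounded M) {f g : ℂ → ℝ} {C : ℝ}
    (hf : StreamLe M C f) (hg : StreamLe M C g) :
    IntegrableOn (fun x => dx f x * dx g x + dy f x * dy g x) M := by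
  refine G3b_int hM hb (B := C * C + C * C)
    (((hf.dx_cont hM).mul (hg.dx_cont hM)).add ((hf.dy_cont hM).mul (hg.dy_cont hM))) ?_
  intro x hx
  refine (abs_add_le _ _).trans (add_le_add ?_ ?_)
  · exact G3b_mul_le (hf.dx_le x hx) (hg.dx_le x hx)
  · exact G3b_mul_le (hf.dy_le x hx) (hg.dy_le x hx)

theorem G3b_gsq {M : Set ℂ} (hM : IsOpen M) (hb : Bornology.IsBounded M) {f : ℂ → ℝ} {C : ℝ}
    (hf : StreamLe M C f) : IntegrableOn (gsq f) M := by
  have h := G3b_form hM hb hf hf
  have he : (fun x => dx f x * dx f x + dy f x * dy f x) = gsq f := by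
    funext x; simp only [gsq]; ring
  rwa [he] at h

theorem G3b_gsq_cont {M : Set ℂ} (hM : IsOpen M) {f : ℂ → ℝ} {C : ℝ}
    (hf : StreamLe M C f) : ContinuousOn (gsq f) M :=
  ((hf.dx_cont hM).pow 2).add ((hf.dy_cont hM).pow 2)

/-- [YUT-G3b] positivity: if `∫ |∇f|² ≤ 0` the continuous function `gsq f ≥ 0` vanishes on the open
set `M`, hence `fderiv ℝ f = 0` on `M` and `lap f = 0` on `M`. -/
theorem dirichlet_pos {M : Set ℂ} (hM : IsOpen M) (hb : Bornology.IsBounded M) {f : ℂ → ℝ} {C : ℝ}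
    (hf : StreamLe M C f) (h : ∃ x ∈ M, lap f x ≠ 0) : 0 < ∫ x in M, gsq f x := by
  have hnn : 0 ≤ ∫ x in M, gsq f x :=
    integral_nonneg fun x => by simp only [gsq]; positivity
  rcases hnn.lt_or_eq with h0 | h0
  · exact h0
  exfalso
  obtain ⟨x, hx, hl⟩ := h
  apply hl
  have h1 : gsq f =ᵐ[volume.restrict M] 0 := by
    rw [← integral_eq_zero_iff_of_nonneg (fun x => by simp only [gsq, Pi.zero_apply]; positivity)
      (G3b_gsq hM hb hf)]
    exact h0.symm
  have h2 : EqOn (gsq f) 0 M :=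
    Measure.eqOn_open_of_ae_eq h1 hM (G3b_gsq_cont hM hf) continuousOn_const
  have hdx : ∀ y ∈ M, dx f y = 0 := fun y hy => by
    have := h2 hy
    simp only [gsq, Pi.zero_apply] at this
    nlinarith [sq_nonneg (dx f y), sq_nonneg (dy f y)]
  have hdy : ∀ y ∈ M, dy f y = 0 := fun y hy => by
    have := h2 hy
    simp only [gsq, Pi.zero_apply] at this
    nlinarith [sq_nonneg (dx f y), sq_nonneg (dy f y)]
  have e1 : dx f =ᶠ[𝓝 x] fun _ => (0 : ℝ) := by
    filter_upwards [hM.mem_nhds hx] with y hy using hdx y hy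
  have e2 : dy f =ᶠ[𝓝 x] fun _ => (0 : ℝ) := by
    filter_upwards [hM.mem_nhds hx] with y hy using hdy y hy
  have k1 : dx (dx f) x = 0 := by
    unfold dx at e1 ⊢
    rw [e1.fderiv_eq]
    simp
  have k2 : dy (dy f) x = 0 := by
    unfold dy at e2 ⊢
    rw [e2.fderiv_eq]
    simp
  simp only [lap, k1, k2, add_zero]

/-- [YUT-G3b] Cauchy-Schwarz for the Dirichlet form (discriminant of the nonnegative quadratic
polynomial `t ↦ ∫ |∇f + t ∇g|²`, or Hoelder). -/
theorem dirichlet_cs {M : Set ℂ} (hM : IsOpen M) (hb : Bornology.IsBounded M) {f g : ℂ → ℝ}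
    {C : ℝ} (hf : StreamLe M C f) (hg : StreamLe M C g) :
    (∫ x in M, (dx f x * dx g x + dy f x * dy g x)) ^ 2 ≤
      (∫ x in M, gsq f x) * ∫ x in M, gsq g x := by
  have key : ∀ t : ℝ, 0 ≤ (∫ x in M, gsq g x) * (t * t) +
      (2 * ∫ x in M, (dx f x * dx g x + dy f x * dy g x)) * t + ∫ x in M, gsq f x := by
    intro t
    have h1 : ∫ x in M, (gsq g x * (t * t) + (dx f x * dx g x + dy f x * dy g x) * (2 * t) +
        gsq f x) = (∫ x in M, gsq g x) * (t * t) +
      (2 * ∫ x in M, (dx f x * dx g x + dy f x * dy g x)) * t + ∫ x in M, gsq f x := by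
      have i1 : Integrable (fun x => gsq g x * (t * t)) (volume.restrict M) :=
        (G3b_gsq hM hb hg).mul_const _
      have i2 : Integrable (fun x => (dx f x * dx g x + dy f x * dy g x) * (2 * t))
          (volume.restrict M) := (G3b_form hM hb hf hg).mul_const _
      have i3 : Integrable (fun x => gsq g x * (t * t) +
          (dx f x * dx g x + dy f x * dy g x) * (2 * t)) (volume.restrict M) := i1.add i2
      rw [integral_add i3 (G3b_gsq hM hb hf), integral_add i1 i2, integral_mul_const,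
        integral_mul_const]
      ring
    rw [← h1]
    refine integral_nonneg fun x => ?_
    simp only [gsq, Pi.zero_apply]
    nlinarith [sq_nonneg (dx f x + t * dx g x), sq_nonneg (dy f x + t * dy g x)]
  have h2 := discrim_le_zero key
  simp only [discrim] at h2
  nlinarith [h2]

end Pool.Agent.YUT
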