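import Pool.Agent.YUT.F2
import Pool.Agent.YUT.C4
import Pool.Agent.YUT.C6c
import Pool.Agent.YUT.C7
import Pool.Agent.YUT.C8
import Pool.Agent.YUT.C9a
import Pool.Agent.YUT.C9b
import Pool.Agent.YUT.C10c
import Pool.Agent.YUT.C10d

/-!
# [YUT] H1: stretching and growth in the flat channel, and in plane domains
-/

open MeasureTheory Set Filter Topology
open scoped ContDiff

namespace Pool.Agent.YUT

open Pool.Agent.YUD

variable {p h : ℝ} {M : Set ℂ} {w₀ : ℂ → ℝ} {α : ℝ}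

/-- universal linear stretching of periodic flows from the initial vorticity `w₀` -/
def PStretch (p : ℝ) (M : Set ℂ) (w₀ : ℂ → ℝ) : Prop :=
  ∃ c > 0, ∀ (ψ : ℝ → ℂ → ℝ) (Φ : ℝ → ℂ → ℂ), PFlow p M w₀ ψ Φ →
    ∀ t, 0 ≤ t → ∀ L : ℝ, (∀ x ∈ M, ‖fderiv ℝ (Φ t) x‖ ≤ L) → c * t ≤ L

theorem PFlow.one_le (hne : M.Nonempty) {ψ : ℝ → ℂ → ℝ} {Φ : ℝ → ℂ → ℂ} (hF : PFlow p M w₀ ψ Φ)
    {t L : ℝ} (ht : 0 ≤ t) (hL : ∀ x ∈ M, ‖fderiv ℝ (Φ t) x‖ ≤ L) : 1 ≤ L := by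
  obtain ⟨x, hx⟩ := hne
  exact (one_le_norm _ (hF.area t ht x hx)).trans (hL x hx)

theorem strip_nonempty (hh : 0 < h) : (Strip h).Nonempty :=
  ⟨⟨0, h / 2⟩, by simp only [Strip, mem_ofPred_eq]; constructor <;> linarith⟩

/-- the action is periodic -/
theorem PFlow.act_per {ψ : ℝ → ℂ → ℝ} {Φ : ℝ → ℂ → ℂ} (hF : PFlow p (Strip h) w₀ ψ Φ) {t : ℝ}
    (ht : 0 ≤ t) : Per p (Strip h) (act vf ψ Φ t) := by
  intro x hx
  rw [act, act]
  refine intervalIntegral.integral_congr fun τ hτ => ?_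
  rw [uIcc_of_le ht] at hτ
  have h1 : Per p (Strip h) (ψ τ) := fun y hy => (hF.per τ hτ.1 y hy).1
  show gg vf (ψ τ) (Φ τ (x + p)) = gg vf (ψ τ) (Φ τ x)
  rw [(hF.per τ hτ.1 x hx).2]
  exact h1.gg _ ((hF.bij τ hτ.1).mapsTo hx)

theorem segment_join {M : Set ℂ} (hM : Convex ℝ M) {x y : ℂ} (hx : x ∈ M) (hy : y ∈ M) :
    C1Join M ‖y - x‖ x y := by
  refine ⟨fun s => x + s • (y - x), fun _ => y - x, by simp, by simp, ?_, ?_, continuousOn_const,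
    fun s _ => le_rfl⟩
  · intro s hs
    exact hM.add_smul_sub_mem hx hy hs
  · intro s _
    have h2 := ((hasDerivAt_id s).smul_const (y - x)).const_add x
    rw [one_smul] at h2
    exact h2.hasDerivWithinAt

/-- the action is bounded by the deformation -/
theorem PFlow.act_le {ψ : ℝ → ℂ → ℝ} {Φ : ℝ → ℂ → ℂ} (hp : 0 < p) (hh : 0 < h)
    (hF : PFlow p (Strip h) w₀ ψ Φ) {t : ℝ} (ht : 0 ≤ t) {L : ℝ}
    (hL : ∀ x ∈ Strip h, ‖fderiv ℝ (Φ t) x‖ ≤ L) {x : ℂ} (hx : x ∈ Cell p h) :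
    |act vf ψ Φ t x| ≤ h * (p + h) * (L + 1) := by
  have hL1 := hF.one_le (strip_nonempty hh) ht hL
  refine le_of_forall_pos_le_add fun ε hε => ?_
  obtain ⟨y, hy, hyε⟩ := hF.anchor hp hh ht hε
  set n : ℤ := -⌊y.re / p⌋ with hn
  set z : ℂ := y + (n * p : ℝ) with hz
  have hzS : z ∈ Strip h := strip_add _ hy
  have hzact : act vf ψ Φ t z = act vf ψ Φ t y := (hF.act_per ht).int_mul n hy
  have hzre : 0 ≤ z.re ∧ z.re < p := by
    have e : z.re = y.re - ⌊y.re / p⌋ * p := by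
      rw [hz, hn]; simp; ring
    have h1 := Int.floor_le (y.re / p)
    have h2 := Int.lt_floor_add_one (y.re / p)
    rw [le_div_iff₀ hp] at h1
    rw [div_lt_iff₀ hp] at h2
    rw [e]
    constructor <;> linarith
  have hzx : ‖x - z‖ ≤ p + h := by
    refine (Complex.norm_le_abs_re_add_abs_im _).trans (add_le_add ?_ ?_)
    · rw [Complex.sub_re, abs_le]
      constructor <;> linarith [hx.1, hx.2.1, hzre.1, hzre.2]
    · rw [Complex.sub_im, abs_le]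
      constructor <;> linarith [hx.2.2.1, hx.2.2.2, hzS.1, hzS.2]
  have h1 := hF.weak.action_join (isOpen_strip h) vf_cont vf_contDiff.contDiffOn
    (fun x _ => vf_div x) ht (fun x hx => vf_le hx) hL
    (segment_join (convex_strip h) hzS (cell_sub p h hx))
  have h2 : h * ‖x - z‖ * (L + 1) ≤ h * (p + h) * (L + 1) := by gcongr
  have h3 := abs_add_le (act vf ψ Φ t x - act vf ψ Φ t z) (act vf ψ Φ t z)
  rw [sub_add_cancel, hzact] at h3
  rw [hzact] at h1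
  linarith

/-- **Stretching in the flat channel**, for all nonzero vorticities. -/
theorem stretch_channel (hp : 0 < p) (hh : 0 < h) (hw0 : ∃ x ∈ Strip h, w₀ x ≠ 0) :
    PStretch p (Strip h) w₀ := by
  by_cases hex : ∃ ψ Φ, PFlow p (Strip h) w₀ ψ Φ
  swap
  · exact ⟨1, one_pos, fun ψ Φ h => absurd ⟨ψ, Φ, h⟩ hex⟩
  obtain ⟨ψ₁, Φ₁, h₁⟩ := hex
  obtain ⟨C₁, hC₁0, hC₁⟩ := h₁.cs hp hh 0
  have hs₁ := hC₁ 0 le_rfl le_rfl
  set E := ∫ x in Cell p h, gsq (ψ₁ 0) x with hE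
  have hE0 : 0 < E := by
    refine ch_pos hp hh hs₁ ?_
    obtain ⟨x, hx, hx0⟩ := hw0
    exact ⟨x, hx, by rw [(h₁.w0 hp hh).1 x hx]; exact hx0⟩
  set I := ∫ x in Cell p h, |w₀ x| with hI
  have hI0 : 0 ≤ I := integral_nonneg fun x => abs_nonneg _
  set A := h * (p + h) with hA
  have hA0 : 0 < A := by positivity
  refine ⟨(1 / 2 * E) / (2 * A * I + 1), by positivity, fun ψ Φ hF t ht L hL => ?_⟩
  have hL1 := hF.one_le (strip_nonempty hh) ht hL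
  have hJ : ∀ τ, 0 ≤ τ → 1 / 2 * E ≤ ∫ x in Cell p h, lap (ψ τ) x * gg vf (ψ τ) x := by
    intro τ hτ
    obtain ⟨C, hC0, hC⟩ := hF.cs hp hh τ
    have h1 := ch_virial hp hh (hC τ hτ le_rfl)
    have h2 := hF.energy hp hh hτ
    have h3 : ∫ x in Cell p h, gsq (ψ 0) x = E := by
      refine ch_ext hp hh ((hC 0 le_rfl hτ).mono (le_max_left C C₁))
        (hs₁.mono (le_max_right C C₁)) fun x hx => ?_
      rw [(hF.w0 hp hh).1 x hx, (h₁.w0 hp hh).1 x hx]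
    rw [h2, h3] at h1
    exact h1
  have h1 := hF.weight_ineq hp hh ht hJ fun x hx => hF.act_le hp hh ht hL hx
  rw [div_mul_eq_mul_div, div_le_iff₀ (by positivity)]
  have h3 : A * (L + 1) * I ≤ A * (2 * L) * I := by gcongr; linarith
  nlinarith

/-- stretching of plane flows -/
theorem Stretch.pstretch (h : Stretch M w₀) : PStretch 0 M w₀ := by
  obtain ⟨c, hc, h⟩ := h
  exact ⟨c, hc, fun ψ Φ hF => h ψ Φ hF.toFlow⟩

theorem PFlow.contDiffOn {ψ : ℝ → ℂ → ℝ} {Φ : ℝ → ℂ → ℂ} (hM : IsOpen M) (hF : PFlow p M w₀ ψ Φ)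
    {t : ℝ} (ht : 0 ≤ t) : ContDiffOn ℝ 1 (Φ t) M := hF.weak.contDiffOn hM ht

/-- linear growth of the deformation gives growth of the Hölder norms, for rough data -/
theorem pholder_growth (hM : IsOpen M) (hne : M.Nonempty) (hα0 : 0 < α) (hα1 : α < 1)
    (hr : Rough M α w₀) (hs : PStretch p M w₀) :
    ∃ c > 0, ∀ (ψ : ℝ → ℂ → ℝ) (Φ : ℝ → ℂ → ℂ), PFlow p M w₀ ψ Φ → ∀ t, 0 ≤ t →
      ∀ K : ℝ, HNormLe M α K (lap (ψ t)) → c * t ^ α ≤ K := by
  obtain ⟨cR, hcR, hr⟩ := hr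
  obtain ⟨cS, hcS, hs⟩ := hs
  refine ⟨cR * cS ^ α / 2, by positivity, fun ψ Φ h t ht K hK => ?_⟩
  obtain ⟨x₁, hx₁⟩ := hne
  have hK0 : 0 ≤ K := by
    obtain ⟨a, c, ha, hc, hac, -, -⟩ := hK
    linarith
  have h1 := rough_holder hM hα0 hα1 (h.contDiffOn hM ht) (h.bij t ht).mapsTo (h.area t ht)
    (h.vort t ht) hr hK
  have h2 : ∀ x ∈ M, ‖fderiv ℝ (Φ t) x‖ ≤ (2 * K / cR) ^ (1 / α) := by
    intro x hx
    have h3 : ‖fderiv ℝ (Φ t) x‖ ^ α ≤ 2 * K / cR := by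
      rw [le_div_iff₀ hcR, mul_comm]; exact h1 x hx
    calc ‖fderiv ℝ (Φ t) x‖ = (‖fderiv ℝ (Φ t) x‖ ^ α) ^ (1 / α) := by
          rw [← Real.rpow_mul (norm_nonneg _), mul_one_div_cancel hα0.ne', Real.rpow_one]
      _ ≤ _ := Real.rpow_le_rpow (by positivity) h3 (by positivity)
  have h4 := hs ψ Φ h t ht _ h2
  have h5 : (cS * t) ^ α ≤ 2 * K / cR := by
    calc (cS * t) ^ α ≤ ((2 * K / cR) ^ (1 / α)) ^ α :=
          Real.rpow_le_rpow (by positivity) h4 hα0.le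
      _ = 2 * K / cR := by
          rw [← Real.rpow_mul (by positivity), one_div_mul_cancel hα0.ne', Real.rpow_one]
  rw [Real.mul_rpow hcS.le ht, le_div_iff₀ hcR] at h5
  linarith

/-- linear growth of the deformation gives growth of the `C^{1,α}` norms, for rough data -/
theorem pholder_one_growth (hM : IsOpen M) (hα0 : 0 < α) (hα1 : α < 1)
    (hr : Rough M (1 + α) w₀) (hs : PStretch p M w₀) :
    ∃ c > 0, ∀ (ψ : ℝ → ℂ → ℝ) (Φ : ℝ → ℂ → ℂ), PFlow p M w₀ ψ Φ → ∀ t, 0 ≤ t →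
      ContDiffOn ℝ 2 (Φ t) M →
      ∀ K : ℝ, NormLe M α K (lap (ψ t)) → c * t ^ (1 + α) ≤ K := by
  obtain ⟨cR, hcR, hr⟩ := hr
  obtain ⟨cS, hcS, hs⟩ := hs
  have hα : 0 < 1 + α := by linarith
  refine ⟨cR * cS ^ (1 + α) / 2, by positivity, fun ψ Φ h t ht h2 K hK => ?_⟩
  have hK0 : 0 ≤ K := hK.nonneg
  have h1 := rough_holder_one hM hα0 hα1 h2 (h.bij t ht).mapsTo (h.area t ht)
    (h.vort t ht) hr hK
  have h2 : ∀ x ∈ M, ‖fderiv ℝ (Φ t) x‖ ≤ (2 * K / cR) ^ (1 / (1 + α)) := by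
    intro x hx
    have h3 : ‖fderiv ℝ (Φ t) x‖ ^ (1 + α) ≤ 2 * K / cR := by
      rw [le_div_iff₀ hcR, mul_comm]; exact h1 x hx
    calc ‖fderiv ℝ (Φ t) x‖ = (‖fderiv ℝ (Φ t) x‖ ^ (1 + α)) ^ (1 / (1 + α)) := by
          rw [← Real.rpow_mul (norm_nonneg _), mul_one_div_cancel hα.ne', Real.rpow_one]
      _ ≤ _ := Real.rpow_le_rpow (by positivity) h3 (by positivity)
  have h4 := hs ψ Φ h t ht _ h2
  have h5 : (cS * t) ^ (1 + α) ≤ 2 * K / cR := by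
    calc (cS * t) ^ (1 + α) ≤ ((2 * K / cR) ^ (1 / (1 + α))) ^ (1 + α) :=
          Real.rpow_le_rpow (by positivity) h4 hα.le
      _ = 2 * K / cR := by
          rw [← Real.rpow_mul (by positivity), one_div_mul_cancel hα.ne', Real.rpow_one]
  rw [Real.mul_rpow hcS.le ht, le_div_iff₀ hcR] at h5
  linarith

theorem pgood_open {ws : ℂ → ℝ} (hG : PGood p M ws) : IsOpen M ∧ M.Nonempty := by
  rcases hG with ⟨-, h⟩ | ⟨-, ⟨h, hh, rfl⟩, -⟩
  · exact ⟨(good_open h).1, (good_open h).2.2⟩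
  · exact ⟨isOpen_strip h, strip_nonempty hh⟩

theorem per_zero (w : ℂ → ℝ) : Per 0 M w := fun x _ => by simp

theorem Rough.congr {γ : ℝ} {w w' : ℂ → ℝ} (h : ∀ x ∈ M, w x = w' x) (hr : Rough M γ w) :
    Rough M γ w' := by
  obtain ⟨c, hc, hr⟩ := hr
  refine ⟨c, hc, fun x₀ hx₀ e he δ hδ => ?_⟩
  obtain ⟨x, s, hs, hsδ, hx, hball, hle⟩ := hr x₀ hx₀ e he δ hδ
  refine ⟨x, s, hs, hsδ, hx, hball, ?_⟩
  have m1 : x + s • e ∈ M := hball (by simp [abs_of_pos hs, he])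
  have m2 : x - s • e ∈ M := hball (by simp [abs_of_pos hs, he])
  have m3 : x ∈ M := hball (by simp [hs.le])
  rw [← h _ m1, ← h _ m2, ← h _ m3]
  exact hle

/-- data for the channel -/
theorem channel_data {γ : ℝ} (hp : 0 < p) (hh : 0 < h) {ws g : ℂ → ℝ} (hws : Per p (Strip h) ws)
    (hr : Rough (Cell p h) γ (fun x => ws x + g x)) :
    Per p (Strip h) (fun x => ws x + pz p g x) ∧
      Rough (Strip h) γ (fun x => ws x + pz p g x) ∧
      PStretch p (Strip h) (fun x => ws x + pz p g x) := by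
  have h1 : Per p (Strip h) (fun x => ws x + pz p g x) := fun x hx => by
    show ws (x + p) + pz p g (x + p) = ws x + pz p g x
    rw [hws x hx, pz_per hp]
  have h2 : Rough (Strip h) γ (fun x => ws x + pz p g x) :=
    rough_strip hp h1 (hr.congr fun x hx => by rw [pz_cell hp g hx])
  exact ⟨h1, h2, stretch_channel hp hh (h2.ne_zero (strip_nonempty hh))⟩

theorem normLe_restrict {N : Set ℂ} (h : N ⊆ M) {K : ℝ} {f : ℂ → ℝ} (hf : NormLe M α K f) :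
    NormLe N α K f := by
  obtain ⟨hd, a, b, c, ha, hb, hc, hac, h1, h2, h3⟩ := hf
  exact ⟨hd.mono h, a, b, c, ha, hb, hc, hac, fun x hx => h1 x (h hx), fun x hx => h2 x (h hx),
    fun x hx y hy => h3 x (h hx) y (h hy)⟩

theorem HNormLe.restrict {N : Set ℂ} (h : N ⊆ M) {K : ℝ} {f : ℂ → ℝ} (hf : HNormLe M α K f) :
    HNormLe N α K f := by
  obtain ⟨a, c, ha, hc, hac, h1, h2⟩ := hf
  exact ⟨a, c, ha, hc, hac, fun x hx => h1 x (h hx), fun x hx y hy => h2 x (h hx) y (h hy)⟩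

/-- data for the growth theorem in `C^α` -/
theorem pgood_holder {ws : ℂ → ℝ} (hα : 0 < α) (hα1 : α < 1) (hG : PGood p M ws) {K : ℝ}
    (hws : HNormLe M α K ws) {ε : ℝ} (hε : 0 < ε) :
    ∃ w₀ : ℂ → ℝ, Per p M w₀ ∧ HNormLe M α ε (fun x => w₀ x - ws x) ∧ Rough M α w₀ ∧
      PStretch p M w₀ := by
  rcases hG with ⟨rfl, hG⟩ | ⟨hp, ⟨h, hh, rfl⟩, hper⟩
  · obtain ⟨hM, -, hne⟩ := good_open hG
    obtain ⟨w₀, h1, h2, h3⟩ := good_data (nk_holder hM hne hα hα1) hG hws hε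
    exact ⟨w₀, per_zero w₀, h1, h2, h3.pstretch⟩
  · obtain ⟨g, hg0, hg, hgr⟩ := exists_rough_add (isOpen_cell p h) (cell_nonempty hp hh) hα hα1
      (hws.restrict (cell_sub p h)) (half_pos hε)
    obtain ⟨h1, h2, h3⟩ := channel_data hp hh hper hgr
    refine ⟨_, h1, ?_, h2, h3⟩
    have h4 := pz_hnorm hp hh hα hg0 hg
    have e : (fun x => ws x + pz p g x - ws x) = pz p g := by funext x; ring
    have e2 : 2 * (ε / 2) = ε := by ring
    rw [e2] at h4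
    rw [e]; exact h4

/-- data for the growth theorem in `C^{1,α}` -/
theorem pgood_holder_one {ws : ℂ → ℝ} (hα : 0 < α) (hα1 : α < 1) (hG : PGood p M ws) {K : ℝ}
    (hws : NormLe M α K ws) {ε : ℝ} (hε : 0 < ε) :
    ∃ w₀ : ℂ → ℝ, Per p M w₀ ∧ NormLe M α ε (fun x => w₀ x - ws x) ∧ Rough M (1 + α) w₀ ∧
      PStretch p M w₀ := by
  rcases hG with ⟨rfl, hG⟩ | ⟨hp, ⟨h, hh, rfl⟩, hper⟩
  · obtain ⟨hM, -, hne⟩ := good_open hG
    obtain ⟨w₀, h1, h2, h3⟩ := good_data (nk_holder_one hM hne hα hα1) hG hws hε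
    exact ⟨w₀, per_zero w₀, h1, h2, h3.pstretch⟩
  · obtain ⟨g, hg0, hg, hgr⟩ := exists_rough_add_one (isOpen_cell p h) (cell_nonempty hp hh) hα hα1
      (normLe_restrict (cell_sub p h) hws) (half_pos hε)
    obtain ⟨h1, h2, h3⟩ := channel_data hp hh hper hgr
    refine ⟨_, h1, ?_, h2, h3⟩
    have h4 := pz_norm hp hh hα hg0 hg
    have e : (fun x => ws x + pz p g x - ws x) = pz p g := by funext x; ring
    have e2 : 2 * (ε / 2) = ε := by ring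
    rw [e2] at h4
    rw [e]; exact h4

/-- **Universal stretching** -/
theorem pcharged_stretch (h : PCharged p M w₀) : PStretch p M w₀ := by
  rcases h with ⟨rfl, h⟩ | ⟨hp, ⟨h, hh, rfl⟩, -, hw⟩
  · exact (charged_stretch h).pstretch
  · exact stretch_channel hp hh hw

end Pool.Agent.YUT
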