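import Pool.Agent.YUT.G1

open MeasureTheory Set Filter Topology
open scoped ContDiff

namespace Pool.Agent.YUT

open Pool.Agent.YUD

private theorem K1_sq {a b : ℝ} (h : a ^ 2 ≤ b ^ 2) (hb : 0 ≤ b) : a ≤ b := by
  nlinarith [sq_nonneg (a - b), sq_nonneg (a + b)]

private theorem K1_mv {M : Set ℂ} (hM : IsOpen M) {g : ℂ → ℝ} {D : ℝ}
    (hg : DifferentiableOn ℝ g M) (hb : ∀ x ∈ M, ‖fderiv ℝ g x‖ ≤ D) {x v : ℂ}
    (hseg : ∀ s ∈ Icc (0 : ℝ) 1, x + s • v ∈ M) : |g (x + v) - g x| ≤ D * ‖v‖ := by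
  have hder : ∀ s ∈ Icc (0 : ℝ) 1, HasDerivWithinAt (fun s : ℝ => g (x + s • v))
      (fderiv ℝ g (x + s • v) v) (Icc 0 1) s := by
    intro s hs
    have e1 := (hg.differentiableAt (hM.mem_nhds (hseg s hs))).hasFDerivAt
    have e3 : HasDerivAt (fun s : ℝ => x + s • v) v s := by
      have := ((hasDerivAt_id s).smul_const v).const_add x
      simpa using this
    exact (e1.comp_hasDerivAt s e3).hasDerivWithinAt
  have h1 := norm_image_sub_le_of_norm_deriv_le_segment_01' hder (C := D * ‖v‖)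
    (fun s hs => (ContinuousLinearMap.le_opNorm _ _).trans
      (mul_le_mul_of_nonneg_right (hb _ (hseg s ⟨hs.1, hs.2.le⟩)) (norm_nonneg _)))
  simpa using h1

private theorem K1_lip {M : Set ℂ} (hM : IsOpen M) {f : ℂ → ℝ} {C : ℝ} (hf : StreamLe M C f)
    {x v : ℂ} (hseg : ∀ s ∈ Icc (0 : ℝ) 1, x + s • v ∈ M) :
    ‖fderiv ℝ f (x + v) - fderiv ℝ f x‖ ≤ 4 * C * ‖v‖ := by
  have hdx : DifferentiableOn ℝ (dx f) M :=
    (contDiffOn_dx (n := 1) hM hf.1).differentiableOn (by norm_num)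
  have hdy : DifferentiableOn ℝ (dy f) M :=
    (contDiffOn_dy (n := 1) hM hf.1).differentiableOn (by norm_num)
  have bx : ∀ x ∈ M, ‖fderiv ℝ (dx f) x‖ ≤ 2 * C := by
    intro x hx
    have h1 : |dx (dx f) x| ≤ C := hf.2.1.2.1.2.1 x hx
    have h2 : |dy (dx f) x| ≤ C := hf.2.1.2.1.2.2 x hx
    linarith [norm_fderiv_le (dx f) x]
  have byy : ∀ x ∈ M, ‖fderiv ℝ (dy f) x‖ ≤ 2 * C := by
    intro x hx
    have h1 : |dx (dy f) x| ≤ C := hf.2.1.2.2.2.1 x hx
    have h2 : |dy (dy f) x| ≤ C := hf.2.1.2.2.2.2 x hx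
    linarith [norm_fderiv_le (dy f) x]
  have h1 := K1_mv hM hdx bx hseg
  have h2 := K1_mv hM hdy byy hseg
  have h3 := norm_fderiv_sub_le f f (x + v) x
  linarith

private theorem K1_taylor {M : Set ℂ} (hM : IsOpen M) {f : ℂ → ℝ} {C : ℝ} (hC : 0 ≤ C)
    (hf : StreamLe M C f) {x v : ℂ} (hseg : ∀ s ∈ Icc (0 : ℝ) 1, x + s • v ∈ M) :
    |f (x + v) - f x - fderiv ℝ f x v| ≤ 4 * C * ‖v‖ ^ 2 := by
  have hder : ∀ s ∈ Icc (0 : ℝ) 1, HasDerivWithinAt
      (fun s : ℝ => f (x + s • v) - s * fderiv ℝ f x v)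
      (fderiv ℝ f (x + s • v) v - fderiv ℝ f x v) (Icc 0 1) s := by
    intro s hs
    have e1 := (hf.diffOn.differentiableAt (hM.mem_nhds (hseg s hs))).hasFDerivAt
    have e3 : HasDerivAt (fun s : ℝ => x + s • v) v s := by
      have := ((hasDerivAt_id s).smul_const v).const_add x
      simpa using this
    have e4 : HasDerivAt (fun s : ℝ => s * fderiv ℝ f x v) (fderiv ℝ f x v) s := by
      have := (hasDerivAt_id s).mul_const (fderiv ℝ f x v)
      simpa using this
    exact ((e1.comp_hasDerivAt s e3).sub e4).hasDerivWithinAt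
  have h1 := norm_image_sub_le_of_norm_deriv_le_segment_01' hder (C := 4 * C * ‖v‖ ^ 2)
    (fun s hs => by
      have h2 := K1_lip hM hf (x := x) (v := s • v) (fun s' hs' => by
        rw [smul_smul]
        exact hseg _ ⟨mul_nonneg hs'.1 hs.1, by nlinarith [hs'.1, hs'.2, hs.1, hs.2]⟩)
      have h3 : fderiv ℝ f (x + s • v) v - fderiv ℝ f x v =
          (fderiv ℝ f (x + s • v) - fderiv ℝ f x) v := rfl
      rw [h3]
      refine (ContinuousLinearMap.le_opNorm _ _).trans ?_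
      rw [norm_smul, Real.norm_eq_abs, abs_of_nonneg hs.1] at h2
      have h4 : 4 * C * (s * ‖v‖) ≤ 4 * C * ‖v‖ := by
        have : s * ‖v‖ ≤ ‖v‖ := by nlinarith [norm_nonneg v, hs.2]
        nlinarith
      calc ‖fderiv ℝ f (x + s • v) - fderiv ℝ f x‖ * ‖v‖ ≤ (4 * C * ‖v‖) * ‖v‖ :=
            mul_le_mul_of_nonneg_right (h2.trans h4) (norm_nonneg _)
        _ = _ := by ring)
  simp only [one_smul, one_mul, zero_smul, add_zero, zero_mul, sub_zero, Real.norm_eq_abs] at h1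
  have e : f (x + v) - f x - fderiv ℝ f x v = f (x + v) - fderiv ℝ f x v - f x := by ring
  rw [e]
  exact h1

/-- [YUT-K1] Near a round hole a stream function and its angular derivative are `O(‖x‖ - ρ)`.
Proof. (1) `F = M.indicator f` is `2C`-Lipschitz (`lip_ext`, `C ≥ 0` since `M` is nonempty) and zero at
`(ρ/‖x‖) x ∉ M`: `|f x| ≤ 2 C (‖x‖ - ρ)`. (2) For a unit vector `u` let
`h(r) = fderiv ℝ f (r u) (i r u)`, `ρ < r < ρ₁`; its derivative is bounded by `2 C (ρ₁ + 1)` (second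
derivatives are bounded by `C`: `dx (dx f)`, `dx (dy f)`, ... ), so `h` is Lipschitz there; and
`h(r) → 0` for `r → ρ`: for small `η > 0` Taylor's formula along the circle of radius `r`,
`θ ↦ f(r e^{iθ} u)`, whose second derivative is bounded by a constant `C''`, gives
`η |h(r)| ≤ |f(r e^{iη} u)| + |f(r u)| + C'' η² ≤ 4 C (r - ρ) + C'' η²`, i.e.
`|h(r)| ≤ 4 C (r-ρ)/η + C'' η`; let `r → ρ`, then `η → 0`. So `|h(r)| ≤ 2 C (ρ₁ + 1)(r - ρ)`. -/
theorem hole_small {M : Set ℂ} (hM : IsOpen M) {ρ ρ₁ : ℝ} (hρ : 0 < ρ) (hρ1 : ρ < ρ₁)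
    (hole : ∀ x ∈ M, ρ < ‖x‖) (hann : ∀ x : ℂ, ρ < ‖x‖ → ‖x‖ < ρ₁ → x ∈ M) (C : ℝ) :
    ∃ K : ℝ, 0 ≤ K ∧ ∀ f : ℂ → ℝ, StreamLe M C f → ∀ x : ℂ, ρ < ‖x‖ → ‖x‖ < ρ₁ →
      |f x| ≤ K * (‖x‖ - ρ) ∧ |fderiv ℝ f x (Complex.I * x)| ≤ K * (‖x‖ - ρ) := by
  have hρ₁ : 0 < ρ₁ := hρ.trans hρ1
  refine ⟨2 * |C| + 4 * |C| * ρ₁, by positivity, ?_⟩
  intro f hf x hx1 hx2
  have hC : 0 ≤ C := (abs_nonneg _).trans (hf.abs_le x (hann x hx1 hx2))
  rw [abs_of_nonneg hC]
  -- (1)
  have h1 : ∀ y : ℂ, ρ < ‖y‖ → ‖y‖ < ρ₁ → |f y| ≤ 2 * C * (‖y‖ - ρ) := by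
    intro y hy1 hy2
    have hlip := lip_ext hM (by positivity : 0 ≤ 2 * C) hf.diffOn hf.fderiv_le hf.zero
    have hy0 : 0 < ‖y‖ := hρ.trans hy1
    have h2 := hlip y ((ρ / ‖y‖) • y)
    have h3 : (ρ / ‖y‖) • y ∉ M := by
      intro h
      have := hole _ h
      rw [norm_smul, Real.norm_eq_abs, abs_of_pos (by positivity), div_mul_cancel₀ _ hy0.ne'] at this
      exact lt_irrefl _ this
    have h4 : ‖y - (ρ / ‖y‖) • y‖ = ‖y‖ - ρ := by
      have e1 : y - (ρ / ‖y‖) • y = (1 - ρ / ‖y‖) • y := by rw [sub_smul, one_smul]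
      have e2 : 0 ≤ 1 - ρ / ‖y‖ := by
        rw [sub_nonneg, div_le_one hy0]
        exact hy1.le
      rw [e1, norm_smul, Real.norm_eq_abs, abs_of_nonneg e2]
      field_simp
    rw [indicator_of_mem (hann y hy1 hy2), indicator_of_notMem h3, sub_zero, h4] at h2
    exact h2
  refine ⟨?_, ?_⟩
  · refine (h1 x hx1 hx2).trans ?_
    have : 0 ≤ ‖x‖ - ρ := by linarith
    have h5 : 0 ≤ 4 * C * ρ₁ := by positivity
    nlinarith
  · -- the angular derivative
    set r := ‖x‖ with hr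
    have hr0 : 0 < r := hρ.trans hx1
    set u : ℂ := r⁻¹ • x with hu
    have hun : ‖u‖ = 1 := by
      rw [hu, norm_smul, norm_inv, Real.norm_eq_abs, abs_of_pos hr0, ← hr, inv_mul_cancel₀ hr0.ne']
    have hxu : x = r • u := by rw [hu, smul_smul, mul_inv_cancel₀ hr0.ne', one_smul]
    have hnr : ∀ t : ℝ, 0 < t → ‖t • u‖ = t := by
      intro t ht
      rw [norm_smul, hun, mul_one, Real.norm_eq_abs, abs_of_pos ht]
    -- the value at a smaller radius
    have hsmall : ∀ η : ℝ, 0 < η → ρ + η ^ 2 < r → (ρ + η ^ 2) * (1 + η ^ 2) < ρ₁ →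
        |fderiv ℝ f ((ρ + η ^ 2) • u) (Complex.I * ((ρ + η ^ 2) • u))| ≤
          η * (2 * C * (2 + ρ₁) + 4 * C * ρ₁ ^ 2) := by
      intro η hη hη1 hη2
      set t := ρ + η ^ 2 with ht
      have ht0 : 0 < t := by positivity
      have htρ : ρ < t := by rw [ht]; have := pow_pos hη 2; linarith
      have htρ1 : t < ρ₁ := hη1.trans hx2
      set z : ℂ := t • u with hz
      have hzn : ‖z‖ = t := hnr t ht0
      set v : ℂ := η • (Complex.I * z) with hv
      have hvn : ‖v‖ = η * t := by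
        rw [hv, norm_smul, norm_mul, Complex.norm_I, one_mul, hzn, Real.norm_eq_abs, abs_of_pos hη]
      have hn2 : ∀ s : ℝ, ‖z + s • v‖ ^ 2 = t ^ 2 * (1 + (s * η) ^ 2) := by
        intro s
        have e1 : z + s • v = (1 + (s * η : ℝ) * Complex.I) * z := by
          rw [hv, smul_smul, Complex.real_smul]
          ring
        have e2 : ‖(1 + (s * η : ℝ) * Complex.I)‖ ^ 2 = 1 + (s * η) ^ 2 := by
          rw [← Complex.normSq_eq_norm_sq, Complex.normSq_apply]
          simp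
          ring
        rw [e1, norm_mul, mul_pow, e2, hzn]
        ring
      have hn3 : ∀ s : ℝ, 0 ≤ s → s ≤ 1 → t ≤ ‖z + s • v‖ ∧ ‖z + s • v‖ ≤ t * (1 + η ^ 2) := by
        intro s hs0 hs1
        have h6 := hn2 s
        constructor
        · apply K1_sq _ (norm_nonneg _)
          rw [h6]
          nlinarith [sq_nonneg (t * (s * η))]
        · apply K1_sq _ (by positivity)
          rw [h6]
          have h7 : (s * η) ^ 2 ≤ η ^ 2 := by
            rw [mul_pow]
            have : s ^ 2 ≤ 1 := by nlinarith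
            nlinarith [sq_nonneg η]
          have h8 : 1 + (s * η) ^ 2 ≤ (1 + η ^ 2) ^ 2 := by nlinarith [sq_nonneg η, sq_nonneg (η ^ 2)]
          rw [mul_pow t]
          exact mul_le_mul_of_nonneg_left h8 (by positivity)
      have hseg : ∀ s ∈ Icc (0 : ℝ) 1, z + s • v ∈ M := by
        intro s hs
        obtain ⟨h6, h7⟩ := hn3 s hs.1 hs.2
        exact hann _ (by linarith) (by linarith)
      have h6 := K1_taylor hM hC hf hseg
      have h7 := h1 z (by rw [hzn]; exact htρ) (by rw [hzn]; exact htρ1)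
      rw [hzn] at h7
      have h8 : |f (z + v)| ≤ 2 * C * (t * (1 + η ^ 2) - ρ) := by
        obtain ⟨h9, h10⟩ := hn3 1 zero_le_one le_rfl
        rw [one_smul] at h9 h10
        refine (h1 (z + v) (by linarith) (by linarith)).trans ?_
        exact mul_le_mul_of_nonneg_left (by linarith) (by positivity)
      have h9 : fderiv ℝ f z v = η * fderiv ℝ f z (Complex.I * z) := by
        rw [hv, map_smul, smul_eq_mul]
      rw [h9, hvn] at h6
      have h10 : η * |fderiv ℝ f z (Complex.I * z)| ≤ η * (η * (2 * C * (2 + ρ₁) + 4 * C * ρ₁ ^ 2)) := by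
        have e3 : η * |fderiv ℝ f z (Complex.I * z)| = |η * fderiv ℝ f z (Complex.I * z)| := by
          rw [abs_mul, abs_of_pos hη]
        rw [e3]
        have e4 : |η * fderiv ℝ f z (Complex.I * z)| ≤ |f (z + v)| + |f z| +
            |f (z + v) - f z - η * fderiv ℝ f z (Complex.I * z)| := by
          have e5 : η * fderiv ℝ f z (Complex.I * z) = f (z + v) - f z -
              (f (z + v) - f z - η * fderiv ℝ f z (Complex.I * z)) := by ring
          calc |η * fderiv ℝ f z (Complex.I * z)| = |f (z + v) - f z -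
              (f (z + v) - f z - η * fderiv ℝ f z (Complex.I * z))| := by rw [← e5]
            _ ≤ |f (z + v) - f z| + |f (z + v) - f z - η * fderiv ℝ f z (Complex.I * z)| :=
              abs_sub _ _
            _ ≤ _ := by linarith [abs_sub (f (z + v)) (f z)]
        have e6 : t - ρ = η ^ 2 := by rw [ht]; ring
        have e7 : t * (1 + η ^ 2) - ρ = η ^ 2 * (1 + t) := by linear_combination e6
        rw [e6] at h7
        rw [e7] at h8
        have h11 : C * t ≤ C * ρ₁ := mul_le_mul_of_nonneg_left htρ1.le hC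
        have h12 : C * t ^ 2 ≤ C * ρ₁ ^ 2 :=
          mul_le_mul_of_nonneg_left (pow_le_pow_left₀ ht0.le htρ1.le 2) hC
        have hη2' : 0 ≤ η ^ 2 := by positivity
        have h13 : η ^ 2 * (C * t) ≤ η ^ 2 * (C * ρ₁) := mul_le_mul_of_nonneg_left h11 hη2'
        have h14 : η ^ 2 * (C * t ^ 2) ≤ η ^ 2 * (C * ρ₁ ^ 2) := mul_le_mul_of_nonneg_left h12 hη2'
        calc |η * fderiv ℝ f z (Complex.I * z)| ≤ _ := e4
          _ ≤ 2 * C * (η ^ 2 * (1 + t)) + 2 * C * η ^ 2 + 4 * C * (η * t) ^ 2 := by linarith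
          _ = 4 * C * η ^ 2 + 2 * (η ^ 2 * (C * t)) + 4 * (η ^ 2 * (C * t ^ 2)) := by ring
          _ ≤ 4 * C * η ^ 2 + 2 * (η ^ 2 * (C * ρ₁)) + 4 * (η ^ 2 * (C * ρ₁ ^ 2)) := by linarith
          _ = _ := by ring
      exact le_of_mul_le_mul_left h10 hη
    -- comparison
    have hcmp : ∀ t : ℝ, ρ < t → t < r → |fderiv ℝ f x (Complex.I * x)| ≤
        |fderiv ℝ f (t • u) (Complex.I * (t • u))| + (2 * C + 4 * C * ρ₁) * (r - t) := by
      intro t ht1 ht2
      have ht0 : 0 < t := hρ.trans ht1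
      have hseg : ∀ s ∈ Icc (0 : ℝ) 1, t • u + s • ((r - t) • u) ∈ M := by
        intro s hs
        have e1 : t • u + s • ((r - t) • u) = (t + s * (r - t)) • u := by
          rw [smul_smul s, ← add_smul]
        have e2 : 0 ≤ s * (r - t) := mul_nonneg hs.1 (by linarith)
        have e3 : s * (r - t) ≤ r - t := by nlinarith [hs.2]
        rw [e1]
        apply hann
        · rw [hnr _ (by linarith)]; linarith
        · rw [hnr _ (by linarith)]; linarith
      have h6 := K1_lip hM hf hseg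
      have e4 : t • u + (r - t) • u = x := by rw [← add_smul, add_sub_cancel, ← hxu]
      have e5 : ‖(r - t) • u‖ = r - t := hnr _ (by linarith)
      rw [e4, e5] at h6
      have e6 : fderiv ℝ f x (Complex.I * x) = r * fderiv ℝ f x (Complex.I * u) := by
        have : Complex.I * x = r • (Complex.I * u) := by
          nth_rewrite 1 [hxu]
          rw [mul_smul_comm]
        rw [this, map_smul, smul_eq_mul]
      have e7 : fderiv ℝ f (t • u) (Complex.I * (t • u)) =
          t * fderiv ℝ f (t • u) (Complex.I * u) := by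
        rw [mul_smul_comm, map_smul, smul_eq_mul]
      rw [e6, e7]
      have hIu : ‖Complex.I * u‖ = 1 := by rw [norm_mul, Complex.norm_I, hun, one_mul]
      have h7 : |fderiv ℝ f x (Complex.I * u)| ≤ 2 * C := by
        have := (fderiv ℝ f x).le_opNorm (Complex.I * u)
        rw [hIu, mul_one] at this
        exact this.trans (hf.fderiv_le x (hann x hx1 hx2))
      have h8 : |fderiv ℝ f x (Complex.I * u) - fderiv ℝ f (t • u) (Complex.I * u)| ≤
          4 * C * (r - t) := by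
        have := (fderiv ℝ f x - fderiv ℝ f (t • u)).le_opNorm (Complex.I * u)
        rw [hIu, mul_one] at this
        exact this.trans h6
      have e8 : r * fderiv ℝ f x (Complex.I * u) = t * fderiv ℝ f (t • u) (Complex.I * u) +
          ((r - t) * fderiv ℝ f x (Complex.I * u) +
          t * (fderiv ℝ f x (Complex.I * u) - fderiv ℝ f (t • u) (Complex.I * u))) := by ring
      rw [e8]
      refine (abs_add_le _ _).trans ?_
      gcongr
      refine (abs_add_le _ _).trans ?_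
      rw [abs_mul, abs_mul, abs_of_pos (by linarith : 0 < r - t), abs_of_pos ht0]
      have h9 : (r - t) * |fderiv ℝ f x (Complex.I * u)| ≤ (r - t) * (2 * C) :=
        mul_le_mul_of_nonneg_left h7 (by linarith)
      have h10 : t * |fderiv ℝ f x (Complex.I * u) - fderiv ℝ f (t • u) (Complex.I * u)| ≤
          t * (4 * C * (r - t)) := mul_le_mul_of_nonneg_left h8 ht0.le
      have h11 : t * (4 * C * (r - t)) ≤ ρ₁ * (4 * C * (r - t)) :=
        mul_le_mul_of_nonneg_right (by linarith) (mul_nonneg (by positivity) (by linarith))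
      linarith
    have hev : ∀ᶠ η in 𝓝[>] (0 : ℝ), |fderiv ℝ f x (Complex.I * x)| ≤
        η * (2 * C * (2 + ρ₁) + 4 * C * ρ₁ ^ 2) + (2 * C + 4 * C * ρ₁) * (r - ρ) := by
      have c1 : ∀ᶠ η in 𝓝 (0 : ℝ), ρ + η ^ 2 < r := by
        have : ContinuousAt (fun η : ℝ => ρ + η ^ 2) 0 := by fun_prop
        exact this.eventually_lt_const (by simpa using hx1)
      have c2 : ∀ᶠ η in 𝓝 (0 : ℝ), (ρ + η ^ 2) * (1 + η ^ 2) < ρ₁ := by
        have : ContinuousAt (fun η : ℝ => (ρ + η ^ 2) * (1 + η ^ 2)) 0 := by fun_prop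
        exact this.eventually_lt_const (by simpa using hρ1)
      filter_upwards [self_mem_nhdsWithin, nhdsWithin_le_nhds c1, nhdsWithin_le_nhds c2] with η h0 k1 k2
      have hη0 : 0 < η := h0
      have h6 := hsmall η hη0 k1 k2
      have h7 := hcmp (ρ + η ^ 2) (by have := pow_pos hη0 2; linarith) k1
      have h8 : (2 * C + 4 * C * ρ₁) * (r - (ρ + η ^ 2)) ≤ (2 * C + 4 * C * ρ₁) * (r - ρ) :=
        mul_le_mul_of_nonneg_left (by have := sq_nonneg η; linarith) (by positivity)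
      linarith
    have hlim : Tendsto (fun η : ℝ => η * (2 * C * (2 + ρ₁) + 4 * C * ρ₁ ^ 2) +
        (2 * C + 4 * C * ρ₁) * (r - ρ)) (𝓝[>] 0)
        (𝓝 (0 * (2 * C * (2 + ρ₁) + 4 * C * ρ₁ ^ 2) + (2 * C + 4 * C * ρ₁) * (r - ρ))) := by
      apply Tendsto.mono_left _ nhdsWithin_le_nhds
      exact (tendsto_id.mul_const _).add_const _
    have h15 := ge_of_tendsto hlim hev
    rw [zero_mul, zero_add] at h15
    exact h15

end Pool.Agent.YUT
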