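import Pool.Agent.YUT.Base

open MeasureTheory Set Filter Topology
open scoped ContDiff

namespace Pool.Agent.YUT

open Pool.Agent.YUD

variable {M : Set ℂ} {w₀ : ℂ → ℝ} {ψ : ℝ → ℂ → ℝ} {Φ : ℝ → ℂ → ℂ}

/-- [YUT-M1a] time slices of `Φ` are `C¹` on `M` (`M` open): compose `h.c1` with `x ↦ (t, x)`. -/
theorem Flow.contDiffOn (hM : IsOpen M) (h : Flow M w₀ ψ Φ) {t : ℝ} (ht : 0 ≤ t) :
    ContDiffOn ℝ 1 (Φ t) M := by
  have h1 : ContDiffOn ℝ 1 (fun x : ℂ => (t, x)) M := (contDiff_const.prodMk contDiff_id).contDiffOn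
  exact h.c1.comp h1 (fun x hx => ⟨ht, hx⟩)

/-- [YUT-M1a] joint continuity of `Φ` -/
theorem Flow.cont_Phi (h : Flow M w₀ ψ Φ) :
    ContinuousOn (fun p : ℝ × ℂ => Φ p.1 p.2) (Ici 0 ×ˢ M) := h.c1.continuousOn

/-- [YUT-M1a] joint continuity of the spatial derivative: on the set `Ici 0 ×ˢ M`, which has unique
differentials (`UniqueDiffOn.prod`, `uniqueDiffOn_Ici`, `IsOpen.uniqueDiffOn`), the derivative
`fderivWithin` of `(t,x) ↦ Φ t x` is continuous (`ContDiffOn.continuousOn_fderivWithin`), and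
`fderiv ℝ (Φ t) x = (fderivWithin ℝ _ _ (t, x)).comp (ContinuousLinearMap.inr ℝ ℝ ℂ)`. -/
theorem Flow.cont_fderiv (hM : IsOpen M) (h : Flow M w₀ ψ Φ) :
    ContinuousOn (fun p : ℝ × ℂ => fderiv ℝ (Φ p.1) p.2) (Ici 0 ×ˢ M) := by
  set F : ℝ × ℂ → ℂ := fun p => Φ p.1 p.2 with hF
  set S : Set (ℝ × ℂ) := Ici 0 ×ˢ M with hS
  have hu : UniqueDiffOn ℝ S := (uniqueDiffOn_Ici 0).prod hM.uniqueDiffOn
  have hc : ContinuousOn (fderivWithin ℝ F S) S := h.c1.continuousOn_fderivWithin hu le_rfl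
  have hc2 : ContinuousOn (fun p => (fderivWithin ℝ F S p).comp (ContinuousLinearMap.inr ℝ ℝ ℂ)) S :=
    hc.clm_comp continuousOn_const
  refine hc2.congr (fun p hp => ?_)
  have hd : HasFDerivWithinAt F (fderivWithin ℝ F S p) S p :=
    ((h.c1.differentiableOn one_ne_zero) p hp).hasFDerivWithinAt
  have hg : HasFDerivWithinAt (fun x : ℂ => (p.1, x)) (ContinuousLinearMap.inr ℝ ℝ ℂ) M p.2 :=
    (hasFDerivAt_prodMk_right p.1 p.2).hasFDerivWithinAt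
  have hm : MapsTo (fun x : ℂ => (p.1, x)) M S := fun x hx => ⟨hp.1, hx⟩
  have h3 := HasFDerivWithinAt.comp (g := F) (f := fun x : ℂ => (p.1, x)) p.2 hd hg hm
  exact (h3.hasFDerivAt (hM.mem_nhds hp.2)).fderiv

end Pool.Agent.YUT
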