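import Pool.Agent.YUT.K1
import Pool.Agent.YUT.M1a

open MeasureTheory Set Filter Topology
open scoped ContDiff

namespace Pool.Agent.YUT

open Pool.Agent.YUD

variable {M : Set ℂ} {w₀ : ℂ → ℝ} {ψ : ℝ → ℂ → ℝ} {Φ : ℝ → ℂ → ℂ}

theorem K2a_sq (z : ℂ) : ‖z‖ ^ 2 = z.re ^ 2 + z.im ^ 2 := by
  rw [Complex.sq_norm, Complex.normSq_apply]
  ring

/-- [YUT-K2a] Particles near the hole stay near it on `[0,T]`. Proof: `q(t) = ‖Φ t x‖² `; by `h.ode`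
`q' = 2 (Φ ⬝ perp ψ(Φ)) = -2 fderiv ℝ (ψ t) (Φ) (I Φ)` (Euclidean inner product
`x ⬝ perp f x = - fderiv ℝ f x (I x)`), so as long as `‖Φ t x‖ < ρ₁` `hole_small` (with `C` from
`h.stream T`) gives `|q'| ≤ 2 K (√q - ρ) ≤ (2K/ρ)(q - ρ²)`; hence `(q - ρ²) e^{-(2K/ρ)t}` is
nonincreasing, `q(t) - ρ² ≤ e^{(2K/ρ)T} (‖x‖² - ρ²)`, and for `‖x‖ - ρ < δ` small `q` never reaches
`ρ₁²` (first exit time argument). -/
theorem hole_flow (hM : IsOpen M) {ρ ρ₁ : ℝ} (hρ : 0 < ρ) (hρ1 : ρ < ρ₁)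
    (hole : ∀ x ∈ M, ρ < ‖x‖) (hann : ∀ x : ℂ, ρ < ‖x‖ → ‖x‖ < ρ₁ → x ∈ M)
    (h : Flow M w₀ ψ Φ) (T : ℝ) : ∃ K δ : ℝ, 0 ≤ K ∧ 0 < δ ∧ ∀ x : ℂ, ρ < ‖x‖ → ‖x‖ < ρ + δ →
      ∀ t, 0 ≤ t → t ≤ T → ‖Φ t x‖ < ρ₁ ∧ ‖Φ t x‖ - ρ ≤ K * (‖x‖ - ρ) := by
  obtain ⟨C, hC⟩ := h.stream T
  obtain ⟨K, hK, hsmall⟩ := hole_small hM hρ hρ1 hole hann C
  set L : ℝ := K / ρ with hL
  have hL0 : 0 ≤ L := div_nonneg hK hρ.le
  set E : ℝ := Real.exp ((L + 1) * T) with hE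
  have hE0 : 0 < E := Real.exp_pos _
  have hgap : 0 < ρ₁ ^ 2 - ρ ^ 2 := by nlinarith
  set δ : ℝ := min ρ (min (ρ₁ - ρ) ((ρ₁ ^ 2 - ρ ^ 2) / (3 * ρ * E))) with hδ
  have hδ0 : 0 < δ := lt_min hρ (lt_min (by linarith) (by positivity))
  have hδ1 : δ ≤ ρ := min_le_left _ _
  have hδ2 : δ ≤ ρ₁ - ρ := (min_le_right _ _).trans (min_le_left _ _)
  have hδ3 : 3 * ρ * δ * E ≤ ρ₁ ^ 2 - ρ ^ 2 := by
    have h1 : δ ≤ (ρ₁ ^ 2 - ρ ^ 2) / (3 * ρ * E) := (min_le_right _ _).trans (min_le_right _ _)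
    rw [le_div_iff₀ (by positivity)] at h1
    calc 3 * ρ * δ * E = δ * (3 * ρ * E) := by ring
      _ ≤ _ := h1
  refine ⟨2 * E, δ, by positivity, hδ0, fun x hx1 hx2 => ?_⟩
  have hxM : x ∈ M := hann x hx1 (by linarith)
  -- the initial value
  set q0 : ℝ := ‖x‖ ^ 2 - ρ ^ 2 with hq0
  have hq0pos : 0 < q0 := by rw [hq0]; nlinarith
  have hq0le : q0 ≤ 3 * ρ * (‖x‖ - ρ) := by rw [hq0]; nlinarith
  have hq0lt : q0 < 3 * ρ * δ := by nlinarith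
  have hΦM : ∀ t, 0 ≤ t → Φ t x ∈ M := fun t ht => (h.bij t ht).mapsTo hxM
  -- the derivative of `q`
  have hder : ∀ t, 0 ≤ t → HasDerivWithinAt (fun s => (Φ s x).re ^ 2 + (Φ s x).im ^ 2)
      (-2 * fderiv ℝ (ψ t) (Φ t x) (Complex.I * Φ t x)) (Ici 0) t := by
    intro t ht
    have h1 := h.ode t ht x hxM
    have h2 : HasDerivWithinAt (fun s => (Φ s x).re) (perp (ψ t) (Φ t x)).re (Ici 0) t := by
      have e := Complex.reCLM.hasFDerivAt (x := Φ t x)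
      have e2 := e.comp_hasDerivWithinAt t h1
      exact e2
    have h3 : HasDerivWithinAt (fun s => (Φ s x).im) (perp (ψ t) (Φ t x)).im (Ici 0) t := by
      have e := Complex.imCLM.hasFDerivAt (x := Φ t x)
      have e2 := e.comp_hasDerivWithinAt t h1
      exact e2
    have h4 := (h2.pow 2).add (h3.pow 2)
    refine h4.congr_deriv ?_
    rw [fderiv_apply']
    simp [perp]
    ring
  have hcont : ContinuousOn (fun s => (Φ s x).re ^ 2 + (Φ s x).im ^ 2) (Icc 0 T) := by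
    intro t ht
    exact (hder t ht.1).continuousWithinAt.mono Icc_subset_Ici_self
  have hBd : ∀ t : ℝ, HasDerivAt (fun t => ρ ^ 2 + q0 * Real.exp ((L + 1) * t))
      (q0 * ((L + 1) * Real.exp ((L + 1) * t))) t := by
    intro t
    have h1 : HasDerivAt (fun t : ℝ => (L + 1) * t) (L + 1) t := by
      simpa using (hasDerivAt_id t).const_mul (L + 1)
    have h2 := ((h1.exp).const_mul q0).const_add (ρ ^ 2)
    refine h2.congr_deriv ?_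
    ring
  have hexp : ∀ t, t ≤ T → Real.exp ((L + 1) * t) ≤ E := by
    intro t ht
    rw [hE]
    exact Real.exp_le_exp.2 (mul_le_mul_of_nonneg_left ht (by linarith))
  have hfin : ∀ t, t ≤ T → q0 * Real.exp ((L + 1) * t) < ρ₁ ^ 2 - ρ ^ 2 := by
    intro t ht
    have h1 := hexp t ht
    calc q0 * Real.exp ((L + 1) * t) ≤ q0 * E := mul_le_mul_of_nonneg_left h1 hq0pos.le
      _ < 3 * ρ * δ * E := mul_lt_mul_of_pos_right hq0lt hE0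
      _ ≤ _ := hδ3
  have hlt : ∀ z : ℂ, z.re ^ 2 + z.im ^ 2 < ρ₁ ^ 2 → ‖z‖ < ρ₁ := by
    intro z hz
    rw [← K2a_sq] at hz
    exact lt_of_pow_lt_pow_left₀ 2 (by linarith) hz
  have key := image_le_of_deriv_right_lt_deriv_boundary (a := 0) (b := T) hcont
    (f' := fun t => -2 * fderiv ℝ (ψ t) (Φ t x) (Complex.I * Φ t x))
    (fun t ht => (hder t ht.1).mono (Ici_subset_Ici.2 ht.1))
    (B := fun t => ρ ^ 2 + q0 * Real.exp ((L + 1) * t))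
    (B' := fun t => q0 * ((L + 1) * Real.exp ((L + 1) * t)))
    (by
      show (Φ 0 x).re ^ 2 + (Φ 0 x).im ^ 2 ≤ ρ ^ 2 + q0 * Real.exp ((L + 1) * 0)
      rw [h.start x hxM, mul_zero, Real.exp_zero, mul_one, ← K2a_sq, hq0]
      linarith) hBd
    (by
      intro t ht heq
      have heq' : (Φ t x).re ^ 2 + (Φ t x).im ^ 2 = ρ ^ 2 + q0 * Real.exp ((L + 1) * t) := heq
      have h1 := hfin t ht.2.le
      have h2 : ‖Φ t x‖ < ρ₁ := hlt _ (by rw [heq']; linarith)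
      have h3 : ρ < ‖Φ t x‖ := hole _ (hΦM t ht.1)
      have h4 := (hsmall (ψ t) (hC t ht.1 ht.2.le) (Φ t x) h3 h2).2
      have h5 : ‖Φ t x‖ ^ 2 - ρ ^ 2 = q0 * Real.exp ((L + 1) * t) := by
        rw [K2a_sq, heq']
        ring
      have h6 : 0 < q0 * Real.exp ((L + 1) * t) := mul_pos hq0pos (Real.exp_pos _)
      show -2 * fderiv ℝ (ψ t) (Φ t x) (Complex.I * Φ t x) <
        q0 * ((L + 1) * Real.exp ((L + 1) * t))
      have h7 : q0 * ((L + 1) * Real.exp ((L + 1) * t)) =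
          (L + 1) * (q0 * Real.exp ((L + 1) * t)) := by ring
      rw [h7]
      have h8 : -2 * fderiv ℝ (ψ t) (Φ t x) (Complex.I * Φ t x) ≤ 2 * (K * (‖Φ t x‖ - ρ)) := by
        have := neg_abs_le (fderiv ℝ (ψ t) (Φ t x) (Complex.I * Φ t x))
        linarith
      have h9 : 2 * (K * (‖Φ t x‖ - ρ)) ≤ L * (‖Φ t x‖ ^ 2 - ρ ^ 2) := by
        have e1 : ‖Φ t x‖ ^ 2 - ρ ^ 2 = (‖Φ t x‖ - ρ) * (‖Φ t x‖ + ρ) := by ring
        rw [e1, hL, div_mul_eq_mul_div, le_div_iff₀ hρ]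
        have h10 : 0 ≤ K * (‖Φ t x‖ - ρ) := mul_nonneg hK (by linarith)
        nlinarith
      rw [h5] at h9
      linarith)
  intro t ht0 htT
  have h1 : (Φ t x).re ^ 2 + (Φ t x).im ^ 2 ≤ ρ ^ 2 + q0 * Real.exp ((L + 1) * t) :=
    key ⟨ht0, htT⟩
  have h2 := hfin t htT
  have h3 : ρ < ‖Φ t x‖ := hole _ (hΦM t ht0)
  refine ⟨hlt _ (by linarith), ?_⟩
  rw [← K2a_sq] at h1
  have h4 : q0 * Real.exp ((L + 1) * t) ≤ q0 * E :=
    mul_le_mul_of_nonneg_left (hexp t htT) hq0pos.le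
  have h5 : q0 * E ≤ 3 * ρ * (‖x‖ - ρ) * E := mul_le_mul_of_nonneg_right hq0le hE0.le
  have h6 : (‖Φ t x‖ - ρ) * (2 * ρ) ≤ ‖Φ t x‖ ^ 2 - ρ ^ 2 := by nlinarith
  have h7 : (‖Φ t x‖ - ρ) * (2 * ρ) ≤ (2 * E * (‖x‖ - ρ)) * (2 * ρ) := by
    have h8 : 0 ≤ (‖x‖ - ρ) * E * ρ := by
      have : 0 ≤ ‖x‖ - ρ := by linarith
      positivity
    nlinarith
  exact le_of_mul_le_mul_right h7 (by positivity)

end Pool.Agent.YUT
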