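import Pool.Agent.YUT.Base

open MeasureTheory Set Filter Topology
open scoped ContDiff

namespace Pool.Agent.YUT

open Pool.Agent.YUD

theorem K3a_inv {ρ : ℝ} (hρ : 0 < ρ) {x y : ℂ} (hx : ρ < ‖x‖) (hy : ρ < ‖y‖) :
    ‖((ρ / ‖x‖) ^ 2 : ℝ) • x - ((ρ / ‖y‖) ^ 2 : ℝ) • y‖ ≤ ‖x - y‖ := by
  have hx0 : x ≠ 0 := norm_pos_iff.1 (hρ.trans hx)
  have hy0 : y ≠ 0 := norm_pos_iff.1 (hρ.trans hy)
  have h := EuclideanGeometry.dist_inversion_inversion (V := ℂ) (P := ℂ) (c := 0) hx0 hy0 ρ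
  simp only [EuclideanGeometry.inversion, vsub_eq_sub, sub_zero, vadd_eq_add, add_zero,
    dist_zero_right, dist_eq_norm] at h
  rw [h]
  have h1 : ρ ^ 2 / (‖x‖ * ‖y‖) ≤ 1 := by
    rw [div_le_one (mul_pos (hρ.trans hx) (hρ.trans hy)), sq]
    exact mul_le_mul hx.le hy.le hρ.le (hρ.trans hx).le
  calc ρ ^ 2 / (‖x‖ * ‖y‖) * ‖x - y‖ ≤ 1 * ‖x - y‖ :=
        mul_le_mul_of_nonneg_right h1 (norm_nonneg _)
    _ = ‖x - y‖ := one_mul _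

theorem K3a_out {ρ : ℝ} {x : ℂ} (hx : ρ < ‖x‖) :
    ringField ρ x = (1 / 2 : ℝ) • (x - ((ρ / ‖x‖) ^ 2 : ℝ) • x) := by
  unfold ringField
  rw [if_neg (not_le.2 hx), smul_sub, smul_smul, ← sub_smul]
  congr 1
  rw [div_pow]
  ring

theorem K3a_mix {ρ : ℝ} (hρ : 0 < ρ) {x y : ℂ} (hx : ‖x‖ ≤ ρ) (hy : ρ < ‖y‖) :
    ‖ringField ρ y‖ ≤ ‖x - y‖ := by
  have hy0 : 0 < ‖y‖ := hρ.trans hy
  unfold ringField
  rw [if_neg (not_le.2 hy), norm_smul, Real.norm_eq_abs]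
  have h1 : 0 ≤ 1 / 2 * (1 - ρ ^ 2 / ‖y‖ ^ 2) := by
    have : ρ ^ 2 / ‖y‖ ^ 2 ≤ 1 := by
      rw [div_le_one (by positivity)]
      exact pow_le_pow_left₀ hρ.le hy.le 2
    linarith
  rw [abs_of_nonneg h1]
  have h2 : 1 / 2 * (1 - ρ ^ 2 / ‖y‖ ^ 2) * ‖y‖ = (‖y‖ - ρ) * (‖y‖ + ρ) / (2 * ‖y‖) := by
    field_simp
    ring
  rw [h2, div_le_iff₀ (by positivity)]
  have h3 : ‖y‖ - ‖x‖ ≤ ‖x - y‖ := by
    rw [norm_sub_rev]; exact norm_sub_norm_le _ _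
  have h4 : 0 ≤ ‖y‖ - ρ := by linarith
  nlinarith

/-- [YUT-K3a] the ring field is Lipschitz on the plane: outside the disk
`ringField ρ x = x/2 - (ρ²/2) x/‖x‖²` and `‖x/‖x‖² - y/‖y‖²‖ = ‖x - y‖/(‖x‖ ‖y‖) ≤ ‖x - y‖/ρ²`; it is
`0` on the circle; for `‖x‖ ≤ ρ < ‖y‖` use the point where the segment meets the circle. -/
theorem ringField_lip {ρ : ℝ} (hρ : 0 < ρ) :
    ∀ x y, ‖ringField ρ x - ringField ρ y‖ ≤ 1 * ‖x - y‖ := by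
  intro x y
  rw [one_mul]
  rcases le_or_gt ‖x‖ ρ with hx | hx
  · have h0 : ringField ρ x = 0 := by unfold ringField; rw [if_pos hx]
    rcases le_or_gt ‖y‖ ρ with hy | hy
    · have h1 : ringField ρ y = 0 := by unfold ringField; rw [if_pos hy]
      rw [h0, h1, sub_zero, norm_zero]
      exact norm_nonneg _
    · rw [h0, zero_sub, norm_neg]
      exact K3a_mix hρ hx hy
  · rcases le_or_gt ‖y‖ ρ with hy | hy
    · have h1 : ringField ρ y = 0 := by unfold ringField; rw [if_pos hy]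
      rw [h1, sub_zero, norm_sub_rev]
      exact K3a_mix hρ hy hx
    · rw [K3a_out hx, K3a_out hy, ← smul_sub, norm_smul, Real.norm_eq_abs,
        abs_of_pos (by norm_num : (0 : ℝ) < 1 / 2)]
      have h1 := K3a_inv hρ hx hy
      have h2 : x - ((ρ / ‖x‖) ^ 2 : ℝ) • x - (y - ((ρ / ‖y‖) ^ 2 : ℝ) • y) =
          (x - y) - (((ρ / ‖x‖) ^ 2 : ℝ) • x - ((ρ / ‖y‖) ^ 2 : ℝ) • y) := by abel
      rw [h2]
      have h3 := norm_sub_le (x - y) (((ρ / ‖x‖) ^ 2 : ℝ) • x - ((ρ / ‖y‖) ^ 2 : ℝ) • y)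
      linarith

end Pool.Agent.YUT
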