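import Pool.Agent.YUT.Defs

/-!
# [YUT] Flows in periodic domains: definitions

Functions on a flat channel `(ℝ/pℤ) × (0,h)` are functions on the strip `0 < y < h` of the plane
with period `p`. All notions below depend on a real number `p`; for `p = 0` they are the notions of
`Pool/Agent/YUT/Defs.lean` for plane domains.
-/

open MeasureTheory Set Filter Topology
open scoped ContDiff

namespace Pool.Agent.YUT

open Pool.Agent.YUD

/-- the strip `0 < y < h` -/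
def Strip (h : ℝ) : Set ℂ := {x | 0 < x.im ∧ x.im < h}

/-- `f` has period `p` in `M` -/
def Per (p : ℝ) (M : Set ℂ) (f : ℂ → ℝ) : Prop := ∀ x ∈ M, f (x + p) = f x

/-- `f` tends to zero at the boundary of `M`, modulo the period `p` -/
def PZero (p : ℝ) (M : Set ℂ) (f : ℂ → ℝ) : Prop :=
  ∀ ε > 0, ∃ K ⊆ M, IsCompact K ∧ ∀ x ∈ M, (∀ n : ℤ, x + (n * p : ℝ) ∉ K) → |f x| < ε

/-- `(ψ, Φ)` is a global solution with period `p`, in Lagrangian form, of the Euler equations in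
`M` with initial vorticity `w₀`: `Φ t : M → M` are area preserving diffeomorphisms, `Φ 0 = id`,
`∂_t Φ = ∇^⊥ ψ(Φ)`, `ψ = 0` on the boundary, the vorticity `Δψ` is transported by `Φ`, and `ψ` and
its partial derivatives of order `≤ 2` are bounded on `M`, locally uniformly in time. -/
structure PFlow (p : ℝ) (M : Set ℂ) (w₀ : ℂ → ℝ) (ψ : ℝ → ℂ → ℝ) (Φ : ℝ → ℂ → ℂ) : Prop where
  stream : ∀ T : ℝ, ∃ C : ℝ, ∀ t, 0 ≤ t → t ≤ T →
    ContDiffOn ℝ 2 (ψ t) M ∧ JetLe M 2 C (ψ t) ∧ PZero p M (ψ t)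
  per : ∀ t, 0 ≤ t → ∀ x ∈ M, ψ t (x + p) = ψ t x ∧ Φ t (x + p) = Φ t x + p
  cont : ContinuousOn (fun q : ℝ × ℂ => (ψ q.1 q.2, fderiv ℝ (ψ q.1) q.2)) (Ici 0 ×ˢ M)
  c1 : ContDiffOn ℝ 1 (fun q : ℝ × ℂ => Φ q.1 q.2) (Ici 0 ×ˢ M)
  bij : ∀ t, 0 ≤ t → BijOn (Φ t) M M
  area : ∀ t, 0 ≤ t → ∀ x ∈ M, (fderiv ℝ (Φ t) x).det = 1
  start : ∀ x ∈ M, Φ 0 x = x
  ode : ∀ t, 0 ≤ t → ∀ x ∈ M,
    HasDerivWithinAt (fun s => Φ s x) (perp (ψ t) (Φ t x)) (Ici 0) t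
  vort : ∀ t, 0 ≤ t → ∀ x ∈ M, lap (ψ t) (Φ t x) = w₀ x

/-- The domains (with their periods) and vorticities of the growth theorems: plane domains (`p = 0`)
and vorticities as in `Good`, and the flat channels `(ℝ/pℤ) × (0,h)` with all vorticities. -/
def PGood (p : ℝ) (M : Set ℂ) (w : ℂ → ℝ) : Prop :=
  (p = 0 ∧ Good M w) ∨ (0 < p ∧ (∃ h : ℝ, 0 < h ∧ M = Strip h) ∧ Per p M w)

/-- The domains and vorticities of the stretching theorem: plane domains (`p = 0`) and vorticities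
as in `Charged`, and the flat channels `(ℝ/pℤ) × (0,h)` with all nonzero vorticities. -/
def PCharged (p : ℝ) (M : Set ℂ) (w : ℂ → ℝ) : Prop :=
  (p = 0 ∧ Charged M w) ∨
    (0 < p ∧ (∃ h : ℝ, 0 < h ∧ M = Strip h) ∧ Per p M w ∧ ∃ x ∈ M, w x ≠ 0)

/-- Lyapunov stability of `ws` in `C^{1,α}(M)` among data of period `p`, for Lagrangian solutions
with `C²` flow maps. -/
def PStableFlow (p : ℝ) (M : Set ℂ) (α : ℝ) (ws : ℂ → ℝ) : Prop :=
  ∀ ε > 0, ∃ δ > 0, ∀ w₀ : ℂ → ℝ, Per p M w₀ → NormLe M α δ (fun x => w₀ x - ws x) →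
    ∃ (ψ : ℝ → ℂ → ℝ) (Φ : ℝ → ℂ → ℂ), PFlow p M w₀ ψ Φ ∧
      (∀ t, 0 ≤ t → ContDiffOn ℝ 2 (Φ t) M) ∧
      ∀ t, 0 ≤ t → NormLe M α ε (fun x => lap (ψ t) x - ws x)

end Pool.Agent.YUT
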