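import Pool.Agent.YUT.M1a

open MeasureTheory Set Filter Topology
open scoped ContDiff

namespace Pool.Agent.YUT

open Pool.Agent.YUD

variable {M : Set ℂ} {w₀ : ℂ → ℝ} {ψ : ℝ → ℂ → ℝ} {Φ : ℝ → ℂ → ℂ}

/-- [YUT-W1a] the integrand of the action: `(τ, x) ↦ gg Y (ψ τ) (Φ τ x)` is continuous on
`Ici 0 ×ˢ M`, and for every `T` there is `B` with `|gg Y (ψ τ) X| ≤ B` for `0 ≤ τ ≤ T`, `X ∈ M`. -/
theorem gg_flow (hM : IsOpen M) (hb : Bornology.IsBounded M) {Y : ℂ → ℂ} (hY : Continuous Y)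
    (h : Flow M w₀ ψ Φ) :
    ContinuousOn (fun p : ℝ × ℂ => gg Y (ψ p.1) (Φ p.1 p.2)) (Ici 0 ×ˢ M) ∧
      ∀ T : ℝ, ∃ B : ℝ, ∀ τ, 0 ≤ τ → τ ≤ T → ∀ x ∈ M, |gg Y (ψ τ) x| ≤ B := by
  constructor
  · have hG : ContinuousOn (fun p : ℝ × ℂ => (p.1, Φ p.1 p.2)) (Ici 0 ×ˢ M) :=
      continuousOn_fst.prodMk h.cont_Phi
    have hmaps : MapsTo (fun p : ℝ × ℂ => (p.1, Φ p.1 p.2)) (Ici 0 ×ˢ M) (Ici 0 ×ˢ M) := by
      intro p hp
      exact ⟨hp.1, (h.bij p.1 hp.1).mapsTo hp.2⟩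
    have hc := h.cont.comp hG hmaps
    have h1 : ContinuousOn (fun p : ℝ × ℂ => ψ p.1 (Φ p.1 p.2)) (Ici 0 ×ˢ M) :=
      continuous_fst.comp_continuousOn hc
    have h2 : ContinuousOn (fun p : ℝ × ℂ => fderiv ℝ (ψ p.1) (Φ p.1 p.2)) (Ici 0 ×ˢ M) :=
      continuous_snd.comp_continuousOn hc
    have h3 : ContinuousOn (fun p : ℝ × ℂ => Y (Φ p.1 p.2)) (Ici 0 ×ˢ M) :=
      hY.comp_continuousOn h.cont_Phi
    exact (h2.clm_apply h3).sub h1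
  · intro T
    obtain ⟨C, hC⟩ := h.stream T
    have hcomp : IsCompact (closure M) := hb.isCompact_closure
    obtain ⟨K, hK⟩ := hcomp.exists_bound_of_continuousOn hY.continuousOn
    refine ⟨2 * C * K + C, fun τ h0 hT x hx => ?_⟩
    have hS := hC τ h0 hT
    have hYx : ‖Y x‖ ≤ K := hK x (subset_closure hx)
    have hf := hS.fderiv_le x hx
    have ha := hS.abs_le x hx
    have h1 : |fderiv ℝ (ψ τ) x (Y x)| ≤ 2 * C * K := by
      rw [← Real.norm_eq_abs]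
      refine (ContinuousLinearMap.le_opNorm _ _).trans ?_
      exact mul_le_mul hf hYx (norm_nonneg _) ((norm_nonneg _).trans hf)
    unfold gg
    calc |fderiv ℝ (ψ τ) x (Y x) - ψ τ x| ≤ |fderiv ℝ (ψ τ) x (Y x)| + |ψ τ x| := abs_sub _ _
      _ ≤ 2 * C * K + C := by linarith

end Pool.Agent.YUT
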