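import Pool.Agent.YUT.W1a
import Pool.Agent.YUT.M1b

open MeasureTheory Set Filter Topology
open scoped ContDiff

namespace Pool.Agent.YUT

open Pool.Agent.YUD

variable {M : Set ℂ} {w₀ : ℂ → ℝ} {ψ : ℝ → ℂ → ℝ} {Φ : ℝ → ℂ → ℂ}

theorem W1b_integrable (hM : IsOpen M) (hb : Bornology.IsBounded M) {Y : ℂ → ℂ} (hY : Continuous Y)
    (h : Flow M w₀ ψ Φ) (m t : ℝ) :
    Integrable (fun p : ℂ × ℝ => (w₀ p.1 - m) * gg Y (ψ p.2) (Φ p.2 p.1))
      ((volume.restrict M).prod (volume.restrict (Ioc 0 t))) := by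
  obtain ⟨hc, hB⟩ := gg_flow hM hb hY h
  obtain ⟨B, hB⟩ := hB t
  obtain ⟨hw, B₀, hB₀, hwB⟩ := h.w0_bdd hM
  rw [Measure.prod_restrict]
  have hmeas : MeasurableSet (M ×ˢ Ioc (0 : ℝ) t) := hM.measurableSet.prod measurableSet_Ioc
  have hcont : ContinuousOn (fun p : ℂ × ℝ => (w₀ p.1 - m) * gg Y (ψ p.2) (Φ p.2 p.1))
      (M ×ˢ Ioc (0 : ℝ) t) := by
    have h1 : ContinuousOn (fun p : ℂ × ℝ => w₀ p.1 - m) (M ×ˢ Ioc (0 : ℝ) t) :=
      (hw.comp continuousOn_fst (fun p hp => hp.1)).sub continuousOn_const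
    have h2 : ContinuousOn (fun p : ℂ × ℝ => gg Y (ψ p.2) (Φ p.2 p.1)) (M ×ˢ Ioc (0 : ℝ) t) := by
      have := hc.comp (f := fun p : ℂ × ℝ => (p.2, p.1)) (s := M ×ˢ Ioc (0 : ℝ) t)
        (continuousOn_snd.prodMk continuousOn_fst) (fun p hp => ⟨hp.2.1.le, hp.1⟩)
      exact this
    exact h1.mul h2
  have hfin : (volume.prod volume) (M ×ˢ Ioc (0 : ℝ) t) < ⊤ := by
    rw [Measure.prod_prod]
    exact ENNReal.mul_lt_top hb.measure_lt_top measure_Ioc_lt_top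
  have : IsFiniteMeasure ((volume.prod volume).restrict (M ×ˢ Ioc (0 : ℝ) t)) :=
    ⟨by rw [Measure.restrict_apply_univ]; exact hfin⟩
  refine Integrable.mono' (g := fun _ => (B₀ + |m|) * B) (integrable_const _)
    (hcont.aestronglyMeasurable hmeas) ?_
  refine (ae_restrict_iff' hmeas).mpr (ae_of_all _ fun p hp => ?_)
  have h1 : |w₀ p.1 - m| ≤ B₀ + |m| := (abs_sub _ _).trans (by linarith [hwB p.1 hp.1])
  have h2 : |gg Y (ψ p.2) (Φ p.2 p.1)| ≤ B :=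
    hB p.2 hp.2.1.le hp.2.2 _ ((h.bij p.2 hp.2.1.le).mapsTo hp.1)
  rw [Real.norm_eq_abs, abs_mul]
  exact mul_le_mul h1 h2 (abs_nonneg _) ((abs_nonneg _).trans h1)

theorem W1b_slice (hM : IsOpen M) (h : Flow M w₀ ψ Φ) (Y : ℂ → ℂ) (m : ℝ) {τ : ℝ} (hτ : 0 ≤ τ) :
    ∫ x in M, (w₀ x - m) * gg Y (ψ τ) (Φ τ x) = ∫ x in M, (lap (ψ τ) x - m) * gg Y (ψ τ) x := by
  rw [← h.integral_comp hM hτ (fun X => (lap (ψ τ) X - m) * gg Y (ψ τ) X)]
  refine setIntegral_congr_fun hM.measurableSet fun x hx => ?_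
  simp only [h.vort τ hτ x hx]

/-- [YUT-W1b] the weighted action: Fubini on `[0,t] × M` (bounded continuous integrand, finite
measure), then for each `τ`: `∫_M (w₀ x - m) gg(ψ_τ)(Φ_τ x) dx = ∫_M (Δψ_τ - m) gg(ψ_τ) dX`
(`Flow.integral_comp` with `k X = (lap (ψ τ) X - m) * gg Y (ψ τ) X` and `h.vort`). -/
theorem weight (hM : IsOpen M) (hb : Bornology.IsBounded M) {Y : ℂ → ℂ} (hY : Continuous Y)
    (h : Flow M w₀ ψ Φ) (m : ℝ) {t : ℝ} (ht : 0 ≤ t) :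
    ∫ x in M, (w₀ x - m) * act Y ψ Φ t x =
      ∫ τ in (0 : ℝ)..t, ∫ x in M, (lap (ψ τ) x - m) * gg Y (ψ τ) x := by
  have h1 : ∫ x in M, (w₀ x - m) * act Y ψ Φ t x =
      ∫ x in M, ∫ τ in Ioc (0 : ℝ) t, (w₀ x - m) * gg Y (ψ τ) (Φ τ x) := by
    refine integral_congr_ae (ae_of_all _ fun x => ?_)
    simp only [act]
    rw [intervalIntegral.integral_of_le ht, integral_const_mul]
  rw [h1, integral_integral_swap (W1b_integrable hM hb hY h m t),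
    intervalIntegral.integral_of_le ht]
  refine setIntegral_congr_fun measurableSet_Ioc fun τ hτ => ?_
  exact W1b_slice hM h Y m hτ.1.le

end Pool.Agent.YUT
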