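import Pool.Agent.YUT.M1a
import Pool.Agent.YUT.X0

open MeasureTheory Set Filter Topology
open scoped ContDiff

namespace Pool.Agent.YUT

open Pool.Agent.YUD

variable {M : Set ℂ} {w₀ : ℂ → ℝ} {ψ : ℝ → ℂ → ℝ} {Φ : ℝ → ℂ → ℂ}

theorem X1a_perp {Z : Type*} [TopologicalSpace Z] {S : Set Z} {F : Z → ℂ → ℝ} {z : Z → ℂ}
    (hG : ContinuousOn (fun p => fderiv ℝ (F p) (z p)) S) :
    ContinuousOn (fun p => perp (F p) (z p)) S := by
  have e : (fun p => perp (F p) (z p)) = fun p =>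
      ((-(fderiv ℝ (F p) (z p) Complex.I) : ℝ) : ℂ) +
        ((fderiv ℝ (F p) (z p) 1 : ℝ) : ℂ) * Complex.I := by
    funext p
    apply Complex.ext <;> simp [perp, dx, dy]
  rw [e]
  exact (Complex.continuous_ofReal.comp_continuousOn
    (hG.clm_apply continuousOn_const).neg).add
    ((Complex.continuous_ofReal.comp_continuousOn
      (hG.clm_apply continuousOn_const)).mul continuousOn_const)

theorem X1a_gg {Y : ℂ → ℂ} (hYc : Continuous Y) (h : Flow M w₀ ψ Φ) {x : ℂ} (hx : x ∈ M) :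
    ContinuousOn (fun τ => gg Y (ψ τ) (Φ τ x)) (Ici 0) := by
  have hcx : ContinuousOn (fun s => Φ s x) (Ici 0) := fun s hs =>
    (h.ode s hs x hx).continuousWithinAt
  have hmem : ∀ s, 0 ≤ s → Φ s x ∈ M := fun s hs => (h.bij s hs).mapsTo hx
  have h1 := h.cont.comp (continuousOn_id.prodMk hcx) (fun s hs => ⟨hs, hmem s hs⟩)
  exact (h1.snd.clm_apply (hYc.comp_continuousOn hcx)).sub h1.fst

/-- [YUT-X1a] EXACTNESS of the flow along a `C¹` path `γ` in `M`. Proof: `stokes` with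
`c τ s = Φ τ (γ s)`, `a τ s = perp (ψ τ) (c τ s)`, `b τ s = fderiv ℝ (Φ τ) (γ s) (γ' s)` (joint continuity
from `Flow.cont_Phi`, `Flow.cont_fderiv`, `h.cont`; `perp` is a continuous function of `fderiv`).
`Φ 0 = id` on the open `M`, so `c 0 s = γ s`, `b 0 s = γ' s`. Moreover
`wed (a τ s) (b τ s) = - fderiv ℝ (ψ τ) (c τ s) (b τ s)` (`wed_perp`), minus the derivative of
`s ↦ ψ τ (c τ s)`, so its integral is `-(ψ τ (c τ 1) - ψ τ (c τ 0))`, and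
`wed (Y (c τ 1)) (a τ 1) = fderiv ℝ (ψ τ) (c τ 1) (Y (c τ 1))` (`wed_perp_right`). So the right side of
`stokes` is `∫_0^t (gg Y (ψ τ) (Φ τ (γ 1)) - gg Y (ψ τ) (Φ τ (γ 0))) dτ` (both are interval integrable,
being continuous in `τ`). -/
theorem action_diff (hM : IsOpen M) {Y : ℂ → ℂ} (hYc : Continuous Y) (hY : ContDiffOn ℝ 1 Y M)
    (hdiv : ∀ x ∈ M, (fderiv ℝ Y x 1).re + (fderiv ℝ Y x Complex.I).im = 1)
    (h : Flow M w₀ ψ Φ) {t : ℝ} (ht : 0 ≤ t) {γ γ' : ℝ → ℂ}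
    (hγM : ∀ s ∈ Icc (0 : ℝ) 1, γ s ∈ M)
    (hγ : ∀ s ∈ Icc (0 : ℝ) 1, HasDerivWithinAt γ (γ' s) (Icc 0 1) s)
    (hγc : ContinuousOn γ' (Icc 0 1)) :
    act Y ψ Φ t (γ 1) - act Y ψ Φ t (γ 0) =
      (∫ s in (0 : ℝ)..1, wed (Y (Φ t (γ s))) (fderiv ℝ (Φ t) (γ s) (γ' s))) -
        ∫ s in (0 : ℝ)..1, wed (Y (γ s)) (γ' s) := by
  have h01 : (0 : ℝ) ∈ Icc (0 : ℝ) 1 := ⟨le_rfl, zero_le_one⟩
  have h11 : (1 : ℝ) ∈ Icc (0 : ℝ) 1 := ⟨zero_le_one, le_rfl⟩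
  have hγcont : ContinuousOn γ (Icc 0 1) := fun s hs => (hγ s hs).continuousWithinAt
  have hpc : ContinuousOn (fun p : ℝ × ℝ => (p.1, γ p.2)) (Icc 0 t ×ˢ Icc 0 1) :=
    continuousOn_fst.prodMk (hγcont.comp continuousOn_snd fun p hp => hp.2)
  have hpm : MapsTo (fun p : ℝ × ℝ => (p.1, γ p.2)) (Icc 0 t ×ˢ Icc 0 1) (Ici 0 ×ˢ M) :=
    fun p hp => ⟨hp.1.1, hγM p.2 hp.2⟩
  have hcM : ∀ τ ∈ Icc 0 t, ∀ s ∈ Icc (0 : ℝ) 1, Φ τ (γ s) ∈ M := fun τ hτ s hs =>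
    (h.bij τ hτ.1).mapsTo (hγM s hs)
  have hc : ContinuousOn (fun p : ℝ × ℝ => Φ p.1 (γ p.2)) (Icc 0 t ×ˢ Icc 0 1) :=
    h.cont_Phi.comp hpc hpm
  have hG : ContinuousOn (fun p : ℝ × ℝ => fderiv ℝ (ψ p.1) (Φ p.1 (γ p.2)))
      (Icc 0 t ×ˢ Icc 0 1) := by
    have h1 := h.cont.comp (continuousOn_fst.prodMk hc)
      (fun p hp => ⟨hp.1.1, hcM p.1 hp.1 p.2 hp.2⟩)
    exact h1.snd
  have ha : ContinuousOn (fun p : ℝ × ℝ => perp (ψ p.1) (Φ p.1 (γ p.2)))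
      (Icc 0 t ×ˢ Icc 0 1) := X1a_perp hG
  have hb : ContinuousOn (fun p : ℝ × ℝ => fderiv ℝ (Φ p.1) (γ p.2) (γ' p.2))
      (Icc 0 t ×ˢ Icc 0 1) :=
    ((h.cont_fderiv hM).comp hpc hpm).clm_apply (hγc.comp continuousOn_snd fun p hp => hp.2)
  have hcb : ∀ τ ∈ Icc 0 t, ∀ s ∈ Icc (0 : ℝ) 1,
      HasDerivWithinAt (fun σ => Φ τ (γ σ)) (fderiv ℝ (Φ τ) (γ s) (γ' s)) (Icc 0 1) s := by
    intro τ hτ s hs
    have h1 : HasFDerivAt (Φ τ) (fderiv ℝ (Φ τ) (γ s)) (γ s) :=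
      (((h.contDiffOn hM hτ.1).differentiableOn (by norm_num)).differentiableAt
        (hM.mem_nhds (hγM s hs))).hasFDerivAt
    exact h1.comp_hasDerivWithinAt s (hγ s hs)
  have hst := stokes hM hY hdiv ht (c := fun τ s => Φ τ (γ s))
    (a := fun τ s => perp (ψ τ) (Φ τ (γ s))) (b := fun τ s => fderiv ℝ (Φ τ) (γ s) (γ' s))
    hcM hc ha hb
    (fun τ hτ s hs => (h.ode τ hτ.1 (γ s) (hγM s hs)).mono fun u hu => hu.1) hcb
  have e0 : (∫ s in (0 : ℝ)..1, wed (Y (Φ 0 (γ s))) (fderiv ℝ (Φ 0) (γ s) (γ' s))) =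
      ∫ s in (0 : ℝ)..1, wed (Y (γ s)) (γ' s) := by
    refine intervalIntegral.integral_congr fun s hs => ?_
    rw [uIcc_of_le zero_le_one] at hs
    have hs' := hγM s hs
    have h1 : fderiv ℝ (Φ 0) (γ s) = ContinuousLinearMap.id ℝ ℂ := by
      have h2 : Φ 0 =ᶠ[𝓝 (γ s)] id :=
        Filter.eventuallyEq_of_mem (hM.mem_nhds hs') fun x hx => h.start x hx
      rw [h2.fderiv_eq, fderiv_id]
    simp only [h1, h.start _ hs', ContinuousLinearMap.coe_id', id]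
  have e1 : (∫ τ in (0 : ℝ)..t, ((∫ s in (0 : ℝ)..1, wed (perp (ψ τ) (Φ τ (γ s)))
      (fderiv ℝ (Φ τ) (γ s) (γ' s))) + wed (Y (Φ τ (γ 1))) (perp (ψ τ) (Φ τ (γ 1))) -
        wed (Y (Φ τ (γ 0))) (perp (ψ τ) (Φ τ (γ 0))))) =
      ∫ τ in (0 : ℝ)..t, (gg Y (ψ τ) (Φ τ (γ 1)) - gg Y (ψ τ) (Φ τ (γ 0))) := by
    refine intervalIntegral.integral_congr fun τ hτ => ?_
    rw [uIcc_of_le ht] at hτ
    obtain ⟨C, hC⟩ := h.stream τ
    have hCτ := hC τ hτ.1 le_rfl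
    have h1 : (∫ s in (0 : ℝ)..1, wed (perp (ψ τ) (Φ τ (γ s)))
        (fderiv ℝ (Φ τ) (γ s) (γ' s))) = -(ψ τ (Φ τ (γ 1)) - ψ τ (Φ τ (γ 0))) := by
      have hder : ∀ s ∈ Icc (0 : ℝ) 1, HasDerivWithinAt (fun s => ψ τ (Φ τ (γ s)))
          (fderiv ℝ (ψ τ) (Φ τ (γ s)) (fderiv ℝ (Φ τ) (γ s) (γ' s))) (Icc 0 1) s := by
        intro s hs
        have h2 : HasFDerivAt (ψ τ) (fderiv ℝ (ψ τ) (Φ τ (γ s))) (Φ τ (γ s)) :=
          (hCτ.diffOn.differentiableAt (hM.mem_nhds (hcM τ hτ s hs))).hasFDerivAt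
        exact h2.comp_hasDerivWithinAt s (hcb τ hτ s hs)
      have hci : ContinuousOn (fun s : ℝ => (τ, s)) (Icc (0 : ℝ) 1) :=
        continuousOn_const.prodMk continuousOn_id
      have hmi : MapsTo (fun s : ℝ => (τ, s)) (Icc (0 : ℝ) 1) (Icc 0 t ×ˢ Icc 0 1) :=
        fun s hs => ⟨hτ, hs⟩
      have hco : ContinuousOn (fun s => fderiv ℝ (ψ τ) (Φ τ (γ s))
          (fderiv ℝ (Φ τ) (γ s) (γ' s))) (Icc 0 1) :=
        (hG.comp hci hmi).clm_apply (hb.comp hci hmi)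
      have h3 := intervalIntegral.integral_eq_sub_of_hasDeriv_right_of_le zero_le_one
        (fun s hs => (hder s hs).continuousWithinAt)
        (fun s hs => ((hder s ⟨hs.1.le, hs.2.le⟩).hasDerivAt
          (Icc_mem_nhds hs.1 hs.2)).hasDerivWithinAt)
        (hco.intervalIntegrable_of_Icc zero_le_one)
      rw [← h3, ← intervalIntegral.integral_neg]
      refine intervalIntegral.integral_congr fun s _ => ?_
      exact wed_perp _ _ _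
    simp only [h1, wed_perp_right, gg]
    ring
  rw [e0] at hst
  rw [hst, e1, intervalIntegral.integral_sub]
  · rfl
  · exact ((X1a_gg hYc h (hγM 1 h11)).mono fun τ hτ => hτ.1).intervalIntegrable_of_Icc ht
  · exact ((X1a_gg hYc h (hγM 0 h01)).mono fun τ hτ => hτ.1).intervalIntegrable_of_Icc ht

end Pool.Agent.YUT
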